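import Mathlib

/-!
# LG-52: coinduction of a faithful representation from a subgroup of finite index

`coind_GL`: the code of the section Coinduction is by helper45 (copied from `TubularLinear.lean`).
-/

namespace Pool.Agent.Helper53.LG

namespace CoindAux

section Coinduction

variable {k : Type} [Field k] {G : Type} [Group G] (H : Subgroup G)
variable {W : Type} [AddCommGroup W] [Module k W] (ρ : H →* (Module.End k W)ˣ)

/-- The coinduced module. -/
def coind : Submodule k (G → W) where
  carrier := {f | ∀ (h : H) (x : G), f ((h : G) * x) = (ρ h).1 (f x)}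
  add_mem' := by
    intro f f' hf hf' h x
    simp only [Pi.add_apply, map_add]
    rw [hf h x, hf' h x]
  zero_mem' := by
    intro h x
    simp
  smul_mem' := by
    intro c f hf h x
    simp only [Pi.smul_apply, map_smul]
    rw [hf h x]

/-- Right translation on the coinduced module. -/
def trans (g : G) : coind H ρ →ₗ[k] coind H ρ where
  toFun f := ⟨fun x => f.1 (x * g), fun h x => by
    change f.1 ((h : G) * x * g) = (ρ h).1 (f.1 (x * g))
    rw [mul_assoc]; exact f.2 h (x * g)⟩
  map_add' _ _ := rfl
  map_smul' _ _ := rfl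

theorem trans_mul (g g' : G) : trans H ρ (g * g') = trans H ρ g * trans H ρ g' := by
  refine LinearMap.ext fun f => ?_
  apply Subtype.ext
  funext x
  change f.1 (x * (g * g')) = f.1 (x * g * g')
  rw [mul_assoc]

theorem trans_one : trans H ρ (1 : G) = 1 := by
  refine LinearMap.ext fun f => ?_
  apply Subtype.ext
  funext x
  change f.1 (x * 1) = f.1 x
  rw [mul_one]

/-- The coinduced representation. -/
def coindRep : G →* (Module.End k (coind H ρ))ˣ where
  toFun g := ⟨trans H ρ g, trans H ρ g⁻¹, by rw [← trans_mul, mul_inv_cancel, trans_one],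
    by rw [← trans_mul, inv_mul_cancel, trans_one]⟩
  map_one' := Units.ext (trans_one H ρ)
  map_mul' g g' := Units.ext (trans_mul H ρ g g')

theorem coind_finite [H.FiniteIndex] [Module.Finite k W] : Module.Finite k (coind H ρ) := by
  classical
  -- representatives of the right cosets
  let s : G ⧸ H → G := fun c => (c.out)⁻¹
  let r : coind H ρ →ₗ[k] ((G ⧸ H) → W) :=
    { toFun := fun f c => f.1 (s c)
      map_add' := fun _ _ => rfl
      map_smul' := fun _ _ => rfl }
  have hr : Function.Injective r := by
    rw [injective_iff_map_eq_zero]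
    intro f hf
    apply Subtype.ext
    funext x
    have h1 : ((QuotientGroup.mk x⁻¹ : G ⧸ H).out)⁻¹ * x⁻¹ ∈ H := by
      rw [← QuotientGroup.eq]
      exact Quotient.out_eq _
    have h2 : f.1 (s (QuotientGroup.mk x⁻¹)) = 0 := congrFun hf _
    set y := s (QuotientGroup.mk x⁻¹ : G ⧸ H) with hy
    have h3 : y * x⁻¹ ∈ H := h1
    have h4 : x = ((⟨y * x⁻¹, h3⟩ : H)⁻¹ : H) * y := by
      simp
    have h5 := f.2 (⟨y * x⁻¹, h3⟩ : H)⁻¹ y
    rw [← h4] at h5
    rw [h5, h2, map_zero]
    rfl
  have : Finite (G ⧸ H) := Subgroup.finite_quotient_of_finiteIndex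
  exact Module.Finite.of_injective r hr

theorem coindRep_injective [Nontrivial W] (hρ : Function.Injective ρ) :
    Function.Injective (coindRep H ρ) := by
  classical
  rw [injective_iff_map_eq_one]
  intro g hg
  have h1 : ∀ f ∈ coind H ρ, f g = f 1 := by
    intro f hf
    have h2 := congrArg (fun u : (Module.End k (coind H ρ))ˣ => (u.1 ⟨f, hf⟩).1 1) hg
    change f (1 * g) = f 1 at h2
    rw [one_mul] at h2
    exact h2
  let fv : W → G → W := fun v x => if h : x ∈ H then (ρ ⟨x, h⟩).1 v else 0
  have hfv : ∀ v, fv v ∈ coind H ρ := by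
    intro v h x
    simp only [fv]
    by_cases hx : x ∈ H
    · have hhx : (h : G) * x ∈ H := H.mul_mem h.2 hx
      rw [dif_pos hx, dif_pos hhx]
      have e : (⟨(h : G) * x, hhx⟩ : H) = h * ⟨x, hx⟩ := rfl
      rw [e, map_mul]
      rfl
    · have hhx : (h : G) * x ∉ H := fun h' => hx ((H.mul_mem_cancel_left h.2).1 h')
      rw [dif_neg hx, dif_neg hhx, map_zero]
  have h1' : ∀ v, fv v 1 = v := by
    intro v
    simp only [fv]
    rw [dif_pos H.one_mem]
    have e : (⟨1, H.one_mem⟩ : H) = 1 := rfl
    rw [e, map_one]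
    rfl
  have hgH : g ∈ H := by
    by_contra hg'
    obtain ⟨v, hv⟩ := exists_ne (0 : W)
    have h2 := h1 _ (hfv v)
    rw [h1' v] at h2
    simp only [fv] at h2
    rw [dif_neg hg'] at h2
    exact hv h2.symm
  have h3 : ρ ⟨g, hgH⟩ = 1 := by
    apply Units.ext
    refine LinearMap.ext fun v => ?_
    have h2 := h1 _ (hfv v)
    rw [h1' v] at h2
    simp only [fv] at h2
    rw [dif_pos hgH] at h2
    exact h2
  have h4 := hρ (h3.trans (map_one ρ).symm)
  exact congrArg Subtype.val h4

end Coinduction

end CoindAux

open CoindAux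

theorem coind_GL {K : Type} [Field K] {G : Type} [Group G] (H : Subgroup G) [H.FiniteIndex] {N : ℕ}
    (f : H →* Matrix.GeneralLinearGroup (Fin N) K) (hf : Function.Injective f) :
    ∃ (N' : ℕ) (f' : G →* Matrix.GeneralLinearGroup (Fin N') K), Function.Injective f' := by
  classical
  -- a faithful action on a nonzero space
  have key : ∃ (M : ℕ) (f1 : H →* Matrix.GeneralLinearGroup (Fin (M + 1)) K), Function.Injective f1 := by
    cases N with
    | zero =>
      refine ⟨0, 1, fun a b _ => hf ?_⟩
      apply Units.ext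
      exact Subsingleton.elim _ _
    | succ M => exact ⟨M, f, hf⟩
  obtain ⟨M, f1, hf1⟩ := key
  let ρ : H →* (Module.End K (Fin (M + 1) → K))ˣ :=
    (Units.map (Matrix.toLinAlgEquiv' (R := K) (n := Fin (M + 1))).toAlgHom.toRingHom.toMonoidHom).comp f1
  have hρ : Function.Injective ρ := by
    intro a b hab
    apply hf1
    apply Units.ext
    have := congrArg (fun z : (Module.End K (Fin (M + 1) → K))ˣ => z.1) hab
    exact (Matrix.toLinAlgEquiv' (R := K) (n := Fin (M + 1))).injective this
  have : Module.Finite K (coind H ρ) := coind_finite H ρ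
  have hc := coindRep_injective H ρ hρ
  let b := Module.finBasis K (coind H ρ)
  let g : (Module.End K (coind H ρ))ˣ →*
      Matrix.GeneralLinearGroup (Fin (Module.finrank K (coind H ρ))) K :=
    Units.map (LinearMap.toMatrixAlgEquiv b).toAlgHom.toRingHom.toMonoidHom
  have hg : Function.Injective g := by
    intro u v huv
    apply Units.ext
    have := congrArg (fun z : Matrix.GeneralLinearGroup _ K => z.1) huv
    exact (LinearMap.toMatrixAlgEquiv b).injective this
  exact ⟨_, g.comp (coindRep H ρ), hg.comp hc⟩

end Pool.Agent.Helper53.LG
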