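import Pool.Agent.Helper53.LG.EmbL

/-!
# LG-47: adding a stable letter with an existing root

`ext_root`: `D'`: `X' = X`, `B' = B ⊕ Unit`, `R' = R`, `root' = Sum.elim root (fun _ => ρ)`, `rk' = Sum.elim rk (fun _ => 1 + sup rk)` (`sup` over the finite
type `B`), words on `X ⊕ (B ⊕ Unit)` indexed by `(B ⊕ Unit) ⊕ R`: `n' (inl b') = 1`, `w' (inl b') k = (inr b', true)`, and for `inr ρ'` the old word
transported by `j = Sum.map id Sum.inl`. `low`: for the new letter: the letters `inr (inl b'')` of the word `ρ` have rank `≤ sup rk`; the letter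
`inr (inr ())` does not occur in the transported words. `sepi`: two old words: injectivity of `j` (for `inl (inl b)` the new word is
the transported one) and `D.sepi`; if one of them is the new word `inl (inr ())` then the letter `inr (inr ())` occurs in both, so both are
this word, with the same direction (signs), period `1`. `m' = Sum.elim m (fun _ => k)`: `Good` by `hk`, `hnew`. `Emb D D'`: `jX = id`, `jB = inl`,
`jR = id`. `e = freeGroupCongr` of `(X ⊕ B) ⊕ Unit ≃ X ⊕ (B ⊕ Unit)` (`Equiv.sumAssoc`), `e (map inl w) = map j w`, `emb_phi`; `e b = of (inr (inr ()))`,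
`phi m' (e b) = e b * (D'.rr (inr ())) ^ k` and `D'.rr (inr ()) = D'.psi (D'.cw (inr ρ)) = map j (D.psi (D.cw (inr ρ)))` (`emb_psi`).
-/

namespace Pool.Agent.Helper53.LG

section transport

variable {Y Y' : Type} (f : Y → Y')

/-- transport of letters -/
private def tr (l : Lt Y) : Lt Y' := (f l.1, l.2)

private lemma tr_bar (l : Lt Y) : tr f (bar l) = bar (tr f l) := rfl

private lemma tr_inj (hf : Function.Injective f) {l l' : Lt Y} (h : tr f l = tr f l') : l = l' := by
  have h1 := congrArg Prod.fst h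
  have h2 := congrArg Prod.snd h
  exact Prod.ext (hf h1) h2

private lemma lv_tr (l : Lt Y) : lv FreeGroup.of (tr f l) = FreeGroup.map f (lv FreeGroup.of l) := by
  rcases l with ⟨y, _ | _⟩ <;> simp [lv, tr]

private lemma seg_tr {I I' : Type} (S : WSys Y I) (S' : WSys Y' I') (i : I × Bool) (i' : I' × Bool)
    (h : ∀ k, S'.wd i' k = tr f (S.wd i k)) (κ : ℤ) (m : ℕ) :
    S'.seg FreeGroup.of i' κ m = FreeGroup.map f (S.seg FreeGroup.of i κ m) := by
  induction m with
  | zero => simp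
  | succ m ih => rw [seg_succ, seg_succ, ih, map_mul, h, lv_tr]

end transport

section

variable (D : NDW) (ρ : D.R)

/-- the embedding of the letters -/
private def jj : D.X ⊕ D.B → D.X ⊕ (D.B ⊕ Unit) := Sum.map id Sum.inl

private lemma jj_inj : Function.Injective (jj D) :=
  Sum.map_injective.2 ⟨Function.injective_id, Sum.inl_injective⟩

/-- the extended word system -/
private def exS : WSys (D.X ⊕ (D.B ⊕ Unit)) ((D.B ⊕ Unit) ⊕ D.R) where
  n := Sum.elim (fun _ => 1) (fun ρ' => D.S.n (Sum.inr ρ'))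
  npos := by
    rintro (b | ρ')
    · exact Nat.one_pos
    · exact D.S.npos _
  w := Sum.elim (fun b _ => (Sum.inr b, true)) (fun ρ' k => tr (jj D) (D.S.w (Sum.inr ρ') k))
  per := by
    rintro (b | ρ') k
    · rfl
    · change tr (jj D) _ = tr (jj D) _
      rw [← D.S.per (Sum.inr ρ') k]
      rfl
  red := by
    rintro (b | ρ') k
    · change (Sum.inr b, true) ≠ bar (Sum.inr b, true)
      exact (bar_ne _).symm
    · change tr (jj D) _ ≠ bar (tr (jj D) _)
      rw [← tr_bar]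
      intro h
      exact D.S.red _ k (tr_inj (jj D) (jj_inj D) h)

private lemma exS_w (i : D.B ⊕ D.R) (k : ℤ) :
    (exS D).w (Sum.map Sum.inl id i) k = tr (jj D) (D.S.w i k) := by
  rcases i with b | ρ'
  · rw [D.wB]; rfl
  · rfl

private lemma exS_n (i : D.B ⊕ D.R) : (exS D).n (Sum.map Sum.inl id i) = D.S.n i := by
  rcases i with b | ρ'
  · rw [D.nB]; rfl
  · rfl

private lemma exS_wd (i : D.B ⊕ D.R) (d : Bool) (k : ℤ) :
    (exS D).wd (Sum.map Sum.inl id i, d) k = tr (jj D) (D.S.wd (i, d) k) := by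
  rcases d with _ | _
  · rw [wd_false, wd_false, exS_w, tr_bar]
  · rw [wd_true, wd_true, exS_w]

private lemma exS_new (d : Bool) (k : ℤ) :
    (exS D).wd (Sum.inl (Sum.inr ()), d) k = (Sum.inr (Sum.inr ()), d) := by
  rcases d with _ | _
  · rw [wd_false]; rfl
  · rw [wd_true]; rfl

private lemma idx_cases (i : (D.B ⊕ Unit) ⊕ D.R) :
    (∃ i0 : D.B ⊕ D.R, i = Sum.map Sum.inl id i0) ∨ i = Sum.inl (Sum.inr ()) := by
  rcases i with (b | ⟨⟩) | ρ'
  · exact Or.inl ⟨Sum.inl b, rfl⟩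
  · exact Or.inr rfl
  · exact Or.inl ⟨Sum.inr ρ', rfl⟩

private lemma old_ne_new (l : Lt (D.X ⊕ D.B)) (d : Bool) : tr (jj D) l ≠ (Sum.inr (Sum.inr ()), d) := by
  intro h
  have h1 : jj D l.1 = Sum.inr (Sum.inr ()) := congrArg Prod.fst h
  rcases h0 : l.1 with x | b
  · rw [h0] at h1; simp [jj] at h1
  · rw [h0] at h1; simp [jj] at h1

private lemma exS_sepi : (exS D).Sepi := by
  rintro ⟨i, d⟩ ⟨j, d'⟩ a b h
  rcases idx_cases D i with ⟨i0, rfl⟩ | rfl
  · rcases idx_cases D j with ⟨j0, rfl⟩ | rfl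
    · have h1 : ∀ s, D.S.wd (i0, d) (a + s) = D.S.wd (j0, d') (b + s) := by
        intro s
        have := h s
        rw [exS_wd, exS_wd] at this
        exact tr_inj _ (jj_inj D) this
      obtain ⟨h2, h3⟩ := D.sepi _ _ _ _ h1
      obtain ⟨rfl, rfl⟩ := Prod.mk.inj h2
      refine ⟨rfl, ?_⟩
      rw [exS_n]
      exact h3
    · have := h 0
      rw [exS_wd, exS_new] at this
      exact absurd this (old_ne_new D _ _)
  · rcases idx_cases D j with ⟨j0, rfl⟩ | rfl
    · have := h 0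
      rw [exS_wd, exS_new] at this
      exact absurd this.symm (old_ne_new D _ _)
    · have := h 0
      rw [exS_new, exS_new] at this
      have h1 : d = d' := congrArg Prod.snd this
      subst h1
      exact ⟨rfl, by change ((1 : ℕ) : ℤ) ∣ _; simp⟩

/-- the extended data -/
private def exD : NDW where
  X := D.X
  B := D.B ⊕ Unit
  R := D.R
  rk := Sum.elim D.rk (fun _ => 1 + ∑ b, D.rk b)
  root := Sum.elim D.root (fun _ => ρ)
  S := exS D
  nB := fun _ => rfl
  wB := fun _ _ => rfl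
  low := by
    have key : ∀ (ρ' : D.R) (b' : D.B ⊕ Unit) (k : ℤ), ((exS D).w (Sum.inr ρ') k).1 = Sum.inr b' →
        ∃ b0, b' = Sum.inl b0 ∧ (D.S.w (Sum.inr ρ') k).1 = Sum.inr b0 := by
      intro ρ' b' k h
      have h1 : jj D (D.S.w (Sum.inr ρ') k).1 = Sum.inr b' := h
      rcases h0 : (D.S.w (Sum.inr ρ') k).1 with x | b0
      · rw [h0] at h1; simp [jj] at h1
      · rw [h0] at h1
        simp only [jj, Sum.map_inr, Sum.inr.injEq] at h1
        exact ⟨b0, h1.symm, rfl⟩
    rintro (b | ⟨⟩) b' k h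
    · obtain ⟨b0, rfl, h1⟩ := key _ _ _ h
      exact D.low b b0 k h1
    · obtain ⟨b0, rfl, h1⟩ := key _ _ _ h
      have h2 : D.rk b0 ≤ ∑ b, D.rk b :=
        Finset.single_le_sum (f := fun b => D.rk b) (fun b _ => Nat.zero_le _) (Finset.mem_univ b0)
      change D.rk b0 < 1 + ∑ b, D.rk b
      omega
  sepi := exS_sepi D

private lemma exD_cw (ρ' : D.R) : (exD D ρ).cw (Sum.inr ρ') = FreeGroup.map (jj D) (D.cw (Sum.inr ρ')) :=
  seg_tr (jj D) D.S (exS D) (Sum.inr ρ', true) (Sum.inr ρ', true)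
    (fun k => exS_wd D (Sum.inr ρ') true k) 0 (D.S.n (Sum.inr ρ'))

/-- the map from the old data to the new data -/
private def exE : Emb D (exD D ρ) where
  jX := id
  jB := Sum.inl
  jR := id
  root := fun _ => rfl
  cw := fun ρ' => exD_cw D ρ ρ'

end

theorem ext_root (D : NDW) (m : D.B → ℤ) (hg : Good D m) (ρ : D.R) (k : ℤ) (hk : k ≠ 0)
    (hnew : ∀ b, D.root b = ρ → m b ≠ k) : ExtP D m (D.psi (D.cw (Sum.inr ρ)) ^ k) := by
  let m' : (exD D ρ).B → ℤ := Sum.elim m (fun _ => k)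
  have hm : ∀ b, m' ((exE D ρ).jB b) = m b := fun _ => rfl
  let e : FreeGroup ((D.X ⊕ D.B) ⊕ Unit) ≃* (exD D ρ).F :=
    FreeGroup.freeGroupCongr (Equiv.sumAssoc D.X D.B Unit)
  have he : ∀ w : D.F, e (FreeGroup.map Sum.inl w) = FreeGroup.map (Sum.map (exE D ρ).jX (exE D ρ).jB) w := by
    intro w
    have h : e.toMonoidHom.comp (FreeGroup.map Sum.inl) =
        FreeGroup.map (Sum.map (exE D ρ).jX (exE D ρ).jB) := by
      apply FreeGroup.ext_hom
      rintro (x | b)
      · rw [MonoidHom.comp_apply, FreeGroup.map.of, FreeGroup.map.of]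
        rfl
      · rw [MonoidHom.comp_apply, FreeGroup.map.of, FreeGroup.map.of]
        rfl
    exact DFunLike.congr_fun h w
  let bn : (exD D ρ).B := Sum.inr ()
  have heb : e (FreeGroup.of (Sum.inr ())) = FreeGroup.of (Sum.inr bn) := rfl
  have hr : (exD D ρ).rr bn = FreeGroup.map (Sum.map (exE D ρ).jX (exE D ρ).jB) (D.psi (D.cw (Sum.inr ρ))) := by
    rw [← emb_psi (exE D ρ)]
    change (exD D ρ).psi ((exD D ρ).cw (Sum.inr ρ)) = _
    rw [exD_cw]
    rfl
  have hmb : m' bn = k := rfl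
  refine ⟨exD D ρ, m', ⟨?_, ?_⟩, e, ?_, ?_⟩
  · rintro (b | ⟨⟩)
    · exact hg.1 b
    · exact hk
  · rintro (b | ⟨⟩) (b' | ⟨⟩) h1 h2
    · exact congrArg Sum.inl (hg.2 b b' h1 h2)
    · exact absurd h2 (hnew b h1)
    · exact absurd h2.symm (hnew b' h1.symm)
    · rfl
  · intro w
    rw [he, he, emb_phi (exE D ρ) m m' hm]
  · rw [map_mul, he, heb, phi_inr (exD D ρ) m' bn, map_zpow, hr, hmb]

end Pool.Agent.Helper53.LG
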