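import Pool.Agent.Helper53.LG.AddB

/-!
# LG-48: adding a stable letter with a new root

`ext_new`: `D₁`: `X, B, rk` as in `D`, `R₁ = R ⊕ Unit`, `root₁ b = inl (root b)`, words: as in `D` for `inl b` and `inr (inl ρ)`, period `n` and
word `w` for `inr (inr ())`. `sepi`: two old words: `D.sepi`. New word against itself in the same direction: `hprim`
(for the direction `false`: `bar (w (-1 - (a + s))) = bar (w (-1 - (b + s)))`, so `w (t + (b - a)) = w t` for all `t`). New word against itself in
opposite directions: `w (a + s) = bar (w (-1 - b - s))` for all `s`; put `c = a - b - 1`, so `w t = bar (w (c - t))` for all `t`; if `c = 2 t` this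
contradicts `bar_ne`, if `c = 2 t + 1` then `w (t + 1) = bar (w t)` contradicts `hred`. New against old: `hnew` (if the new word is in
the direction `false` then apply `bar` and reverse: `w t = wd (rev j) (…)`, `wd_rev`).
`Emb D D₁` with `jX = id`, `jB = id`, `jR = inl` gives `D₁.psi = D.psi`, `D₁.phi m = D.phi m` (`FreeGroup.map` of `Sum.map id id` is the identity; the
types `D₁.F` and `D.F` are definitionally equal). `ext_root` for `D₁`, `ρ = inr ()`, `k`, (`D₁.root b = inl _ ≠ inr ()`) gives `ExtP D₁ m (…)`, and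
`D₁.cw (inr (inr ())) = fpw (fun s => w s) n` (`seg_eq_fpw`, `wd_true`, `0 + s = s`).
-/

namespace Pool.Agent.Helper53.LG

section

variable (D : NDW) (n : ℕ) (w : ℤ → Lt (D.X ⊕ D.B)) (hn : 0 < n)
    (hper : ∀ s, w (s + n) = w s) (hred : ∀ s, w (s + 1) ≠ bar (w s))

/-- the extended word system -/
private def rS : WSys (D.X ⊕ D.B) (D.B ⊕ (D.R ⊕ Unit)) where
  n := fun i => Sum.elim D.S.n (fun _ => n) ((Equiv.sumAssoc D.B D.R Unit).symm i)
  npos := by
    intro i
    rcases (Equiv.sumAssoc D.B D.R Unit).symm i with i0 | _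
    · exact D.S.npos i0
    · exact hn
  w := fun i => Sum.elim D.S.w (fun _ => w) ((Equiv.sumAssoc D.B D.R Unit).symm i)
  per := by
    intro i
    rcases (Equiv.sumAssoc D.B D.R Unit).symm i with i0 | _
    · exact D.S.per i0
    · exact hper
  red := by
    intro i
    rcases (Equiv.sumAssoc D.B D.R Unit).symm i with i0 | _
    · exact D.S.red i0
    · exact hred

/-- the old indices -/
private def oldI (i : D.B ⊕ D.R) : D.B ⊕ (D.R ⊕ Unit) := Equiv.sumAssoc D.B D.R Unit (Sum.inl i)

/-- the new index -/
private def newI : D.B ⊕ (D.R ⊕ Unit) := Equiv.sumAssoc D.B D.R Unit (Sum.inr ())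

private lemma idxr_cases (i : D.B ⊕ (D.R ⊕ Unit)) : (∃ i0, i = oldI D i0) ∨ i = newI D := by
  rcases h : (Equiv.sumAssoc D.B D.R Unit).symm i with i0 | ⟨⟩
  · left
    refine ⟨i0, ?_⟩
    unfold oldI
    rw [← h, Equiv.apply_symm_apply]
  · right
    unfold newI
    rw [← h, Equiv.apply_symm_apply]

private lemma rS_w_old (i : D.B ⊕ D.R) : (rS D n w hn hper hred).w (oldI D i) = D.S.w i := by
  rcases i with _ | _ <;> rfl

private lemma rS_n_old (i : D.B ⊕ D.R) : (rS D n w hn hper hred).n (oldI D i) = D.S.n i := by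
  rcases i with _ | _ <;> rfl

private lemma rS_w_new : (rS D n w hn hper hred).w (newI D) = w := rfl

private lemma rS_n_new : (rS D n w hn hper hred).n (newI D) = n := rfl

private lemma rS_wd_old (i : D.B ⊕ D.R) (d : Bool) (k : ℤ) :
    (rS D n w hn hper hred).wd (oldI D i, d) k = D.S.wd (i, d) k := by
  rcases d with _ | _
  · rw [wd_false, wd_false, rS_w_old]
  · rw [wd_true, wd_true, rS_w_old]

private lemma rS_new_old (hnew : ∀ (i : (D.B ⊕ D.R) × Bool) (a : ℤ), ¬ ∀ s, w s = D.S.wd i (a + s))
    (i : D.B ⊕ D.R) (d d' : Bool) (a b : ℤ)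
    (h : ∀ s : ℤ, (rS D n w hn hper hred).wd (newI D, d) (a + s) =
      (rS D n w hn hper hred).wd (oldI D i, d') (b + s)) : False := by
  rcases d with _ | _
  · apply hnew (rev (i, d')) (-1 - b - (-1 - a))
    intro s
    have h1 := h (-1 - a - s)
    rw [wd_false, rS_w_new, rS_wd_old] at h1
    rw [wd_rev, ← bar_bar (w s)]
    congr 1
    have e1 : -1 - (a + (-1 - a - s)) = s := by ring
    have e2 : b + (-1 - a - s) = -1 - (-1 - b - (-1 - a) + s) := by ring
    rw [e1, e2] at h1
    exact h1
  · apply hnew (i, d') (b - a)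
    intro s
    have h1 := h (s - a)
    rw [wd_true, rS_w_new, rS_wd_old] at h1
    have e1 : a + (s - a) = s := by ring
    have e2 : b + (s - a) = b - a + s := by ring
    rw [e1, e2] at h1
    exact h1

private lemma rS_opp (hred : ∀ s, w (s + 1) ≠ bar (w s)) (c : ℤ) (h : ∀ t, w t = bar (w (c - t))) : False := by
  rcases Int.even_or_odd' c with ⟨t, rfl | rfl⟩
  · have h1 := h t
    have e : 2 * t - t = t := by ring
    rw [e] at h1
    exact bar_ne _ h1.symm
  · have h1 := h (t + 1)
    have e : 2 * t + 1 - (t + 1) = t := by ring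
    rw [e] at h1
    exact hred t h1

private lemma rS_sepi (hprim : ∀ a : ℤ, (∀ s, w (a + s) = w s) → (n : ℤ) ∣ a)
    (hnew : ∀ (i : (D.B ⊕ D.R) × Bool) (a : ℤ), ¬ ∀ s, w s = D.S.wd i (a + s)) :
    (rS D n w hn hper hred).Sepi := by
  rintro ⟨i, d⟩ ⟨j, d'⟩ a b h
  rcases idxr_cases D i with ⟨i0, rfl⟩ | rfl
  · rcases idxr_cases D j with ⟨j0, rfl⟩ | rfl
    · have h1 : ∀ s, D.S.wd (i0, d) (a + s) = D.S.wd (j0, d') (b + s) := by
        intro s
        have := h s
        rw [rS_wd_old, rS_wd_old] at this
        exact this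
      obtain ⟨h2, h3⟩ := D.sepi _ _ _ _ h1
      obtain ⟨rfl, rfl⟩ := Prod.mk.inj h2
      refine ⟨rfl, ?_⟩
      rw [rS_n_old]
      exact h3
    · exact (rS_new_old D n w hn hper hred hnew i0 d' d b a (fun s => (h s).symm)).elim
  · rcases idxr_cases D j with ⟨j0, rfl⟩ | rfl
    · exact (rS_new_old D n w hn hper hred hnew j0 d d' a b h).elim
    · rcases d with _ | _ <;> rcases d' with _ | _
      · refine ⟨rfl, ?_⟩
        rw [rS_n_new]
        have h1 : ∀ s, w ((a - b) + s) = w s := by
          intro s
          have h2 := h (-1 - a - s - (b - a) )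
          rw [wd_false, wd_false, rS_w_new] at h2
          have h3 := congrArg bar h2
          rw [bar_bar, bar_bar] at h3
          have e1 : -1 - (a + (-1 - a - s - (b - a))) = s + (b - a) := by ring
          have e2 : -1 - (b + (-1 - a - s - (b - a))) = s := by ring
          rw [e1, e2] at h3
          have h4 := h (-1 - a - s)
          rw [wd_false, wd_false, rS_w_new] at h4
          have h5 := congrArg bar h4
          rw [bar_bar, bar_bar] at h5
          have e3 : -1 - (a + (-1 - a - s)) = s := by ring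
          have e4 : -1 - (b + (-1 - a - s)) = a - b + s := by ring
          rw [e3, e4] at h5
          exact h5.symm
        exact hprim _ h1
      · exfalso
        apply rS_opp D w hred (b - a - 1)
        intro t
        have h2 := h (t - b)
        rw [wd_false, wd_true, rS_w_new] at h2
        have e1 : b + (t - b) = t := by ring
        have e2 : -1 - (a + (t - b)) = b - a - 1 - t := by ring
        rw [e1, e2] at h2
        exact h2.symm
      · exfalso
        apply rS_opp D w hred (a - b - 1)
        intro t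
        have h2 := h (t - a)
        rw [wd_false, wd_true, rS_w_new] at h2
        have e1 : a + (t - a) = t := by ring
        have e2 : -1 - (b + (t - a)) = a - b - 1 - t := by ring
        rw [e1, e2] at h2
        exact h2
      · refine ⟨rfl, ?_⟩
        rw [rS_n_new]
        apply hprim
        intro s
        have h2 := h (s - b)
        rw [wd_true, wd_true, rS_w_new] at h2
        have e1 : a + (s - b) = a - b + s := by ring
        have e2 : b + (s - b) = s := by ring
        rw [e1, e2] at h2
        exact h2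

/-- the extended data -/
private def rD (hsep : (rS D n w hn hper hred).Sepi) : NDW where
  X := D.X
  B := D.B
  R := D.R ⊕ Unit
  rk := D.rk
  root := fun b => Sum.inl (D.root b)
  S := rS D n w hn hper hred
  nB := fun b => D.nB b
  wB := fun b k => D.wB b k
  low := fun b b' k h => D.low b b' k h
  sepi := hsep

end

theorem ext_new (D : NDW) (m : D.B → ℤ) (hg : Good D m) (n : ℕ) (w : ℤ → Lt (D.X ⊕ D.B)) (hn : 0 < n)
    (hper : ∀ s, w (s + n) = w s) (hred : ∀ s, w (s + 1) ≠ bar (w s))
    (hprim : ∀ a : ℤ, (∀ s, w (a + s) = w s) → (n : ℤ) ∣ a)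
    (hnew : ∀ (i : (D.B ⊕ D.R) × Bool) (a : ℤ), ¬ ∀ s, w s = D.S.wd i (a + s)) (k : ℤ) (hk : k ≠ 0) :
    ExtP D m (D.psi (fpw (fun s : ℕ => w s) n) ^ k) := by
  let D₁ : NDW := rD D n w hn hper hred (rS_sepi D n w hn hper hred hprim hnew)
  have hcw : ∀ i, D₁.cw (oldI D i) = D.cw i := by
    intro i
    unfold NDW.cw
    rw [seg_eq_fpw, seg_eq_fpw]
    change fpw (fun s : ℕ => (rS D n w hn hper hred).wd (oldI D i, true) (0 + s))
      ((rS D n w hn hper hred).n (oldI D i)) = _
    rw [rS_n_old]
    congr 1
    funext s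
    rw [rS_wd_old]
  have hcn : D₁.cw (Sum.inr (Sum.inr ())) = fpw (fun s : ℕ => w s) n := by
    unfold NDW.cw
    rw [seg_eq_fpw]
    change fpw (fun s : ℕ => (rS D n w hn hper hred).wd (newI D, true) (0 + s)) n = _
    congr 1
    funext s
    rw [wd_true, rS_w_new, zero_add]
  have hid0 : ∀ l : FreeGroup (D.X ⊕ D.B), FreeGroup.map (Sum.map id id) l = l := by
    intro l
    rw [Sum.map_id_id, FreeGroup.map.id]
  let E : Emb D D₁ :=
    { jX := id
      jB := id
      jR := Sum.inl
      root := fun _ => rfl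
      cw := fun ρ => (hcw (Sum.inr ρ)).trans (hid0 (D.cw (Sum.inr ρ))).symm }
  have hid : ∀ l : D.F, FreeGroup.map (Sum.map E.jX E.jB) l = l := hid0
  have hpsi : ∀ l : D.F, D₁.psi l = D.psi l := by
    intro l
    have := emb_psi E l
    rw [hid, hid] at this
    exact this
  have hphi : ∀ l : D.F, D₁.phi m l = D.phi m l := by
    intro l
    have := emb_phi E m m (fun _ => rfl) l
    rw [hid, hid] at this
    exact this
  have hG : Good D₁ m := ⟨hg.1, fun b b' h1 h2 => hg.2 b b' (Sum.inl_injective h1) h2⟩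
  obtain ⟨D', m', hG', e, he, hb⟩ := ext_root D₁ m hG (Sum.inr ()) k hk
    (fun b h => absurd h (by intro h0; exact Sum.inl_ne_inr h0))
  refine ⟨D', m', hG', e, ?_, ?_⟩
  · intro l
    rw [← hphi]
    exact he l
  · rw [← hpsi, ← hcn]
    exact hb

end Pool.Agent.Helper53.LG
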