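import Pool.Agent.Helper53.LG.EmbL

/-!
# LG-46: adding a fixed letter

`ext_one`: `D'`: `X' = X ⊕ Unit`, `B' = B`, `R' = R`, same `rk`, `root`, same periods; the words are transported by the injective map of letters
`j = Sum.map Sum.inl id : X ⊕ B → (X ⊕ Unit) ⊕ B`: `w' i k = (j (w i k).1, (w i k).2)`. `per`, `red` (injectivity of `j`), `nB`, `wB`
(`j (inr b) = inr b`), `low`, `sepi` (`wd' = ` image of `wd`, `j` injective) are immediate. `Emb D D'` with `jX = inl`, `jB = id`, `jR = id`
(`cw`: `map_seg` for `FreeGroup.map j`). `e = FreeGroup.freeGroupCongr` of the obvious bijection `(X ⊕ B) ⊕ Unit ≃ (X ⊕ Unit) ⊕ B`;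
`e (map inl w) = map j w`; `emb_phi` (`m' = m`); `e b` is the letter `inl (inr ())`, fixed by `phi m'` (`phi_inl`).
-/

namespace Pool.Agent.Helper53.LG

/-- the map of letters -/
private def jj (D : NDW) : D.X ⊕ D.B → (D.X ⊕ Unit) ⊕ D.B := Sum.map Sum.inl id

private lemma jj_inj (D : NDW) : Function.Injective (jj D) :=
  Sum.map_injective.2 ⟨Sum.inl_injective, Function.injective_id⟩

/-- the map of signed letters -/
private def jl (D : NDW) (l : Lt (D.X ⊕ D.B)) : Lt ((D.X ⊕ Unit) ⊕ D.B) := (jj D l.1, l.2)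

private lemma jl_inj (D : NDW) : Function.Injective (jl D) := by
  intro l l' h
  have h1 := congrArg Prod.fst h
  have h2 := congrArg Prod.snd h
  exact Prod.ext (jj_inj D h1) h2

private lemma jl_bar (D : NDW) (l : Lt (D.X ⊕ D.B)) : jl D (bar l) = bar (jl D l) := rfl

/-- the words -/
private def SS (D : NDW) : WSys ((D.X ⊕ Unit) ⊕ D.B) (D.B ⊕ D.R) where
  n := D.S.n
  npos := D.S.npos
  w := fun i k => jl D (D.S.w i k)
  per := fun i k => by rw [D.S.per]
  red := fun i k h => D.S.red i k (jl_inj D (by rw [jl_bar]; exact h))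

private lemma SS_wd (D : NDW) (i : (D.B ⊕ D.R) × Bool) (k : ℤ) :
    (SS D).wd i k = jl D (D.S.wd i k) := by
  unfold WSys.wd
  split_ifs
  · rfl
  · rfl

private lemma SS_seg (D : NDW) (i : (D.B ⊕ D.R) × Bool) (κ : ℤ) (m : ℕ) :
    (SS D).seg FreeGroup.of i κ m = FreeGroup.map (jj D) (D.S.seg FreeGroup.of i κ m) := by
  induction m with
  | zero => rw [seg_zero, seg_zero, map_one]
  | succ m ih =>
    rw [seg_succ, seg_succ, map_mul, ih, SS_wd]
    congr 1
    rcases D.S.wd i (κ + m) with ⟨y, _ | _⟩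
    · simp [lv, jl]
    · simp [lv, jl]

/-- the data with one more fixed letter -/
private def DD (D : NDW) : NDW where
  X := D.X ⊕ Unit
  B := D.B
  R := D.R
  rk := D.rk
  root := D.root
  S := SS D
  nB := D.nB
  wB := fun b k => by
    show jl D (D.S.w (Sum.inl b) k) = _
    rw [D.wB]
    rfl
  low := fun b b' k h => by
    apply D.low b b' k
    apply jj_inj D
    exact h
  sepi := by
    intro i j a b h
    refine D.sepi i j a b fun s => ?_
    have h1 := h s
    rw [SS_wd, SS_wd] at h1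
    exact jl_inj D h1

/-- the map of data -/
private def EDD (D : NDW) : Emb D (DD D) where
  jX := Sum.inl
  jB := id
  jR := id
  root := fun _ => rfl
  cw := fun ρ => SS_seg D (Sum.inr ρ, true) 0 (D.S.n (Sum.inr ρ))

/-- the bijection of letters -/
private def eqv (D : NDW) : (D.X ⊕ D.B) ⊕ Unit ≃ (D.X ⊕ Unit) ⊕ D.B where
  toFun := Sum.elim (jj D) (fun u => Sum.inl (Sum.inr u))
  invFun := Sum.elim (Sum.map Sum.inl id) (fun b => Sum.inl (Sum.inr b))
  left_inv := by
    rintro ((x | b) | u) <;> rfl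
  right_inv := by
    rintro ((x | u) | b) <;> rfl

/-- the isomorphism -/
private def ee (D : NDW) : FreeGroup ((D.X ⊕ D.B) ⊕ Unit) ≃* (DD D).F := FreeGroup.freeGroupCongr (eqv D)

private lemma ee_map (D : NDW) (w : D.F) : ee D (FreeGroup.map Sum.inl w) =
    FreeGroup.map (Sum.map (EDD D).jX (EDD D).jB) w := by
  have key : FreeGroup.map (eqv D) (FreeGroup.map Sum.inl w) = FreeGroup.map (jj D) w := by
    rw [FreeGroup.map.comp]
    rfl
  exact key

private lemma ee_of (D : NDW) : ee D (FreeGroup.of (Sum.inr ())) =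
    FreeGroup.of (Sum.inl (Sum.inr () : (DD D).X)) := by
  have key : FreeGroup.map (eqv D) (FreeGroup.of (Sum.inr ())) =
      FreeGroup.of (Sum.inl (Sum.inr ())) := by
    rw [FreeGroup.map.of]
    rfl
  exact key

theorem ext_one (D : NDW) (m : D.B → ℤ) (hg : Good D m) : ExtP D m 1 := by
  refine ⟨DD D, m, hg, ee D, ?_, ?_⟩
  · intro w
    rw [ee_map, ee_map]
    exact (emb_phi (EDD D) m m (fun _ => rfl) w).symm
  · rw [map_one, mul_one, ee_of]
    exact (phi_inl (DD D) m (Sum.inr ())).symm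

end Pool.Agent.Helper53.LG
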