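import Pool.Agent.Helper53.LG.Basic

/-!
# LG-16: separation on finite windows, segments in the free group

`sep_of_sepi`: `R0 = D0 + 1 > n i.1 + n j.1 =: n + n'` (if `i.1 ≠ j.1` both are terms of the sum
`∑ n`; if `i.1 = j.1` use `D0 = 2 ∑ n`). Let `u s = wd i (a + s)` (period `n`), `v s = wd j (b + s)` (period `n'`),
equal for `0 ≤ s < n + n'`. For `n' ≤ s < n + n'`: `u s = v s = v (s - n') = u (s - n')`; this is an identity between two
functions of `s` with period `n`, valid for `n` consecutive integers, so for all `s`: `u` has period `n'` too. So `u` and `v`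
have period `n'` and agree for `0 ≤ s < n'`, so they are equal, and `Sepi` applies.

`fseg_toWord`: the list is reduced by `wd_red` (`FreeGroup.IsReduced`, `IsReduced.reduce_eq`), and its value is the segment
(induction on `m`, `FreeGroup.mk`).

`fseg_pow`: with `c = seg (i, true) 0 n`, `p m = seg (i, true) 0 m`: `p (n * k + m) = c ^ k * p m` (`seg_add`, `seg_congr`,
induction on `k`) in any group. `fseg_coset`: `p κ₁ = c ^ z * p κ₀` with `κ₀, κ₁ < n` in the free group: if `z = k ≥ 0` then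
`p κ₁ = p (n * k + κ₀)`, compare the norms (`fseg_norm`): `κ₁ = n k + κ₀`, so `k = 0`. If `z = -k`: `p κ₀ = c ^ k * p κ₁`.
-/

namespace Pool.Agent.Helper53.LG

variable {Y I : Type} (S : WSys Y I)

/-- the words of the system are primitive and not shifts of each other -/
def WSys.Sepi : Prop :=
  ∀ (i j : I × Bool) (a b : ℤ), (∀ s : ℤ, S.wd i (a + s) = S.wd j (b + s)) →
    i = j ∧ (S.n i.1 : ℤ) ∣ a - b

theorem sep_of_sepi [Fintype I] (h : S.Sepi) : S.Sep (S.D0 + 1) := by
  intro i j a b hab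
  have hn : S.n i.1 + S.n j.1 ≤ S.D0 := by
    have h1 : S.n i.1 ≤ ∑ k, S.n k := Finset.single_le_sum (fun _ _ => Nat.zero_le _)
      (Finset.mem_univ i.1)
    have h2 : S.n j.1 ≤ ∑ k, S.n k := Finset.single_le_sum (fun _ _ => Nat.zero_le _)
      (Finset.mem_univ j.1)
    unfold WSys.D0
    omega
  have hni : (0 : ℤ) < S.n i.1 := by exact_mod_cast S.npos i.1
  have hnj : (0 : ℤ) < S.n j.1 := by exact_mod_cast S.npos j.1
  have hn' : (S.n i.1 : ℤ) + S.n j.1 ≤ S.D0 := by exact_mod_cast hn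
  have huv : ∀ s : ℤ, 0 ≤ s → s < (S.n i.1 : ℤ) + S.n j.1 →
      S.wd i (a + s) = S.wd j (b + s) := by
    intro s hs hs'
    obtain ⟨t, rfl⟩ := Int.eq_ofNat_of_zero_le hs
    exact hab t (by omega)
  have hper : ∀ s : ℤ, S.wd i (a + (s + S.n j.1)) = S.wd i (a + s) := by
    intro s
    have h0 : 0 ≤ s % (S.n i.1 : ℤ) := Int.emod_nonneg _ hni.ne'
    have h1 : s % (S.n i.1 : ℤ) < S.n i.1 := Int.emod_lt_of_pos _ hni
    have h2 : s = s % (S.n i.1 : ℤ) + S.n i.1 * (s / (S.n i.1 : ℤ)) := (Int.emod_add_mul_ediv _ _).symm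
    obtain ⟨r, hr⟩ : ∃ r, r = s % (S.n i.1 : ℤ) := ⟨_, rfl⟩
    obtain ⟨q, hq⟩ : ∃ q, q = s / (S.n i.1 : ℤ) := ⟨_, rfl⟩
    rw [← hr, ← hq] at h2
    rw [← hr] at h0 h1
    have e1 : S.wd i (a + (s + S.n j.1)) = S.wd i (a + (r + S.n j.1)) := by
      rw [show a + (s + S.n j.1) = a + (r + S.n j.1) + S.n i.1 * q by rw [h2]; ring]
      exact wd_per_mul S i _ _
    have e2 : S.wd i (a + s) = S.wd i (a + r) := by
      rw [show a + s = a + r + S.n i.1 * q by rw [h2]; ring]
      exact wd_per_mul S i _ _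
    have e3 : S.wd j (b + (r + S.n j.1)) = S.wd j (b + r) := by
      rw [← add_assoc]
      exact wd_per S j _
    rw [e1, e2, huv (r + S.n j.1) (by omega) (by omega), e3, huv r h0 (by omega)]
  have hpermul : ∀ z s : ℤ, S.wd i (a + (s + S.n j.1 * z)) = S.wd i (a + s) := by
    intro z
    induction z using Int.induction_on with
    | zero => intro s; simp
    | succ z ih =>
      intro s
      rw [show s + (S.n j.1 : ℤ) * ((z : ℤ) + 1) = s + S.n j.1 * z + S.n j.1 by ring, hper, ih]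
    | pred z ih =>
      intro s
      rw [← ih s, ← hper (s + (S.n j.1 : ℤ) * (-(z : ℤ) - 1))]
      congr 2
      ring
  apply h i j a b
  intro s
  have h0 : 0 ≤ s % (S.n j.1 : ℤ) := Int.emod_nonneg _ hnj.ne'
  have h1 : s % (S.n j.1 : ℤ) < S.n j.1 := Int.emod_lt_of_pos _ hnj
  have h2 : s = s % (S.n j.1 : ℤ) + S.n j.1 * (s / (S.n j.1 : ℤ)) := (Int.emod_add_mul_ediv _ _).symm
  obtain ⟨r, hr⟩ : ∃ r, r = s % (S.n j.1 : ℤ) := ⟨_, rfl⟩
  obtain ⟨q, hq⟩ : ∃ q, q = s / (S.n j.1 : ℤ) := ⟨_, rfl⟩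
  rw [← hr, ← hq] at h2
  rw [← hr] at h0 h1
  rw [h2, hpermul, huv r h0 (by omega), ← add_assoc, wd_per_mul]

theorem seg_pow {Q : Type} [Group Q] (g : Y → Q) (i : I × Bool) (κ : ℤ) (k m : ℕ) :
    S.seg g i κ (S.n i.1 * k + m) = (S.seg g i κ (S.n i.1)) ^ k * S.seg g i κ m := by
  induction k with
  | zero => simp
  | succ k ih =>
    rw [show S.n i.1 * (k + 1) + m = S.n i.1 + (S.n i.1 * k + m) by ring, seg_add,
      seg_congr g S i (κ := κ + S.n i.1) (l := κ) (by simp), ih, pow_succ', mul_assoc]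

theorem fseg_toWord [DecidableEq Y] (i : I × Bool) (κ : ℤ) (m : ℕ) :
    (S.seg FreeGroup.of i κ m).toWord = (List.range m).map (fun s : ℕ => S.wd i (κ + s)) := by
  have h1 : ∀ m : ℕ, S.seg FreeGroup.of i κ m =
      FreeGroup.mk ((List.range m).map (fun s : ℕ => S.wd i (κ + s))) := by
    intro m
    induction m with
    | zero => rfl
    | succ m ih =>
      rw [seg_succ, ih, List.range_succ, List.map_append, ← FreeGroup.mul_mk]
      congr 1
      rcases h : S.wd i (κ + m) with ⟨y, _ | _⟩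
      · simp only [List.map_cons, List.map_nil, h]
        change (FreeGroup.of y)⁻¹ = _
        rw [FreeGroup.of, FreeGroup.inv_mk]
        rfl
      · simp only [List.map_cons, List.map_nil, h]
        rfl
  rw [h1, FreeGroup.toWord_mk]
  apply FreeGroup.IsReduced.reduce_eq
  unfold FreeGroup.IsReduced
  rw [List.isChain_iff_getElem]
  intro k hk
  simp only [List.getElem_map, List.getElem_range]
  intro h2
  by_contra h3
  have h4 := wd_red S i (κ + k)
  apply h4
  have h5 : κ + (k : ℤ) + 1 = κ + ((k + 1 : ℕ) : ℤ) := by push_cast; ring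
  rw [h5]
  unfold bar
  apply Prod.ext
  · exact h2.symm
  · change (S.wd i (κ + ((k + 1 : ℕ) : ℤ))).2 = !(S.wd i (κ + k)).2
    revert h3
    cases (S.wd i (κ + ((k + 1 : ℕ) : ℤ))).2 <;> cases (S.wd i (κ + k)).2 <;> simp

theorem fseg_norm [DecidableEq Y] (i : I × Bool) (κ : ℤ) (m : ℕ) :
    (S.seg FreeGroup.of i κ m).norm = m := by
  unfold FreeGroup.norm
  rw [fseg_toWord, List.length_map, List.length_range]

theorem fseg_coset (i : I × Bool) (κ : ℤ) (m m' : ℕ) (hm : m < S.n i.1) (hm' : m' < S.n i.1) (z : ℤ)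
    (h : S.seg FreeGroup.of i κ m' = (S.seg FreeGroup.of i κ (S.n i.1)) ^ z * S.seg FreeGroup.of i κ m) :
    m = m' := by
  classical
  rcases Int.eq_nat_or_neg z with ⟨k, rfl | rfl⟩
  · rw [zpow_natCast, ← seg_pow] at h
    have h1 := congrArg FreeGroup.norm h
    rw [fseg_norm, fseg_norm] at h1
    rcases Nat.eq_zero_or_pos k with hk | hk
    · rw [hk, mul_zero, zero_add] at h1
      exact h1.symm
    · have h2 : S.n i.1 * 1 ≤ S.n i.1 * k := Nat.mul_le_mul_left _ hk
      omega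
  · rw [zpow_neg, zpow_natCast, eq_inv_mul_iff_mul_eq, ← seg_pow] at h
    have h1 := congrArg FreeGroup.norm h
    rw [fseg_norm, fseg_norm] at h1
    rcases Nat.eq_zero_or_pos k with hk | hk
    · rw [hk, mul_zero, zero_add] at h1
      exact h1.symm
    · have h2 : S.n i.1 * 1 ≤ S.n i.1 * k := Nat.mul_le_mul_left _ hk
      omega

theorem map_seg {Q Q' : Type} [Group Q] [Group Q'] (θ : Q →* Q') (g : Y → Q) (i : I × Bool) (κ : ℤ)
    (m : ℕ) : θ (S.seg g i κ m) = S.seg (fun y => θ (g y)) i κ m := by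
  induction m with
  | zero => simp
  | succ m ih =>
    rw [seg_succ, map_mul, ih, seg_succ]
    congr 1
    unfold lv
    split_ifs
    · rfl
    · rw [map_inv]

end Pool.Agent.Helper53.LG
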