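import Pool.Agent.Helper53.LG.Hall
import Pool.Agent.Helper53.LG.Sepi

/-!
# LG-17: the base group

`ψ : FreeGroup Y → FreeGroup Z` injective. Let `K' = max K 1`. For `i : I` let `c = S.seg of (i, true) 0 n` (`n = S.n i`),
`p m = S.seg of (i, true) 0 m` in `FreeGroup Y`, `H_i = zpowers (ψ c ^ K')` and
`F_i = {ψ (c ^ μ * (p κ₁ * (p κ₀)⁻¹)) | μ < K', κ₀, κ₁ < n} ∪ {ψ c ^ K'}`. `hall` gives `T_i, π_i, ω_i`. `P = Π i, Perm (T_i)`,
`θ = Π π_i` (`MonoidHom.pi`).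

First statement: let `S.seg g0 i κ m = 1` in `P`, `g0 = θ ∘ ψ ∘ of`. By `seg_rev` we may assume `i = (i₀, true)` (if
`i = (i₀, false)` pass to the inverse: `seg (rev i) (-κ - m) m = 1`), and by `seg_congr` `0 ≤ κ < n`, `κ = κ₀ : ℕ`. Write
`κ₀ + m = n μ + κ₁`, `κ₁ < n`. `p (κ₀ + m) = p κ₀ * seg κ₀ m` (`seg_add`) and `p (κ₀ + m) = c ^ μ * p κ₁` (`seg_pow`), so in `P`
(`map_seg`) the image of `c ^ μ * p κ₁ * (p κ₀)⁻¹` is `1`. Apply its `i₀`-component to `ω`: with `μ = K' q + μ₀`, and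
`ψ c ^ K'` fixes `ω` (it is in `F_i` and `H_i`), so `c ^ μ₀ * p κ₁ * (p κ₀)⁻¹` fixes `ω`, it is in `F_i`, so
`ψ (c ^ μ₀ * p κ₁ * (p κ₀)⁻¹) = ψ c ^ (K' z)`, so `p κ₁ = c ^ (K' z - μ₀) * p κ₀`, and `κ₁ = κ₀` by `fseg_coset`, so `n ∣ m`.

Second statement: if `0 < μ < K'` and the image of `c ^ μ` in `P` is `1`, then `ψ c ^ μ ∈ F_i` (`κ₀ = κ₁ = 0`) fixes `ω`, so
`c ^ μ = c ^ (K' z)`, and `c ≠ 1` (`fseg_norm`) has infinite order (`FreeGroup` is torsion free), so `μ = K' z`,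
contradiction. As `P` is finite the order is positive.
-/

namespace Pool.Agent.Helper53.LG

private lemma base_one {Y Z I : Type} (S : WSys Y I) (ψ : FreeGroup Y →* FreeGroup Z)
    (hψ : Function.Injective ψ) (K : ℕ) (i : I) :
    ∃ (T : Type) (_ : Fintype T) (π : FreeGroup Z →* Equiv.Perm T),
      (∀ (κ : ℤ) (m : ℕ), S.seg (fun y => π (ψ (FreeGroup.of y))) (i, true) κ m = 1 → S.n i ∣ m) ∧
      ∀ μ : ℕ, 0 < μ → μ < K →
        (S.seg (fun y => π (ψ (FreeGroup.of y))) (i, true) 0 (S.n i)) ^ μ ≠ 1 := by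
  classical
  set n : ℕ := S.n i with hn
  have npos : 0 < n := S.npos i
  set c : FreeGroup Y := S.seg FreeGroup.of (i, true) 0 n with hc
  set p : ℕ → FreeGroup Y := fun m => S.seg FreeGroup.of (i, true) 0 m with hp
  set K' : ℕ := max K 1 with hK'
  have K'pos : 0 < K' := by omega
  obtain ⟨T, fT, π, ω, hπ⟩ := hall (Subgroup.zpowers (ψ c ^ K'))
    (insert (ψ c ^ K') (((Finset.range K') ×ˢ ((Finset.range n) ×ˢ (Finset.range n))).image
      (fun x => ψ (c ^ x.1 * (p x.2.2 * (p x.2.1)⁻¹)))))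
  -- a power of `c` fixes `ω`
  have hfix : π (ψ c ^ K') ω = ω :=
    (hπ _ (Finset.mem_insert_self _ _)).2 (Subgroup.mem_zpowers _)
  have hfixq : ∀ q : ℕ, π (ψ (c ^ (K' * q))) ω = ω := by
    intro q
    induction q with
    | zero => simp
    | succ q ih =>
      rw [mul_add, mul_one, pow_add, map_mul, map_mul, Equiv.Perm.mul_apply, map_pow ψ c K', hfix, ih]
  have hmem : ∀ μ κ₀ κ₁ : ℕ, μ < K' → κ₀ < n → κ₁ < n →
      π (ψ (c ^ μ * (p κ₁ * (p κ₀)⁻¹))) ω = ω → ∃ z : ℤ, c ^ ((K' : ℤ) * z) = c ^ μ * (p κ₁ * (p κ₀)⁻¹) := by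
    intro μ κ₀ κ₁ h1 h2 h3 h4
    have h5 : ψ (c ^ μ * (p κ₁ * (p κ₀)⁻¹)) ∈ Subgroup.zpowers (ψ c ^ K') := by
      refine (hπ _ (Finset.mem_insert_of_mem (Finset.mem_image.2 ⟨(μ, κ₀, κ₁), ?_, rfl⟩))).1 h4
      simp [h1, h2, h3]
    obtain ⟨z, hz⟩ := Subgroup.mem_zpowers_iff.1 h5
    refine ⟨z, hψ ?_⟩
    rw [← hz, zpow_mul, map_zpow, map_zpow, zpow_natCast]
  refine ⟨T, fT, π, ?_, ?_⟩
  · intro κ m h
    -- reduce to `0 ≤ κ < n`
    obtain ⟨κ₀, hκ₀, hκ₀'⟩ : ∃ κ₀ : ℕ, κ₀ < n ∧ (n : ℤ) ∣ κ - κ₀ := by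
      refine ⟨(κ % n).toNat, ?_, ?_⟩
      · have h1 := Int.emod_lt_of_pos κ (by exact_mod_cast npos : (0 : ℤ) < n)
        have h2 := Int.emod_nonneg κ (by omega : (n : ℤ) ≠ 0)
        omega
      · have h2 := Int.emod_nonneg κ (by omega : (n : ℤ) ≠ 0)
        rw [Int.toNat_of_nonneg h2]
        exact Int.dvd_self_sub_emod
    rw [seg_congr _ S (i, true) (l := (κ₀ : ℤ)) (by simpa using hκ₀')] at h
    have hmap : S.seg (fun y => π (ψ (FreeGroup.of y))) (i, true) (κ₀ : ℤ) m =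
        π (ψ (S.seg FreeGroup.of (i, true) (κ₀ : ℤ) m)) := by
      rw [map_seg, map_seg]
    rw [hmap] at h
    have e1 : p (κ₀ + m) = p κ₀ * S.seg FreeGroup.of (i, true) (κ₀ : ℤ) m := by
      simp only [hp]
      rw [seg_add, zero_add]
    obtain ⟨μ, κ₁, hκ₁, hμ⟩ : ∃ μ κ₁ : ℕ, κ₁ < n ∧ κ₀ + m = n * μ + κ₁ :=
      ⟨(κ₀ + m) / n, (κ₀ + m) % n, Nat.mod_lt _ npos, (Nat.div_add_mod _ _).symm⟩
    have e2 : p (κ₀ + m) = c ^ μ * p κ₁ := by
      rw [hμ]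
      exact seg_pow S FreeGroup.of (i, true) 0 μ κ₁
    have e3 : S.seg FreeGroup.of (i, true) (κ₀ : ℤ) m = (p κ₀)⁻¹ * (c ^ μ * p κ₁) := by
      rw [← e2, e1]; group
    have e4 : π (ψ (c ^ μ * (p κ₁ * (p κ₀)⁻¹))) = 1 := by
      have : c ^ μ * (p κ₁ * (p κ₀)⁻¹) =
          p κ₀ * S.seg FreeGroup.of (i, true) (κ₀ : ℤ) m * (p κ₀)⁻¹ := by
        rw [e3]; group
      rw [this, map_mul, map_mul, map_mul, map_mul, h, mul_one, ← map_mul, ← map_mul, mul_inv_cancel,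
        map_one, map_one]
    -- reduce `μ` modulo `K'`
    have e5 : c ^ μ * (p κ₁ * (p κ₀)⁻¹) =
        c ^ (K' * (μ / K')) * (c ^ (μ % K') * (p κ₁ * (p κ₀)⁻¹)) := by
      rw [← mul_assoc (c ^ (K' * (μ / K'))), ← pow_add, Nat.div_add_mod]
    have e6 : π (ψ (c ^ (μ % K') * (p κ₁ * (p κ₀)⁻¹))) ω = ω := by
      rw [e5, map_mul, map_mul] at e4
      have e7 : π (ψ (c ^ (μ % K') * (p κ₁ * (p κ₀)⁻¹))) = (π (ψ (c ^ (K' * (μ / K')))))⁻¹ :=
        (inv_eq_of_mul_eq_one_right e4).symm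
      rw [e7, Equiv.Perm.inv_eq_iff_eq]
      exact (hfixq _).symm
    obtain ⟨z, hz⟩ := hmem (μ % K') κ₀ κ₁ (Nat.mod_lt _ K'pos) hκ₀ hκ₁ e6
    have e8 : p κ₁ = c ^ ((K' : ℤ) * z - (μ % K' : ℕ)) * p κ₀ := by
      rw [sub_eq_neg_add, zpow_add, zpow_neg, hz, zpow_natCast]
      group
    have e9 := fseg_coset S (i, true) 0 κ₀ κ₁ hκ₀ hκ₁ _ e8
    subst e9
    exact ⟨μ, by omega⟩
  · intro μ h1 h2 h3
    have hmap : S.seg (fun y => π (ψ (FreeGroup.of y))) (i, true) 0 n = π (ψ c) := by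
      rw [hc, map_seg, map_seg]
    rw [hmap] at h3
    have e0 : c ^ μ * (p 0 * (p 0)⁻¹) = c ^ μ := by simp
    obtain ⟨z, hz⟩ := hmem μ 0 0 (by omega) npos npos (by
      rw [e0, map_pow, map_pow, h3]; rfl)
    rw [e0] at hz
    have hc1 : c ≠ 1 := by
      intro h
      have := fseg_norm S (i, true) 0 n
      rw [← hc, h, FreeGroup.norm_one] at this
      omega
    have e1 : c ^ ((K' : ℤ) * z - μ) = 1 := by
      rw [zpow_sub, hz, zpow_natCast, mul_inv_cancel]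
    have e2 : (K' : ℤ) * z - μ = 0 := by
      by_contra h
      apply hc1
      have h0 := zpow_left_inj (a := c) (b := 1) h
      rw [one_zpow] at h0
      exact h0.1 e1
    have e3 : (K' : ℤ) ∣ μ := ⟨z, by linarith⟩
    have e4 : K' ∣ μ := by exact_mod_cast e3
    have := Nat.le_of_dvd h1 e4
    omega

theorem exists_base_group {Y Z I : Type} [Finite I] (S : WSys Y I) (ψ : FreeGroup Y →* FreeGroup Z)
    (hψ : Function.Injective ψ) (K : ℕ) :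
    ∃ (P : Type) (_ : Group P) (_ : Fintype P) (θ : FreeGroup Z →* P),
      (∀ (i : I × Bool) (κ : ℤ) (m : ℕ), S.seg (fun y => θ (ψ (FreeGroup.of y))) i κ m = 1 →
        S.n i.1 ∣ m) ∧
      ∀ i : I, K ≤ orderOf (S.seg (fun y => θ (ψ (FreeGroup.of y))) (i, true) 0 (S.n i)) := by
  classical
  have : Fintype I := Fintype.ofFinite I
  choose T fT π h1 h2 using base_one S ψ hψ K
  have hcomp : ∀ (i₀ : I) (i : I × Bool) (κ : ℤ) (m : ℕ),
      (S.seg (fun y => (MonoidHom.pi π) (ψ (FreeGroup.of y))) i κ m) i₀ =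
        S.seg (fun y => π i₀ (ψ (FreeGroup.of y))) i κ m := by
    intro i₀ i κ m
    exact map_seg S (Pi.evalMonoidHom (fun i => Equiv.Perm (T i)) i₀)
      (fun y => (MonoidHom.pi π) (ψ (FreeGroup.of y))) i κ m
  have key : ∀ (i : I) (κ : ℤ) (m : ℕ),
      S.seg (fun y => (MonoidHom.pi π) (ψ (FreeGroup.of y))) (i, true) κ m = 1 → S.n i ∣ m := by
    intro i κ m h
    apply h1 i κ m
    rw [← hcomp, h]
    rfl
  refine ⟨∀ i, Equiv.Perm (T i), inferInstance, Fintype.ofFinite _, MonoidHom.pi π, ?_, ?_⟩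
  · rintro ⟨i, b⟩ κ m h
    cases b with
    | true => exact key i κ m h
    | false =>
      have h3 := seg_rev (fun y => (MonoidHom.pi π) (ψ (FreeGroup.of y))) S (i, false) κ m
      rw [h, inv_one] at h3
      exact key i _ m h3.symm
  · intro i
    by_contra hlt
    push Not at hlt
    set x := S.seg (fun y => (MonoidHom.pi π) (ψ (FreeGroup.of y))) (i, true) 0 (S.n i) with hx
    have hpos : 0 < orderOf x := orderOf_pos x
    apply h2 i (orderOf x) hpos hlt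
    rw [← hcomp, ← hx, ← Pi.pow_apply, pow_orderOf_eq_one]
    rfl

end Pool.Agent.Helper53.LG
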