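import Pool.Agent.Helper53.LG.Defs

/-!
# Project LG: first facts on words, segments and edges
-/

namespace Pool.Agent.Helper53.LG

variable {Y I : Type}

section words

variable (S : WSys Y I)

lemma w_per_mul (i : I) (k z : ℤ) : S.w i (k + S.n i * z) = S.w i k := by
  induction z using Int.induction_on with
  | zero => simp
  | succ z ih => rw [mul_add, mul_one, ← add_assoc, S.per, ih]
  | pred z ih =>
    rw [← ih, ← S.per i (k + (S.n i : ℤ) * (-(z : ℤ) - 1))]
    congr 1
    ring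

lemma wd_true (i : I) (k : ℤ) : S.wd (i, true) k = S.w i k := by simp [WSys.wd]

lemma wd_false (i : I) (k : ℤ) : S.wd (i, false) k = bar (S.w i (-1 - k)) := by simp [WSys.wd]

lemma wd_rev (i : I × Bool) (k : ℤ) : S.wd (rev i) k = bar (S.wd i (-1 - k)) := by
  rcases i with ⟨i, _ | _⟩
  · simp [rev, wd_true, wd_false]
  · simp [rev, wd_true, wd_false]

lemma wd_per_mul (i : I × Bool) (k z : ℤ) : S.wd i (k + S.n i.1 * z) = S.wd i k := by
  rcases i with ⟨i, _ | _⟩
  · rw [wd_false, wd_false]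
    have := w_per_mul S i (-1 - k) (-z)
    rw [← this]
    congr 2
    ring
  · simpa [wd_true] using w_per_mul S i k z

lemma wd_per (i : I × Bool) (k : ℤ) : S.wd i (k + S.n i.1) = S.wd i k := by
  simpa using wd_per_mul S i k 1

lemma wd_congr (i : I × Bool) {k l : ℤ} (h : (S.n i.1 : ℤ) ∣ k - l) : S.wd i k = S.wd i l := by
  obtain ⟨z, hz⟩ := h
  have : k = l + S.n i.1 * z := by linarith
  rw [this, wd_per_mul]

lemma wd_red (i : I × Bool) (k : ℤ) : S.wd i (k + 1) ≠ bar (S.wd i k) := by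
  rcases i with ⟨i, _ | _⟩
  · rw [wd_false, wd_false, bar_bar]
    intro h
    have h1 := S.red i (-1 - (k + 1))
    apply h1
    rw [h]
    congr 1
    ring
  · simpa [wd_true] using S.red i k

end words

section segs

variable {Q : Type} [Group Q] (g : Y → Q) (S : WSys Y I)

@[simp] lemma lv_bar (l : Lt Y) : lv g (bar l) = (lv g l)⁻¹ := by
  rcases l with ⟨y, _ | _⟩ <;> simp [lv, bar]

@[simp] lemma seg_zero (i : I × Bool) (κ : ℤ) : S.seg g i κ 0 = 1 := rfl

lemma seg_succ (i : I × Bool) (κ : ℤ) (m : ℕ) :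
    S.seg g i κ (m + 1) = S.seg g i κ m * lv g (S.wd i (κ + m)) := rfl

lemma seg_one (i : I × Bool) (κ : ℤ) : S.seg g i κ 1 = lv g (S.wd i κ) := by
  simp [seg_succ]

lemma seg_add (i : I × Bool) (κ : ℤ) (m m' : ℕ) :
    S.seg g i κ (m + m') = S.seg g i κ m * S.seg g i (κ + m) m' := by
  induction m' with
  | zero => simp
  | succ m' ih =>
    rw [← add_assoc, seg_succ, ih, seg_succ, mul_assoc]
    congr 4
    push_cast
    ring

lemma seg_congr (i : I × Bool) {κ l : ℤ} (h : (S.n i.1 : ℤ) ∣ κ - l) (m : ℕ) :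
    S.seg g i κ m = S.seg g i l m := by
  induction m with
  | zero => rfl
  | succ m ih =>
    rw [seg_succ, seg_succ, ih, wd_congr S i (k := κ + m) (l := l + m)]
    simpa using h

lemma seg_rev (i : I × Bool) (κ : ℤ) (m : ℕ) :
    (S.seg g i κ m)⁻¹ = S.seg g (rev i) (-κ - m) m := by
  induction m generalizing κ with
  | zero => simp
  | succ m ih =>
    rw [add_comm m 1, seg_add, mul_inv_rev, seg_one, ih, add_comm 1 m, seg_add, seg_one, wd_rev,
      lv_bar]
    congr 2
    · push_cast; ring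
    · congr 1
      congr 1
      push_cast; ring

lemma dedge_bar (p : Q) (l : Lt Y) : dedge g (p * lv g l) (bar l) = dedge g p l := by
  rcases l with ⟨y, _ | _⟩ <;> simp [dedge, lv, bar]

lemma dedge_eq_iff (p p' : Q) (l l' : Lt Y) :
    dedge g p l = dedge g p' l' ↔ (p = p' ∧ l = l') ∨ (p' = p * lv g l ∧ l' = bar l) := by
  constructor
  · intro h
    rcases l with ⟨y, _ | _⟩ <;> rcases l' with ⟨y', _ | _⟩ <;> simp [dedge, lv, bar] at h ⊢
    · obtain ⟨h1, rfl⟩ := h
      exact ⟨mul_right_cancel h1, rfl⟩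
    · exact ⟨h.1.symm, h.2.symm⟩
    · obtain ⟨rfl, rfl⟩ := h
      simp
    · exact h
  · rintro (⟨rfl, rfl⟩ | ⟨rfl, rfl⟩)
    · rfl
    · exact (dedge_bar g p l).symm

lemma edg_succ_eq {v : ℕ → Q} {a : ℕ → Lt Y} (k : ℕ)
    (he : edg g v a (k + 1) = edg g v a k) (hs : (a (k + 1)).2 ≠ (a k).2) : a (k + 1) = bar (a k) := by
  unfold edg at he
  rcases (dedge_eq_iff g _ _ _ _).1 he with ⟨-, h2⟩ | ⟨-, h2⟩
  · exact absurd (by rw [h2]) hs
  · rw [h2, bar_bar]

lemma path_add {v : ℕ → Q} {a : ℕ → Lt Y} (h : IsPath g v a) (i : I × Bool) (l : ℤ) (k m : ℕ)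
    (hr : ∀ s : ℕ, s < m → a (k + s) = S.wd i (l + s)) : v (k + m) = v k * S.seg g i l m := by
  induction m with
  | zero => simp
  | succ m ih =>
    rw [← add_assoc, h (k + m), ih (fun s hs => hr s (by omega)), hr m (by omega), seg_succ, mul_assoc]

lemma isPath_shift {v : ℕ → Q} {a : ℕ → Lt Y} (h : IsPath g v a) (i : ℕ) :
    IsPath g (fun k => v (i + k)) (fun k => a (i + k)) := fun k => h (i + k)

/-- the vertices of a directed word read from `p` -/
lemma isPath_line (i : I × Bool) (κ : ℤ) (p : Q) :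
    IsPath g (fun m => p * S.seg g i κ m) (fun m => S.wd i (κ + m)) := by
  intro k
  simp only [seg_succ, mul_assoc]

end segs

end Pool.Agent.Helper53.LG
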