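import Pool.Agent.Helper53.LG.Psi

/-!
# Project LG: ping-pong data for the stable letters (definitions)

`Br D m`: a finite dimensional real representation `π` of the free group with letters `x`, `s_b`, an operator `T` commuting with it,
vectors `u i` and functionals `f i` (`i : B ⊕ R`) fixed by `c_i = cw i` and by `T`, such that `f i (u i) = 0` and `f i (π l (u j)) = 0` only
if `i = j`, `l ∈ ⟨c_i⟩`, and for every `b` an operator `B0 b` with `B0 π(r_b) = π(s_b) B0`, `B0 π(r_b)^m T = T B0`.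
-/

namespace Pool.Agent.Helper53.LG

/-- ping-pong data -/
structure Br (D : NDW) (m : D.B → ℤ) where
  V : Type
  [acg : AddCommGroup V]
  [mod : Module ℝ V]
  [fin : FiniteDimensional ℝ V]
  π : D.F →* (V ≃ₗ[ℝ] V)
  T : V ≃ₗ[ℝ] V
  hT : ∀ l v, T (π l v) = π l (T v)
  inj : ∀ (l : D.F) (j : ℤ), (∀ v, π l ((T ^ j) v) = v) → l = 1 ∧ j = 0
  u : D.B ⊕ D.R → V
  f : D.B ⊕ D.R → (V →ₗ[ℝ] ℝ)
  πu : ∀ i, π (D.cw i) (u i) = u i
  Tu : ∀ i, T (u i) = u i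
  fπ : ∀ i v, f i (π (D.cw i) v) = f i v
  fT : ∀ i v, f i (T v) = f i v
  fu : ∀ i, f i (u i) = 0
  f0 : ∀ i j l, f i (π l (u j)) = 0 → i = j ∧ l ∈ Subgroup.zpowers (D.cw i)
  B0 : D.B → (V ≃ₗ[ℝ] V)
  B0r : ∀ b v, B0 b (π (D.cw (Sum.inr (D.root b))) v) = π (D.cw (Sum.inl b)) (B0 b v)
  B0t : ∀ b v, B0 b ((π (D.cw (Sum.inr (D.root b))) ^ m b) (T v)) = T (B0 b v)
  B0u : ∀ b, f (Sum.inl b) (B0 b (u (Sum.inr (D.root b)))) ≠ 0
  B0v : ∀ b, f (Sum.inr (D.root b)) ((B0 b).symm (u (Sum.inl b))) ≠ 0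

attribute [instance] Br.acg Br.mod Br.fin

variable (D : NDW)

/-- left type of a letter `b^{±1}` -/
def NDW.lt (p : D.B × Bool) : D.B ⊕ D.R := if p.2 then Sum.inl p.1 else Sum.inr (D.root p.1)

/-- right type of a letter `b^{±1}` -/
def NDW.rt (p : D.B × Bool) : D.B ⊕ D.R := if p.2 then Sum.inr (D.root p.1) else Sum.inl p.1

/-- the letter `b^{±1}` -/
def NDW.bl (p : D.B × Bool) : D.F := if p.2 then FreeGroup.of (Sum.inr p.1) else (FreeGroup.of (Sum.inr p.1))⁻¹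

/-- value of the expression `psi l₁ b₁^{±1} psi l₂ b₂^{±1} … psi l` -/
noncomputable def NDW.exval (e : List (D.F × (D.B × Bool))) (l : D.F) : D.F :=
  (e.map fun p => D.psi p.1 * D.bl p.2).prod * D.psi l

/-- reduced expressions -/
def NDW.Redx (e : List (D.F × (D.B × Bool))) : Prop :=
  e.IsChain fun p p' => ¬ (p'.2.1 = p.2.1 ∧ p'.2.2 = !p.2.2 ∧ p'.1 ∈ Subgroup.zpowers (D.cw (D.rt p.2)))

end Pool.Agent.Helper53.LG
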