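import Pool.Agent.Helper53.LG.Seeds

/-!
# LG-34: the gadget

`gadget`: let `ρ = root b0`, `i0 = inr ρ`, `l0 = S.w i0 0`, `y0 = l0.1`, `s = sg l0 = ± 1`, `δ = d i0`. Let `x = √2`,
`x' = - s δ / m b0 - √2`; both irrational, `s (x + x') / δ = -1 / m b0`. `seeds` for `(y0, x)`, `(y0, x')` gives `Z₁`, `Z₂`. Let
`Z₀ = double i0 x x' :: (Z₁ ++ Z₂)`, `r = lrk y0`.
* `ClosedBelow r Z₀`: for `b` with `rk b < r`: `cells i (double i0 x x') = cells i (single y0 x) + cells i (single y0 x')` for
  `i = inl b` (`≠ i0`) and for `i = inr (root b)`: `root b ≠ ρ` (otherwise `y0` is a letter of the word of `root b`, so by `low`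
  `lrk y0 ≤ rk b < r`). So both sides are sums of those for `single y0 x :: Z₁` and `single y0 x' :: Z₂`.
* `up_iter` from `r` to `r'` larger than all ranks (and `≥ r`): `Z'`; `Z = Z₀ ++ Z'` is closed for all `b`.
* The cells of a root `ρ'`: those of `Z₁`, `Z₂` (irrational singles) and `Z'` (`RootIrr`) are irrational; the cells of
  `double i0 x x'` at `inr ρ'`: irrational except one cell `-1 / m b0` for `ρ' = ρ`
  (`(sgl y0 x - {s x / δ}) + (sgl y0 x' - {s x' / δ}) + {-1 / m b0}`; members of `sgl y0 x i` are `± x / d i`). So `count (-1 / m b)` (rational) in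
  `cellsL (inr (root b)) Z` is `1` if `root b = ρ` and `m b = m b0`, i.e. `b = b0` (`hinj`), and `0` otherwise.
-/

namespace Pool.Agent.Helper53.LG

private lemma gad_sg {Y : Type} (l : Lt Y) : sg l = 1 ∨ sg l = -1 := by
  unfold sg
  split_ifs <;> simp

private lemma gad_sg_sq {Y : Type} (l : Lt Y) : sg l * sg l = 1 := by
  rcases gad_sg l with h | h <;> rw [h] <;> norm_num

private lemma gad_sgl_irr {Y I : Type} (S : WSys Y I) (d : I → ℕ) (hd : ∀ i, 0 < d i) (y : Y) (x : ℝ)
    (hx : Irrational x) (i : I) (v : ℝ) (hv : v ∈ sgl S d y x i) : Irrational v := by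
  unfold sgl at hv
  obtain ⟨κ, -, rfl⟩ := Multiset.mem_map.1 hv
  have h1 : Irrational (sg (S.w i κ) * x) := by
    rcases gad_sg (S.w i κ) with h | h <;> rw [h]
    · simpa using hx
    · simpa using hx.neg
  exact h1.div_natCast (hd i).ne'

private lemma gad_rat (m : ℤ) : ¬ Irrational (-1 / (m : ℝ)) := by
  intro h
  apply h
  exact ⟨-1 / (m : ℚ), by push_cast; rfl⟩

private lemma gad_fval {Y I : Type} (z : FCo Y I) (h : FIrr z) : FVal z := by
  obtain ⟨y, x, rfl, hx⟩ := h
  exact hx.ne_zero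

variable (D : NDW) (m : D.B → ℤ) (hm : ∀ b, m b ≠ 0)
  (hinj : ∀ b b', D.root b = D.root b' → m b = m b' → b = b') (d : D.B ⊕ D.R → ℕ) (hd : ∀ i, 0 < d i)

open scoped Classical in
include hm hinj hd in
theorem gadget (b0 : D.B) : ∃ Z : List (FCo (D.X ⊕ D.B) (D.B ⊕ D.R)), (∀ z ∈ Z, FVal z) ∧
    (∀ b, cellsL D.S d (Sum.inl b) Z = (cellsL D.S d (Sum.inr (D.root b)) Z).map (nuinv (m b))) ∧
    ∀ b, (cellsL D.S d (Sum.inr (D.root b)) Z).count (-1 / (m b : ℝ)) = if b = b0 then 1 else 0 := by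
  set i0 : D.B ⊕ D.R := Sum.inr (D.root b0) with hi0
  set s : ℝ := sg (D.S.w i0 0) with hs
  set y0 : D.X ⊕ D.B := (D.S.w i0 0).1 with hy0
  have hmR : (m b0 : ℝ) ≠ 0 := by exact_mod_cast hm b0
  have hdR : (d i0 : ℝ) ≠ 0 := by exact_mod_cast (hd i0).ne'
  have hss : s * s = 1 := gad_sg_sq _
  have hs0 : s ≠ 0 := by
    intro h
    rw [h] at hss
    norm_num at hss
  set x : ℝ := √2 with hx
  set x' : ℝ := -(s * d i0) / m b0 - x with hx'
  have hxI : Irrational x := irrational_sqrt_two
  have hx'I : Irrational x' := by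
    have h1 : ∃ q : ℚ, (q : ℝ) = -(s * d i0) / m b0 := by
      rcases gad_sg (D.S.w i0 0) with h | h
      · refine ⟨-(1 * (d i0 : ℚ)) / m b0, ?_⟩
        rw [hs, h]
        push_cast
        rfl
      · refine ⟨-(-1 * (d i0 : ℚ)) / m b0, ?_⟩
        rw [hs, h]
        push_cast
        rfl
    obtain ⟨q, hq⟩ := h1
    rw [hx', ← hq]
    exact hxI.ratCast_sub q
  have hsum : x + x' = -(s * d i0) / m b0 := by rw [hx']; ring
  have hsum0 : x + x' ≠ 0 := by
    rw [hsum]
    exact div_ne_zero (neg_ne_zero.2 (mul_ne_zero hs0 hdR)) hmR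
  have hval : s * (x + x') / d i0 = -1 / m b0 := by
    rw [hsum]
    field_simp
    linear_combination (-1 : ℝ) * hss
  obtain ⟨Z₁, h11, h12, h13⟩ := seeds D m hm d hd y0 x hxI
  obtain ⟨Z₂, h21, h22, h23⟩ := seeds D m hm d hd y0 x' hx'I
  set z0 : FCo (D.X ⊕ D.B) (D.B ⊕ D.R) := FCo.double i0 x x' with hz0
  set r : ℕ := D.lrk y0 with hr
  have hFV : FVal z0 := ⟨hxI.ne_zero, hx'I.ne_zero, hsum0⟩
  have hV0 : ∀ z ∈ z0 :: (Z₁ ++ Z₂), FVal z := by
    intro z hz
    rcases List.mem_cons.1 hz with rfl | hz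
    · exact hFV
    · rcases List.mem_append.1 hz with hz | hz
      · exact gad_fval z (h11 z hz)
      · exact gad_fval z (h21 z hz)
  have hL0 : ∀ z ∈ z0 :: (Z₁ ++ Z₂), D.lrk (ltr D.S z) ≤ r := by
    intro z hz
    rcases List.mem_cons.1 hz with rfl | hz
    · exact le_rfl
    · rcases List.mem_append.1 hz with hz | hz
      · exact h12 z hz
      · exact h22 z hz
  have hcell : ∀ i, i0 ≠ i → cells D.S d i z0 = sgl D.S d y0 x i + sgl D.S d y0 x' i := by
    intro i hi
    rw [hz0]
    simp only [cells]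
    rw [if_neg hi]
  have hC0 : ClosedBelow D m d r (z0 :: (Z₁ ++ Z₂)) := by
    intro b hb
    have hne : i0 ≠ Sum.inr (D.root b) := by
      intro h
      rw [hi0, Sum.inr.injEq] at h
      have h1 : D.lrk y0 ≤ D.rk b := by
        rcases hc : y0 with x0 | b'
        · exact Nat.zero_le _
        · have h2 := D.low b b' 0 (by rw [← h, ← hi0, ← hy0, hc])
          exact h2
      omega
    have hne2 : i0 ≠ Sum.inl b := by
      rw [hi0]
      exact Sum.inr_ne_inl
    have e1 := h13 b hb
    have e2 := h23 b hb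
    rw [cellsL_cons, cellsL_cons] at e1 e2
    rw [cellsL_cons, cellsL_cons, cellsL_append, cellsL_append, hcell _ hne, hcell _ hne2]
    have e3 : ∀ i, sgl D.S d y0 x i + sgl D.S d y0 x' i + (cellsL D.S d i Z₁ + cellsL D.S d i Z₂) =
        (cells D.S d i (FCo.single y0 x) + cellsL D.S d i Z₁) +
          (cells D.S d i (FCo.single y0 x') + cellsL D.S d i Z₂) := by
      intro i
      simp only [cells]
      abel
    rw [e3, e3, e1, e2, ← Multiset.map_add]
  obtain ⟨Z', g1, g2, g3, g4, -⟩ := up_iter D m hm d hd r (max r (Finset.univ.sup D.rk + 1))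
    (le_max_left _ _) _ hL0 hV0 hC0
  refine ⟨z0 :: (Z₁ ++ Z₂) ++ Z', ?_, ?_, ?_⟩
  · intro z hz
    rcases List.mem_append.1 hz with hz | hz
    · exact hV0 z hz
    · exact g2 z hz
  · intro b
    apply g3 b
    have h1 : D.rk b ≤ Finset.univ.sup D.rk := Finset.le_sup (Finset.mem_univ b)
    exact lt_of_lt_of_le (Nat.lt_succ_of_le h1) (le_max_right _ _)
  · intro b
    have c0 : ∀ M : Multiset ℝ, (∀ v ∈ M, Irrational v) → M.count (-1 / (m b : ℝ)) = 0 := by
      intro M hM
      rw [Multiset.count_eq_zero]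
      intro h
      exact gad_rat (m b) (hM _ h)
    have c1 := c0 _ (rootIrr_of_irr D d hd Z₁ h11 (D.root b))
    have c2 := c0 _ (rootIrr_of_irr D d hd Z₂ h21 (D.root b))
    have c3 := c0 _ (g4 (D.root b))
    rw [cellsL_append, cellsL_cons, cellsL_append, Multiset.count_add, Multiset.count_add,
      Multiset.count_add, c1, c2, c3, add_zero, add_zero]
    by_cases hroot : D.root b0 = D.root b
    · have hi : i0 = Sum.inr (D.root b) := by rw [hi0, hroot]
      have e1 : cells D.S d (Sum.inr (D.root b)) z0 =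
          (sgl D.S d y0 x i0 - {s * x / d i0}) + (sgl D.S d y0 x' i0 - {s * x' / d i0})
            + {s * (x + x') / d i0} := by
        rw [hz0, ← hi]
        simp only [cells]
        rw [if_pos trivial]
      rw [e1, Multiset.count_add, Multiset.count_add]
      rw [c0 _ (fun v hv => gad_sgl_irr D.S d hd y0 x hxI i0 v (Multiset.mem_of_le tsub_le_self hv)),
        c0 _ (fun v hv => gad_sgl_irr D.S d hd y0 x' hx'I i0 v (Multiset.mem_of_le tsub_le_self hv)),
        hval, zero_add, add_zero, zero_add, Multiset.count_singleton]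
      have hiff : (-1 / (m b : ℝ) = -1 / (m b0 : ℝ)) ↔ b = b0 := by
        constructor
        · intro h
          apply hinj b b0 hroot.symm
          have hmb : (m b : ℝ) ≠ 0 := by exact_mod_cast hm b
          rw [div_eq_div_iff hmb hmR] at h
          have h2 : (m b : ℝ) = m b0 := by linarith
          exact_mod_cast h2
        · rintro rfl
          rfl
      by_cases hb : b = b0
      · rw [if_pos hb, if_pos (hiff.2 hb)]
      · rw [if_neg hb, if_neg (fun h => hb (hiff.1 h))]
    · have hi : i0 ≠ Sum.inr (D.root b) := by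
        rw [hi0]
        intro h
        exact hroot (Sum.inr.inj h)
      rw [hcell _ hi, Multiset.count_add, c0 _ (fun v hv => gad_sgl_irr D.S d hd y0 x hxI _ v hv),
        c0 _ (fun v hv => gad_sgl_irr D.S d hd y0 x' hx'I _ v hv)]
      have hb : b ≠ b0 := by
        rintro rfl
        exact hroot rfl
      rw [if_neg hb]

end Pool.Agent.Helper53.LG
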