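import Pool.Agent.Helper53.LG.NF

/-!
# LG-30: isomorphism from equality of classes

`cl (x, y)` for a pair `(x, y)`: `none` if it is `0`, `some none` if `y = 0`, `x ≠ 0`, `some (some (x / y))` if `y ≠ 0`.
`exists_B`: `(ι, κ, a, b, Ψ)` the data of `HasNF d r t Mr`, `(ι', κ', a', b', Ψ')` those of `HasNF d s t Ms`, `tr i = (a i, m a i + b i)`.

(1) `tr i = 0` iff `(a i, b i) = 0`. Let `ι₁ ⊆ ι` be the `i` with `tr i ≠ 0`, `ι₁' ⊆ ι'` those with `(a' i, b' i) ≠ 0`. By the hypothesis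
on the classes there is a bijection `e : ι₁ ≃ ι₁'` with `cl (tr i) = cl (a' (e i), b' (e i))` (`hcl` says that for every
`v ≠ none` the fibres over `v` have the same cardinality), so `tr i = c i • (a' (e i), b' (e i))` with `c i ≠ 0`.
(2) `V` is finite dimensional, `d > 0`: `finrank V = d (3 card ι + card κ) = d (3 card ι' + card κ')`, so
`3 card (ι ∖ ι₁) + card κ = 3 card (ι' ∖ ι₁') + card κ'`: choose a linear equivalence
`Θ₀ : ((ι ∖ ι₁ → Fin 3 → ℝ) × (κ → ℝ)) ≃ ((ι' ∖ ι₁' → Fin 3 → ℝ) × (κ' → ℝ))`.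
(3) For `c ≠ 0` the diagonal map `θ_c f = (f 0, c f 1, c² f 2)` satisfies `θ_c (exJ (c x) f) = exJ x (θ_c f)` (from
`θ_c (c J3 f) = J3 (θ_c f)`). Let `Θ : MM ι κ ≃ MM ι' κ'` be `θ_{c i}` from the block `i ∈ ι₁` to the block `e i`, and `Θ₀` on the
rest. On the rest all operators involved are trivial (`a i = b i = 0`, `exJ 0 = 1`), so
`Θ (XX a f) = XX a' (Θ f)`, and `Θ (XX (m a + b) f) = XX b' (Θ f)`.
(4) `B v = Ψ'⁻¹ (fun k => Θ (Ψ v k))`. `B (r v) = s (B v)` is clear. `Ψ ((r ^ m) v) k = XX (m a) (Ψ v (k + m)) = XX (m a) (Ψ v k)` as `d ∣ m`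
(induction for `m : ℕ`, then `m : ℤ`; `XX (x + y) = XX x ∘ XX y` by `exJ_add`), so `B (r ^ m (t v)) = t (B v)`.
-/

namespace Pool.Agent.Helper53.LG

open scoped Classical in
/-- the class of a pair -/
noncomputable def cl (p : ℝ × ℝ) : Option (Option ℝ) :=
  if p.2 = 0 then (if p.1 = 0 then none else some none) else some (some (p.1 / p.2))

lemma cl_eq_none {p : ℝ × ℝ} (h : cl p = none) : p.1 = 0 ∧ p.2 = 0 := by
  unfold cl at h
  split_ifs at h with h1 h2
  exact ⟨h2, h1⟩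

lemma cl_eq {p q : ℝ × ℝ} (h : cl q = cl p) (hp : cl p ≠ none) :
    ∃ c : ℝ, c ≠ 0 ∧ p.1 = c * q.1 ∧ p.2 = c * q.2 := by
  unfold cl at h hp
  by_cases h1 : p.2 = 0
  · by_cases h2 : p.1 = 0
    · exact absurd (by simp [h1, h2]) hp
    · by_cases h3 : q.2 = 0
      · by_cases h4 : q.1 = 0
        · simp [h1, h2, h3, h4] at h
        · exact ⟨p.1 / q.1, div_ne_zero h2 h4, by field_simp, by rw [h1, h3, mul_zero]⟩
      · simp [h1, h2, h3] at h
  · by_cases h3 : q.2 = 0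
    · by_cases h4 : q.1 = 0
      · simp [h1, h3, h4] at h
      · simp [h1, h3, h4] at h
    · simp only [h1, h3, if_false, Option.some.injEq] at h
      refine ⟨p.2 / q.2, div_ne_zero h1 h3, ?_, by field_simp⟩
      rw [div_mul_eq_mul_div, mul_div_assoc, h]
      field_simp

open scoped Classical in
lemma exists_equiv_cl {α β : Type} [Fintype α] [Fintype β] (f : α → Option (Option ℝ))
    (g : β → Option (Option ℝ))
    (h : ((Finset.univ.val : Multiset α).map f).filter (fun v => v ≠ none) =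
      ((Finset.univ.val : Multiset β).map g).filter (fun v => v ≠ none)) :
    ∃ e : {i // f i ≠ none} ≃ {j // g j ≠ none}, ∀ i, g (e i).1 = f i.1 := by
  have key : ∀ v : Option (Option ℝ), Nonempty ({x : {i // f i ≠ none} // f x.1 = v} ≃
      {y : {j // g j ≠ none} // g y.1 = v}) := by
    intro v
    have h1 := congrArg (Multiset.count v) h
    rw [Multiset.filter_map, Multiset.filter_map, Multiset.count_map, Multiset.count_map,
      Multiset.filter_filter, Multiset.filter_filter] at h1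
    have h2 : Fintype.card {x : {i // f i ≠ none} // f x.1 = v} =
        Fintype.card {y : {j // g j ≠ none} // g y.1 = v} := by
      rw [Fintype.card_congr (Equiv.subtypeSubtypeEquivSubtypeInter (fun i => f i ≠ none)
          (fun i => f i = v)),
        Fintype.card_congr (Equiv.subtypeSubtypeEquivSubtypeInter (fun i => g i ≠ none)
          (fun i => g i = v)), Fintype.card_subtype, Fintype.card_subtype]
      have h3 : (Finset.univ.filter (fun x => f x ≠ none ∧ f x = v)).card =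
          Multiset.card (Multiset.filter (fun a => v = f a ∧ ((fun v => v ≠ none) ∘ f) a)
            (Finset.univ.val : Multiset α)) := by
        rw [← Finset.filter_val, ← Finset.card_def]
        congr 1
        ext x
        simp only [Finset.mem_filter, Finset.mem_univ, true_and, Function.comp]
        constructor
        · rintro ⟨h4, h5⟩
          exact ⟨h5.symm, h4⟩
        · rintro ⟨h4, h5⟩
          exact ⟨h5, h4.symm⟩
      have h3' : (Finset.univ.filter (fun x => g x ≠ none ∧ g x = v)).card =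
          Multiset.card (Multiset.filter (fun a => v = g a ∧ ((fun v => v ≠ none) ∘ g) a)
            (Finset.univ.val : Multiset β)) := by
        rw [← Finset.filter_val, ← Finset.card_def]
        congr 1
        ext x
        simp only [Finset.mem_filter, Finset.mem_univ, true_and, Function.comp]
        constructor
        · rintro ⟨h4, h5⟩
          exact ⟨h5.symm, h4⟩
        · rintro ⟨h4, h5⟩
          exact ⟨h5, h4.symm⟩
      rw [h3, h3']
      exact h1
    exact ⟨Fintype.equivOfCardEq h2⟩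
  let F := fun v => Classical.choice (key v)
  let e : {i // f i ≠ none} ≃ {j // g j ≠ none} :=
    (Equiv.sigmaFiberEquiv (fun x : {i // f i ≠ none} => f x.1)).symm.trans
      ((Equiv.sigmaCongrRight F).trans (Equiv.sigmaFiberEquiv (fun y : {j // g j ≠ none} => g y.1)))
  refine ⟨e, fun i => ?_⟩
  exact (F (f i.1) ⟨i, rfl⟩).2

/-- the diagonal scaling -/
noncomputable def sc (c : ℝ) (hc : c ≠ 0) : (Fin 3 → ℝ) ≃ₗ[ℝ] (Fin 3 → ℝ) :=
  LinearEquiv.piCongrRight fun k : Fin 3 =>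
    LinearEquiv.smulOfNeZero ℝ ℝ (c ^ (k : ℕ)) (pow_ne_zero _ hc)

lemma sc_apply (c : ℝ) (hc : c ≠ 0) (f : Fin 3 → ℝ) (k : Fin 3) :
    sc c hc f k = c ^ (k : ℕ) * f k := rfl

lemma sc_exJ (c : ℝ) (hc : c ≠ 0) (x : ℝ) (f : Fin 3 → ℝ) :
    sc c hc (exJ (c * x) f) = exJ x (sc c hc f) := by
  have h0 : ∀ (y : ℝ) (g : Fin 3 → ℝ), exJ y g 0 = g 0 + y * g 1 + 2⁻¹ * (y * (y * g 2)) :=
    fun y g => rfl
  have h1 : ∀ (y : ℝ) (g : Fin 3 → ℝ), exJ y g 1 = g 1 + y * g 2 + 2⁻¹ * (y * (y * 0)) :=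
    fun y g => rfl
  have h2 : ∀ (y : ℝ) (g : Fin 3 → ℝ), exJ y g 2 = g 2 + y * 0 + 2⁻¹ * (y * 0) :=
    fun y g => rfl
  have s0 : ∀ g : Fin 3 → ℝ, sc c hc g 0 = c ^ 0 * g 0 := fun g => rfl
  have s1 : ∀ g : Fin 3 → ℝ, sc c hc g 1 = c ^ 1 * g 1 := fun g => rfl
  have s2 : ∀ g : Fin 3 → ℝ, sc c hc g 2 = c ^ 2 * g 2 := fun g => rfl
  funext k
  fin_cases k
  · change sc c hc (exJ (c * x) f) 0 = exJ x (sc c hc f) 0
    rw [s0, h0, h0, s0, s1, s2]
    ring
  · change sc c hc (exJ (c * x) f) 1 = exJ x (sc c hc f) 1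
    rw [s1, h1, h1, s1, s2]
    ring
  · change sc c hc (exJ (c * x) f) 2 = exJ x (sc c hc f) 2
    rw [s2, h2, h2, s2]
    ring

lemma XX_add {ι κ : Type} (a b : ι → ℝ) (f : MM ι κ) : XX (a + b) f = XX a (XX b f) := by
  rw [XX_apply, XX_apply, XX_apply]
  refine Prod.ext (funext fun i => ?_) rfl
  exact exJ_add (a i) (b i) (f.1 i)

lemma XX_zero {ι κ : Type} (f : MM ι κ) : XX (0 : ι → ℝ) f = f := by
  rw [XX_apply]
  refine Prod.ext (funext fun i => ?_) rfl
  exact exJ_zero (f.1 i)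

open scoped Classical in
/-- splitting of the model space along a predicate -/
noncomputable def splitMM {ι κ : Type} (p : ι → Prop) :
    MM ι κ ≃ₗ[ℝ] ({i // p i} → Fin 3 → ℝ) × (({i // ¬ p i} → Fin 3 → ℝ) × (κ → ℝ)) where
  toFun f := (fun i => f.1 i.1, (fun i => f.1 i.1, f.2))
  map_add' f g := rfl
  map_smul' c f := rfl
  invFun g := (fun i => if h : p i then g.1 ⟨i, h⟩ else g.2.1 ⟨i, h⟩, g.2.2)
  left_inv f := by
    refine Prod.ext (funext fun i => ?_) rfl
    by_cases h : p i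
    · simp [h]
    · simp [h]
  right_inv g := by
    refine Prod.ext (funext fun i => ?_) (Prod.ext (funext fun i => ?_) rfl)
    · simp [i.2]
    · simp [i.2]

lemma splitMM_XX {ι κ : Type} (p : ι → Prop) (x : ι → ℝ) (hx : ∀ i, ¬ p i → x i = 0)
    (f : MM ι κ) :
    splitMM p (XX x f) = (fun i => exJ (x i.1) ((splitMM p f).1 i), (splitMM p f).2) := by
  refine Prod.ext (funext fun i => rfl) (Prod.ext (funext fun i => ?_) rfl)
  change exJ (x i.1) (f.1 i.1) = f.1 i.1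
  rw [hx i.1 i.2, exJ_zero]

/-- the scaled permutation of blocks -/
noncomputable def blockEquiv {α β : Type} (e : α ≃ β) (c : α → ℝ) (hc : ∀ i, c i ≠ 0) :
    (α → Fin 3 → ℝ) ≃ₗ[ℝ] (β → Fin 3 → ℝ) :=
  (LinearEquiv.piCongrRight fun i => sc (c i) (hc i)).trans
    (LinearEquiv.funCongrLeft ℝ (Fin 3 → ℝ) e.symm)

lemma blockEquiv_apply {α β : Type} (e : α ≃ β) (c : α → ℝ) (hc : ∀ i, c i ≠ 0)
    (f : α → Fin 3 → ℝ) (j : β) :
    blockEquiv e c hc f j = sc (c (e.symm j)) (hc (e.symm j)) (f (e.symm j)) := rfl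

lemma finrank_MM (ι κ : Type) [Fintype ι] [Fintype κ] :
    Module.finrank ℝ (MM ι κ) = Fintype.card ι * 3 + Fintype.card κ := by
  rw [Module.finrank_prod, Module.finrank_pi_fintype]
  simp

lemma Psi_zpow {V : Type} [AddCommGroup V] [Module ℝ V] {d : ℕ} {ι κ : Type} (a : ι → ℝ)
    (r : V ≃ₗ[ℝ] V) (Ψ : V ≃ₗ[ℝ] (ZMod d → MM ι κ))
    (h : ∀ v k, Ψ (r v) k = XX a (Ψ v (k + 1))) (n : ℤ) :
    ∀ v k, Ψ ((r ^ n) v) k = XX ((n : ℝ) • a) (Ψ v (k + (n : ZMod d))) := by
  induction n using Int.induction_on with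
  | zero =>
    intro v k
    rw [zpow_zero]
    simp only [Int.cast_zero, zero_smul, add_zero, XX_zero]
    rfl
  | succ n ih =>
    intro v k
    rw [zpow_add_one, LinearEquiv.mul_apply, ih, h]
    have e1 : ((((n : ℤ) + 1 : ℤ) : ℝ)) • a = (((n : ℤ) : ℝ)) • a + a := by
      push_cast
      rw [add_smul, one_smul]
    rw [e1, XX_add]
    have e2 : k + ((((n : ℤ) + 1 : ℤ) : ZMod d)) = k + (((n : ℤ) : ZMod d)) + 1 := by
      push_cast
      ring
    rw [e2]
  | pred n ih =>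
    intro v k
    rw [zpow_sub_one, LinearEquiv.mul_apply, ih]
    have h1 : ∀ k', Ψ v k' = XX a (Ψ (r⁻¹ v) (k' + 1)) := by
      intro k'
      rw [← h]
      have : r (r⁻¹ v) = v := r.apply_symm_apply v
      rw [this]
    have h2 : ∀ k', Ψ (r⁻¹ v) (k' + 1) = XX (-a) (Ψ v k') := by
      intro k'
      rw [h1 k', ← XX_add, neg_add_cancel, XX_zero]
    have e2 : k + (((-(n : ℤ) : ℤ) : ZMod d)) = (k + (((-(n : ℤ) - 1 : ℤ) : ZMod d))) + 1 := by
      push_cast
      ring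
    rw [e2, h2, ← XX_add]
    have e1 : ((((-(n : ℤ) - 1 : ℤ)) : ℝ)) • a = (((-(n : ℤ) : ℤ) : ℝ)) • a + -a := by
      push_cast
      rw [sub_smul, one_smul, sub_eq_add_neg]
    rw [e1]

open scoped Classical in
theorem exists_B {V : Type} [AddCommGroup V] [Module ℝ V] [FiniteDimensional ℝ V] {d : ℕ} (hd : 0 < d)
    (r s t : V ≃ₗ[ℝ] V) (Mr Ms : Multiset (ℝ × ℝ)) (hr : HasNF d r t Mr) (hs : HasNF d s t Ms) (m : ℤ)
    (hm : (d : ℤ) ∣ m)
    (hcl : (Mr.map (fun p => cl (p.1, m * p.1 + p.2))).filter (fun v => v ≠ none) =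
      (Ms.map cl).filter (fun v => v ≠ none)) :
    ∃ B : V ≃ₗ[ℝ] V, (∀ v, B (r v) = s (B v)) ∧ ∀ v, B ((r ^ m) (t v)) = t (B v) := by
  obtain ⟨ι, κ, hι, hκ, a, b, Ψ, hMr, hΨr, hΨt⟩ := hr
  obtain ⟨ι', κ', hι', hκ', a', b', Ψ', hMs, hΨs, hΨt'⟩ := hs
  subst hMr
  subst hMs
  have : NeZero d := ⟨hd.ne'⟩
  rw [Multiset.map_map, Multiset.map_map] at hcl
  set f : ι → Option (Option ℝ) := fun i => cl (a i, m * a i + b i) with hf
  set g : ι' → Option (Option ℝ) := fun j => cl (a' j, b' j) with hg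
  obtain ⟨e, he⟩ := exists_equiv_cl f g hcl
  have hc : ∀ i : {i // f i ≠ none}, ∃ c : ℝ, c ≠ 0 ∧ a i.1 = c * a' (e i).1 ∧
      m * a i.1 + b i.1 = c * b' (e i).1 := fun i => cl_eq (he i) i.2
  choose c hc0 hca hcb using hc
  have ha0 : ∀ i, ¬ (f i ≠ none) → a i = 0 ∧ m * a i + b i = 0 := fun i hi =>
    cl_eq_none (not_not.1 hi)
  have ha0' : ∀ j, ¬ (g j ≠ none) → a' j = 0 ∧ b' j = 0 := fun j hj =>
    cl_eq_none (not_not.1 hj)
  -- dimensions
  have hdim : Module.finrank ℝ (MM ι κ) = Module.finrank ℝ (MM ι' κ') := by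
    have h1 := LinearEquiv.finrank_eq (Ψ.symm.trans Ψ')
    rw [Module.finrank_pi_fintype, Module.finrank_pi_fintype] at h1
    simp only [Finset.sum_const, smul_eq_mul, Finset.card_univ, ZMod.card] at h1
    exact Nat.eq_of_mul_eq_mul_left hd h1
  have hdim2 : Module.finrank ℝ (({i // ¬ (f i ≠ none)} → Fin 3 → ℝ) × (κ → ℝ)) =
      Module.finrank ℝ (({j // ¬ (g j ≠ none)} → Fin 3 → ℝ) × (κ' → ℝ)) := by
    have h1 := (LinearEquiv.finrank_eq (splitMM (κ := κ) (fun i => f i ≠ none))).trans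
      Module.finrank_prod
    have h2 := (LinearEquiv.finrank_eq (splitMM (κ := κ') (fun j => g j ≠ none))).trans
      Module.finrank_prod
    have h3 := LinearEquiv.finrank_eq (blockEquiv e c hc0)
    rw [h3, hdim, h2] at h1
    exact (Nat.add_left_cancel h1).symm
  let Θ₀ := LinearEquiv.ofFinrankEq _ _ hdim2
  let Θ : MM ι κ ≃ₗ[ℝ] MM ι' κ' := (splitMM (κ := κ) (fun i => f i ≠ none)).trans
    (((blockEquiv e c hc0).prodCongr Θ₀).trans (splitMM (κ := κ') (fun j => g j ≠ none)).symm)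
  have hΘ : ∀ (x : ι → ℝ) (x' : ι' → ℝ), (∀ i, ¬ (f i ≠ none) → x i = 0) →
      (∀ j, ¬ (g j ≠ none) → x' j = 0) → (∀ i : {i // f i ≠ none}, x i.1 = c i * x' (e i).1) →
      ∀ F, Θ (XX x F) = XX x' (Θ F) := by
    intro x x' hx hx' hxx F
    apply (splitMM (κ := κ') (fun j => g j ≠ none)).injective
    rw [splitMM_XX _ _ hx']
    change (splitMM (κ := κ') (fun j => g j ≠ none))
      ((splitMM (κ := κ') (fun j => g j ≠ none)).symm (((blockEquiv e c hc0).prodCongr Θ₀)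
        (splitMM (κ := κ) (fun i => f i ≠ none) (XX x F)))) = _
    have h2 : splitMM (κ := κ') (fun j => g j ≠ none) (Θ F) =
        ((blockEquiv e c hc0).prodCongr Θ₀) (splitMM (κ := κ) (fun i => f i ≠ none) F) :=
      LinearEquiv.apply_symm_apply _ _
    rw [LinearEquiv.apply_symm_apply, h2, splitMM_XX _ _ hx]
    refine Prod.ext (funext fun j => ?_) rfl
    change blockEquiv e c hc0 (fun i => exJ (x i.1) ((splitMM (κ := κ) (fun i => f i ≠ none) F).1 i)) j
      = exJ (x' j.1) (blockEquiv e c hc0 (splitMM (κ := κ) (fun i => f i ≠ none) F).1 j)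
    rw [blockEquiv_apply, blockEquiv_apply]
    have h3 := hxx (e.symm j)
    rw [Equiv.apply_symm_apply] at h3
    rw [h3, sc_exJ]
  have hΘa := hΘ a a' (fun i hi => (ha0 i hi).1) (fun j hj => (ha0' j hj).1) hca
  have hΘb := hΘ ((m : ℝ) • a + b) b' (fun i hi => (ha0 i hi).2) (fun j hj => (ha0' j hj).2) hcb
  let B : V ≃ₗ[ℝ] V := Ψ.trans ((LinearEquiv.piCongrRight fun _ : ZMod d => Θ).trans Ψ'.symm)
  have hB : ∀ v k, Ψ' (B v) k = Θ (Ψ v k) := by
    intro v k
    have : Ψ' (B v) = (LinearEquiv.piCongrRight fun _ : ZMod d => Θ) (Ψ v) :=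
      LinearEquiv.apply_symm_apply _ _
    rw [this]
    rfl
  refine ⟨B, fun v => ?_, fun v => ?_⟩
  · apply Ψ'.injective
    funext k
    rw [hB, hΨr, hΨs, hB, hΘa]
  · apply Ψ'.injective
    funext k
    have hm0 : ((m : ℤ) : ZMod d) = 0 := (ZMod.intCast_zmod_eq_zero_iff_dvd m d).2 hm
    rw [hB, Psi_zpow a r Ψ hΨr, hm0, add_zero, hΨt, ← XX_add, hΘb, hΨt', hB]

end Pool.Agent.Helper53.LG
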