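import Pool.Agent.Helper53.LG.Geo
import Pool.Agent.Helper53.LG.Gadget
import Pool.Agent.Helper53.LG.NFiso

/-!
# LG-36: the family of cochains

`Mtot C Zc i = replicate (card Q * n i) (1, 0) + ∑_{(a, μ) ∈ Zc} (valM a i).map (·, μ)`.

`exists_M`: `M : B → ℕ` with `card Q + M b = card Q * n (root b) + ∑_{b'} M b' * occ b' (root b)`, where `occ b' ρ` is the number of
`κ < n ρ` with `(S.w (inr ρ) κ).1 = inr b'`: strong recursion on `rk b` (`occ b' (root b) = 0` unless `rk b' < rk b` by `low`;
`1 ≤ n`). (Existence by induction on `r` of a function `M` satisfying the equation for all `b` with `rk b < r`.)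

`family`: let `A b = card Q + M b > 0`. `Zc = [(0, 1)] ++` for every `b` `M b` copies of `(a_b, 0)` where `a_b = Pi.single (1, inr b) 1` `++` for
every `b` `A b` copies of the list of `(real z, 1)`, `z ∈ gadget b` (`gadget D m hm hinj C.dd`; `exists_real`; `C.dd i > 0`).
Let `r = inr (root b)`, `s = inl b`, `m = m b`. The nonzero values: for `μ = 0`: `valM a_{b'} i` has `occ` nonzero values (`geo_single`), so in
`Mtot s` there are `M b` pairs `(w, 0)` with `w ≠ 0` (the word `inl b` is the letter `inr b`), in `Mtot r` there are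
`∑ M b' * occ b' (root b)`. For `μ = 1`: let `K_i` be the multiset of the nonzero values `v` of all `(v, 1)` in `Mtot i`:
`K_s = K_r.map (nuinv m)` and `K_r.count (-1 / m) = A b` (sum over the gadgets with multiplicities: `∑_{b'} A b' * [b' = b]`).
Number of the pairs `(0, 1)`: total number of cosets (`card Q / dd i` per cochain, the same for `r` and `s` since
`dd s = dd r` by `hN`) minus the number of nonzero ones, so it is the same number `z` for `r` and `s`.
Classes of `Mtot s`: `(1, 0)` (`card Q` times) and `(w, 0)` (`M b` times): `some none`, `A b` times; `(w, 1)`, `w ∈ K_s`: `some (some w)`;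
`(0, 1)`: `some (some 0)`, `z` times; `(0, 0)`: `none`.
Classes of `(x, m x + y)`, `(x, y) ∈ Mtot r`: `(1, m)`, `(v, m v)`: `some (some (1 / m))`, `card Q * n + ∑ M b' occ = A b` times; `(v, m v + 1)`,
`v ∈ K_r`: `some none` if `v = -1 / m` (`A b` times), else `some (some (v / (m v + 1)))`; `(0, 1)`: `some (some 0)`, `z` times.
Write `K_r = replicate (A b) (-1 / m) + K'`, `-1 / m ∉ K'`; then `K_s = replicate (A b) (1 / m) + K'.map (fun v => v / (1 + m v))`, and both
sides are `replicate (A b) (some none) + replicate (A b) (some (some (1 / m))) + K'.map … + replicate z (some (some 0))`.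
-/

namespace Pool.Agent.Helper53.LG

variable {Y I : Type} [Fintype Y] [Fintype I] {S : WSys Y I} {Q : Type} [Group Q] [Fintype Q]

/-- the normal form data of the total space -/
noncomputable def Mtot (C : Cover S Q) (Zc : List ((Q × Y → ℝ) × ℝ)) (i : I) : Multiset (ℝ × ℝ) :=
  Multiset.replicate (Fintype.card Q * S.n i) (1, 0) + (Zc.map fun z => (C.valM z.1 i).map fun v => (v, z.2)).sum

open scoped Classical in
theorem exists_M (D : NDW) (q : ℕ) : ∃ M : D.B → ℕ, ∀ b, q + M b = q * D.S.n (Sum.inr (D.root b)) +
    ∑ b', M b' * ((Finset.range (D.S.n (Sum.inr (D.root b)))).filter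
      fun κ : ℕ => (D.S.w (Sum.inr (D.root b)) κ).1 = Sum.inr b').card := by
  set occ : D.B → D.B → ℕ := fun b' b => ((Finset.range (D.S.n (Sum.inr (D.root b)))).filter
      fun κ : ℕ => (D.S.w (Sum.inr (D.root b)) κ).1 = Sum.inr b').card with hocc
  have h0 : ∀ b' b, ¬ D.rk b' < D.rk b → occ b' b = 0 := by
    intro b' b h
    rw [hocc]
    simp only [Finset.card_eq_zero, Finset.filter_eq_empty_iff]
    intro κ _ h1
    exact h (D.low b b' κ h1)
  have key : ∀ r, ∃ M : D.B → ℕ, ∀ b, D.rk b < r →
      q + M b = q * D.S.n (Sum.inr (D.root b)) + ∑ b', M b' * occ b' b := by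
    intro r
    induction r with
    | zero => exact ⟨fun _ => 0, fun b hb => absurd hb (Nat.not_lt_zero _)⟩
    | succ r ih =>
      obtain ⟨M, hM⟩ := ih
      refine ⟨fun b => if D.rk b = r then q * (D.S.n (Sum.inr (D.root b)) - 1) +
        ∑ b', M b' * occ b' b else M b, ?_⟩
      intro b hb
      have hsum : ∑ b', (if D.rk b' = r then q * (D.S.n (Sum.inr (D.root b')) - 1) +
          ∑ b'', M b'' * occ b'' b' else M b') * occ b' b = ∑ b', M b' * occ b' b := by
        apply Finset.sum_congr rfl
        intro b' _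
        by_cases h1 : D.rk b' < D.rk b
        · rw [if_neg (by omega)]
        · rw [h0 b' b h1, mul_zero, mul_zero]
      beta_reduce
      rw [hsum]
      by_cases h2 : D.rk b = r
      · rw [if_pos h2]
        obtain ⟨n', hn'⟩ : ∃ n', D.S.n (Sum.inr (D.root b)) = n' + 1 :=
          ⟨D.S.n (Sum.inr (D.root b)) - 1, by have := D.S.npos (Sum.inr (D.root b)); omega⟩
        rw [hn', Nat.add_sub_cancel, mul_add, mul_one]
        ring
      · rw [if_neg h2]
        exact hM b (by omega)
  obtain ⟨M, hM⟩ := key (Finset.univ.sup D.rk + 1)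
  exact ⟨M, fun b => hM b (Nat.lt_succ_of_le (Finset.le_sup (Finset.mem_univ b)))⟩

private lemma fam_cl_a (v : ℝ) (hv : v ≠ 0) : cl (v, 0) = some none := by
  unfold cl
  rw [if_pos rfl, if_neg hv]

private lemma fam_cl_z : cl (0, 0) = none := by
  unfold cl
  rw [if_pos rfl, if_pos rfl]

private lemma fam_cl_b (v w : ℝ) (hw : w ≠ 0) : cl (v, w) = some (some (v / w)) := by
  unfold cl
  rw [if_neg hw]

open scoped Classical in
private lemma fam_s0 (T : Multiset ℝ) :
    ((T.map (fun v => (v, (0 : ℝ)))).map cl).filter (fun v => v ≠ none) =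
      Multiset.replicate (T.filter (fun v => v ≠ 0)).card (some none) := by
  induction T using Multiset.induction_on with
  | empty => simp
  | cons v T ih =>
    rw [Multiset.map_cons, Multiset.map_cons]
    by_cases hv : v = 0
    · rw [Multiset.filter_cons_of_neg, Multiset.filter_cons_of_neg, ih]
      · simpa using hv
      · rw [hv, fam_cl_z]
        simp
    · rw [Multiset.filter_cons_of_pos, Multiset.filter_cons_of_pos, ih, Multiset.card_cons,
        Multiset.replicate_succ, fam_cl_a v hv]
      · exact hv
      · rw [fam_cl_a v hv]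
        simp

open scoped Classical in
private lemma fam_r0 (m : ℝ) (hm : m ≠ 0) (T : Multiset ℝ) :
    ((T.map (fun v => (v, (0 : ℝ)))).map (fun p => cl (p.1, m * p.1 + p.2))).filter
      (fun v => v ≠ none) =
      Multiset.replicate (T.filter (fun v => v ≠ 0)).card (some (some (1 / m))) := by
  induction T using Multiset.induction_on with
  | empty => simp
  | cons v T ih =>
    rw [Multiset.map_cons, Multiset.map_cons]
    by_cases hv : v = 0
    · rw [Multiset.filter_cons_of_neg, Multiset.filter_cons_of_neg, ih]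
      · simpa using hv
      · rw [hv]
        dsimp only
        rw [mul_zero, add_zero, fam_cl_z]
        simp
    · have h1 : cl (v, m * v + 0) = some (some (1 / m)) := by
        rw [add_zero, fam_cl_b v _ (mul_ne_zero hm hv)]
        congr 2
        field_simp
      rw [Multiset.filter_cons_of_pos, Multiset.filter_cons_of_pos, ih, Multiset.card_cons,
        Multiset.replicate_succ]
      · dsimp only
        rw [h1]
      · exact hv
      · dsimp only
        rw [h1]
        simp

open scoped Classical in
private lemma fam_s1 (T : Multiset ℝ) :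
    ((T.map (fun v => (v, (1 : ℝ)))).map cl).filter (fun v => v ≠ none) =
      T.map (fun v => some (some v)) := by
  rw [Multiset.map_map, Multiset.filter_eq_self.2]
  · apply Multiset.map_congr rfl
    intro v _
    change cl (v, 1) = _
    rw [fam_cl_b v 1 one_ne_zero, div_one]
  · intro w hw
    obtain ⟨v, _, rfl⟩ := Multiset.mem_map.1 hw
    change cl (v, 1) ≠ none
    rw [fam_cl_b v 1 one_ne_zero]
    simp

/-- the transformed class -/
private noncomputable def fam_h (m v : ℝ) : Option (Option ℝ) :=
  open scoped Classical in if v = -1 / m then some none else some (some (v / (1 + m * v)))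

private lemma fam_h_eq (m : ℝ) (hm : m ≠ 0) (v : ℝ) : cl (v, m * v + 1) = fam_h m v := by
  unfold fam_h
  split_ifs with h
  · have h1 : m * v + 1 = 0 := by
      rw [h]
      field_simp
      ring
    rw [h1]
    apply fam_cl_a
    rw [h]
    exact div_ne_zero (by norm_num) hm
  · have h1 : m * v + 1 ≠ 0 := by
      intro h2
      apply h
      rw [eq_div_iff hm]
      linarith
    rw [fam_cl_b v _ h1, add_comm]

open scoped Classical in
private lemma fam_r1 (m : ℝ) (hm : m ≠ 0) (T : Multiset ℝ) :
    ((T.map (fun v => (v, (1 : ℝ)))).map (fun p => cl (p.1, m * p.1 + p.2))).filter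
      (fun v => v ≠ none) = T.map (fam_h m) := by
  rw [Multiset.map_map, Multiset.filter_eq_self.2]
  · apply Multiset.map_congr rfl
    intro v _
    exact fam_h_eq m hm v
  · intro w hw
    obtain ⟨v, _, rfl⟩ := Multiset.mem_map.1 hw
    change cl (v, m * v + 1) ≠ none
    rw [fam_h_eq m hm v]
    unfold fam_h
    split_ifs <;> simp

omit [Fintype Y] [Fintype I] in
private lemma fam_card (C : Cover S Q) (a : Q × Y → ℝ) (i : I) :
    (C.valM a i).card * C.dd i = Fintype.card Q := by
  unfold Cover.valM
  rw [Multiset.card_map]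
  have h1 := Subgroup.card_eq_card_quotient_mul_card_subgroup
    (Subgroup.zpowers (evQ C.g (cwS S i)))
  rw [Nat.card_zpowers, order_cwS] at h1
  rw [← Nat.card_eq_fintype_card, h1]
  congr 1
  exact (@Nat.card_eq_fintype_card _ (Fintype.ofFinite _)).symm

omit [Fintype Y] [Fintype I] in
private lemma fam_ddpos (C : Cover S Q) (i : I) : 0 < C.dd i := by
  unfold Cover.dd
  have h3 := C.Npos i
  exact Nat.div_pos (Nat.le_of_dvd (by omega) (C.nN i)) (S.npos i)

omit [Fintype Y] [Fintype I] [Fintype Q] in
private lemma fam_coc_zero (C : Cover S Q) (l : FreeGroup Y) :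
    ∀ q, coc C.g (fun e : Q × Y => Multiplicative.ofAdd ((0 : Q × Y → ℝ) e)) l q = 1 := by
  induction l using FreeGroup.induction_on with
  | C1 => intro q; exact coc_one _ _ q
  | of y => intro q; rw [coc_of]; rfl
  | inv_of y h => intro q; rw [coc_inv, h, inv_one]
  | mul x y hx hy => intro q; rw [coc_mul, hx, hy, one_mul]

omit [Fintype Y] [Fintype I] in
open scoped Classical in
private lemma fam_val_zero (C : Cover S Q) (i : I) :
    (C.valM (0 : Q × Y → ℝ) i).filter (fun v => v ≠ 0) = 0 := by
  rw [Multiset.filter_eq_nil]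
  intro v hv
  unfold Cover.valM at hv
  obtain ⟨o, _, rfl⟩ := Multiset.mem_map.1 hv
  rw [not_not]
  unfold Cover.val Cover.cv
  rw [fam_coc_zero]
  simp

omit [Fintype Y] [Fintype I] in
private lemma fam_P (C : Cover S Q) (L : List (Q × Y → ℝ)) (μ : ℝ) (i : I) :
    ((L.map (fun a => (a, μ))).map fun z => (C.valM z.1 i).map fun v => (v, z.2)).sum =
      ((L.map (fun a => C.valM a i)).sum).map (fun v => (v, μ)) := by
  induction L with
  | nil => simp
  | cons a L ih => rw [List.map_cons, List.map_cons, List.sum_cons, ih, List.map_cons, List.sum_cons,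
      Multiset.map_add]

omit [Fintype Y] [Fintype I] in
open scoped Classical in
private lemma fam_F (C : Cover S Q) (L : List (Q × Y → ℝ)) (i : I) :
    ((L.map (fun a => C.valM a i)).sum).filter (fun v => v ≠ 0) =
      (L.map (fun a => (C.valM a i).filter (fun v => v ≠ 0))).sum := by
  induction L with
  | nil => simp
  | cons a L ih => rw [List.map_cons, List.sum_cons, Multiset.filter_add, ih, List.map_cons,
      List.sum_cons]

omit [Fintype Y] [Fintype I] in
private lemma fam_len (C : Cover S Q) (L : List (Q × Y → ℝ)) (i : I) :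
    ((L.map (fun a => C.valM a i)).sum).card = L.length * (C.valM 0 i).card := by
  induction L with
  | nil => simp
  | cons a L ih =>
    rw [List.map_cons, List.sum_cons, Multiset.card_add, ih, List.length_cons, add_mul, one_mul,
      add_comm]
    congr 1
    unfold Cover.valM
    rw [Multiset.card_map, Multiset.card_map]

private lemma fam_flat {α β : Type} (l : List α) (f : α → List β) (F : β → Multiset ℝ) :
    ((l.flatMap f).map F).sum = (l.map (fun b => ((f b).map F).sum)).sum := by
  induction l with
  | nil => simp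
  | cons a l ih => rw [List.flatMap_cons, List.map_append, List.sum_append, ih, List.map_cons,
      List.sum_cons]

private lemma fam_rep {β : Type} (n : ℕ) (l : List β) (F : β → Multiset ℝ) :
    (((List.replicate n l).flatten).map F).sum = n • (l.map F).sum := by
  induction n with
  | zero => simp
  | succ n ih => rw [List.replicate_succ, List.flatten_cons, List.map_append, List.sum_append, ih,
      add_smul, one_smul, add_comm]

open scoped Classical in
private lemma fam_split (T : Multiset ℝ) :
    T = T.filter (fun v => v ≠ 0) + Multiset.replicate (T.card - (T.filter (fun v => v ≠ 0)).card) 0 := by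
  have h1 := Multiset.filter_add_not (fun v : ℝ => v ≠ 0) T
  have h2 : T.filter (fun v => ¬ (v ≠ 0)) = Multiset.replicate
      (T.filter (fun v => ¬ (v ≠ 0))).card 0 := by
    rw [Multiset.eq_replicate]
    refine ⟨rfl, ?_⟩
    intro v hv
    have := (Multiset.mem_filter.1 hv).2
    rwa [not_not] at this
  have h3 := congrArg Multiset.card h1
  rw [Multiset.card_add] at h3
  have h4 : T.card - (T.filter (fun v => v ≠ 0)).card = (T.filter (fun v => ¬ (v ≠ 0))).card := by
    omega
  rw [h4, ← h2, h1]

private lemma fam_sgl_card {Y' I' : Type} (S' : WSys Y' I') (d : I' → ℕ) (y : Y') (x : ℝ) (i : I')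
    (dec : DecidablePred fun κ : ℕ => (S'.w i κ).1 = y) :
    (sgl S' d y x i).card =
      (@Finset.filter ℕ (fun κ : ℕ => (S'.w i κ).1 = y) dec (Finset.range (S'.n i))).card := by
  unfold sgl
  rw [Multiset.card_map, Finset.card_val]
  congr

private lemma fam_single (C : Cover S Q) (i : I) [d1 : DecidableEq (Q × Y)]
    [d2 : DecidablePred fun v : ℝ => v ≠ 0] (e : Q × Y) (x : ℝ) (hx : x ≠ 0) :
    (C.valM (Pi.single e x) i).filter (fun v => v ≠ 0) = sgl S C.dd e.2 x i := by
  have h := geo_single C i e x hx
  have e1 : d1 = fun a b => @instDecidableEqProd Q Y (fun a b => Classical.propDecidable (a = b))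
    (fun a b => Classical.propDecidable (a = b)) a b := Subsingleton.elim _ _
  have e2 : d2 = fun a => @instDecidableNot (a = 0) (Classical.propDecidable (a = 0)) :=
    Subsingleton.elim _ _
  subst e1
  subst e2
  exact h

open scoped Classical in
theorem family (D : NDW) (m : D.B → ℤ) (hm : ∀ b, m b ≠ 0)
    (hinj : ∀ b b', D.root b = D.root b' → m b = m b' → b = b') (C : Cover D.S Q) {R0 : ℕ} (hL : C.Long R0)
    (hN : ∀ b : D.B, C.N (Sum.inl b) * D.S.n (Sum.inr (D.root b)) = C.N (Sum.inr (D.root b))) :
    ∃ Zc : List ((Q × (D.X ⊕ D.B) → ℝ) × ℝ), (0, 1) ∈ Zc ∧ ∀ b,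
      ((Mtot C Zc (Sum.inr (D.root b))).map (fun p => cl (p.1, m b * p.1 + p.2))).filter (fun v => v ≠ none) =
        ((Mtot C Zc (Sum.inl b)).map cl).filter (fun v => v ≠ none) := by
  obtain ⟨M, hM⟩ := exists_M D (Fintype.card Q)
  have hd : ∀ i, 0 < C.dd i := fam_ddpos C
  choose gad g1 g2 g3 using fun b0 => gadget D m hm hinj C.dd hd b0
  choose real hreal using fun (z : {z : FCo (D.X ⊕ D.B) (D.B ⊕ D.R) // FVal z}) =>
    exists_real C hL z.1 z.2
  set A : D.B → ℕ := fun b => Fintype.card Q + M b with hA
  set L0 : List (Q × (D.X ⊕ D.B) → ℝ) := (Finset.univ : Finset D.B).toList.flatMap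
    (fun b' => (List.replicate (M b') [Pi.single ((1 : Q), (Sum.inr b' : D.X ⊕ D.B)) (1 : ℝ)]).flatten) with hL0
  set gl : D.B → List (Q × (D.X ⊕ D.B) → ℝ) := fun b' =>
    (gad b').attach.map (fun z => real ⟨z.1, g1 b' z.1 z.2⟩) with hgl
  set L1 : List (Q × (D.X ⊕ D.B) → ℝ) := 0 :: (Finset.univ : Finset D.B).toList.flatMap
    (fun b' => (List.replicate (A b') (gl b')).flatten) with hL1
  have hF0 : ∀ i, ((L0.map (fun a => C.valM a i)).sum).filter (fun v => v ≠ 0) =
      ∑ b', M b' • sgl D.S C.dd (Sum.inr b') 1 i := by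
    intro i
    rw [fam_F, hL0, fam_flat, Finset.sum_map_toList]
    apply Finset.sum_congr rfl
    intro b' _
    rw [fam_rep, List.map_singleton, List.sum_singleton, fam_single C i _ 1 one_ne_zero]
  have hgs : ∀ b' i, ((gl b').map (fun a => (C.valM a i).filter (fun v => v ≠ 0))).sum =
      cellsL D.S C.dd i (gad b') := by
    intro b' i
    unfold cellsL
    rw [hgl]
    dsimp only
    rw [List.map_map]
    congr 1
    conv_rhs => rw [← List.attach_map_subtype_val (gad b'), List.map_map]
    apply List.map_congr_left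
    intro z _
    exact hreal ⟨z.1, g1 b' z.1 z.2⟩ i
  have hF1 : ∀ i, ((L1.map (fun a => C.valM a i)).sum).filter (fun v => v ≠ 0) =
      ∑ b', A b' • cellsL D.S C.dd i (gad b') := by
    intro i
    rw [fam_F, hL1, List.map_cons, List.sum_cons, fam_val_zero, zero_add, fam_flat, Finset.sum_map_toList]
    apply Finset.sum_congr rfl
    intro b' _
    rw [fam_rep, hgs]
  refine ⟨L0.map (fun a => (a, 0)) ++ L1.map (fun a => (a, 1)), ?_, ?_⟩
  · rw [List.mem_append]
    right
    rw [List.mem_map]
    exact ⟨0, by rw [hL1]; exact List.mem_cons_self, rfl⟩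
  intro b
  have hmR : (m b : ℝ) ≠ 0 := by exact_mod_cast hm b
  have hMt : ∀ i, Mtot C (L0.map (fun a => (a, 0)) ++ L1.map (fun a => (a, 1))) i =
      Multiset.replicate (Fintype.card Q * D.S.n i) (1, 0) +
      (((L0.map (fun a => C.valM a i)).sum).map (fun v => (v, 0)) +
        ((L1.map (fun a => C.valM a i)).sum).map (fun v => (v, 1))) := by
    intro i
    unfold Mtot
    rw [List.map_append, List.sum_append, fam_P, fam_P]
  rw [hMt, hMt, Multiset.map_add, Multiset.map_add, Multiset.map_add, Multiset.map_add,
    Multiset.filter_add, Multiset.filter_add, Multiset.filter_add, Multiset.filter_add,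
    fam_s0, fam_r0 _ hmR, fam_s1, fam_r1 _ hmR, Multiset.map_replicate, Multiset.map_replicate]
  have hr1 : (Multiset.replicate (Fintype.card Q * D.S.n (Sum.inr (D.root b)))
      (cl (((1 : ℝ), (0 : ℝ)).1, (m b : ℝ) * ((1 : ℝ), (0 : ℝ)).1 + ((1 : ℝ), (0 : ℝ)).2))).filter
        (fun v => v ≠ none) = Multiset.replicate (Fintype.card Q * D.S.n (Sum.inr (D.root b)))
          (some (some (1 / (m b : ℝ)))) := by
    dsimp only
    rw [mul_one, add_zero, fam_cl_b 1 _ hmR, Multiset.filter_eq_self.2]
    intro v hv
    rw [Multiset.eq_of_mem_replicate hv]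
    simp
  have hs1 : (Multiset.replicate (Fintype.card Q * D.S.n (Sum.inl b))
      (cl ((1 : ℝ), (0 : ℝ)))).filter
        (fun v => v ≠ none) = Multiset.replicate (Fintype.card Q)
          (some none) := by
    rw [fam_cl_a 1 one_ne_zero, D.nB, mul_one, Multiset.filter_eq_self.2]
    intro v hv
    rw [Multiset.eq_of_mem_replicate hv]
    simp
  rw [hr1, hs1]
  have hMs : Multiset.card (((L0.map (fun a => C.valM a (Sum.inl b))).sum).filter (fun v => v ≠ 0)) =
      M b := by
    rw [hF0, Multiset.card_sum, Finset.sum_eq_single b]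
    · rw [Multiset.card_nsmul, fam_sgl_card D.S C.dd _ 1 (Sum.inl b) (fun κ => inferInstance),
        Finset.filter_true_of_mem, Finset.card_range, D.nB]
      · simp
      · intro κ _
        rw [D.wB]
    · intro b' _ hb'
      rw [Multiset.card_nsmul, fam_sgl_card D.S C.dd _ 1 (Sum.inl b) (fun κ => inferInstance),
        Finset.filter_false_of_mem, Finset.card_empty]
      · simp
      · intro κ _ h
        rw [D.wB] at h
        exact hb' (Sum.inr.inj h).symm
    · intro h
      exact absurd (Finset.mem_univ b) h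
  have hMr : Fintype.card Q * D.S.n (Sum.inr (D.root b)) +
      Multiset.card (((L0.map (fun a => C.valM a (Sum.inr (D.root b)))).sum).filter
        (fun v => v ≠ 0)) = A b := by
    rw [hA]
    dsimp only
    rw [hM b, hF0, Multiset.card_sum]
    congr 1
    apply Finset.sum_congr rfl
    intro b' _
    rw [Multiset.card_nsmul, fam_sgl_card D.S C.dd _ 1 (Sum.inr (D.root b)) (fun κ => inferInstance)]
  set Tr : Multiset ℝ := (L1.map (fun a => C.valM a (Sum.inr (D.root b)))).sum with hTr
  set Ts : Multiset ℝ := (L1.map (fun a => C.valM a (Sum.inl b))).sum with hTs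
  have hNs : Ts.filter (fun v => v ≠ 0) = (Tr.filter (fun v => v ≠ 0)).map (nuinv (m b)) := by
    rw [hTs, hTr, hF1, hF1, ← Multiset.coe_mapAddMonoidHom, map_sum]
    apply Finset.sum_congr rfl
    intro b' _
    rw [map_nsmul, Multiset.coe_mapAddMonoidHom, ← g2 b' b]
  have hcount : (Tr.filter (fun v => v ≠ 0)).count (-1 / (m b : ℝ)) = A b := by
    rw [hTr, hF1, Multiset.count_sum']
    rw [Finset.sum_eq_single b]
    · rw [Multiset.count_nsmul, g3, if_pos rfl, mul_one]
    · intro b' _ hb'
      rw [Multiset.count_nsmul, g3, if_neg (Ne.symm hb'), mul_zero]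
    · intro h
      exact absurd (Finset.mem_univ b) h
  have hcos : (C.valM (0 : Q × (D.X ⊕ D.B) → ℝ) (Sum.inr (D.root b))).card =
      (C.valM (0 : Q × (D.X ⊕ D.B) → ℝ) (Sum.inl b)).card := by
    have h1 := fam_card C 0 (Sum.inr (D.root b))
    have h2 := fam_card C 0 (Sum.inl b)
    have h3 : C.dd (Sum.inr (D.root b)) = C.dd (Sum.inl b) := by
      unfold Cover.dd
      rw [← hN b, D.nB, Nat.div_one, Nat.mul_div_cancel _ (D.S.npos _)]
    rw [h3, ← h2] at h1
    exact Nat.eq_of_mul_eq_mul_right (hd _) h1
  have hz : Tr.card - (Tr.filter (fun v => v ≠ 0)).card =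
      Ts.card - (Ts.filter (fun v => v ≠ 0)).card := by
    rw [hNs, Multiset.card_map, hTr, hTs, fam_len, fam_len, hcos]
  have hsr := fam_split Tr
  have hss := fam_split Ts
  rw [← hz] at hss
  rw [hNs] at hss
  set Nr : Multiset ℝ := Tr.filter (fun v => v ≠ 0) with hNr
  have hh0 : fam_h (m b) 0 = some (some 0) := by
    unfold fam_h
    rw [if_neg, zero_div]
    intro h
    exact (div_ne_zero (by norm_num : (-1 : ℝ) ≠ 0) hmR) h.symm
  have hNr2 : Nr = Multiset.replicate (A b) (-1 / (m b : ℝ)) + Nr.filter (fun v => ¬ (v = -1 / (m b : ℝ))) := by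
    have h1 := Multiset.filter_add_not (fun v : ℝ => v = -1 / (m b : ℝ)) Nr
    rw [Multiset.filter_eq', hcount] at h1
    exact h1.symm
  set K' : Multiset ℝ := Nr.filter (fun v => ¬ (v = -1 / (m b : ℝ))) with hK'
  have hKm : K'.map (fam_h (m b)) = K'.map (fun v => some (some (nuinv (m b) v))) := by
    apply Multiset.map_congr rfl
    intro v hv
    have h1 : ¬ (v = -1 / (m b : ℝ)) := (Multiset.mem_filter.1 hv).2
    unfold fam_h nuinv
    rw [if_neg h1, if_neg h1]
  have hh1 : fam_h (m b) (-1 / (m b : ℝ)) = some none := by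
    unfold fam_h
    rw [if_pos rfl]
  have hn1 : nuinv (m b) (-1 / (m b : ℝ)) = 1 / (m b : ℝ) := by
    unfold nuinv
    rw [if_pos rfl]
  have hA1 : Multiset.replicate (Fintype.card Q * D.S.n (Sum.inr (D.root b))) (some (some (1 / (m b : ℝ)))) +
      Multiset.replicate (Multiset.card (((L0.map (fun a => C.valM a (Sum.inr (D.root b)))).sum).filter
        (fun v => v ≠ 0))) (some (some (1 / (m b : ℝ)))) =
      Multiset.replicate (A b) (some (some (1 / (m b : ℝ)))) := by
    rw [← Multiset.replicate_add, hMr]
  have hA2 : Multiset.replicate (Fintype.card Q) (some (none : Option ℝ)) +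
      Multiset.replicate (M b) (some none) = Multiset.replicate (A b) (some none) := by
    rw [← Multiset.replicate_add]
  rw [hMs, ← add_assoc, hA1, ← add_assoc, hA2, hsr, hss, Multiset.map_add, Multiset.map_add,
    Multiset.map_replicate, Multiset.map_replicate, hh0, Multiset.map_map, ← add_assoc, ← add_assoc]
  congr 1
  rw [hNr2, Multiset.map_add, Multiset.map_add, Multiset.map_replicate, Multiset.map_replicate,
    hh1, hKm]
  simp only [Function.comp_apply, hn1]
  rw [add_left_comm]

end Pool.Agent.Helper53.LG
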