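import Pool.Agent.Helper53.LG.NDCover
import Pool.Agent.Helper53.LG.Family
import Pool.Agent.Helper53.LG.Br

/-!
# LG-37: existence of the ping-pong data

`exists_nd_cover` gives `Q`, `C`, `Long`, `hN`. `k = card Q`, `m b = k * m0 b` (nonzero, distinct on the fibres of `root`).
`dd i = orderOf (ev c_i)` (`order_cwS`) divides `card Q`, so `(dd i : ℤ) ∣ m b`; `dd (inl b) = dd (inr (root b))` by `hN` (`nB`, `nN`).
`family` (for `m`) gives `Zc`; `J = Fin Zc.length`, `z j = Zc.get j`.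

`V1 = (Q → EE (Q × Y)) × ((j : J) → Q → Fin 3 → ℝ)`, `π1 l = (repE l).prodCongr (piCongrRight fun j => repK (z j).1 l)`,
`T1 = (refl).prodCongr (piCongrRight fun j => piCongrRight fun _ => exJ (z j).2)`. `HasNF (dd i) (π1 c_i) T1 (Mtot C Zc i)`: `nf_prod`, `nf_pi`, `nf_E`, `nf_K`
(the sum over `J` is the sum of the list: `Fin.sum_univ_get` / `List.sum_ofFn`). `exists_B` (`r = π1 (c (inr (root b)))`, `s = π1 (c (inl b))`, `t = T1`)
gives `B1 b` with `B1 (r v) = s (B1 v)`, `B1 (r ^ m (T1 v)) = T1 (B1 v)`.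

`V = V1 × (B ⊕ R → ℝ)`, `π l = (π1 l).prodCongr refl`, `T = T1.prodCongr refl`, `u i = ((uE i, 0), Pi.single i 1)`,
`f i ((x, y), z) = fE i x - ∑_{j ≠ i} z j`, `B0 b = (B1 b).prodCongr (c • id)` with a real number `c ≠ 0` to be chosen.
* `hT`: `exJ μ` commutes with `exJ` (pointwise, `exJ_add`). * `inj`: the first component gives `repE l x = x` for all `x`, so `l = 1`
  (`repE_inj`); then the component `j` with `z j = (0, 1)` gives `exJ j' f = f` for all `f` (`(exJ 1)^j' = exJ j'`), so `j' = 0`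
  (`exJ a (0, 1, 0) = (a, 1, 0)`).
* `πu`, `fπ`: `uE_fix`, `fE_fix`, linearity. `Tu`, `fT`: `T1` is the identity on the first factor and `u i` has zero `J`-component.
* `fu`: `fE_self`, the `i`-th coordinate does not occur. * `f0`: `f i (π l (u j)) = fE i (repE l (uE j)) - [j ≠ i]`; `fE_nonpos`: if `i ≠ j` it is `≤ -1`;
  if `i = j`: `fE_zero`.
* `B0u`: `f (inl b) (B0 b (u r)) = fE (inl b) (B1 (uE r, 0)).1 - c` (`r = inr (root b) ≠ inl b`), `B0v`: `f r ((B0 b)⁻¹ (u (inl b))) =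
  fE r (B1⁻¹ (uE (inl b), 0)).1 - c⁻¹`: choose `c ∉ {0, x, y⁻¹}`.
(`D.cw i = cwS D.S i` by definition.)
-/

namespace Pool.Agent.Helper53.LG

section build

variable (D : NDW) {Q : Type} [Group Q] [Fintype Q] (C : Cover D.S Q)
  (Zc : List ((Q × (D.X ⊕ D.B) → ℝ) × ℝ))

private abbrev V1 : Type := (Q → EE (Q × (D.X ⊕ D.B))) × (Fin Zc.length → Q → Fin 3 → ℝ)

private noncomputable def pi1 : D.F →* (V1 D Zc ≃ₗ[ℝ] V1 D Zc) :=
  MonoidHom.mk' (fun l => (C.repE l).prodCongr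
    (LinearEquiv.piCongrRight fun j : Fin Zc.length => C.repK (Zc.get j).1 l)) (by
    intro a b
    apply LinearEquiv.ext
    intro v
    apply Prod.ext
    · show C.repE (a * b) v.1 = C.repE a (C.repE b v.1)
      rw [map_mul]
      rfl
    · funext j
      show C.repK (Zc.get j).1 (a * b) (v.2 j) = C.repK (Zc.get j).1 a (C.repK (Zc.get j).1 b (v.2 j))
      rw [map_mul]
      rfl)

private noncomputable def T1 : V1 D Zc ≃ₗ[ℝ] V1 D Zc :=
  (LinearEquiv.refl ℝ (Q → EE (Q × (D.X ⊕ D.B)))).prodCongr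
    (LinearEquiv.piCongrRight fun j : Fin Zc.length => LinearEquiv.piCongrRight fun _ : Q =>
      exJ (Zc.get j).2)

private lemma pi1_fst (l : D.F) (v : V1 D Zc) : (pi1 D C Zc l v).1 = C.repE l v.1 := rfl
private lemma pi1_snd (l : D.F) (v : V1 D Zc) (j : Fin Zc.length) :
    (pi1 D C Zc l v).2 j = C.repK (Zc.get j).1 l (v.2 j) := rfl
private lemma T1_fst (v : V1 D Zc) : (T1 D Zc v).1 = v.1 := rfl
private lemma T1_snd (v : V1 D Zc) (j : Fin Zc.length) (q : Q) :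
    (T1 D Zc v).2 j q = exJ (Zc.get j).2 (v.2 j q) := rfl

private lemma T1_pi1 (l : D.F) (v : V1 D Zc) : T1 D Zc (pi1 D C Zc l v) = pi1 D C Zc l (T1 D Zc v) := by
  apply Prod.ext
  · rfl
  · funext j q
    rw [T1_snd, pi1_snd, pi1_snd, repK_apply, repK_apply, T1_snd, ← exJ_add, ← exJ_add, add_comm]

private lemma nf_tot (i : D.B ⊕ D.R) : HasNF (C.dd i) (pi1 D C Zc (D.cw i)) (T1 D Zc) (Mtot C Zc i) := by
  have h1 := nf_E C i
  have h2 : ∀ j : Fin Zc.length, HasNF (C.dd i) (C.repK (Zc.get j).1 (cwS D.S i))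
      (LinearEquiv.piCongrRight fun _ : Q => exJ (Zc.get j).2)
      ((C.valM (Zc.get j).1 i).map fun v => (v, (Zc.get j).2)) := fun j => nf_K C _ _ i
  have h3 := nf_prod h1 (nf_pi _ _ _ h2)
  have h4 : (∑ j : Fin Zc.length, (C.valM (Zc.get j).1 i).map fun v => (v, (Zc.get j).2)) =
      (Zc.map fun z => (C.valM z.1 i).map fun v => (v, z.2)).sum := by
    rw [← List.sum_ofFn]
    congr 1
    apply List.ext_get
    · simp
    · intro n h1 h2
      simp
  rw [h4] at h3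
  exact h3

private noncomputable def TG : Multiplicative ℝ →* (V1 D (Q := Q) Zc ≃ₗ[ℝ] V1 D (Q := Q) Zc) :=
  MonoidHom.mk' (fun c => (LinearEquiv.refl ℝ (Q → EE (Q × (D.X ⊕ D.B)))).prodCongr
    (LinearEquiv.piCongrRight fun j : Fin Zc.length => LinearEquiv.piCongrRight fun _ : Q =>
      exJ (c.toAdd * (Zc.get j).2))) (by
    intro a b
    apply LinearEquiv.ext
    intro v
    apply Prod.ext
    · rfl
    · funext j q
      show exJ ((a * b).toAdd * (Zc.get j).2) (v.2 j q) =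
        exJ (a.toAdd * (Zc.get j).2) (exJ (b.toAdd * (Zc.get j).2) (v.2 j q))
      rw [← exJ_add, toAdd_mul, add_mul])

private lemma T1_zpow (k : ℤ) (v : V1 D (Q := Q) Zc) (j : Fin Zc.length) (q : Q) :
    ((T1 D Zc ^ k) v).2 j q = exJ (k * (Zc.get j).2) (v.2 j q) ∧ ((T1 D Zc ^ k) v).1 = v.1 := by
  have h1 : T1 D (Q := Q) Zc = TG D Zc (Multiplicative.ofAdd 1) := by
    apply LinearEquiv.ext
    intro v
    apply Prod.ext
    · rfl
    · funext j q
      show exJ (Zc.get j).2 (v.2 j q) = exJ ((1 : ℝ) * (Zc.get j).2) (v.2 j q)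
      rw [one_mul]
  have h2 : T1 D (Q := Q) Zc ^ k = TG D Zc (Multiplicative.ofAdd (k : ℝ)) := by
    rw [h1, ← map_zpow]
    congr 1
    rw [← ofAdd_zsmul, zsmul_one]
  rw [h2]
  exact ⟨rfl, rfl⟩

private lemma T1_zpow' (k : ℤ) (v : V1 D (Q := Q) Zc) : ((T1 D Zc ^ k) v).1 = v.1 := by
  have h1 : T1 D (Q := Q) Zc = TG D Zc (Multiplicative.ofAdd 1) := by
    apply LinearEquiv.ext
    intro v
    apply Prod.ext
    · rfl
    · funext j q
      show exJ (Zc.get j).2 (v.2 j q) = exJ ((1 : ℝ) * (Zc.get j).2) (v.2 j q)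
      rw [one_mul]
  rw [h1, ← map_zpow]
  rfl

private noncomputable def pi2 : D.F →* ((V1 D Zc × (D.B ⊕ D.R → ℝ)) ≃ₗ[ℝ] (V1 D Zc × (D.B ⊕ D.R → ℝ))) :=
  MonoidHom.mk' (fun l => (pi1 D C Zc l).prodCongr (LinearEquiv.refl ℝ _)) (by
    intro a b
    apply LinearEquiv.ext
    intro v
    apply Prod.ext
    · show pi1 D C Zc (a * b) v.1 = pi1 D C Zc a (pi1 D C Zc b v.1)
      rw [map_mul]
      rfl
    · rfl)

private noncomputable def T2 : (V1 D (Q := Q) Zc × (D.B ⊕ D.R → ℝ)) ≃ₗ[ℝ] (V1 D (Q := Q) Zc × (D.B ⊕ D.R → ℝ)) :=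
  (T1 D Zc).prodCongr (LinearEquiv.refl ℝ _)

private lemma pi2_apply (l : D.F) (v : V1 D Zc × (D.B ⊕ D.R → ℝ)) :
    pi2 D C Zc l v = (pi1 D C Zc l v.1, v.2) := rfl

private lemma T2_apply (v : V1 D (Q := Q) Zc × (D.B ⊕ D.R → ℝ)) : T2 D Zc v = (T1 D Zc v.1, v.2) := rfl

private lemma T2_zpow_fst (k : ℤ) (v : V1 D (Q := Q) Zc × (D.B ⊕ D.R → ℝ)) :
    ((T2 D Zc ^ k) v).1 = (T1 D Zc ^ k) v.1 := by
  induction k using Int.induction_on generalizing v with
  | zero => rfl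
  | succ k ih =>
    rw [zpow_add_one, zpow_add_one]
    show ((T2 D Zc ^ (k : ℤ)) (T2 D Zc v)).1 = (T1 D Zc ^ (k : ℤ)) (T1 D Zc v.1)
    rw [ih]
    rfl
  | pred k ih =>
    rw [zpow_sub_one, zpow_sub_one]
    show ((T2 D Zc ^ (-(k : ℤ))) ((T2 D Zc).symm v)).1 = (T1 D Zc ^ (-(k : ℤ))) ((T1 D Zc).symm v.1)
    rw [ih]
    rfl

open scoped Classical in
private noncomputable def f2 (i : D.B ⊕ D.R) : (V1 D Zc × (D.B ⊕ D.R → ℝ)) →ₗ[ℝ] ℝ :=
  (C.fE i).comp ((LinearMap.fst ℝ _ _).comp (LinearMap.fst ℝ (V1 D Zc) (D.B ⊕ D.R → ℝ))) -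
    (∑ j ∈ Finset.univ.erase i, LinearMap.proj j).comp (LinearMap.snd ℝ (V1 D Zc) (D.B ⊕ D.R → ℝ))

open scoped Classical in
private lemma f2_apply (i : D.B ⊕ D.R) (v : V1 D Zc × (D.B ⊕ D.R → ℝ)) :
    f2 D C Zc i v = C.fE i v.1.1 - ∑ j ∈ Finset.univ.erase i, v.2 j := by
  show C.fE i v.1.1 - (∑ j ∈ Finset.univ.erase i, LinearMap.proj j : (D.B ⊕ D.R → ℝ) →ₗ[ℝ] ℝ) v.2 = _
  rw [LinearMap.sum_apply]
  rfl

open scoped Classical in
private lemma sum_single (i j : D.B ⊕ D.R) (c : ℝ) :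
    ∑ x ∈ Finset.univ.erase i, (Pi.single j c : D.B ⊕ D.R → ℝ) x = if j = i then 0 else c := by
  split_ifs with h
  · subst h
    apply Finset.sum_eq_zero
    intro x hx
    rw [Pi.single_eq_of_ne (Finset.ne_of_mem_erase hx)]
  · rw [Finset.sum_eq_single j]
    · simp
    · intro x _ hx
      rw [Pi.single_eq_of_ne hx]
    · intro hj
      exact absurd (Finset.mem_erase.2 ⟨h, Finset.mem_univ _⟩) hj

open scoped Classical in
private noncomputable def u2 (i : D.B ⊕ D.R) : V1 D Zc × (D.B ⊕ D.R → ℝ) := ((C.uE i, 0), Pi.single i 1)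

end build

theorem exists_br (D : NDW) (m0 : D.B → ℤ) (hm : ∀ b, m0 b ≠ 0)
    (hinj : ∀ b b', D.root b = D.root b' → m0 b = m0 b' → b = b') :
    ∃ k : ℕ, 0 < k ∧ Nonempty (Br D (fun b => k * m0 b)) := by
  classical
  obtain ⟨Q, _, _, C, hL, hN⟩ := exists_nd_cover D
  have hk : 0 < Fintype.card Q := Fintype.card_pos
  have hkz : (Fintype.card Q : ℤ) ≠ 0 := by exact_mod_cast hk.ne'
  obtain ⟨Zc, hZ, hfam⟩ := family D (fun b => (Fintype.card Q : ℤ) * m0 b) (fun b => mul_ne_zero hkz (hm b))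
    (fun b b' h1 h2 => hinj b b' h1 (mul_left_cancel₀ hkz h2)) C hL hN
  have hdd : ∀ i, C.dd i = orderOf (evQ C.g (cwS D.S i)) := fun i => (order_cwS C i).symm
  have hdpos : ∀ i, 0 < C.dd i := fun i => by rw [hdd]; exact orderOf_pos _
  have hdvd : ∀ i, C.dd i ∣ Fintype.card Q := fun i => by rw [hdd]; exact orderOf_dvd_card
  have hdeq : ∀ b, C.dd (Sum.inr (D.root b)) = C.dd (Sum.inl b) := by
    intro b
    show C.N (Sum.inr (D.root b)) / D.S.n (Sum.inr (D.root b)) = C.N (Sum.inl b) / D.S.n (Sum.inl b)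
    rw [← hN b, D.nB, Nat.div_one, Nat.mul_div_cancel _ (D.S.npos _)]
  have hB : ∀ b, ∃ B : V1 D (Q := Q) Zc ≃ₗ[ℝ] V1 D (Q := Q) Zc,
      (∀ v, B (pi1 D C Zc (D.cw (Sum.inr (D.root b))) v) = pi1 D C Zc (D.cw (Sum.inl b)) (B v)) ∧
      ∀ v, B ((pi1 D C Zc (D.cw (Sum.inr (D.root b))) ^ ((Fintype.card Q : ℤ) * m0 b)) (T1 D Zc v)) =
        T1 D Zc (B v) := by
    intro b
    have h1 := nf_tot D C Zc (Sum.inr (D.root b))
    rw [hdeq b] at h1
    exact exists_B (hdpos (Sum.inl b)) _ _ _ _ _ h1 (nf_tot D C Zc (Sum.inl b)) _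
      (Dvd.dvd.mul_right (by exact_mod_cast hdvd (Sum.inl b)) _) (by exact_mod_cast hfam b)
  choose B1 hB1 hB2 using hB
  have hc : ∀ b, ∃ c : ℝ, c ≠ 0 ∧ c ≠ C.fE (Sum.inl b) (B1 b (C.uE (Sum.inr (D.root b)), 0)).1 ∧
      c⁻¹ ≠ C.fE (Sum.inr (D.root b)) ((B1 b).symm (C.uE (Sum.inl b), 0)).1 := by
    intro b
    obtain ⟨c, hc⟩ := Infinite.exists_notMem_finset
      ({0, C.fE (Sum.inl b) (B1 b (C.uE (Sum.inr (D.root b)), 0)).1,
        (C.fE (Sum.inr (D.root b)) ((B1 b).symm (C.uE (Sum.inl b), 0)).1)⁻¹} : Finset ℝ)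
    simp only [Finset.mem_insert, Finset.mem_singleton, not_or] at hc
    refine ⟨c, hc.1, hc.2.1, ?_⟩
    intro h
    apply hc.2.2
    rw [← h, inv_inv]
  choose c hc0 hc1 hc2 using hc
  refine ⟨Fintype.card Q, hk, ⟨{
    V := V1 D (Q := Q) Zc × (D.B ⊕ D.R → ℝ)
    π := pi2 D C Zc
    T := T2 D Zc
    hT := ?_
    inj := ?_
    u := u2 D C Zc
    f := f2 D C Zc
    πu := ?_
    Tu := ?_
    fπ := ?_
    fT := ?_
    fu := ?_
    f0 := ?_
    B0 := fun b => (B1 b).prodCongr (LinearEquiv.smulOfNeZero ℝ _ (c b) (hc0 b))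
    B0r := ?_
    B0t := ?_
    B0u := ?_
    B0v := ?_ }⟩⟩
  · intro l v
    rw [pi2_apply, T2_apply, T2_apply, pi2_apply, T1_pi1]
  · intro l j h
    have hl : l = 1 := by
      apply repE_inj C hL
      intro x
      have h1 := congrArg (fun v => v.1.1) (h ((x, 0), 0))
      simp only [pi2_apply, pi1_fst] at h1
      rw [T2_zpow_fst, (T1_zpow' D Zc j _)] at h1
      exact h1
    refine ⟨hl, ?_⟩
    subst hl
    obtain ⟨j0, hj0⟩ := List.mem_iff_get.1 hZ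
    have h1 := congrFun (congrFun (congrArg (fun v => v.1.2) (h ((0, fun _ _ => ![0, 1, 0]), 0))) j0) 1
    rw [map_one] at h1
    have h2 : ((T2 D Zc ^ j) ((0, fun _ _ => ![0, 1, 0]), 0)).1.2 j0 1 = ![0, 1, 0] := h1
    rw [T2_zpow_fst, (T1_zpow D Zc j _ j0 1).1, hj0] at h2
    have h3 := congrFun h2 0
    simp [exJ_apply, ex, J3_apply, Module.End.mul_apply] at h3
    exact h3
  · intro i
    rw [pi2_apply]
    apply Prod.ext
    · apply Prod.ext
      · exact uE_fix C hL i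
      · funext j
        exact map_zero (C.repK (Zc.get j).1 (D.cw i))
    · rfl
  · intro i
    rw [T2_apply]
    apply Prod.ext
    · apply Prod.ext
      · rfl
      · funext j q
        exact map_zero (exJ (Zc.get j).2)
    · rfl
  · intro i v
    rw [f2_apply, f2_apply]
    congr 1
    exact fE_fix C hL i v.1.1
  · intro i v
    rw [f2_apply, f2_apply]
    rfl
  · intro i
    rw [f2_apply]
    show C.fE i (C.uE i) - ∑ j ∈ Finset.univ.erase i, (Pi.single i 1 : D.B ⊕ D.R → ℝ) j = 0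
    rw [fE_self C hL, sum_single, if_pos rfl, sub_zero]
  · intro i j l h
    rw [f2_apply] at h
    have h0 : C.fE i (C.repE l (C.uE j)) -
      ∑ x ∈ Finset.univ.erase i, (Pi.single j 1 : D.B ⊕ D.R → ℝ) x = 0 := h
    rw [sum_single] at h0
    have h1 := fE_nonpos C hL i j l
    split_ifs at h0 with hji
    · rw [sub_zero] at h0
      exact fE_zero C hL i j l h0
    · linarith
  · intro b v
    apply Prod.ext
    · exact hB1 b v.1
    · rfl
  · intro b v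
    apply Prod.ext
    · rw [← map_zpow]
      have h1 := hB2 b v.1
      rw [← map_zpow] at h1
      exact h1
    · rw [← map_zpow]
      rfl
  · intro b
    rw [f2_apply]
    show C.fE (Sum.inl b) (B1 b (C.uE (Sum.inr (D.root b)), 0)).1 -
      ∑ x ∈ Finset.univ.erase (Sum.inl b), (c b • (Pi.single (Sum.inr (D.root b)) 1 : D.B ⊕ D.R → ℝ)) x ≠ 0
    simp only [Pi.smul_apply, ← Finset.smul_sum]
    rw [sum_single, if_neg (by simp), smul_eq_mul, mul_one]
    intro h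
    exact hc1 b (by linarith)
  · intro b
    rw [f2_apply]
    show C.fE (Sum.inr (D.root b)) ((B1 b).symm (C.uE (Sum.inl b), 0)).1 -
      ∑ x ∈ Finset.univ.erase (Sum.inr (D.root b)),
        ((LinearEquiv.smulOfNeZero ℝ (D.B ⊕ D.R → ℝ) (c b) (hc0 b)).symm (Pi.single (Sum.inl b) 1)) x ≠ 0
    have h1 : (LinearEquiv.smulOfNeZero ℝ (D.B ⊕ D.R → ℝ) (c b) (hc0 b)).symm (Pi.single (Sum.inl b) 1) =
        (c b)⁻¹ • (Pi.single (Sum.inl b) 1 : D.B ⊕ D.R → ℝ) := by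
      rw [LinearEquiv.symm_apply_eq, LinearEquiv.smulOfNeZero_apply, smul_smul, mul_inv_cancel₀ (hc0 b),
        one_smul]
    rw [h1]
    simp only [Pi.smul_apply, ← Finset.smul_sum]
    rw [sum_single, if_neg (by simp), smul_eq_mul, mul_one]
    intro h
    exact hc2 b (by linarith)

/-- conjugacy in the free group `L` -/
theorem nd_free_conj (D : NDW) (i j : D.B ⊕ D.R) (l : D.F) (μ ν : ℤ) (hμ : μ ≠ 0)
    (h : D.cw i ^ μ * l = l * D.cw j ^ ν) : i = j ∧ l ∈ Subgroup.zpowers (D.cw i) := by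
  obtain ⟨Q, _, _, C, hL, -⟩ := exists_nd_cover D
  exact free_conj C hL i j l μ ν hμ h

end Pool.Agent.Helper53.LG
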