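import Pool.Agent.Helper53.LG.Theta

/-!
# LG-39: the Britton property

`As R d F`: `R x v / x ^ d → F v` (`x → ∞`) for all `v`; here `R : ℝ → (V →ₗ[ℝ] ℝ)`, `F : V →ₗ[ℝ] ℝ`.
* `as_comp`: `As R d F → As (fun x => R x ∘ A) d (F ∘ A)` for a fixed linear map `A`.
* `as_tv`: `As R d F → As (fun x => R x ∘ tv i (c * x)) (d + 1) (c * F (u i) • f i)`: the value is `R x v + c x (f i v) (R x (u i))`, divided by
  `x ^ (d + 1)`: the first term tends to `0`.
* `as_tv2` : `As (fun x => R x ∘ tv i (c * x) ∘ tv i (c' * x)) …` : `tv i y ∘ tv i y' = tv i (y + y')`.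
The operator of the letter `p = (b, ε)` is `Θ x (bl p) = tv (lt p) (sε λ x) ∘ B0^{ε} ∘ tv (rt p) (sε λ x)`, `λ = lamb b`, `sε = ± 1` (for
`ε = false`: the inverse of `Bx`: `tv r (-λ x) ∘ B0⁻¹ ∘ tv s (-λ x)`). Put `κ p = f (lt p) (B0^{ε} (u (rt p))) ≠ 0` (`B0u`, `B0v`).

`britton_row`: for a nonempty reduced expression `e = e' ++ [(l, p)]` and `f0 = ` a functional with `f0 (π l₁ (u (lt p₁))) ≠ 0` (`(l₁, p₁)` the first
entry; the vector is not `0`: `u (inl b) ≠ 0` by `B0v`, `u (inr (root b)) ≠ 0` by `B0u`), the row `R x = f0 ∘ Θ x (…) ∘ π l ∘ tv (lt p) (sε λ x)` (the product of everything before the last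
letter, `π l` and the left transvection of the last letter) satisfies `As R d (γ • f (lt p))` with `γ ≠ 0`, `d ≥ 1`. Induction from the
left. One entry: `f0 ∘ π l ∘ tv (lt p) (…)`: `as_tv` with `F = f0 ∘ π l`, `F (u (lt p)) ≠ 0`. Step from `(l, p)` to `(l', p')`: the new row is
`R x ∘ B0^{ε} ∘ tv (rt p) (sε λ x) ∘ π l' ∘ tv (lt p') (sε' λ' x)`. `F = γ • f (lt p) ∘ B0^{ε}`, `F (u (rt p)) = γ κ ≠ 0`.
 Case 1: `rt p ≠ lt p'` or `l' ∉ zpowers (cw (rt p))`: `as_tv`, `as_comp`, `as_tv`: the limit is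
 `(sε λ γ κ) (sε' λ') (f (rt p) (π l' (u (lt p')))) • f (lt p')`, nonzero by `f0` of `Br`.
 Case 2: `rt p = lt p' =: i` and `l' ∈ zpowers (cw i)`: `π l'` commutes with `tv i` (`tv_comm_π`), so the new row is
 `R x ∘ B0^{ε} ∘ tv i ((sε λ + sε' λ') x) ∘ π l'`, limit `(sε λ + sε' λ') γ κ • f i` (`f i ∘ π l' = f i` by `fπ`), degree `d + 1`. It is nonzero: if
 `sε = sε'` since `λ, λ' > 0`; if `sε' = - sε` then `b ≠ b'` since the expression is reduced, `lamb_inj`.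

`britton`: `Θ x (exval e l)` is the product over `e` of `π l_i Θ x (bl p_i)`, times `π l` (`theta_psi`). So
`f0 ∘ T^j ∘ Θ x (exval e l)`, hmm: take `f0 := f1 ∘ (T^j)⁻¹`, then `f1 = f0 ∘ T^j`; if `T^j Θ x (exval e l) = 1` for arbitrarily large `x`, then
`f0 ∘ Θ x (exval e l) = f0 ∘ T^{-j}` (`T^j` and `Θ` need not commute: `Θ x w = T^{-j}`) for these `x`. But
`f0 ∘ Θ x (exval e l) = R x ∘ B0^{ε} ∘ tv (rt p) (sε λ x) ∘ π l` has `As … (d + 1) (γ κ sε λ • f (rt p) ∘ π l)`, nonzero; take `v` where the limit is not `0`: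
the values `f0 (Θ x (exval e l) v) / x ^ (d + 1)` tend to a nonzero number, but for arbitrarily large `x` they are
`f0 (T^{-j} v) / x ^ (d + 1) → 0`, contradiction.
-/

namespace Pool.Agent.Helper53.LG

open Filter Topology

/-- asymptotic behaviour of a family of functionals -/
def As {V : Type} [AddCommGroup V] [Module ℝ V] (R : ℝ → (V →ₗ[ℝ] ℝ)) (d : ℕ) (F : V →ₗ[ℝ] ℝ) : Prop :=
  ∀ v, Tendsto (fun x => R x v / x ^ d) atTop (𝓝 (F v))

private lemma as_comp {V : Type} [AddCommGroup V] [Module ℝ V] {R : ℝ → (V →ₗ[ℝ] ℝ)} {d : ℕ}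
    {F : V →ₗ[ℝ] ℝ} (h : As R d F) (A : V ≃ₗ[ℝ] V) :
    As (fun x => (R x) ∘ₗ (A : V →ₗ[ℝ] V)) d (F ∘ₗ (A : V →ₗ[ℝ] V)) :=
  fun v => h (A v)

private lemma as_congr {V : Type} [AddCommGroup V] [Module ℝ V] {R R' : ℝ → (V →ₗ[ℝ] ℝ)} {d : ℕ}
    {F F' : V →ₗ[ℝ] ℝ} (h : As R d F) (hR : ∀ x v, R' x v = R x v) (hF : ∀ v, F' v = F v) :
    As R' d F' := by
  intro v
  rw [hF v]
  refine (h v).congr fun x => ?_
  rw [hR x v]

variable {D : NDW} {m : D.B → ℤ} (β : Br D m)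

private lemma as_tv {R : ℝ → (β.V →ₗ[ℝ] ℝ)} {d : ℕ} {F : β.V →ₗ[ℝ] ℝ} (h : As R d F)
    (i : D.B ⊕ D.R) (c : ℝ) :
    As (fun x => (R x) ∘ₗ (β.tv i (c * x) : β.V →ₗ[ℝ] β.V)) (d + 1)
      ((c * F (β.u i)) • β.f i) := by
  intro v
  have h1 : Tendsto (fun x : ℝ => R x v / x ^ d * x⁻¹) atTop (𝓝 (F v * 0)) :=
    (h v).mul tendsto_inv_atTop_zero
  have h2 : Tendsto (fun x : ℝ => (c * β.f i v) * (R x (β.u i) / x ^ d)) atTop
      (𝓝 ((c * β.f i v) * F (β.u i))) := (h (β.u i)).const_mul _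
  have h3 := h1.add h2
  have e : F v * 0 + (c * β.f i v) * F (β.u i) = ((c * F (β.u i)) • β.f i) v := by
    rw [LinearMap.smul_apply, smul_eq_mul]
    ring
  rw [e] at h3
  refine h3.congr' ?_
  filter_upwards [eventually_gt_atTop (0 : ℝ)] with x hx
  have hx0 : x ≠ 0 := hx.ne'
  change R x v / x ^ d * x⁻¹ + c * β.f i v * (R x (β.u i) / x ^ d) =
    R x (β.tv i (c * x) v) / x ^ (d + 1)
  rw [tv_apply, map_add, map_smul, smul_eq_mul]
  field_simp
  ring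

/-- signed parameter of a letter -/
private noncomputable def sgl (p : D.B × Bool) : ℝ := if p.2 then lamb p.1 else -lamb p.1

/-- middle operator of a letter -/
private noncomputable def mid (p : D.B × Bool) : β.V ≃ₗ[ℝ] β.V :=
  if p.2 then β.B0 p.1 else (β.B0 p.1)⁻¹

private lemma sgl_ne (p : D.B × Bool) : sgl p ≠ 0 := by
  have := lamb_pos p.1
  unfold sgl
  split_ifs
  · exact this.ne'
  · exact neg_ne_zero.mpr this.ne'

private lemma kappa_ne (p : D.B × Bool) : β.f (D.lt p) (mid β p (β.u (D.rt p))) ≠ 0 := by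
  rcases p with ⟨b, _ | _⟩
  · exact β.B0v b
  · exact β.B0u b

private lemma u_lt_ne (p : D.B × Bool) : β.u (D.lt p) ≠ 0 := by
  rcases p with ⟨b, _ | _⟩
  · intro h
    have h1 := β.B0u b
    change β.u (Sum.inr (D.root b)) = 0 at h
    rw [h, map_zero, map_zero] at h1
    exact h1 rfl
  · intro h
    have h1 := β.B0v b
    change β.u (Sum.inl b) = 0 at h
    rw [h, map_zero, map_zero] at h1
    exact h1 rfl

private lemma f_rt_ne (p : D.B × Bool) : β.f (D.rt p) ≠ 0 := by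
  rcases p with ⟨b, _ | _⟩
  · intro h
    have h1 := β.B0u b
    change β.f (Sum.inl b) = 0 at h
    rw [h] at h1
    exact h1 rfl
  · intro h
    have h1 := β.B0v b
    change β.f (Sum.inr (D.root b)) = 0 at h
    rw [h] at h1
    exact h1 rfl

private lemma tv_inv (i : D.B ⊕ D.R) (y : ℝ) : (β.tv i y)⁻¹ = β.tv i (-y) := by
  rw [inv_eq_iff_mul_eq_one]
  refine LinearEquiv.ext fun v => ?_
  change β.tv i y (β.tv i (-y) v) = v
  rw [tv_apply, tv_apply, map_add, map_smul, β.fu, smul_zero, add_zero]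
  simp

private lemma tv_add (i : D.B ⊕ D.R) (y y' : ℝ) : β.tv i y * β.tv i y' = β.tv i (y + y') := by
  refine LinearEquiv.ext fun v => ?_
  change β.tv i y (β.tv i y' v) = β.tv i (y + y') v
  rw [tv_apply, tv_apply, tv_apply, map_add, map_smul, β.fu, smul_zero, add_zero, add_assoc,
    ← add_smul]
  congr 2
  ring

private lemma theta_bl (x : ℝ) (p : D.B × Bool) :
    β.Θ x (D.bl p) = β.tv (D.lt p) (sgl p * x) * mid β p * β.tv (D.rt p) (sgl p * x) := by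
  rcases p with ⟨b, _ | _⟩
  · have e : D.bl (b, false) = (FreeGroup.of (Sum.inr b))⁻¹ := rfl
    rw [e, map_inv, theta_inr]
    unfold Br.Bx
    rw [mul_inv_rev, mul_inv_rev, tv_inv, tv_inv, ← mul_assoc]
    have e1 : sgl ((b, false) : D.B × Bool) = -lamb b := rfl
    rw [e1, neg_mul]
    rfl
  · have e : D.bl (b, true) = FreeGroup.of (Sum.inr b) := rfl
    rw [e, theta_inr]
    rfl

private lemma theta_exval_nil (x : ℝ) (l : D.F) : β.Θ x (D.exval [] l) = β.π l := by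
  have e : D.exval [] l = D.psi l := by
    unfold NDW.exval
    simp
  rw [e, theta_psi]

private lemma theta_exval_cons (x : ℝ) (l l' : D.F) (p' : D.B × Bool)
    (e : List (D.F × (D.B × Bool))) :
    β.Θ x (D.exval ((l', p') :: e) l) =
      β.π l' * (β.tv (D.lt p') (sgl p' * x) * mid β p' * β.tv (D.rt p') (sgl p' * x)) *
        β.Θ x (D.exval e l) := by
  have h : D.exval ((l', p') :: e) l = D.psi l' * D.bl p' * D.exval e l := by
    unfold NDW.exval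
    rw [List.map_cons, List.prod_cons, mul_assoc (D.psi l' * D.bl p')]
  rw [h, map_mul, map_mul, theta_psi, theta_bl]

private lemma pi_zpow_comm (i : D.B ⊕ D.R) (y : ℝ) {l : D.F} (hl : l ∈ Subgroup.zpowers (D.cw i)) :
    β.π l * β.tv i y = β.tv i y * β.π l := by
  obtain ⟨z, rfl⟩ := hl
  have h : Commute (β.tv i y) (β.π (D.cw i)) := tv_comm_π β i y
  have h2 : Commute (β.tv i y) ((β.π (D.cw i)) ^ z) := h.zpow_right z
  change β.π (D.cw i ^ z) * β.tv i y = β.tv i y * β.π (D.cw i ^ z)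
  rw [map_zpow]
  exact h2.symm

private lemma f_pi_zpow (i : D.B ⊕ D.R) {l : D.F} (hl : l ∈ Subgroup.zpowers (D.cw i)) (v : β.V) :
    β.f i (β.π l v) = β.f i v := by
  obtain ⟨z, rfl⟩ := hl
  change β.f i (β.π (D.cw i ^ z) v) = β.f i v
  induction z using Int.induction_on generalizing v with
  | zero => simp
  | succ z ih =>
    rw [zpow_add_one, map_mul]
    change β.f i (β.π (D.cw i ^ (z : ℤ)) (β.π (D.cw i) v)) = β.f i v
    rw [ih, β.fπ]
  | pred z ih =>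
    rw [zpow_sub_one, map_mul]
    change β.f i (β.π (D.cw i ^ (-(z : ℤ))) (β.π (D.cw i)⁻¹ v)) = β.f i v
    rw [ih, ← β.fπ i (β.π (D.cw i)⁻¹ v), map_inv]
    congr 1
    change (β.π (D.cw i) * (β.π (D.cw i))⁻¹) v = v
    rw [mul_inv_cancel]
    rfl

private lemma sgl_add_ne {p p' : D.B × Bool} (hi : D.rt p = D.lt p')
    (hn : ¬ (p'.1 = p.1 ∧ p'.2 = !p.2)) : sgl p + sgl p' ≠ 0 := by
  have h1 := lamb_pos p.1
  have h2 := lamb_pos p'.1
  rcases p with ⟨b, _ | _⟩ <;> rcases p' with ⟨b', _ | _⟩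
  · have e : sgl ((b, false) : D.B × Bool) + sgl ((b', false) : D.B × Bool) =
        -lamb b + -lamb b' := rfl
    rw [e]
    change 0 < lamb b at h1
    change 0 < lamb b' at h2
    intro h0
    linarith
  · exfalso
    have h3 : (Sum.inl b : D.B ⊕ D.R) = Sum.inl b' := hi
    exact hn ⟨(Sum.inl.inj h3).symm, rfl⟩
  · intro h0
    have e : lamb b + -lamb b' = 0 := h0
    have h3 := lamb_inj b b' (by linarith)
    exact hn ⟨h3.symm, rfl⟩
  · have e : sgl ((b, true) : D.B × Bool) + sgl ((b', true) : D.B × Bool) =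
        lamb b + lamb b' := rfl
    rw [e]
    change 0 < lamb b at h1
    change 0 < lamb b' at h2
    exact (add_pos h1 h2).ne'

private lemma fwd (l : D.F) : ∀ (e : List (D.F × (D.B × Bool))) (l0 : D.F) (p : D.B × Bool)
    (R : ℝ → (β.V →ₗ[ℝ] ℝ)) (d : ℕ) (γ : ℝ), γ ≠ 0 → As R d (γ • β.f (D.lt p)) →
    D.Redx ((l0, p) :: e) → ∃ (d' : ℕ) (F : β.V →ₗ[ℝ] ℝ), 1 ≤ d' ∧ F ≠ 0 ∧
      As (fun x => (R x) ∘ₗ
        ((mid β p * β.tv (D.rt p) (sgl p * x) * β.Θ x (D.exval e l) : β.V ≃ₗ[ℝ] β.V) :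
          β.V →ₗ[ℝ] β.V)) d' F := by
  intro e
  induction e with
  | nil =>
    intro l0 p R d γ hγ hR hred
    have h1 := as_tv β (as_comp hR (mid β p)) (D.rt p) (sgl p)
    have h2 := as_comp h1 (β.π l)
    refine ⟨d + 1, _, Nat.succ_le_succ (Nat.zero_le d), ?_, as_congr h2 ?_ fun v => rfl⟩
    · intro h0
      have hk : sgl p * ((γ • β.f (D.lt p)) ∘ₗ (mid β p : β.V →ₗ[ℝ] β.V)) (β.u (D.rt p)) ≠ 0 :=
        mul_ne_zero (sgl_ne p) (mul_ne_zero hγ (kappa_ne β p))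
      apply f_rt_ne β p
      refine LinearMap.ext fun v => ?_
      have h3 := LinearMap.congr_fun h0 ((β.π l)⁻¹ v)
      have h4 : (sgl p * ((γ • β.f (D.lt p)) ∘ₗ (mid β p : β.V →ₗ[ℝ] β.V)) (β.u (D.rt p))) *
          β.f (D.rt p) ((β.π l * (β.π l)⁻¹) v) = 0 := h3
      rw [mul_inv_cancel] at h4
      exact (mul_eq_zero.mp h4).resolve_left hk
    · intro x v
      rw [theta_exval_nil]
      rfl
  | cons a e ih =>
    obtain ⟨l', p'⟩ := a
    intro l0 p R d γ hγ hR hred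
    have hch := List.isChain_cons_cons.mp hred
    have hrel : ¬ (p'.1 = p.1 ∧ p'.2 = !p.2 ∧ l' ∈ Subgroup.zpowers (D.cw (D.rt p))) := hch.1
    have hk : (((γ • β.f (D.lt p)) ∘ₗ (mid β p : β.V →ₗ[ℝ] β.V)) (β.u (D.rt p))) ≠ 0 :=
      mul_ne_zero hγ (kappa_ne β p)
    have key : ∃ (d' : ℕ) (γ' : ℝ), γ' ≠ 0 ∧ As (fun x => (R x) ∘ₗ
        ((mid β p * β.tv (D.rt p) (sgl p * x) * β.π l' * β.tv (D.lt p') (sgl p' * x) :
          β.V ≃ₗ[ℝ] β.V) : β.V →ₗ[ℝ] β.V)) d' (γ' • β.f (D.lt p')) := by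
      by_cases hc : D.rt p = D.lt p' ∧ l' ∈ Subgroup.zpowers (D.cw (D.rt p))
      · obtain ⟨hi, hl'⟩ := hc
        have hs : sgl p + sgl p' ≠ 0 := sgl_add_ne hi fun h => hrel ⟨h.1, h.2, hl'⟩
        have h1 := as_tv β (as_comp hR (mid β p)) (D.rt p) (sgl p + sgl p')
        have h2 := as_comp h1 (β.π l')
        refine ⟨d + 1, _, mul_ne_zero hs hk, as_congr h2 ?_ ?_⟩
        · intro x v
          rw [← hi]
          have e1 : mid β p * β.tv (D.rt p) (sgl p * x) * β.π l' * β.tv (D.rt p) (sgl p' * x) =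
              mid β p * β.tv (D.rt p) ((sgl p + sgl p') * x) * β.π l' := by
            rw [mul_assoc (mid β p * β.tv (D.rt p) (sgl p * x)), pi_zpow_comm β _ _ hl',
              ← mul_assoc, mul_assoc (mid β p), tv_add, ← add_mul]
          rw [e1]
          rfl
        · intro v
          rw [← hi]
          change _ * β.f (D.rt p) v = _ * β.f (D.rt p) (β.π l' v)
          rw [f_pi_zpow β _ hl']
      · have h1 := as_tv β (as_comp hR (mid β p)) (D.rt p) (sgl p)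
        have h2 := as_tv β (as_comp h1 (β.π l')) (D.lt p') (sgl p')
        refine ⟨d + 1 + 1, _, ?_, as_congr h2 (fun x v => rfl) fun v => rfl⟩
        refine mul_ne_zero (sgl_ne p') (mul_ne_zero (mul_ne_zero (sgl_ne p) hk) ?_)
        intro h0
        exact hc (β.f0 _ _ _ h0)
    obtain ⟨d', γ', hγ', hA⟩ := key
    obtain ⟨d'', F, hd, hF, hAs⟩ := ih l' p' _ d' γ' hγ' hA hch.2
    refine ⟨d'', F, hd, hF, as_congr hAs (fun x v => ?_) fun v => rfl⟩
    rw [theta_exval_cons]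
    rfl

theorem britton (e : List (D.F × (D.B × Bool))) (he : e ≠ []) (hred : D.Redx e) (l : D.F) (j : ℤ) :
    ∀ᶠ x in atTop, β.T ^ j * β.Θ x (D.exval e l) ≠ 1 := by
  obtain ⟨⟨l₁, p₁⟩, e', rfl⟩ := List.exists_cons_of_ne_nil he
  have hu : β.π l₁ (β.u (D.lt p₁)) ≠ 0 := by
    intro h
    exact u_lt_ne β p₁ ((β.π l₁).map_eq_zero_iff.mp h)
  obtain ⟨φ, hφ⟩ : ∃ φ : Module.Dual ℝ β.V, φ (β.π l₁ (β.u (D.lt p₁))) ≠ 0 := by
    by_contra hcon
    push Not at hcon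
    exact hu ((Module.forall_dual_apply_eq_zero_iff ℝ _).mp hcon)
  have hconst : As (fun _ : ℝ => φ ∘ₗ (β.π l₁ : β.V →ₗ[ℝ] β.V)) 0
      (φ ∘ₗ (β.π l₁ : β.V →ₗ[ℝ] β.V)) := by
    intro v
    simp
  have h1 := as_tv β hconst (D.lt p₁) (sgl p₁)
  obtain ⟨d, F, hd, hF, hAs⟩ := fwd β l e' l₁ p₁ _ 1 _ (mul_ne_zero (sgl_ne p₁) hφ) h1 hred
  obtain ⟨v, hv⟩ : ∃ v, F v ≠ 0 := by
    by_contra hcon
    push Not at hcon
    exact hF (LinearMap.ext hcon)
  have hlim : Tendsto (fun x : ℝ => φ (β.Θ x (D.exval ((l₁, p₁) :: e') l) v) / x ^ d) atTop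
      (𝓝 (F v)) := by
    refine (hAs v).congr fun x => ?_
    rw [theta_exval_cons]
    rfl
  have hzero : Tendsto (fun x : ℝ => φ ((β.T ^ j)⁻¹ v) / x ^ d) atTop (𝓝 0) :=
    tendsto_const_nhds.div_atTop (tendsto_pow_atTop (by omega))
  have hsub := hlim.sub hzero
  rw [sub_zero] at hsub
  filter_upwards [hsub.eventually_ne hv] with x hx hone
  apply hx
  have h2 : β.Θ x (D.exval ((l₁, p₁) :: e') l) = (β.T ^ j)⁻¹ := (inv_eq_of_mul_eq_one_right hone).symm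
  rw [h2, sub_self]

end Pool.Agent.Helper53.LG
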