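import Pool.Agent.Helper53.LG.ND

/-!
# Project LG: formal cochains and their cells (definitions)

A formal cochain is a multiple of (the indicator function of) one edge with a given label `y` (`single y x`), or the
sum of the multiples `x`, `x'` of two edges far apart on one closed line of type `i`, both with the first letter of the word `i` as
label (`double i x x'`). `cells i z` is the multiset of the nonzero mean values of `z` on the closed lines of type `i`, where
`d i` is the number of periods of these lines.
-/

namespace Pool.Agent.Helper53.LG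

/-- sign of a letter -/
def sg {Y : Type} (l : Lt Y) : ℝ := if l.2 then 1 else -1

/-- formal cochains -/
inductive FCo (Y I : Type)
  | single (y : Y) (x : ℝ)
  | double (i : I) (x x' : ℝ)

section

variable {Y I : Type} (S : WSys Y I) (d : I → ℕ)

open scoped Classical in
/-- the nonzero values of a cochain supported on one edge with label `y` -/
noncomputable def sgl (y : Y) (x : ℝ) (i : I) : Multiset ℝ :=
  ((Finset.range (S.n i)).filter fun κ : ℕ => (S.w i κ).1 = y).val.map fun κ : ℕ => sg (S.w i κ) * x / d i

open scoped Classical in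
/-- the nonzero values of a formal cochain -/
noncomputable def cells (i : I) : FCo Y I → Multiset ℝ
  | FCo.single y x => sgl S d y x i
  | FCo.double j x x' =>
    if j = i then
      (sgl S d (S.w i 0).1 x i - {sg (S.w i 0) * x / d i}) + (sgl S d (S.w i 0).1 x' i - {sg (S.w i 0) * x' / d i})
        + {sg (S.w i 0) * (x + x') / d i}
    else sgl S d (S.w j 0).1 x i + sgl S d (S.w j 0).1 x' i

/-- the label of a formal cochain -/
def ltr : FCo Y I → Y
  | FCo.single y _ => y
  | FCo.double i _ _ => (S.w i 0).1

/-- admissible values -/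
def FVal : FCo Y I → Prop
  | FCo.single _ x => x ≠ 0
  | FCo.double _ x x' => x ≠ 0 ∧ x' ≠ 0 ∧ x + x' ≠ 0

/-- single cochains with irrational values -/
def FIrr (z : FCo Y I) : Prop := ∃ y x, z = FCo.single y x ∧ Irrational x

/-- the cells of a family -/
noncomputable def cellsL (i : I) (Z : List (FCo Y I)) : Multiset ℝ := (Z.map (cells S d i)).sum

lemma cellsL_append (i : I) (Z Z' : List (FCo Y I)) :
    cellsL S d i (Z ++ Z') = cellsL S d i Z + cellsL S d i Z' := by
  simp [cellsL]

lemma cellsL_cons (i : I) (z : FCo Y I) (Z : List (FCo Y I)) :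
    cellsL S d i (z :: Z) = cells S d i z + cellsL S d i Z := by
  simp [cellsL]

end

open scoped Classical in
/-- the inverse of the Moebius map `w ↦ w / (1 - m w)`, `1 / m ↦ - 1 / m` -/
noncomputable def nuinv (m v : ℝ) : ℝ := if v = -1 / m then 1 / m else v / (1 + m * v)

variable (D : NDW) (m : D.B → ℤ) (d : D.B ⊕ D.R → ℕ)

/-- the level of a letter -/
def NDW.lrk : D.X ⊕ D.B → ℕ
  | Sum.inl _ => 0
  | Sum.inr b => D.rk b + 1

/-- the family is closed for the letters of rank `< r` -/
def ClosedBelow (r : ℕ) (Z : List (FCo (D.X ⊕ D.B) (D.B ⊕ D.R))) : Prop :=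
  ∀ b, D.rk b < r → cellsL D.S d (Sum.inl b) Z = (cellsL D.S d (Sum.inr (D.root b)) Z).map (nuinv (m b))

/-- the cells of all roots are irrational -/
def RootIrr (Z : List (FCo (D.X ⊕ D.B) (D.B ⊕ D.R))) : Prop :=
  ∀ ρ, ∀ v ∈ cellsL D.S d (Sum.inr ρ) Z, Irrational v

end Pool.Agent.Helper53.LG
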