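import Pool.Agent.Helper53.LG.ExtAll

/-!
# LG-50: normalization of triangular automorphisms

`Tri n φ`: for all `i : Fin n`, `φ b_i = b_i v_i` with `v_i ∈ ⟨b_j : j < i⟩` fixed by `φ`.

`chain`: induction on `n`. `n = 0`: `X = B = R = Empty` (all word system data by `Empty.elim`), both groups are trivial (`FreeGroup` of an empty type).
`n + 1`: let `c = FreeGroup.map Fin.castSucc` (injective). For `i : Fin n`, `v_{castSucc i} = c v'_i` with `v'_i ∈ ⟨b_j : j < i⟩` (the subgroup
`closure (of '' {j | j < castSucc i})` is the image under `c` of `closure (of '' {j | j < i})`), and `v_{last} = c v'`. Let `φ' : FreeGroup (Fin n) →* FreeGroup (Fin n)`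
be the lift of `b_i ↦ b_i v'_i`; `c (φ' w) = φ (c w)` for all `w`. So `φ'` is injective, fixes the `v'_i` and `v'`, and is surjective
(`b_i = φ' (b_i v'_i⁻¹)`). So it is an automorphism with `Tri n φ'`, by induction there are `D, m, e'`. `v = e' v'` is fixed by `D.phi m`;
`ext_all` gives `D', m', e''`. Let `E : FreeGroup (Fin (n + 1)) ≃* FreeGroup ((D.X ⊕ D.B) ⊕ Unit)` be given by `b_{castSucc i} ↦ map inl (e' b_i)`, `b_last ↦ of (inr ())`,
with inverse `inl y ↦ c (e'⁻¹ (of y))`, `inr () ↦ b_last` (`E (c w) = map inl (e' w)`). `e = e'' ∘ E`: check `e (φ w) = D'.phi m' (e w)` on the generators: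
`e (φ b_{castSucc i}) = e'' (E (c (φ' b_i))) = e'' (map inl (e' (φ' b_i))) = e'' (map inl (D.phi m (e' b_i))) = D'.phi m' (e'' (map inl (e' b_i)))`;
`e (φ b_last) = e'' (of (inr ()) * map inl v) = D'.phi m' (e'' (of (inr ())))`.
-/

set_option autoImplicit false

namespace Pool.Agent.Helper53.LG

/-- triangular automorphisms with fixed twistors on the right -/
def Tri (n : ℕ) (φ : MulAut (FreeGroup (Fin n))) : Prop :=
  ∀ i : Fin n, ∃ v, v ∈ Subgroup.closure (FreeGroup.of '' {j : Fin n | j < i}) ∧ φ v = v ∧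
    φ (FreeGroup.of i) = FreeGroup.of i * v

/-- the empty data -/
private def emptyD : NDW where
  X := Empty
  B := Empty
  R := Empty
  rk := fun b => b.elim
  root := fun b => b.elim
  S := { n := fun i => by rcases i with i | i <;> exact i.elim
         npos := fun i => by rcases i with i | i <;> exact i.elim
         w := fun i => by rcases i with i | i <;> exact i.elim
         per := fun i => by rcases i with i | i <;> exact i.elim
         red := fun i => by rcases i with i | i <;> exact i.elim }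
  nB := fun b => b.elim
  wB := fun b => b.elim
  low := fun b => b.elim
  sepi := fun i => by rcases i with ⟨i | i, -⟩ <;> exact i.elim

private lemma closure_le_map (n : ℕ) (i : Fin (n + 1)) :
    Subgroup.closure (FreeGroup.of '' {j : Fin (n + 1) | j < i}) ≤
      (Subgroup.closure (FreeGroup.of '' {j : Fin n | j.castSucc < i})).map
        (FreeGroup.map Fin.castSucc) := by
  rw [Subgroup.closure_le]
  rintro _ ⟨j, hj, rfl⟩
  have hj' : j ≠ Fin.last n := by
    intro h
    have h1 : j < i := hj
    rw [h] at h1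
    exact absurd (Fin.le_last i) (not_le.2 h1)
  obtain ⟨j', rfl⟩ := Fin.exists_castSucc_eq.2 hj'
  refine ⟨FreeGroup.of j', Subgroup.subset_closure ⟨j', hj, rfl⟩, ?_⟩
  simp

theorem chain (n : ℕ) (φ : MulAut (FreeGroup (Fin n))) (h : Tri n φ) :
    ∃ (D : NDW) (m : D.B → ℤ), Good D m ∧ ∃ e : FreeGroup (Fin n) ≃* D.F, ∀ w, e (φ w) = D.phi m (e w) := by
  induction n with
  | zero =>
    refine ⟨emptyD, fun b => b.elim, ⟨fun b => b.elim, fun b => b.elim⟩, ?_⟩
    haveI : IsEmpty (emptyD.X ⊕ emptyD.B) := ⟨fun x => by rcases x with x | x <;> exact x.elim⟩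
    refine ⟨FreeGroup.freeGroupCongr (Equiv.equivOfIsEmpty _ _), fun w => Subsingleton.elim _ _⟩
  | succ n ih =>
    obtain ⟨c, hc⟩ : ∃ c : FreeGroup (Fin n) →* FreeGroup (Fin (n + 1)), c = FreeGroup.map Fin.castSucc :=
      ⟨_, rfl⟩
    have hcof : ∀ i, c (FreeGroup.of i) = FreeGroup.of i.castSucc := fun i => by rw [hc]; simp
    have hcinj : Function.Injective c := by
      rw [hc]
      exact FreeGroup.map_injective (Fin.castSucc_injective n)
    have hv : ∀ i : Fin (n + 1), ∃ v' : FreeGroup (Fin n),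
        v' ∈ Subgroup.closure (FreeGroup.of '' {j : Fin n | j.castSucc < i}) ∧ φ (c v') = c v' ∧
          φ (FreeGroup.of i) = FreeGroup.of i * c v' := by
      intro i
      obtain ⟨v, hv1, hv2, hv3⟩ := h i
      obtain ⟨v', hv', hvv⟩ := closure_le_map n i hv1
      rw [← hc] at hvv
      exact ⟨v', hv', by rw [hvv, hv2], by rw [hvv, hv3]⟩
    choose v' hv1 hv2 hv3 using hv
    obtain ⟨f, hf⟩ : ∃ f : FreeGroup (Fin n) →* FreeGroup (Fin n),
        f = FreeGroup.lift (fun i => FreeGroup.of i * v' i.castSucc) := ⟨_, rfl⟩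
    have hfof : ∀ i, f (FreeGroup.of i) = FreeGroup.of i * v' i.castSucc := fun i => by rw [hf]; simp
    have hcf : ∀ w, c (f w) = φ (c w) := by
      have h1 : c.comp f = (φ.toMonoidHom).comp c := by
        apply FreeGroup.ext_hom
        intro i
        change c (f (FreeGroup.of i)) = φ (c (FreeGroup.of i))
        rw [hfof, map_mul, hcof, hv3]
      exact fun w => DFunLike.congr_fun h1 w
    have hfinj : Function.Injective f := by
      intro w w' hw
      apply hcinj
      apply φ.injective
      rw [← hcf, ← hcf, hw]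
    have hfv : ∀ i, f (v' i) = v' i := by
      intro i
      apply hcinj
      rw [hcf, hv2]
    have hfsurj : Function.Surjective f := by
      rw [← MonoidHom.range_eq_top, eq_top_iff, ← FreeGroup.closure_range_of, Subgroup.closure_le]
      rintro _ ⟨i, rfl⟩
      refine ⟨FreeGroup.of i * (v' i.castSucc)⁻¹, ?_⟩
      rw [map_mul, map_inv, hfof, hfv, mul_inv_cancel_right]
    obtain ⟨φ', hφ'⟩ : ∃ φ' : MulAut (FreeGroup (Fin n)), ∀ w, φ' w = f w :=
      ⟨MulEquiv.ofBijective f ⟨hfinj, hfsurj⟩, fun w => rfl⟩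
    obtain ⟨D, m, hg, e', he'⟩ := ih φ' (by
      intro i
      refine ⟨v' i.castSucc, ?_, ?_, ?_⟩
      · have := hv1 i.castSucc
        simpa using this
      · rw [hφ', hfv]
      · rw [hφ', hfof])
    obtain ⟨D', m', hg', e'', h1, h2⟩ := ext_all D m hg (e' (v' (Fin.last n))) (by
      rw [← he', hφ', hfv])
    obtain ⟨A, hA⟩ : ∃ A : FreeGroup (Fin (n + 1)) →* FreeGroup ((D.X ⊕ D.B) ⊕ Unit),
        A = FreeGroup.lift (Fin.lastCases (FreeGroup.of (Sum.inr ()))
          (fun i => FreeGroup.map Sum.inl (e' (FreeGroup.of i)))) := ⟨_, rfl⟩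
    have hAlast : A (FreeGroup.of (Fin.last n)) = FreeGroup.of (Sum.inr ()) := by
      rw [hA]; simp
    have hAcs : ∀ i : Fin n, A (FreeGroup.of i.castSucc) = FreeGroup.map Sum.inl (e' (FreeGroup.of i)) := by
      intro i
      rw [hA]; simp
    have hAc : ∀ w, A (c w) = FreeGroup.map Sum.inl (e' w) := by
      have h3 : A.comp c = (FreeGroup.map Sum.inl).comp e'.toMonoidHom := by
        apply FreeGroup.ext_hom
        intro i
        change A (c (FreeGroup.of i)) = FreeGroup.map Sum.inl (e' (FreeGroup.of i))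
        rw [hcof, hAcs]
      exact fun w => DFunLike.congr_fun h3 w
    obtain ⟨g, hg0⟩ : ∃ g : FreeGroup ((D.X ⊕ D.B) ⊕ Unit) →* FreeGroup (Fin (n + 1)),
        g = FreeGroup.lift (Sum.elim (fun y => c (e'.symm (FreeGroup.of y)))
          (fun _ => FreeGroup.of (Fin.last n))) := ⟨_, rfl⟩
    have hginl : ∀ y, g (FreeGroup.of (Sum.inl y)) = c (e'.symm (FreeGroup.of y)) := by
      intro y
      rw [hg0]; simp
    have hginr : ∀ u, g (FreeGroup.of (Sum.inr u)) = FreeGroup.of (Fin.last n) := by
      intro u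
      rw [hg0]; simp
    have hgmap : ∀ w, g (FreeGroup.map Sum.inl w) = c (e'.symm w) := by
      have h3 : g.comp (FreeGroup.map Sum.inl) = c.comp e'.symm.toMonoidHom := by
        apply FreeGroup.ext_hom
        intro y
        change g (FreeGroup.map Sum.inl (FreeGroup.of y)) = c (e'.symm (FreeGroup.of y))
        rw [FreeGroup.map.of, hginl]
      exact fun w => DFunLike.congr_fun h3 w
    have hgA : g.comp A = MonoidHom.id _ := by
      apply FreeGroup.ext_hom
      intro i
      change g (A (FreeGroup.of i)) = FreeGroup.of i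
      induction i using Fin.lastCases with
      | last => rw [hAlast, hginr]
      | cast i => rw [hAcs, hgmap, MulEquiv.symm_apply_apply, hcof]
    have hAg : A.comp g = MonoidHom.id _ := by
      apply FreeGroup.ext_hom
      rintro (y | u)
      · change A (g (FreeGroup.of (Sum.inl y))) = FreeGroup.of (Sum.inl y)
        rw [hginl, hAc, MulEquiv.apply_symm_apply, FreeGroup.map.of]
      · change A (g (FreeGroup.of (Sum.inr u))) = FreeGroup.of (Sum.inr u)
        rw [hginr, hAlast]
    obtain ⟨E, hE⟩ : ∃ E : FreeGroup (Fin (n + 1)) ≃* FreeGroup ((D.X ⊕ D.B) ⊕ Unit), ∀ w, E w = A w :=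
      ⟨MonoidHom.toMulEquiv A g hgA hAg, fun w => rfl⟩
    refine ⟨D', m', hg', E.trans e'', ?_⟩
    have hfin : ((E.trans e'').toMonoidHom).comp φ.toMonoidHom =
        ((D'.phi m').toMonoidHom).comp (E.trans e'').toMonoidHom := by
      apply FreeGroup.ext_hom
      intro i
      change e'' (E (φ (FreeGroup.of i))) = D'.phi m' (e'' (E (FreeGroup.of i)))
      rw [hE, hE]
      induction i using Fin.lastCases with
      | last => rw [hv3, map_mul, hAlast, hAc, h2]
      | cast i =>
        rw [← hcof, ← hcf, hAc, hAc, ← h1, ← he', hφ']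
    exact fun w => DFunLike.congr_fun hfin w

end Pool.Agent.Helper53.LG
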