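import Pool.Agent.Helper53.LG.Defs

/-!
# LG-09: clean words in a right-angled Coxeter group

`Des l`: the letters of the word `l` which can be moved to the front by commutations, defined by recursion;
`Clean l`: no letter occurs twice with only commuting letters in between.

* `des_comm`: induction on `l`.
* `des_split`: induction: if `s` is the first letter clear; if `s ∈ Des l`, `Cm s.1 t.1`, word `t :: l`: `wprod l = gen s * wprod l'`,
  so `wprod (t :: l) = gen t * gen s * wprod l' = gen s * wprod (t :: l')` (`gen_comm`).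
* `exists_word`: every element is `wprod l` (closure induction, `(gen s)⁻¹ = gen s`).
* `exists_clean`: among all `(l, u)` with `u ∈ Wsub T`, `w = wprod l * u` take one with `l.length` minimal
  (exists by `exists_word`, `u = 1`). If `l` is not clean, then `l = l₁ ++ s :: l₂` with `s ∈ Des l₂` (induction), so by
  `des_split` `wprod (s :: l₂) = gen s * gen s * wprod l' = wprod l'` and `l₁ ++ l'` is shorter. If
  `l = l₁ ++ [t]` with `t.1 ∈ T`, then `(l₁, gen t * u)` is shorter.
-/

namespace Pool.Agent.Helper53.LG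

variable {V : Type} (Cm : V → V → Prop)

/-- the value of a word -/
def wprod (l : List (V × Bool)) : RG Cm := (l.map (gen Cm)).prod

/-- the letters that can be moved to the front -/
def Des : List (V × Bool) → Set (V × Bool)
  | [] => ∅
  | s :: l => {s} ∪ {r | r ∈ Des l ∧ Cm r.1 s.1}

/-- clean words -/
def Clean : List (V × Bool) → Prop
  | [] => True
  | s :: l => s ∉ Des Cm l ∧ Clean l

variable (hsymm : ∀ u v, Cm u v → Cm v u)

include hsymm in
lemma des_comm (l : List (V × Bool)) (r q : V × Bool) (hr : r ∈ Des Cm l) (hq : q ∈ Des Cm l)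
    (hne : r ≠ q) : Cm r.1 q.1 := by
  induction l with
  | nil => exact absurd hr (Set.notMem_empty _)
  | cons s l ih =>
    rcases hr with hr | hr <;> rcases hq with hq | hq
    · rw [Set.mem_singleton_iff] at hr hq
      exact absurd (hr.trans hq.symm) hne
    · rw [Set.mem_singleton_iff] at hr
      rw [hr]
      exact hsymm _ _ hq.2
    · rw [Set.mem_singleton_iff] at hq
      rw [hq]
      exact hr.2
    · exact ih hr.1 hq.1

lemma des_split (l : List (V × Bool)) (s : V × Bool) (hs : s ∈ Des Cm l) :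
    ∃ l' : List (V × Bool), l'.length + 1 = l.length ∧ wprod Cm l = gen Cm s * wprod Cm l' := by
  induction l with
  | nil => exact absurd hs (Set.notMem_empty _)
  | cons t l ih =>
    rcases hs with hs | hs
    · rw [Set.mem_singleton_iff] at hs
      exact ⟨l, rfl, by rw [hs]; simp [wprod]⟩
    · obtain ⟨l', h1, h2⟩ := ih hs.1
      refine ⟨t :: l', by simp [h1], ?_⟩
      have h3 : wprod Cm (t :: l) = gen Cm t * wprod Cm l := by simp [wprod]
      have h4 : wprod Cm (t :: l') = gen Cm t * wprod Cm l' := by simp [wprod]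
      rw [h3, h4, h2, ← mul_assoc, ← mul_assoc, gen_comm Cm hs.2]

lemma exists_word (w : RG Cm) : ∃ l, w = wprod Cm l := by
  have hw : w ∈ Subgroup.closure (Set.range (PresentedGroup.of (rels := rels Cm))) := by
    rw [PresentedGroup.closure_range_of]
    exact Subgroup.mem_top _
  induction hw using Subgroup.closure_induction with
  | mem x hx =>
    obtain ⟨y, rfl⟩ := hx
    exact ⟨[y], by simp [wprod, gen]⟩
  | one => exact ⟨[], by simp [wprod]⟩
  | mul x y _ _ h1 h2 =>
    obtain ⟨l, rfl⟩ := h1
    obtain ⟨l', rfl⟩ := h2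
    exact ⟨l ++ l', by simp [wprod]⟩
  | inv x _ h1 =>
    obtain ⟨l, rfl⟩ := h1
    refine ⟨l.reverse, ?_⟩
    have hinv : ∀ y, (gen Cm y)⁻¹ = gen Cm y := fun y => inv_eq_of_mul_eq_one_left (gen_sq Cm y)
    have h2 : (l.map (gen Cm)).map (fun x => x⁻¹) = l.map (gen Cm) := by
      rw [List.map_map]
      refine List.map_congr_left fun y _ => ?_
      exact hinv y
    unfold wprod
    rw [List.prod_inv_reverse, h2, List.map_reverse]

/-- a word which is not clean has a repeated letter -/
lemma clean_split (l : List (V × Bool)) (h : ¬ Clean Cm l) :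
    ∃ (l₁ : List (V × Bool)) (s : V × Bool) (l₂ : List (V × Bool)), l = l₁ ++ s :: l₂ ∧
      s ∈ Des Cm l₂ := by
  induction l with
  | nil => exact absurd trivial h
  | cons t l ih =>
    by_cases h1 : t ∈ Des Cm l
    · exact ⟨[], t, l, rfl, h1⟩
    · have h2 : ¬ Clean Cm l := fun h3 => h ⟨h1, h3⟩
      obtain ⟨l₁, s, l₂, h4, h5⟩ := ih h2
      exact ⟨t :: l₁, s, l₂, by rw [h4]; rfl, h5⟩

lemma wprod_append (l l' : List (V × Bool)) :
    wprod Cm (l ++ l') = wprod Cm l * wprod Cm l' := by
  simp [wprod]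

lemma exists_clean_aux (T : Set V) (n : ℕ) : ∀ (l : List (V × Bool)) (u : RG Cm), l.length = n →
    u ∈ Wsub Cm T → ∃ (l' : List (V × Bool)) (u' : RG Cm), Clean Cm l' ∧ u' ∈ Wsub Cm T ∧
      wprod Cm l * u = wprod Cm l' * u' ∧ ∀ t, l'.getLast? = some t → t.1 ∉ T := by
  induction n using Nat.strong_induction_on with
  | _ n ih =>
    intro l u hl hu
    by_cases hc : Clean Cm l
    · by_cases hlast : ∀ t, l.getLast? = some t → t.1 ∉ T
      · exact ⟨l, u, hc, hu, rfl, hlast⟩
      · push Not at hlast
        obtain ⟨t, ht, htT⟩ := hlast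
        obtain ⟨l₁, hl₁⟩ := List.getLast?_eq_some_iff.1 ht
        have hlen : l₁.length < n := by
          rw [← hl, hl₁, List.length_append]
          simp
        obtain ⟨l', u', h1, h2, h3, h4⟩ := ih l₁.length hlen l₁ (gen Cm t * u) rfl
          ((Wsub Cm T).mul_mem (Subgroup.subset_closure ⟨t, htT, rfl⟩) hu)
        refine ⟨l', u', h1, h2, ?_, h4⟩
        rw [← h3, hl₁, wprod_append, ← mul_assoc]
        simp [wprod]
    · obtain ⟨l₁, s, l₂, h1, h2⟩ := clean_split Cm l hc
      obtain ⟨l₃, h3, h4⟩ := des_split Cm l₂ s h2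
      have hlen : (l₁ ++ l₃).length < n := by
        rw [← hl, h1, List.length_append, List.length_append, List.length_cons, ← h3]
        omega
      obtain ⟨l', u', h5, h6, h7, h8⟩ := ih _ hlen (l₁ ++ l₃) u rfl hu
      refine ⟨l', u', h5, h6, ?_, h8⟩
      rw [← h7, h1, wprod_append, wprod_append]
      have h9 : wprod Cm (s :: l₂) = gen Cm s * wprod Cm l₂ := by simp [wprod]
      rw [h9, h4, ← mul_assoc (gen Cm s), gen_sq, one_mul]

theorem exists_clean (w : RG Cm) (T : Set V) : ∃ (l : List (V × Bool)) (u : RG Cm), Clean Cm l ∧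
    u ∈ Wsub Cm T ∧ w = wprod Cm l * u ∧ ∀ t, l.getLast? = some t → t.1 ∉ T := by
  obtain ⟨l, hl⟩ := exists_word Cm w
  obtain ⟨l', u', h1, h2, h3, h4⟩ := exists_clean_aux Cm T l.length l 1 rfl (Wsub Cm T).one_mem
  refine ⟨l', u', h1, h2, ?_, h4⟩
  rw [hl, ← h3, mul_one]

end Pool.Agent.Helper53.LG
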