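import Pool.Agent.Helper53.LG.Line

/-!
# LG-02: two closed lines through a common dart

`N = C.N i.1`, `N' = C.N j.1`.

`close_short`: `wd i κ = wd j l`, `1 ≤ M`, `2 M ≤ N`, `M' < N'`, `seg i κ M = seg j l M'`. First `1 ≤ M'`
(else `seg i κ M = 1`, `N ∣ M` by `p0`, but `0 < M < N`). If `2 M' ≤ N'`: this is `p1` (the first
alternative of the condition). If `2 M' > N'`: by `seg_N` (with `k = 1`), `seg_add`, `seg_rev`, `seg_congr`:
`seg j l M' = (seg j (l + M') (N' - M'))⁻¹ = seg (rev j) (-l - N') (N' - M') = seg (rev j) (-l) (N' - M')`, and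
`p1` applies to `i, κ, M` and `rev j, -l, N' - M'` (third alternative: `2 (N' - M') < N'`): it gives, for `s = 0`,
`wd i κ = wd (rev j) (-l) = bar (wd j (l - 1))`, so `wd j l = bar (wd j (l - 1))`, contradicting `wd_red`.

`close_dart`: as above with four cases. If `M = 0` the conclusion holds (`1 ≤ R0`). Assume `1 ≤ M`.
Then `1 ≤ M'` as above (and `M < N`).
* `2 M ≤ N`: `close_short` gives the agreement of the labels for `s < M`; if `M < R0` we are done, otherwise
  `Sep` gives `i = j` and `S.n i.1 ∣ κ - l`.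
* `2 M > N` and `2 M' > N'`: then `seg (rev i) (-κ) (N - M) = seg i κ M = seg j l M' = seg (rev j) (-l) (N' - M')`,
  `p1` (second alternative) gives `N - M = N' - M'` and the agreement of
  `wd (rev i) (-κ + s) = wd (rev j) (-l + s)` for `s < N - M`; if `N - M < R0` we are done, otherwise `Sep`
  gives `rev i = rev j` and `n ∣ -κ + l`, so `i = j` (apply `rev`) and `n ∣ κ - l`.
* `2 M > N` and `2 M' ≤ N'`: `p1` for `rev i, -κ, N - M` and `j, l, M'` (second alternative) gives with `s = 0`: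
  `bar (wd i (κ - 1)) = wd (rev i) (-κ) = wd j l = wd i κ`, contradicting `wd_red`.

`Lin_eq_or`: (`i = j`, `n ∣ κ - l` imply equality of the lines by `Lin_congr`).
-/

namespace Pool.Agent.Helper53.LG

variable {Y I : Type} {S : WSys Y I} {Q : Type} [Group Q] (C : Cover S Q)

private lemma seg_compl (j : I × Bool) (l : ℤ) (M' d : ℕ) (hd : M' + d = C.N j.1) :
    S.seg C.g j l M' = S.seg C.g (rev j) (-l) d := by
  have h1 : S.seg C.g j l M' * S.seg C.g j (l + M') d = 1 := by
    rw [← seg_add, hd]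
    have := seg_N C j l 1
    rwa [mul_one] at this
  have h2 : S.seg C.g j l M' = (S.seg C.g j (l + M') d)⁻¹ := eq_inv_of_mul_eq_one_left h1
  rw [h2, seg_rev]
  apply seg_congr
  have h3 : -(l + (M' : ℤ)) - d - -l = -(C.N j.1 : ℤ) := by rw [← hd]; push_cast; ring
  rw [h3, rev_fst]
  exact (dvd_neg).2 (N_dvd C j)

private lemma wd_rev_neg (j : I × Bool) (l : ℤ) : S.wd (rev j) (-l) = bar (S.wd j (l - 1)) := by
  rw [wd_rev]
  congr 2
  ring

private lemma wd_ne_prev (j : I × Bool) (l : ℤ) : S.wd j l ≠ bar (S.wd j (l - 1)) := by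
  have h := wd_red S j (l - 1)
  rwa [sub_add_cancel] at h

private lemma pos_of_seg (i j : I × Bool) (κ l : ℤ) (M M' : ℕ) (hM : 1 ≤ M) (hM2 : M < C.N i.1)
    (h : S.seg C.g i κ M = S.seg C.g j l M') : 1 ≤ M' := by
  by_contra hcon
  have h0 : M' = 0 := by omega
  rw [h0, seg_zero] at h
  have h1 := Nat.le_of_dvd (by omega) ((C.p0 i κ M).1 h)
  omega

theorem close_short (i j : I × Bool) (κ l : ℤ) (M M' : ℕ) (hl : S.wd i κ = S.wd j l)
    (hM : 1 ≤ M) (hM2 : 2 * M ≤ C.N i.1) (hM' : M' < C.N j.1)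
    (h : S.seg C.g i κ M = S.seg C.g j l M') :
    M = M' ∧ ∀ s : ℕ, s < M → S.wd i (κ + s) = S.wd j (l + s) := by
  have hM1 : 1 ≤ M' := pos_of_seg C i j κ l M M' hM (by omega) h
  rcases Nat.lt_or_ge (C.N j.1) (2 * M') with hc | hc
  · exfalso
    obtain ⟨d, hd⟩ : ∃ d, M' + d = C.N j.1 := ⟨C.N j.1 - M', by omega⟩
    have h1 : S.seg C.g i κ M = S.seg C.g (rev j) (-l) d := by
      rw [h, seg_compl C j l M' d hd]
    have h2 := C.p1 i (rev j) κ (-l) M d hM (by omega) hM2 (by rw [rev_fst]; omega) h1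
      (Or.inr (Or.inr (by rw [rev_fst]; omega)))
    have h3 := h2.2 0 (by omega)
    rw [Nat.cast_zero, add_zero, add_zero, wd_rev_neg, hl] at h3
    exact wd_ne_prev j l h3
  · exact C.p1 i j κ l M M' hM hM1 hM2 hc h (Or.inl hl)

theorem close_dart {R0 : ℕ} (hR0 : 1 ≤ R0) (hsep : S.Sep R0) (i j : I × Bool) (κ l : ℤ) (M M' : ℕ)
    (hl : S.wd i κ = S.wd j l) (hM : M < C.N i.1) (hM' : M' < C.N j.1)
    (h : S.seg C.g i κ M = S.seg C.g j l M') :
    (i = j ∧ (S.n i.1 : ℤ) ∣ κ - l) ∨ M < R0 ∨ C.N i.1 < M + R0 := by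
  rcases Nat.eq_zero_or_pos M with hM0 | hM0
  · right; left; omega
  have hM1 : 1 ≤ M' := pos_of_seg C i j κ l M M' hM0 hM h
  rcases Nat.lt_or_ge (C.N i.1) (2 * M) with hc | hc
  · obtain ⟨d, hd⟩ : ∃ d, M + d = C.N i.1 := ⟨C.N i.1 - M, by omega⟩
    have h1 := seg_compl C i κ M d hd
    rcases Nat.lt_or_ge (C.N j.1) (2 * M') with hc' | hc'
    · obtain ⟨d', hd'⟩ : ∃ d', M' + d' = C.N j.1 := ⟨C.N j.1 - M', by omega⟩
      have h2 := seg_compl C j l M' d' hd'
      have h3 : S.seg C.g (rev i) (-κ) d = S.seg C.g (rev j) (-l) d' := by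
        rw [← h1, ← h2, h]
      have h4 := C.p1 (rev i) (rev j) (-κ) (-l) d d' (by omega) (by omega)
        (by rw [rev_fst]; omega) (by rw [rev_fst]; omega) h3
        (Or.inr (Or.inl (by rw [rev_fst]; omega)))
      rcases Nat.lt_or_ge d R0 with hdR | hdR
      · right; right; omega
      · left
        obtain ⟨h5, h6⟩ := hsep (rev i) (rev j) (-κ) (-l) (fun s hs => h4.2 s (by omega))
        have h7 : i = j := by
          have := congrArg rev h5
          rwa [rev_rev, rev_rev] at this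
        refine ⟨h7, ?_⟩
        have h8 : κ - l = -(-κ - -l) := by ring
        rw [h8, dvd_neg]
        exact h6
    · exfalso
      have h3 : S.seg C.g (rev i) (-κ) d = S.seg C.g j l M' := by rw [← h1, h]
      have h4 := C.p1 (rev i) j (-κ) l d M' (by omega) hM1
        (by rw [rev_fst]; omega) hc' h3 (Or.inr (Or.inl (by rw [rev_fst]; omega)))
      have h5 := h4.2 0 (by omega)
      rw [Nat.cast_zero, add_zero, add_zero, wd_rev_neg, ← hl] at h5
      exact wd_ne_prev i κ h5.symm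
  · have h4 := close_short C i j κ l M M' hl hM0 hc hM' h
    rcases Nat.lt_or_ge M R0 with hdR | hdR
    · right; left; exact hdR
    · left
      exact hsep i j κ l (fun s hs => h4.2 s (by omega))

/-- two lines through a common dart at `p`: if they are different, then every common vertex is near `p` -/
theorem Lin_eq_or {R0 : ℕ} (hR0 : 1 ≤ R0) (hsep : S.Sep R0) (i j : I × Bool) (κ l : ℤ) (p : Q) (M M' : ℕ)
    (hl : S.wd i κ = S.wd j l) (hM : M < C.N i.1) (hM' : M' < C.N j.1)
    (h : p * S.seg C.g i κ M = p * S.seg C.g j l M') :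
    C.Lin i κ p = C.Lin j l p ∨ M < R0 ∨ C.N i.1 < M + R0 := by
  rcases close_dart C hR0 hsep i j κ l M M' hl hM hM' (mul_left_cancel h) with ⟨h1, h2⟩ | h1
  · left
    subst h1
    exact Lin_congr C i h2 p
  · exact Or.inr h1

end Pool.Agent.Helper53.LG
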