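import Pool.Agent.Helper53.LG.Sepi

/-!
# LG-22: cocycles on the free group and the induced representations

`g : Y → Q`, `τ : Q × Y → Γ` a function on the edges with values in a group. `coc g τ l q ∈ Γ`: the product of the values along
the path from `q` with label `l`.

`exists_coc`: the group `Q` acts on `Q → Γ` by `(p • b) q = b (q * p)` (a homomorphism `Q →* MulAut (Q → Γ)`), let
`Ω : FreeGroup Y →* (Q → Γ) ⋊ Q` be the lift of `y ↦ (q ↦ τ (q, y), g y)`; `c l = (Ω l).left`; `(Ω l).right = lift g l` by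
`FreeGroup` induction or uniqueness of homomorphisms; `(a * b).left = a.left * φ a.right b.left`.

`exists_repC`: for each `l` the map `f ↦ (q ↦ θ (coc l q) (f (q * ev l)))` is linear, multiplicative in `l`
(`coc_mul`: `θ (c l q) (θ (c l' (q ev l)) (f (q ev l ev l')))`), so a homomorphism to `Module.End`, whose values are
invertible: pass to `LinearEquiv` (`MonoidHom.toHomUnits`, `LinearMap.GeneralLinearGroup.generalLinearEquiv`, or directly).

`fpw a n`: the product of the first `n` letters. `exists_fpw`: the reduced word of `l ≠ 1` (`FreeGroup.toWord`,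
`isReduced_toWord`), extended arbitrarily. `coc_fpw`: induction on `n` (`coc_mul`, `coc_inv` for an inverse letter:
`coc (of y)⁻¹ q = (τ (q * (g y)⁻¹, y))⁻¹`, and `tau (e, false) = (tau (e, true))⁻¹` because the generators are involutions).
-/

namespace Pool.Agent.Helper53.LG

variable {Y Q : Type} [Group Q] (g : Y → Q) {Γ : Type} [Group Γ] (τ : Q × Y → Γ)

/-- evaluation in `Q` -/
abbrev evQ : FreeGroup Y →* Q := FreeGroup.lift g

/-- the action of `Q` on `Q → Γ` -/
private def cocAct (Q Γ : Type) [Group Q] [Group Γ] : Q →* MulAut (Q → Γ) where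
  toFun p :=
    { toFun := fun b q => b (q * p)
      invFun := fun b q => b (q * p⁻¹)
      left_inv := fun b => by
        funext q
        simp
      right_inv := fun b => by
        funext q
        simp
      map_mul' := fun b b' => rfl }
  map_one' := by
    ext b q
    simp
  map_mul' p p' := by
    ext b q
    simp [mul_assoc]

theorem exists_coc : ∃ c : FreeGroup Y → Q → Γ, (∀ y q, c (FreeGroup.of y) q = τ (q, y)) ∧
    ∀ l l' q, c (l * l') q = c l q * c l' (q * evQ g l) := by
  let Ω : FreeGroup Y →* (Q → Γ) ⋊[cocAct Q Γ] Q :=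
    FreeGroup.lift (fun y => ⟨fun q => τ (q, y), g y⟩)
  have hr : ∀ l, (Ω l).right = evQ g l := by
    intro l
    have h : (SemidirectProduct.rightHom.comp Ω) = evQ g := by
      ext y
      simp [Ω]
    exact DFunLike.congr_fun h l
  refine ⟨fun l => (Ω l).left, ?_, ?_⟩
  · intro y q
    simp [Ω]
  · intro l l' q
    change (Ω (l * l')).left q = _
    rw [map_mul, SemidirectProduct.mul_left, Pi.mul_apply, ← hr l]
    rfl

/-- the cocycle -/
noncomputable def coc : FreeGroup Y → Q → Γ := (exists_coc g τ).choose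

lemma coc_of (y : Y) (q : Q) : coc g τ (FreeGroup.of y) q = τ (q, y) := (exists_coc g τ).choose_spec.1 y q

lemma coc_mul (l l' : FreeGroup Y) (q : Q) : coc g τ (l * l') q = coc g τ l q * coc g τ l' (q * evQ g l) :=
  (exists_coc g τ).choose_spec.2 l l' q

lemma coc_one (q : Q) : coc g τ 1 q = 1 := by
  have h := coc_mul g τ 1 1 q
  rw [mul_one, map_one, mul_one] at h
  exact left_eq_mul.mp h

lemma coc_inv (l : FreeGroup Y) (q : Q) : coc g τ l⁻¹ q = (coc g τ l (q * (evQ g l)⁻¹))⁻¹ := by
  have h := coc_mul g τ l⁻¹ l q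
  rw [inv_mul_cancel, coc_one, map_inv] at h
  exact eq_inv_of_mul_eq_one_left h.symm

theorem exists_repC {U : Type} [AddCommGroup U] [Module ℝ U] (θ : Γ →* (U ≃ₗ[ℝ] U)) :
    ∃ ρ : FreeGroup Y →* ((Q → U) ≃ₗ[ℝ] (Q → U)), ∀ l f q, ρ l f q = θ (coc g τ l q) (f (q * evQ g l)) := by
  let L : FreeGroup Y → ((Q → U) →ₗ[ℝ] (Q → U)) := fun l =>
    { toFun := fun f q => θ (coc g τ l q) (f (q * evQ g l))
      map_add' := fun f f' => by
        funext q
        simp
      map_smul' := fun r f => by
        funext q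
        simp }
  have hL : ∀ l f q, L l f q = θ (coc g τ l q) (f (q * evQ g l)) := fun _ _ _ => rfl
  have hmul : ∀ l l' f, L (l * l') f = L l (L l' f) := by
    intro l l' f
    funext q
    rw [hL, hL, hL, coc_mul, map_mul, map_mul, mul_assoc]
    rfl
  have hone : ∀ f, L 1 f = f := by
    intro f
    funext q
    rw [hL, coc_one, map_one, map_one, mul_one]
    rfl
  let E : FreeGroup Y → ((Q → U) ≃ₗ[ℝ] (Q → U)) := fun l =>
    LinearEquiv.ofLinearMap (L l) (L l⁻¹)
      (by
        refine LinearMap.ext fun f => ?_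
        change L l (L l⁻¹ f) = f
        rw [← hmul, mul_inv_cancel, hone])
      (by
        refine LinearMap.ext fun f => ?_
        change L l⁻¹ (L l f) = f
        rw [← hmul, inv_mul_cancel, hone])
  refine ⟨MonoidHom.mk' E ?_, fun l f q => rfl⟩
  intro l l'
  refine LinearEquiv.ext fun f => ?_
  exact hmul l l' f

/-- the induced representation -/
noncomputable def repC {U : Type} [AddCommGroup U] [Module ℝ U] (θ : Γ →* (U ≃ₗ[ℝ] U)) :
    FreeGroup Y →* ((Q → U) ≃ₗ[ℝ] (Q → U)) := (exists_repC g τ θ).choose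

lemma repC_apply {U : Type} [AddCommGroup U] [Module ℝ U] (θ : Γ →* (U ≃ₗ[ℝ] U)) (l : FreeGroup Y)
    (f : Q → U) (q : Q) : repC g τ θ l f q = θ (coc g τ l q) (f (q * evQ g l)) :=
  (exists_repC g τ θ).choose_spec l f q

/-- the product of the first `n` letters -/
def fpw (a : ℕ → Lt Y) : ℕ → FreeGroup Y
  | 0 => 1
  | n + 1 => fpw a n * lv FreeGroup.of (a n)

lemma seg_eq_fpw {I : Type} (S : WSys Y I) (i : I × Bool) (κ : ℤ) (m : ℕ) :
    S.seg FreeGroup.of i κ m = fpw (fun s => S.wd i (κ + s)) m := by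
  induction m with
  | zero => rfl
  | succ m ih =>
    rw [seg_succ, ih]
    rfl

private lemma evQ_lv (l : Lt Y) : evQ g (lv FreeGroup.of l) = lv g l := by
  rcases l with ⟨y, _ | _⟩ <;> simp [lv]

lemma evQ_fpw (v : ℕ → Q) (a : ℕ → Lt Y) (h : IsPath g v a) (n : ℕ) : v 0 * evQ g (fpw a n) = v n := by
  induction n with
  | zero =>
    change v 0 * evQ g 1 = v 0
    rw [map_one, mul_one]
  | succ n ih =>
    change v 0 * evQ g (fpw a n * lv FreeGroup.of (a n)) = v (n + 1)
    rw [map_mul, ← mul_assoc, ih, evQ_lv, h n]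

lemma evQ_seg {I : Type} (S : WSys Y I) (i : I × Bool) (κ : ℤ) (m : ℕ) :
    evQ g (S.seg FreeGroup.of i κ m) = S.seg g i κ m := by
  induction m with
  | zero =>
    change evQ g 1 = 1
    rw [map_one]
  | succ m ih => rw [seg_succ, seg_succ, map_mul, ih, evQ_lv]

theorem exists_fpw (l : FreeGroup Y) (hl : l ≠ 1) : ∃ (a : ℕ → Lt Y) (n : ℕ), 0 < n ∧ RedOn a n ∧ l = fpw a n := by
  classical
  obtain ⟨L, hLdef⟩ : ∃ L : List (Y × Bool), L = l.toWord := ⟨_, rfl⟩
  have hne : L ≠ [] := by
    intro h0
    rw [hLdef] at h0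
    exact hl (FreeGroup.toWord_eq_nil_iff.mp h0)
  have hpos : 0 < L.length := List.length_pos_iff.mpr hne
  let a : ℕ → Lt Y := fun k => L.getD k (L.head hne)
  have ha : ∀ k (hk : k < L.length), a k = L[k] := by
    intro k hk
    exact List.getD_eq_getElem L _ hk
  refine ⟨a, L.length, hpos, ?_, ?_⟩
  · intro k hk hbar
    have hred : FreeGroup.IsReduced L := by
      rw [hLdef]
      exact FreeGroup.isReduced_toWord
    have h1 := List.isChain_iff_getElem.mp hred k hk
    rw [ha k (by omega), ha (k + 1) hk] at hbar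
    have h2 : (L[k]'(by omega)).1 = (L[k + 1]'hk).1 := by rw [hbar]; rfl
    have h3 := h1 h2
    rw [hbar] at h3
    simp [bar] at h3
  · have key : ∀ m, m ≤ L.length → fpw a m = FreeGroup.mk (L.take m) := by
      intro m
      induction m with
      | zero =>
        intro _
        rw [List.take_zero]
        rfl
      | succ m ih =>
        intro hm
        change fpw a m * lv FreeGroup.of (a m) = _
        rw [ih (by omega), ha m (by omega), List.take_succ_eq_append_getElem (by omega),
          ← FreeGroup.mul_mk]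
        congr 1
        rcases L[m] with ⟨y, _ | _⟩
        · simp [lv, FreeGroup.of, FreeGroup.inv_mk, FreeGroup.invRev]
        · simp [lv, FreeGroup.of]
    rw [key _ le_rfl, List.take_length, hLdef, FreeGroup.mk_toWord]

private lemma coc_tau_inv {V : Type} (Cm : V → V → Prop) (e : V) :
    (tau Cm (e, true))⁻¹ = tau Cm (e, false) := by
  have h1 := gen_sq Cm (e, true)
  have h2 := gen_sq Cm (e, false)
  rw [inv_eq_iff_mul_eq_one]
  change gen Cm (e, true) * gen Cm (e, false) * (gen Cm (e, false) * gen Cm (e, true)) = 1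
  rw [mul_assoc, ← mul_assoc (gen Cm (e, false)), h2, one_mul, h1]

theorem coc_fpw (Cm : Q × Y → Q × Y → Prop) (v : ℕ → Q) (a : ℕ → Lt Y) (h : IsPath g v a) (n : ℕ) :
    coc g (fun e => tau Cm (e, true)) (fpw a n) (v 0) = PP Cm (sed g v a) 0 n := by
  induction n with
  | zero =>
    change coc g (fun e => tau Cm (e, true)) 1 (v 0) = 1
    rw [coc_one]
  | succ n ih =>
    change coc g (fun e => tau Cm (e, true)) (fpw a n * lv FreeGroup.of (a n)) (v 0) = _
    rw [coc_mul, ih, PP_succ, evQ_fpw g v a h n, zero_add]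
    congr 1
    unfold sed edg
    rcases a n with ⟨y, _ | _⟩
    · have e1 : lv (FreeGroup.of : Y → FreeGroup Y) (y, false) = (FreeGroup.of y)⁻¹ := by
        simp [lv]
      rw [e1, coc_inv, coc_of, coc_tau_inv]
      simp [dedge]
    · have e1 : lv (FreeGroup.of : Y → FreeGroup Y) (y, true) = FreeGroup.of y := by
        simp [lv]
      rw [e1, coc_of]
      simp [dedge]

end Pool.Agent.Helper53.LG
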