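import Pool.Agent.Helper53.LG.Sepi

/-!
# LG-18: existence of the cover (the mod 2 homology cover)

`P` finite group, `g0 : Y → P`. Write `d_i = orderOf (S.seg g0 (i, true) 0 (S.n i))`, `M i = S.n i * d_i`.

(0) `seg_P i κ m = 1 ↔ M i.1 ∣ m` (`i : I × Bool`): `→`: `n ∣ m` by `h1`, `m = n μ`, `seg i κ m` is (`seg_pow`) the `μ`-th power of
`seg i κ n`, which is conjugate to `c = seg (i₀, true) 0 n` or its inverse (`seg_add` with `κ = n z + κ₀` gives
`p κ₀ * seg κ₀ n = c * p κ₀`; `seg_rev` for `false`), so `d ∣ μ`. `←`: same.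
Consequently the vertices `seg_P i κ s`, `s < M`, are distinct, and the edges `dedge g0 (p * seg_P i κ s) (wd i (κ + s))`,
`s < M` are distinct (`3 ≤ d ≤ M`; by `dedge_eq_iff`: see `dart_inj` in `Line.lean`).

(1) `Ω = P × (P × Y → ZMod 2)`, `σ y : Perm Ω`, `σ y (p, v) = (p * g0 y, v + Pi.single (p, y) 1)`, the inverse is
`(p, v) ↦ (p * (g0 y)⁻¹, v + Pi.single (p * (g0 y)⁻¹, y) 1)` (characteristic `2`). `Q = Perm Ω`, `g y = (σ y)⁻¹`. Then
`(lv g l)⁻¹ (p, v) = (p * lv g0 l, v + Pi.single (dedge g0 p l) 1)` for every signed letter `l`, so by induction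
`(S.seg g i κ m)⁻¹ (p, v) = (p * S.seg g0 i κ m, v + ∑_{s < m} Pi.single (dedge g0 (p * S.seg g0 i κ s) (S.wd i (κ + s))) 1)`.

(2) `N i = 2 * M i`. `p0`: if `seg i κ m = 1` in `Q` then `M ∣ m`, `m = M j`; the sum above is `j` times the sum over `s < M`
(periodicity: `seg_P i κ (M + s) = seg_P i κ s`, `wd_per_mul`), which is the indicator function of a nonempty set (distinct
edges), so `j = 0` in `ZMod 2`. Conversely for `m = 2 M j'`.

(3) `p1`: `2 m ≤ N i.1` means `m ≤ M i.1`, so the edges at the positions `s < m` of the first path from `1` are distinct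
and the sum in (1) is the indicator function of the set `E` of these edges; same for the second path, set
`E'`. `seg i κ m = seg j l m'` applied (inverse) to `(1, 0)`: equal end vertices and `E = E'`, so `m = m'` (cardinality).
Let `x_s = seg_P i κ s`, `y_s = seg_P j l s` be the vertices, `a_s = wd i (κ + s)`, `b_s = wd j (l + s)` the labels.
First step: `k < m`, `x_s = y_s` for `s ≤ k` and `a_s = b_s` for `s < k`. The edge `f = dedge x_k a_k` is in `E = E'`, so it is
`dedge y_t b_t` with `t < m`, and `t ≥ k` since the first `k` edges of both paths are the same and `f` is not one of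
them. By `dedge_eq_iff` either `x_k = y_t`, `a_k = b_t`, then `y_k = y_t` so `k = t` and `a_k = b_k`; or `x_k = y_{t+1}`, so
`y_k = y_{t+1}` with `k < t + 1 ≤ m ≤ M j.1`, so `k = 0` and `t + 1 = m = M j.1`.
So if `a_0 = b_0`, by induction `a_s = b_s` for all `s < m`. If `a_0 ≠ b_0` the step for `k = 0` gives `m = M j.1`, so `y_m = 1`,
so `x_m = 1`, `M i.1 ∣ m`, `m = M i.1`; so `2 m = N i.1` and `2 m = N j.1` and the hypothesis of `p1` fails.
-/

namespace Pool.Agent.Helper53.LG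

section coverEx_aux

variable {Y I : Type} (S : WSys Y I) {P : Type} [Group P] (g0 : Y → P)

private lemma coverEx_order_step (i : I × Bool) (κ : ℤ) :
    orderOf (S.seg g0 i (κ + 1) (S.n i.1)) = orderOf (S.seg g0 i κ (S.n i.1)) := by
  have h1 : S.seg g0 i κ 1 * S.seg g0 i (κ + 1) (S.n i.1) = S.seg g0 i κ (S.n i.1) * S.seg g0 i κ 1 := by
    have h2 := seg_add g0 S i κ 1 (S.n i.1)
    have h3 := seg_add g0 S i κ (S.n i.1) 1
    rw [add_comm, h3] at h2
    rw [seg_congr g0 S i (κ := κ + (S.n i.1 : ℤ)) (l := κ) (by simp)] at h2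
    simpa using h2.symm
  have h2 : S.seg g0 i κ (S.n i.1) =
      MulAut.conj (S.seg g0 i κ 1) (S.seg g0 i (κ + 1) (S.n i.1)) := by
    rw [MulAut.conj_apply, h1, mul_inv_cancel_right]
  rw [h2, MulEquiv.orderOf_eq]

private lemma coverEx_order_shift (i : I × Bool) (κ : ℤ) :
    orderOf (S.seg g0 i κ (S.n i.1)) = orderOf (S.seg g0 i 0 (S.n i.1)) := by
  induction κ using Int.induction_on with
  | zero => rfl
  | succ z ih => rw [coverEx_order_step, ih]
  | pred z ih =>
    rw [← ih, ← coverEx_order_step S g0 i (-(z : ℤ) - 1)]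
    congr 2
    ring

private lemma coverEx_order (i : I × Bool) (κ : ℤ) :
    orderOf (S.seg g0 i κ (S.n i.1)) = orderOf (S.seg g0 (i.1, true) 0 (S.n i.1)) := by
  rcases i with ⟨i, _ | _⟩
  · have h := seg_rev g0 S (i, true) (-κ - S.n i) (S.n i)
    have h2 : -(-κ - (S.n i : ℤ)) - (S.n i : ℤ) = κ := by ring
    rw [h2] at h
    change (S.seg g0 (i, true) (-κ - S.n i) (S.n i))⁻¹ = S.seg g0 (i, false) κ (S.n i) at h
    change orderOf (S.seg g0 (i, false) κ (S.n i)) = _
    rw [← h, orderOf_inv]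
    exact coverEx_order_shift S g0 (i, true) _
  · exact coverEx_order_shift S g0 (i, true) κ

/-- step (0) -/
private lemma coverEx_p0
    (h1 : ∀ (i : I × Bool) (κ : ℤ) (m : ℕ), S.seg g0 i κ m = 1 → S.n i.1 ∣ m)
    (i : I × Bool) (κ : ℤ) (m : ℕ) :
    S.seg g0 i κ m = 1 ↔ S.n i.1 * orderOf (S.seg g0 (i.1, true) 0 (S.n i.1)) ∣ m := by
  have key : ∀ μ : ℕ, S.seg g0 i κ (S.n i.1 * μ) = 1 ↔
      S.n i.1 * orderOf (S.seg g0 (i.1, true) 0 (S.n i.1)) ∣ S.n i.1 * μ := by
    intro μ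
    have h2 := seg_pow S g0 i κ μ 0
    rw [add_zero, seg_zero, mul_one] at h2
    rw [h2, ← orderOf_dvd_iff_pow_eq_one, coverEx_order, Nat.mul_dvd_mul_iff_left (S.npos i.1)]
  constructor
  · intro h
    obtain ⟨μ, rfl⟩ := h1 i κ m h
    exact (key μ).1 h
  · intro h
    obtain ⟨μ, rfl⟩ := dvd_trans (Dvd.intro _ rfl) h
    exact (key μ).2 h

/-- a word system which closes up after exactly `M` steps -/
private structure CovPre (M : I → ℕ) : Prop where
  p0 : ∀ (i : I × Bool) (κ : ℤ) (m : ℕ), S.seg g0 i κ m = 1 ↔ M i.1 ∣ m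
  three : ∀ i, 3 ≤ M i
  nM : ∀ i, S.n i ∣ M i

variable {S g0} {M : I → ℕ} (H : CovPre S g0 M)

include H

private lemma CovPre.seg_M (i : I × Bool) (κ : ℤ) (k : ℕ) : S.seg g0 i κ (M i.1 * k) = 1 :=
  (H.p0 i κ _).2 (Dvd.intro _ rfl)

private lemma CovPre.vt_aux (i : I × Bool) (κ : ℤ) (m d : ℕ)
    (h : S.seg g0 i κ m = S.seg g0 i κ (m + d)) : m % M i.1 = (m + d) % M i.1 := by
  rw [seg_add] at h
  have h2 : S.seg g0 i (κ + m) d = 1 := (mul_eq_left.1 h.symm)
  obtain ⟨k, rfl⟩ := (H.p0 i (κ + m) d).1 h2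
  rw [Nat.add_mul_mod_self_left]

private lemma CovPre.vt (i : I × Bool) (κ : ℤ) (m m' : ℕ)
    (h : S.seg g0 i κ m = S.seg g0 i κ m') : m % M i.1 = m' % M i.1 := by
  rcases le_total m m' with hle | hle
  · obtain ⟨d, rfl⟩ := Nat.exists_eq_add_of_le hle
    exact H.vt_aux i κ m d h
  · obtain ⟨d, rfl⟩ := Nat.exists_eq_add_of_le hle
    exact (H.vt_aux i κ m' d h.symm).symm

private lemma CovPre.dart (i : I × Bool) (κ : ℤ) (m m' : ℕ) (hm : m < M i.1) (hm' : m' < M i.1)
    (h : dedge g0 (S.seg g0 i κ m) (S.wd i (κ + m)) =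
      dedge g0 (S.seg g0 i κ m') (S.wd i (κ + m'))) : m = m' := by
  rcases (dedge_eq_iff g0 _ _ _ _).1 h with ⟨h1, -⟩ | ⟨h1, h2⟩
  · have h3 := H.vt i κ m m' h1
    rwa [Nat.mod_eq_of_lt hm, Nat.mod_eq_of_lt hm'] at h3
  · exfalso
    have h3 : S.seg g0 i κ m' = S.seg g0 i κ (m + 1) := by
      rw [h1, seg_succ]
    have h4 : S.seg g0 i κ m = S.seg g0 i κ (m' + 1) := by
      rw [seg_succ, h2, lv_bar, h1, mul_inv_cancel_right]
    have h5 := H.vt i κ _ _ h3
    have h6 := H.vt i κ _ _ h4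
    have h7 : (M i.1 : ℤ) ∣ ((m + 1 : ℕ) : ℤ) - (m' : ℤ) := (Nat.modEq_iff_dvd).1 h5
    have h8 : (M i.1 : ℤ) ∣ ((m' + 1 : ℕ) : ℤ) - (m : ℤ) := (Nat.modEq_iff_dvd).1 h6
    have h9 := dvd_add h7 h8
    have h10 : ((m + 1 : ℕ) : ℤ) - (m' : ℤ) + (((m' + 1 : ℕ) : ℤ) - (m : ℤ)) = 2 := by
      push_cast; ring
    rw [h10] at h9
    have h11 := Int.le_of_dvd (by norm_num) h9
    have h12 := H.three i.1
    omega

private lemma CovPre.wd_add (i : I × Bool) (κ : ℤ) (m : ℕ) :
    S.wd i (κ + ((M i.1 + m : ℕ) : ℤ)) = S.wd i (κ + m) := by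
  apply wd_congr
  have h : κ + ((M i.1 + m : ℕ) : ℤ) - (κ + m) = M i.1 := by push_cast; ring
  rw [h]
  exact_mod_cast H.nM i.1

private lemma CovPre.seg_add (i : I × Bool) (κ : ℤ) (m : ℕ) :
    S.seg g0 i κ (M i.1 + m) = S.seg g0 i κ m := by
  rw [LG.seg_add]
  have h := H.seg_M i κ 1
  rw [mul_one] at h
  rw [h, one_mul]
  apply seg_congr
  have h2 : κ + (M i.1 : ℤ) - κ = M i.1 := by ring
  rw [h2]
  exact_mod_cast H.nM i.1

omit H

section summ

variable [DecidableEq (P × Y)]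

/-- the cochain of a path -/
private def cvS (S : WSys Y I) (g0 : Y → P) (i : I × Bool) (κ : ℤ) (p : P) (m : ℕ) : P × Y → ZMod 2 :=
  ∑ s ∈ Finset.range m, Pi.single (dedge g0 (p * S.seg g0 i κ s) (S.wd i (κ + s))) 1

include H in
private lemma CovPre.sum_mul (i : I × Bool) (κ : ℤ) (p : P) (j : ℕ) :
    cvS S g0 i κ p (M i.1 * j) = j • cvS S g0 i κ p (M i.1) := by
  induction j with
  | zero => simp [cvS]
  | succ j ih =>
    rw [mul_add, mul_one, add_comm, succ_nsmul', ← ih]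
    unfold cvS
    rw [Finset.sum_range_add]
    congr 1
    apply Finset.sum_congr rfl
    intro s _
    rw [H.wd_add, H.seg_add]

private lemma cvS_apply_inj (i : I × Bool) (κ : ℤ) (p : P) (m : ℕ)
    (hinj : ∀ s < m, ∀ t < m, dedge g0 (p * S.seg g0 i κ s) (S.wd i (κ + s)) =
      dedge g0 (p * S.seg g0 i κ t) (S.wd i (κ + t)) → s = t) (x : P × Y) :
    cvS S g0 i κ p m x = 1 ↔ ∃ s < m, dedge g0 (p * S.seg g0 i κ s) (S.wd i (κ + s)) = x := by
  unfold cvS
  rw [Finset.sum_apply]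
  constructor
  · intro h
    by_contra hne
    push Not at hne
    rw [Finset.sum_eq_zero] at h
    · exact zero_ne_one h
    · intro s hs
      exact Pi.single_eq_of_ne (hne s (Finset.mem_range.1 hs)).symm 1
  · rintro ⟨s, hs, rfl⟩
    rw [Finset.sum_eq_single s]
    · rw [Pi.single_eq_same]
    · intro t ht hts
      apply Pi.single_eq_of_ne
      intro h
      exact hts (hinj t (Finset.mem_range.1 ht) s hs h.symm)
    · intro h
      exact absurd (Finset.mem_range.2 hs) h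

omit [Group P] [DecidableEq (P × Y)] in
private lemma cv_add_self (a : P × Y → ZMod 2) : a + a = 0 := by
  ext x
  exact CharTwo.add_self_eq_zero (a x)

/-- the permutation of the cover given by a letter -/
private def cvPerm (g0 : Y → P) (y : Y) : Equiv.Perm (P × (P × Y → ZMod 2)) where
  toFun q := (q.1 * g0 y, q.2 + Pi.single (q.1, y) 1)
  invFun q := (q.1 * (g0 y)⁻¹, q.2 + Pi.single (q.1 * (g0 y)⁻¹, y) 1)
  left_inv q := by
    rcases q with ⟨p, v⟩
    simp only [mul_inv_cancel_right, Prod.mk.injEq, true_and]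
    rw [add_assoc, cv_add_self, add_zero]
  right_inv q := by
    rcases q with ⟨p, v⟩
    simp only [inv_mul_cancel_right, Prod.mk.injEq, true_and]
    rw [add_assoc, cv_add_self, add_zero]

private lemma cvPerm_lv (l : Lt Y) (p : P) (v : P × Y → ZMod 2) :
    (lv (fun y => (cvPerm g0 y)⁻¹) l)⁻¹ (p, v) = (p * lv g0 l, v + Pi.single (dedge g0 p l) 1) := by
  rcases l with ⟨y, _ | _⟩
  · simp only [lv, dedge, Bool.false_eq_true, if_false, inv_inv]
    rfl
  · simp only [lv, dedge, if_true, inv_inv]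
    rfl

private lemma cvPerm_seg (i : I × Bool) (κ : ℤ) (m : ℕ) (p : P) (v : P × Y → ZMod 2) :
    (S.seg (fun y => (cvPerm g0 y)⁻¹) i κ m)⁻¹ (p, v) = (p * S.seg g0 i κ m, v + cvS S g0 i κ p m) := by
  induction m with
  | zero => simp [cvS]
  | succ m ih =>
    rw [seg_succ, mul_inv_rev, Equiv.Perm.mul_apply, ih, cvPerm_lv, seg_succ, mul_assoc]
    unfold cvS
    rw [Finset.sum_range_succ, add_assoc]

include H in
private lemma CovPre.cover_p0 (i : I × Bool) (κ : ℤ) (m : ℕ) :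
    S.seg (fun y => (cvPerm g0 y)⁻¹) i κ m = 1 ↔ 2 * M i.1 ∣ m := by
  constructor
  · intro h
    have h1 := cvPerm_seg (S := S) (g0 := g0) i κ m 1 0
    rw [h, inv_one, Equiv.Perm.one_apply, one_mul, zero_add] at h1
    obtain ⟨h2, h3⟩ := Prod.ext_iff.1 h1
    obtain ⟨j, rfl⟩ := (H.p0 i κ m).1 h2.symm
    have h4 : (0 : P × Y → ZMod 2) = j • cvS S g0 i κ 1 (M i.1) := by
      rw [← H.sum_mul]
      exact h3
    have h5 := congrFun h4 (dedge g0 (1 * S.seg g0 i κ 0) (S.wd i (κ + (0 : ℕ))))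
    have h6 : cvS S g0 i κ 1 (M i.1) (dedge g0 (1 * S.seg g0 i κ 0) (S.wd i (κ + (0 : ℕ)))) = 1 := by
      rw [cvS_apply_inj]
      · exact ⟨0, by have := H.three i.1; omega, rfl⟩
      · intro s hs t ht hst
        rw [one_mul, one_mul] at hst
        exact H.dart i κ s t hs ht hst
    rw [Pi.smul_apply, h6, Pi.zero_apply, nsmul_one] at h5
    have h7 : 2 ∣ j := (ZMod.natCast_eq_zero_iff j 2).1 h5.symm
    obtain ⟨j', rfl⟩ := h7
    exact ⟨j', by ring⟩
  · rintro ⟨j, rfl⟩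
    rw [← inv_eq_one]
    ext1 q
    rcases q with ⟨p, v⟩
    rw [cvPerm_seg, Equiv.Perm.one_apply]
    have h1 : 2 * M i.1 * j = M i.1 * (j + j) := by ring
    rw [h1, H.seg_M, H.sum_mul, add_nsmul, cv_add_self, mul_one, add_zero]

omit [DecidableEq (P × Y)] in
include H in
private lemma CovPre.step (i j : I × Bool) (κ l : ℤ) (m : ℕ) (hmi : m ≤ M i.1) (hmj : m ≤ M j.1)
    (hE : ∀ s < m, ∃ t < m, dedge g0 (S.seg g0 j l t) (S.wd j (l + t)) =
      dedge g0 (S.seg g0 i κ s) (S.wd i (κ + s)))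
    (k : ℕ) (hk : k < m) (hag : ∀ s < k, S.wd i (κ + s) = S.wd j (l + s)) :
    S.wd i (κ + k) = S.wd j (l + k) ∨ (k = 0 ∧ m = M j.1) := by
  have hxy : ∀ s ≤ k, S.seg g0 i κ s = S.seg g0 j l s := by
    intro s hs
    induction s with
    | zero => rfl
    | succ s ih => rw [seg_succ, seg_succ, ih (by omega), hag s (by omega)]
  obtain ⟨t, ht, hte⟩ := hE k hk
  have htk : k ≤ t := by
    by_contra hlt
    push Not at hlt
    rw [← hag t hlt, ← hxy t hlt.le] at hte
    have := H.dart i κ t k (by omega) (by omega) hte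
    omega
  rcases (dedge_eq_iff g0 _ _ _ _).1 hte with ⟨h1, h2⟩ | ⟨h1, h2⟩
  · left
    rw [hxy k le_rfl] at h1
    have h3 := H.vt j l t k h1
    rw [Nat.mod_eq_of_lt (by omega), Nat.mod_eq_of_lt (by omega)] at h3
    subst h3
    exact h2.symm
  · right
    have h3 : S.seg g0 j l k = S.seg g0 j l (t + 1) := by
      rw [← hxy k le_rfl, h1, seg_succ]
    have h4 := H.vt j l k (t + 1) h3
    have h5 := H.three j.1
    rw [Nat.mod_eq_of_lt (by omega : k < M j.1)] at h4
    rcases Nat.lt_or_ge (t + 1) (M j.1) with h6 | h6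
    · rw [Nat.mod_eq_of_lt h6] at h4
      omega
    · have h7 : t + 1 = M j.1 := by omega
      rw [h7, Nat.mod_self] at h4
      exact ⟨h4, by omega⟩

include H in
private lemma CovPre.cover_p1 (i j : I × Bool) (κ l : ℤ) (m m' : ℕ) (hm : 1 ≤ m) (hm' : 1 ≤ m')
    (hmi : 2 * m ≤ 2 * M i.1) (hmj : 2 * m' ≤ 2 * M j.1)
    (h : S.seg (fun y => (cvPerm g0 y)⁻¹) i κ m = S.seg (fun y => (cvPerm g0 y)⁻¹) j l m')
    (hor : S.wd i κ = S.wd j l ∨ 2 * m < 2 * M i.1 ∨ 2 * m' < 2 * M j.1) :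
    m = m' ∧ ∀ s : ℕ, s < m → S.wd i (κ + s) = S.wd j (l + s) := by
  have hmi2 : m ≤ M i.1 := by omega
  have hmj2 : m' ≤ M j.1 := by omega
  have e1 := cvPerm_seg (S := S) (g0 := g0) i κ m 1 0
  have e2 := cvPerm_seg (S := S) (g0 := g0) j l m' 1 0
  rw [h, e2] at e1
  obtain ⟨e3, e4⟩ := Prod.ext_iff.1 e1
  simp only [one_mul, zero_add] at e3 e4
  have inji : ∀ s < m, ∀ t < m, dedge g0 (1 * S.seg g0 i κ s) (S.wd i (κ + s)) =
      dedge g0 (1 * S.seg g0 i κ t) (S.wd i (κ + t)) → s = t := by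
    intro s hs t ht hst
    rw [one_mul, one_mul] at hst
    exact H.dart i κ s t (by omega) (by omega) hst
  have injj : ∀ s < m', ∀ t < m', dedge g0 (1 * S.seg g0 j l s) (S.wd j (l + s)) =
      dedge g0 (1 * S.seg g0 j l t) (S.wd j (l + t)) → s = t := by
    intro s hs t ht hst
    rw [one_mul, one_mul] at hst
    exact H.dart j l s t (by omega) (by omega) hst
  have hEE : ∀ x, (∃ s < m, dedge g0 (1 * S.seg g0 i κ s) (S.wd i (κ + s)) = x) ↔
      (∃ s < m', dedge g0 (1 * S.seg g0 j l s) (S.wd j (l + s)) = x) := by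
    intro x
    rw [← cvS_apply_inj i κ 1 m inji, ← cvS_apply_inj j l 1 m' injj, e4]
  simp only [one_mul] at hEE inji injj
  have hmm : m = m' := by
    have c1 : ((Finset.range m).image (fun s => dedge g0 (S.seg g0 i κ s) (S.wd i (κ + s)))).card = m := by
      rw [Finset.card_image_of_injOn, Finset.card_range]
      intro s hs t ht hst
      exact inji s (Finset.mem_range.1 hs) t (Finset.mem_range.1 ht) hst
    have c2 : ((Finset.range m').image (fun s => dedge g0 (S.seg g0 j l s) (S.wd j (l + s)))).card = m' := by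
      rw [Finset.card_image_of_injOn, Finset.card_range]
      intro s hs t ht hst
      exact injj s (Finset.mem_range.1 hs) t (Finset.mem_range.1 ht) hst
    rw [← c1, ← c2]
    congr 1
    ext x
    simp only [Finset.mem_image, Finset.mem_range]
    exact hEE x
  subst hmm
  refine ⟨rfl, ?_⟩
  have hE : ∀ s < m, ∃ t < m, dedge g0 (S.seg g0 j l t) (S.wd j (l + t)) =
      dedge g0 (S.seg g0 i κ s) (S.wd i (κ + s)) := fun s hs => (hEE _).1 ⟨s, hs, rfl⟩
  have hstep := H.step i j κ l m hmi2 hmj2 hE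
  have h0 : S.wd i κ = S.wd j l := by
    by_contra hne
    have h1 := hstep 0 hm (fun s hs => absurd hs (by omega))
    simp only [Nat.cast_zero, add_zero] at h1
    rcases h1 with h1 | ⟨-, h1⟩
    · exact hne h1
    · have h2 := H.seg_M j l 1
      rw [mul_one, ← h1, e3] at h2
      obtain ⟨c, hc⟩ := (H.p0 i κ m).1 h2
      have h3 : 1 ≤ c := by
        rcases Nat.eq_zero_or_pos c with hc0 | hc0
        · rw [hc0] at hc
          omega
        · exact hc0
      have h4 : M i.1 * 1 ≤ M i.1 * c := Nat.mul_le_mul_left _ h3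
      rcases hor with h5 | h5 | h5
      · exact hne h5
      · omega
      · omega
  intro s
  induction s using Nat.strong_induction_on with
  | _ s ih =>
    intro hs
    rcases Nat.eq_zero_or_pos s with rfl | hpos
    · simpa using h0
    · rcases hstep s hs (fun t ht => ih t ht (by omega)) with h1 | ⟨h1, -⟩
      · exact h1
      · omega

end summ

end coverEx_aux

theorem exists_cover {Y I : Type} [Finite Y] (S : WSys Y I) (P : Type) [Group P] [Finite P] (g0 : Y → P)
    (h1 : ∀ (i : I × Bool) (κ : ℤ) (m : ℕ), S.seg g0 i κ m = 1 → S.n i.1 ∣ m)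
    (h3 : ∀ i : I, 3 ≤ orderOf (S.seg g0 (i, true) 0 (S.n i))) :
    ∃ (Q : Type) (_ : Group Q) (_ : Fintype Q) (C : Cover S Q),
      ∀ i : I, C.N i = 2 * (S.n i * orderOf (S.seg g0 (i, true) 0 (S.n i))) := by
  classical
  have H : CovPre S g0 (fun i => S.n i * orderOf (S.seg g0 (i, true) 0 (S.n i))) :=
    { p0 := coverEx_p0 S g0 h1
      three := fun i => by
        have h4 : 1 * 3 ≤ S.n i * orderOf (S.seg g0 (i, true) 0 (S.n i)) :=
          Nat.mul_le_mul (S.npos i) (h3 i)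
        omega
      nM := fun i => Dvd.intro _ rfl }
  have : Finite (Equiv.Perm (P × (P × Y → ZMod 2))) := inferInstance
  refine ⟨Equiv.Perm (P × (P × Y → ZMod 2)), inferInstance, Fintype.ofFinite _,
    { g := fun y => (cvPerm g0 y)⁻¹
      N := fun i => 2 * (S.n i * orderOf (S.seg g0 (i, true) 0 (S.n i)))
      Npos := fun i => by
        have h5 := H.three i
        change 3 ≤ S.n i * orderOf (S.seg g0 (i, true) 0 (S.n i)) at h5
        change 3 ≤ 2 * (S.n i * orderOf (S.seg g0 (i, true) 0 (S.n i)))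
        omega
      nN := fun i => ⟨2 * orderOf (S.seg g0 (i, true) 0 (S.n i)), by ring⟩
      p0 := fun i κ m => H.cover_p0 i κ m
      p1 := fun i j κ l m m' hm hm' hi hj he ho => H.cover_p1 i j κ l m m' hm hm' hi hj he ho },
    fun i => rfl⟩

end Pool.Agent.Helper53.LG
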