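import Pool.Agent.Helper53.LG.Defs

/-!
# LG-04: a crossed homomorphism on a right-angled Coxeter group

`Cm` is symmetric and irreflexive. `ε : RG Cm →* ℤˣ` sends the generators over `v` to `-1`, all others to `1`
(`PresentedGroup.toGroup`). `Cent Cm v` is the subgroup generated by `gen (v, true)` and the `gen x` with
`Cm v x.1`. Let `M = (RG Cm ⧸ Cent Cm v) →₀ ℤ`, on which `RG` acts by `x • m = mapDomain (x • ·) m`.

`exists_crossed`: for a generator `x` let `A_x : M → M`, `A_x m = ε(x) • mapDomain (gen x • ·) m + δ_x` where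
`δ_x = single ⟦1⟧ 1` if `x = (v, true)` and `δ_x = 0` otherwise. `A_x ∘ A_x = id`: `(gen x)² = 1`, `ε² = 1`, and for
`x = (v, true)`: `ε = -1`, `gen x • ⟦1⟧ = ⟦1⟧` (`gen x ∈ Cent`), so the constant term is `-⟦1⟧ + ⟦1⟧ = 0`. If
`Cm x.1 y.1` then `A_x ∘ A_y = A_y ∘ A_x`: the constant terms are `ε(x) x•δ_y + δ_x` and `ε(y) y•δ_x + δ_y`; if
neither `x` nor `y` is `(v, true)` both are `0`; if `x = (v, true)`: then `y.1 ≠ v`, `δ_y = 0`, `ε(y) = 1`,
`gen y ∈ Cent` (`Cm v y.1`), so both are `⟦1⟧`; same for `y = (v, true)` (symmetry).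
So `x ↦ A_x` (as elements of `Equiv.Perm M`) extends to a homomorphism `A : RG Cm →* Equiv.Perm M`
(`PresentedGroup.toGroup`). Put `D x = A x 0`. By induction (closure induction / `PresentedGroup.induction_on` and
induction on the element of the free group) `A x m = ε(x) • mapDomain (x • ·) m + D x` for all `x`, `m`;
so `D (x * y) = A x (A y 0) = D x + ε(x) • mapDomain (x • ·) (D y)`.

`Nul Cm v x`: `D x = 0` for the `D` of `exists_crossed` (choice); `nul_one`.

`nul_Wsub`: `v ∉ T`: `D` vanishes on `gen x` for `x.1 ∈ T` (`x ≠ (v, true)`), then closure induction: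
`D (x y) = D x + …(D y)`, and `D x = 0` implies `D x⁻¹ = 0` (from `0 = D 1 = D (x⁻¹ x) = D x⁻¹ + …(D x)`).

`partner`: for `x : ℕ → V × Bool` put `P k = PP x 0 k`. `ε (tau e) = 1` for all `e` (two letters over `e.1`), so
`ε (P k) = 1`, `ε (PP x i n) = 1`. `D (tau e) = 0` if `e.1 ≠ v`, `D (tau (v, true)) = D (s r) = ⟦1⟧` (`s = gen (v, true)`,
`r = gen (v, false)`), `D (tau (v, false)) = D (r s) = ε(r) r•⟦1⟧ = -⟦r⟧`, and `⟦P j r⟧ = ⟦P j r s⟧ = ⟦P (j + 1)⟧`. By
induction on `n`:
`D (P n) = ∑_{i < n, x i = (v, true)} ⟦P i⟧ - ∑_{j < n, x j = (v, false)} ⟦P (j + 1)⟧`. If `D (P n) = 0`, then for every `i < n`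
with `x i = (v, true)` there is `j < n` with `x j = (v, false)` and `⟦P i⟧ = ⟦P (j + 1)⟧` (compare the
coefficients at `⟦P i⟧`: the first sum is positive there), and conversely for every such `j` there is such an `i`.
Let `i, j` be such a pair, `i ≠ j`. If `i < j`, `mid = PP x (i + 1) (j - i - 1)`: `P (j + 1) = P i * (s r) * mid * (r s)`, so
`s r mid r s ∈ Cent`, so `r mid r ∈ Cent` (`s ∈ Cent`). Every element of `Cent` is `u` or `s u` with
`u ∈ Wsub (Lk v)` (`s` commutes with the generators of `Wsub (Lk v)`; `mem_Cent`). `r mid r = u`: `mid = r u r = u` (`r`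
commutes with `Wsub (Lk v)`). `r mid r = s u`: apply `ε`: `ε(mid) = ε(s) ε(u) = -1`, but `ε(mid) = 1`. If `j < i`,
`mid = PP x (j + 1) (i - j - 1)`: `P i = P (j + 1) * mid`, so `mid ∈ Cent`, and `mid = s u` is impossible by `ε`.
So in both cases `mid ∈ Wsub (Lk v)`.
-/

namespace Pool.Agent.Helper53.LG

variable {V : Type} (Cm : V → V → Prop)

/-- generated by `s_v` and the generators commuting with it -/
def Cent (v : V) : Subgroup (RG Cm) :=
  Subgroup.closure {g | g = gen Cm (v, true) ∨ ∃ x : V × Bool, Cm v x.1 ∧ g = gen Cm x}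

theorem exists_eps (hirr : ∀ u, ¬ Cm u u) (v : V) : ∃ ε : RG Cm →* ℤˣ,
    ∀ x : V × Bool, (x.1 = v → ε (gen Cm x) = -1) ∧ (x.1 ≠ v → ε (gen Cm x) = 1) := by
  classical
  obtain ⟨f, hf⟩ : ∃ f : V × Bool → ℤˣ, ∀ x, f x = if x.1 = v then -1 else 1 := ⟨_, fun _ => rfl⟩
  have hsq : ∀ x, f x * f x = 1 := by
    intro x
    rw [hf]
    split_ifs <;> simp
  have hrel : ∀ r ∈ rels Cm, FreeGroup.lift f r = 1 := by
    intro r hr
    rcases hr with ⟨x, rfl⟩ | ⟨x, y, -, rfl⟩
    · simp [hsq]
    · simp only [map_mul, map_inv, FreeGroup.lift_apply_of]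
      rw [mul_comm (f x) (f y), mul_inv_cancel_right, mul_inv_cancel]
  refine ⟨PresentedGroup.toGroup hrel, fun x => ⟨fun hx => ?_, fun hx => ?_⟩⟩
  · rw [gen, PresentedGroup.toGroup.of, hf, if_pos hx]
  · rw [gen, PresentedGroup.toGroup.of, hf, if_neg hx]

/-- the parity of the number of letters over `v` -/
noncomputable def eps (hirr : ∀ u, ¬ Cm u u) (v : V) : RG Cm →* ℤˣ := (exists_eps Cm hirr v).choose

theorem eps_eq (hirr : ∀ u, ¬ Cm u u) (v : V) (x : V × Bool) (hx : x.1 = v) :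
    eps Cm hirr v (gen Cm x) = -1 := ((exists_eps Cm hirr v).choose_spec x).1 hx

theorem eps_ne (hirr : ∀ u, ¬ Cm u u) (v : V) (x : V × Bool) (hx : x.1 ≠ v) :
    eps Cm hirr v (gen Cm x) = 1 := ((exists_eps Cm hirr v).choose_spec x).2 hx

theorem unit_sq_int (u : ℤˣ) : (u : ℤ) * (u : ℤ) = 1 := by
  rcases Int.units_eq_one_or u with h | h <;> simp [h]

theorem mapDomain_smul_mul {G A : Type} [Group G] [MulAction G A] (x y : G) (m : A →₀ ℤ) :
    Finsupp.mapDomain (fun c => (x * y) • c) m =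
      Finsupp.mapDomain (fun c => x • c) (Finsupp.mapDomain (fun c => y • c) m) := by
  rw [← Finsupp.mapDomain_comp]
  congr 1
  funext c
  simp [mul_smul]

theorem mapDomain_smul_one {G A : Type} [Group G] [MulAction G A] (m : A →₀ ℤ) :
    Finsupp.mapDomain (fun c => (1 : G) • c) m = m := by
  have : (fun c : A => (1 : G) • c) = id := by
    funext c
    simp
  rw [this, Finsupp.mapDomain_id]

/-- the twisted action on the permutation module -/
noncomputable def twf {G A : Type} [Group G] [MulAction G A] (ε : G →* ℤˣ) (x : G) :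
    (A →₀ ℤ) ≃+ (A →₀ ℤ) where
  toFun m := ((ε x : ℤˣ) : ℤ) • Finsupp.mapDomain (fun c => x • c) m
  invFun m := ((ε x : ℤˣ) : ℤ) • Finsupp.mapDomain (fun c => x⁻¹ • c) m
  left_inv m := by
    simp only [Finsupp.mapDomain_smul]
    rw [← mapDomain_smul_mul, smul_smul, unit_sq_int, inv_mul_cancel, mapDomain_smul_one, one_smul]
  right_inv m := by
    simp only [Finsupp.mapDomain_smul]
    rw [← mapDomain_smul_mul, smul_smul, unit_sq_int, mul_inv_cancel, mapDomain_smul_one, one_smul]
  map_add' m n := by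
    rw [Finsupp.mapDomain_add, smul_add]

/-- the twisted action as a homomorphism -/
noncomputable def twh {G A : Type} [Group G] [MulAction G A] (ε : G →* ℤˣ) :
    G →* MulAut (Multiplicative (A →₀ ℤ)) where
  toFun x := AddEquiv.toMultiplicative (twf ε x)
  map_one' := by
    ext1 m
    show Multiplicative.ofAdd (((ε 1 : ℤˣ) : ℤ) •
      Finsupp.mapDomain (fun c => (1 : G) • c) (Multiplicative.toAdd m)) = m
    rw [mapDomain_smul_one, map_one, Units.val_one, one_smul]
    rfl
  map_mul' x y := by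
    ext1 m
    show Multiplicative.ofAdd (((ε (x * y) : ℤˣ) : ℤ) •
      Finsupp.mapDomain (fun c => (x * y) • c) (Multiplicative.toAdd m)) =
      Multiplicative.ofAdd (((ε x : ℤˣ) : ℤ) • Finsupp.mapDomain (fun c => x • c)
        (((ε y : ℤˣ) : ℤ) • Finsupp.mapDomain (fun c => y • c) (Multiplicative.toAdd m)))
    rw [Finsupp.mapDomain_smul, ← mapDomain_smul_mul, smul_smul, map_mul, Units.val_mul]

theorem twh_apply {G A : Type} [Group G] [MulAction G A] (ε : G →* ℤˣ) (x : G) (m : A →₀ ℤ) :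
    twh ε x (Multiplicative.ofAdd m) =
      Multiplicative.ofAdd (((ε x : ℤˣ) : ℤ) • Finsupp.mapDomain (fun c => x • c) m) := rfl

theorem gen_mem_Cent (v : V) : gen Cm (v, true) ∈ Cent Cm v :=
  Subgroup.subset_closure (Or.inl rfl)

theorem gen_mem_Cent' (v : V) (x : V × Bool) (h : Cm v x.1) : gen Cm x ∈ Cent Cm v :=
  Subgroup.subset_closure (Or.inr ⟨x, h, rfl⟩)

theorem smul_one_of_mem {G : Type} [Group G] (H : Subgroup G) (x : G) (hx : x ∈ H) :
    x • (QuotientGroup.mk 1 : G ⧸ H) = QuotientGroup.mk 1 := by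
  rw [MulAction.Quotient.smul_mk, smul_eq_mul, mul_one, eq_comm, QuotientGroup.eq]
  simpa using hx

theorem exists_crossed (hsymm : ∀ u v, Cm u v → Cm v u) (hirr : ∀ u, ¬ Cm u u) (v : V) :
    ∃ D : RG Cm → ((RG Cm ⧸ Cent Cm v) →₀ ℤ),
      (∀ x y, D (x * y) = D x + ((eps Cm hirr v x : ℤˣ) : ℤ) •
        Finsupp.mapDomain (fun c => x • c) (D y)) ∧
      D (gen Cm (v, true)) = Finsupp.single (QuotientGroup.mk 1) 1 ∧
      ∀ x : V × Bool, x ≠ (v, true) → D (gen Cm x) = 0 := by
  classical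
  obtain ⟨δ, hδ⟩ : ∃ δ : V × Bool → ((RG Cm ⧸ Cent Cm v) →₀ ℤ), ∀ x, δ x =
    if x = (v, true) then Finsupp.single (QuotientGroup.mk 1) 1 else 0 := ⟨_, fun _ => rfl⟩
  obtain ⟨φ, hφ⟩ : ∃ φ : RG Cm →* MulAut (Multiplicative ((RG Cm ⧸ Cent Cm v) →₀ ℤ)),
    φ = twh (eps Cm hirr v) := ⟨_, rfl⟩
  have hφa : ∀ x m, φ x (Multiplicative.ofAdd m) = Multiplicative.ofAdd
      (((eps Cm hirr v x : ℤˣ) : ℤ) • Finsupp.mapDomain (fun c => x • c) m) := by
    intro x m
    rw [hφ, twh_apply]
  obtain ⟨f, hf⟩ : ∃ f : V × Bool → Multiplicative ((RG Cm ⧸ Cent Cm v) →₀ ℤ) ⋊[φ] RG Cm,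
    ∀ x, f x = ⟨Multiplicative.ofAdd (δ x), gen Cm x⟩ := ⟨_, fun _ => rfl⟩
  have hsq : ∀ x, f x * f x = 1 := by
    intro x
    rw [hf]
    refine SemidirectProduct.ext ?_ ?_
    · rw [SemidirectProduct.mul_left, SemidirectProduct.one_left]
      show Multiplicative.ofAdd (δ x) * φ (gen Cm x) (Multiplicative.ofAdd (δ x)) = 1
      rw [hφa, ← ofAdd_add, ofAdd_eq_one, hδ]
      split_ifs with hx
      · subst hx
        rw [eps_eq Cm hirr v _ rfl, Finsupp.mapDomain_single,
          smul_one_of_mem _ _ (gen_mem_Cent Cm v)]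
        simp
      · simp
    · rw [SemidirectProduct.mul_right, SemidirectProduct.one_right]
      exact gen_sq Cm x
  have hcomm : ∀ x y : V × Bool, Cm x.1 y.1 → f x * f y = f y * f x := by
    intro x y hxy
    rw [hf, hf]
    refine SemidirectProduct.ext ?_ ?_
    · rw [SemidirectProduct.mul_left, SemidirectProduct.mul_left]
      show Multiplicative.ofAdd (δ x) * φ (gen Cm x) (Multiplicative.ofAdd (δ y)) =
        Multiplicative.ofAdd (δ y) * φ (gen Cm y) (Multiplicative.ofAdd (δ x))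
      rw [hφa, hφa, ← ofAdd_add, ← ofAdd_add]
      congr 1
      by_cases hx : x = (v, true)
      · subst hx
        have hyv : y.1 ≠ v := fun h => hirr v (h ▸ hxy)
        have hy : y ≠ (v, true) := fun h => hyv (by rw [h])
        rw [hδ, hδ, if_pos rfl, if_neg hy, Finsupp.mapDomain_zero, smul_zero, add_zero, zero_add,
          eps_ne Cm hirr v y hyv, Finsupp.mapDomain_single,
          smul_one_of_mem _ _ (gen_mem_Cent' Cm v y hxy)]
        simp
      · by_cases hy : y = (v, true)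
        · subst hy
          have hxv : x.1 ≠ v := fun h => hirr v (by simpa [h] using hxy)
          rw [hδ, hδ, if_pos rfl, if_neg hx, Finsupp.mapDomain_zero, smul_zero, add_zero, zero_add,
            eps_ne Cm hirr v x hxv, Finsupp.mapDomain_single,
            smul_one_of_mem _ _ (gen_mem_Cent' Cm v x (hsymm _ _ hxy))]
          simp
        · rw [hδ, hδ, if_neg hx, if_neg hy]
          simp
    · rw [SemidirectProduct.mul_right, SemidirectProduct.mul_right]
      exact gen_comm Cm hxy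
  have hrel : ∀ r ∈ rels Cm, FreeGroup.lift f r = 1 := by
    intro r hr
    rcases hr with ⟨x, rfl⟩ | ⟨x, y, hxy, rfl⟩
    · simp only [map_mul, FreeGroup.lift_apply_of]
      exact hsq x
    · simp only [map_mul, map_inv, FreeGroup.lift_apply_of]
      rw [hcomm x y hxy, mul_inv_cancel_right, mul_inv_cancel]
  obtain ⟨F, hF⟩ : ∃ F : RG Cm →* Multiplicative ((RG Cm ⧸ Cent Cm v) →₀ ℤ) ⋊[φ] RG Cm,
    F = PresentedGroup.toGroup hrel := ⟨_, rfl⟩
  have hFg : ∀ x, F (gen Cm x) = f x := by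
    intro x
    rw [hF, gen, PresentedGroup.toGroup.of]
  have hright : ∀ x, (F x).right = x := by
    have h1 : SemidirectProduct.rightHom.comp F = MonoidHom.id (RG Cm) := by
      refine PresentedGroup.ext fun x => ?_
      show (F (gen Cm x)).right = gen Cm x
      rw [hFg, hf]
    intro x
    exact DFunLike.congr_fun h1 x
  refine ⟨fun x => Multiplicative.toAdd (F x).left, fun x y => ?_, ?_, fun x hx => ?_⟩
  · show Multiplicative.toAdd (F (x * y)).left = _
    rw [map_mul, SemidirectProduct.mul_left, hright, toAdd_mul]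
    congr 1
    have h2 := hφa x (Multiplicative.toAdd (F y).left)
    rw [ofAdd_toAdd] at h2
    rw [h2, toAdd_ofAdd]
  · show Multiplicative.toAdd (F (gen Cm (v, true))).left = _
    rw [hFg, hf]
    show Multiplicative.toAdd (Multiplicative.ofAdd (δ (v, true))) = _
    rw [toAdd_ofAdd, hδ, if_pos rfl]
  · show Multiplicative.toAdd (F (gen Cm x)).left = _
    rw [hFg, hf]
    show Multiplicative.toAdd (Multiplicative.ofAdd (δ x)) = _
    rw [toAdd_ofAdd, hδ, if_neg hx]

/-- the crossed homomorphism -/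
noncomputable def Dv (hsymm : ∀ u v, Cm u v → Cm v u) (hirr : ∀ u, ¬ Cm u u) (v : V) :
    RG Cm → ((RG Cm ⧸ Cent Cm v) →₀ ℤ) := (exists_crossed Cm hsymm hirr v).choose

/-- `x` is balanced over `v` -/
def Nul (hsymm : ∀ u v, Cm u v → Cm v u) (hirr : ∀ u, ¬ Cm u u) (v : V) (x : RG Cm) : Prop :=
  Dv Cm hsymm hirr v x = 0

variable (hsymm : ∀ u v, Cm u v → Cm v u) (hirr : ∀ u, ¬ Cm u u)

theorem Dv_mul (v : V) (x y : RG Cm) : Dv Cm hsymm hirr v (x * y) = Dv Cm hsymm hirr v x +
    ((eps Cm hirr v x : ℤˣ) : ℤ) • Finsupp.mapDomain (fun c => x • c) (Dv Cm hsymm hirr v y) :=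
  (exists_crossed Cm hsymm hirr v).choose_spec.1 x y

theorem Dv_s (v : V) : Dv Cm hsymm hirr v (gen Cm (v, true)) =
    Finsupp.single (QuotientGroup.mk 1) 1 :=
  (exists_crossed Cm hsymm hirr v).choose_spec.2.1

theorem Dv_gen (v : V) (x : V × Bool) (hx : x ≠ (v, true)) :
    Dv Cm hsymm hirr v (gen Cm x) = 0 :=
  (exists_crossed Cm hsymm hirr v).choose_spec.2.2 x hx

theorem nul_one (v : V) : Nul Cm hsymm hirr v 1 := by
  have h := Dv_mul Cm hsymm hirr v 1 1
  rw [mapDomain_smul_one, map_one, Units.val_one, one_smul, mul_one] at h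
  unfold Nul
  exact (left_eq_add.1 h)

theorem nul_Wsub (v : V) (T : Set V) (hv : v ∉ T) (x : RG Cm) (hx : x ∈ Wsub Cm T) :
    Nul Cm hsymm hirr v x := by
  unfold Wsub at hx
  induction hx using Subgroup.closure_induction with
  | mem g hg =>
    obtain ⟨y, hy, rfl⟩ := hg
    exact Dv_gen Cm hsymm hirr v y (fun h => hv (by rw [h] at hy; exact hy))
  | one => exact nul_one Cm hsymm hirr v
  | mul a b _ _ ha hb =>
    unfold Nul at ha hb ⊢
    rw [Dv_mul, ha, hb]
    simp
  | inv a _ ha =>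
    have h1 := nul_one Cm hsymm hirr v
    unfold Nul at ha h1 ⊢
    rw [← inv_mul_cancel a, Dv_mul, ha] at h1
    simpa using h1

theorem comm_Wsub (v : V) (b : Bool) (u : RG Cm) (hu : u ∈ Wsub Cm (Lk Cm v)) :
    gen Cm (v, b) * u = u * gen Cm (v, b) := by
  unfold Wsub at hu
  induction hu using Subgroup.closure_induction with
  | mem g hg =>
    obtain ⟨y, hy, rfl⟩ := hg
    exact gen_comm Cm hy
  | one => rw [mul_one, one_mul]
  | mul a c _ _ ha hc => rw [← mul_assoc, ha, mul_assoc, hc, mul_assoc]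
  | inv a _ ha =>
    exact (show Commute (gen Cm (v, b)) a from ha).inv_right.eq

theorem mem_Cent (v : V) (x : RG Cm) (hx : x ∈ Cent Cm v) :
    x ∈ Wsub Cm (Lk Cm v) ∨ ∃ u ∈ Wsub Cm (Lk Cm v), x = gen Cm (v, true) * u := by
  have hc := comm_Wsub Cm v true
  have hs := gen_sq Cm (v, true)
  unfold Cent at hx
  induction hx using Subgroup.closure_induction with
  | mem g hg =>
    rcases hg with rfl | ⟨y, hy, rfl⟩
    · exact Or.inr ⟨1, one_mem _, (mul_one _).symm⟩
    · exact Or.inl (Subgroup.subset_closure ⟨y, hy, rfl⟩)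
  | one => exact Or.inl (one_mem _)
  | mul a b _ _ ha hb =>
    rcases ha with ha | ⟨u, hu, rfl⟩
    · rcases hb with hb | ⟨w, hw, rfl⟩
      · exact Or.inl (mul_mem ha hb)
      · refine Or.inr ⟨a * w, mul_mem ha hw, ?_⟩
        rw [← mul_assoc, ← mul_assoc, hc a ha]
    · rcases hb with hb | ⟨w, hw, rfl⟩
      · exact Or.inr ⟨u * b, mul_mem hu hb, mul_assoc _ _ _⟩
      · refine Or.inl ?_
        have : gen Cm (v, true) * u * (gen Cm (v, true) * w) = u * w := by
          rw [hc u hu, mul_assoc, ← mul_assoc (gen Cm (v, true)), hs, one_mul]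
        rw [this]
        exact mul_mem hu hw
  | inv a _ ha =>
    rcases ha with ha | ⟨u, hu, rfl⟩
    · exact Or.inl (inv_mem ha)
    · refine Or.inr ⟨u⁻¹, inv_mem hu, ?_⟩
      rw [hc u⁻¹ (inv_mem hu), mul_inv_rev, inv_eq_of_mul_eq_one_left hs]

theorem eps_Wsub (v : V) (u : RG Cm) (hu : u ∈ Wsub Cm (Lk Cm v)) : eps Cm hirr v u = 1 := by
  unfold Wsub at hu
  induction hu using Subgroup.closure_induction with
  | mem g hg =>
    obtain ⟨y, hy, rfl⟩ := hg
    exact eps_ne Cm hirr v y (fun h => hirr v (by have := hy; rw [Lk, Set.mem_ofPred_eq, h] at this; exact this))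
  | one => exact map_one _
  | mul a c _ _ ha hc => rw [map_mul, ha, hc, mul_one]
  | inv a _ ha => rw [map_inv, ha, inv_one]

theorem eps_tau (v : V) (e : V × Bool) : eps Cm hirr v (tau Cm e) = 1 := by
  unfold tau
  by_cases h : e.1 = v
  · split_ifs <;> rw [map_mul, eps_eq Cm hirr v (e.1, true) h, eps_eq Cm hirr v (e.1, false) h] <;> simp
  · split_ifs <;> rw [map_mul, eps_ne Cm hirr v (e.1, true) h, eps_ne Cm hirr v (e.1, false) h, mul_one]

theorem eps_PP (v : V) (x : ℕ → V × Bool) (i n : ℕ) : eps Cm hirr v (PP Cm x i n) = 1 := by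
  induction n with
  | zero => rw [PP_zero, map_one]
  | succ n ih => rw [PP_succ, map_mul, ih, eps_tau, mul_one]

theorem Dv_tau (v : V) (e : V × Bool) (h : e.1 ≠ v) : Dv Cm hsymm hirr v (tau Cm e) = 0 := by
  unfold tau
  have h1 : ∀ b : Bool, ((e.1, b) : V × Bool) ≠ (v, true) := fun b hb => h (congrArg Prod.fst hb)
  split_ifs
  · rw [Dv_mul, Dv_gen Cm hsymm hirr v _ (h1 true), Dv_gen Cm hsymm hirr v _ (h1 false)]
    simp
  · rw [Dv_mul, Dv_gen Cm hsymm hirr v _ (h1 true), Dv_gen Cm hsymm hirr v _ (h1 false)]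
    simp

theorem Dv_tau_true (v : V) : Dv Cm hsymm hirr v (tau Cm (v, true)) =
    Finsupp.single (QuotientGroup.mk 1) 1 := by
  unfold tau
  rw [if_pos rfl, Dv_mul, Dv_s, Dv_gen Cm hsymm hirr v (v, false) (by simp)]
  simp

theorem Dv_tau_false (v : V) : Dv Cm hsymm hirr v (tau Cm (v, false)) =
    - Finsupp.single (QuotientGroup.mk (gen Cm (v, false))) 1 := by
  unfold tau
  rw [if_neg (by simp), Dv_mul, Dv_s, Dv_gen Cm hsymm hirr v (v, false) (by simp),
    eps_eq Cm hirr v _ rfl, Finsupp.mapDomain_single, MulAction.Quotient.smul_mk, smul_eq_mul,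
    mul_one]
  simp

theorem mapDomain_neg' {A B : Type} (f : A → B) (m : A →₀ ℤ) :
    Finsupp.mapDomain f (-m) = - Finsupp.mapDomain f m :=
  map_neg (Finsupp.mapDomain.addMonoidHom f) m

open Classical in
/-- the contribution of the letter at position `i` -/
noncomputable def ctr (v : V) (x : ℕ → V × Bool) (i : ℕ) : (RG Cm ⧸ Cent Cm v) →₀ ℤ :=
  if x i = (v, true) then Finsupp.single (QuotientGroup.mk (PP Cm x 0 i)) 1 else
    if x i = (v, false) then - Finsupp.single (QuotientGroup.mk (PP Cm x 0 (i + 1))) 1 else 0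

theorem Dv_PP (v : V) (x : ℕ → V × Bool) (n : ℕ) : Dv Cm hsymm hirr v (PP Cm x 0 n) =
    ∑ i ∈ Finset.range n, ctr Cm v x i := by
  induction n with
  | zero =>
    rw [PP_zero, Finset.range_zero, Finset.sum_empty]
    exact nul_one Cm hsymm hirr v
  | succ n ih =>
    rw [PP_succ, Dv_mul, ih, Finset.sum_range_succ, eps_PP, Units.val_one, one_smul, zero_add]
    congr 1
    unfold ctr
    by_cases h1 : x n = (v, true)
    · rw [if_pos h1, h1, Dv_tau_true, Finsupp.mapDomain_single, MulAction.Quotient.smul_mk,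
        smul_eq_mul, mul_one]
    · rw [if_neg h1]
      by_cases h2 : x n = (v, false)
      · rw [if_pos h2, h2, Dv_tau_false, mapDomain_neg', Finsupp.mapDomain_single,
          MulAction.Quotient.smul_mk, smul_eq_mul]
        have h3 : (QuotientGroup.mk (PP Cm x 0 n * gen Cm (v, false)) : RG Cm ⧸ Cent Cm v) =
            QuotientGroup.mk (PP Cm x 0 (n + 1)) := by
          rw [PP_succ, zero_add, h2]
          unfold tau
          rw [if_neg (by simp), QuotientGroup.eq]
          have : (PP Cm x 0 n * gen Cm (v, false))⁻¹ *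
              (PP Cm x 0 n * (gen Cm (v, false) * gen Cm (v, true))) = gen Cm (v, true) := by
            group
          show (PP Cm x 0 n * gen Cm (v, false))⁻¹ *
              (PP Cm x 0 n * (gen Cm (v, false) * gen Cm (v, true))) ∈ _
          rw [this]
          exact gen_mem_Cent Cm v
        rw [h3]
      · rw [if_neg h2]
        have h3 : (x n).1 ≠ v := by
          intro h3
          rcases Bool.eq_false_or_eq_true (x n).2 with h4 | h4
          · exact h1 (Prod.ext h3 h4)
          · exact h2 (Prod.ext h3 h4)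
        rw [Dv_tau Cm hsymm hirr v _ h3]
        simp

include hirr in
theorem mid_mem (v : V) (x : ℕ → V × Bool) (i j : ℕ) (hi : x i = (v, true))
    (hj : x j = (v, false)) (h : (QuotientGroup.mk (PP Cm x 0 i) : RG Cm ⧸ Cent Cm v) =
      QuotientGroup.mk (PP Cm x 0 (j + 1))) :
    (i < j ∧ PP Cm x (i + 1) (j - i - 1) ∈ Wsub Cm (Lk Cm v)) ∨
      (j < i ∧ PP Cm x (j + 1) (i - j - 1) ∈ Wsub Cm (Lk Cm v)) := by
  have hne : i ≠ j := by
    rintro rfl
    rw [hi] at hj
    simp at hj
  rw [QuotientGroup.eq] at h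
  rcases lt_or_gt_of_ne hne with hij | hij
  · refine Or.inl ⟨hij, ?_⟩
    obtain ⟨mid, hmid⟩ : ∃ m, m = PP Cm x (i + 1) (j - i - 1) := ⟨_, rfl⟩
    obtain ⟨s, hs⟩ : ∃ s, s = gen Cm (v, true) := ⟨_, rfl⟩
    obtain ⟨r, hr⟩ : ∃ r, r = gen Cm (v, false) := ⟨_, rfl⟩
    have hs2 : s * s = 1 := by rw [hs]; exact gen_sq Cm _
    have hr2 : r * r = 1 := by rw [hr]; exact gen_sq Cm _
    have e1 : PP Cm x 0 (j + 1) = PP Cm x 0 i * (s * r) * mid * (r * s) := by
      have e2 : j + 1 = (i + 1 + (j - i - 1)) + 1 := by omega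
      rw [e2, PP_succ, PP_add, PP_succ, hmid, zero_add, zero_add, zero_add, hi]
      have e3 : i + 1 + (j - i - 1) = j := by omega
      rw [e3, hj]
      unfold tau
      rw [if_pos rfl, if_neg (by simp), hs, hr]
    have hsC : s ∈ Cent Cm v := by rw [hs]; exact gen_mem_Cent Cm v
    have e4 : r * mid * r ∈ Cent Cm v := by
      have e5 : r * mid * r = s⁻¹ * ((PP Cm x 0 i)⁻¹ * PP Cm x 0 (j + 1)) * s⁻¹ := by
        rw [e1]
        group
      rw [e5]
      exact mul_mem (mul_mem (inv_mem hsC) h) (inv_mem hsC)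
    rw [← hmid]
    have hmide : eps Cm hirr v mid = 1 := by rw [hmid]; exact eps_PP Cm hirr v x _ _
    rcases mem_Cent Cm v _ e4 with e6 | ⟨u, hu, e6⟩
    · have e7 := comm_Wsub Cm v false _ e6
      rw [← hr] at e7
      have e8 : mid = r * mid * r := by
        have : r * (r * mid * r) = mid * r := by
          rw [← mul_assoc, ← mul_assoc, hr2, one_mul]
        rw [this, mul_assoc (r * mid), hr2, mul_one] at e7
        calc mid = mid * r * r := by rw [mul_assoc, hr2, mul_one]
          _ = r * mid * r := by rw [e7]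
      rw [e8]
      exact e6
    · exfalso
      have e7 := congrArg (eps Cm hirr v) e6
      rw [map_mul, map_mul, map_mul, hmide, mul_one, hr, ← map_mul, gen_sq, map_one,
        eps_Wsub Cm hirr v u hu, mul_one, eps_eq Cm hirr v _ rfl] at e7
      exact absurd e7 (by decide)
  · refine Or.inr ⟨hij, ?_⟩
    obtain ⟨mid, hmid⟩ : ∃ m, m = PP Cm x (j + 1) (i - j - 1) := ⟨_, rfl⟩
    have e1 : PP Cm x 0 i = PP Cm x 0 (j + 1) * mid := by
      have e2 : i = (j + 1) + (i - j - 1) := by omega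
      conv_lhs => rw [e2]
      rw [PP_add, hmid, zero_add]
    have e4 : mid ∈ Cent Cm v := by
      have e5 : mid = ((PP Cm x 0 i)⁻¹ * PP Cm x 0 (j + 1))⁻¹ := by
        rw [e1]
        group
      rw [e5]
      exact inv_mem h
    have hmide : eps Cm hirr v mid = 1 := by rw [hmid]; exact eps_PP Cm hirr v x _ _
    rw [← hmid]
    rcases mem_Cent Cm v _ e4 with e6 | ⟨u, hu, e6⟩
    · exact e6
    · exfalso
      have e7 := congrArg (eps Cm hirr v) e6
      rw [map_mul, hmide, eps_Wsub Cm hirr v u hu, mul_one, eps_eq Cm hirr v _ rfl] at e7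
      exact absurd e7 (by decide)

theorem partner (v : V) (x : ℕ → V × Bool) (n : ℕ) (h : Nul Cm hsymm hirr v (PP Cm x 0 n))
    (k : ℕ) (hk : k < n) (hkv : (x k).1 = v) :
    ∃ k' : ℕ, k' < n ∧ (x k').1 = v ∧ (x k').2 ≠ (x k).2 ∧
      ((k < k' ∧ PP Cm x (k + 1) (k' - k - 1) ∈ Wsub Cm (Lk Cm v)) ∨
       (k' < k ∧ PP Cm x (k' + 1) (k - k' - 1) ∈ Wsub Cm (Lk Cm v))) := by
  classical
  unfold Nul at h
  rw [Dv_PP] at h
  rcases Bool.eq_false_or_eq_true (x k).2 with hb | hb
  · have hxk : x k = (v, true) := Prod.ext hkv hb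
    obtain ⟨c, hc⟩ : ∃ c : RG Cm ⧸ Cent Cm v, c = QuotientGroup.mk (PP Cm x 0 k) := ⟨_, rfl⟩
    have h1 : ∑ i ∈ Finset.range n, ctr Cm v x i c = 0 := by
      have := DFunLike.congr_fun h c
      rwa [Finsupp.finsetSum_apply, Finsupp.coe_zero, Pi.zero_apply] at this
    by_contra hcon
    have h2 : ∀ i ∈ Finset.range n, 0 ≤ ctr Cm v x i c := by
      intro i hi
      by_contra hneg
      apply hcon
      unfold ctr at hneg
      split_ifs at hneg with c1 c2
      · exfalso
        apply hneg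
        rw [Finsupp.single_apply]
        split_ifs <;> simp
      · have hci : (QuotientGroup.mk (PP Cm x 0 (i + 1)) : RG Cm ⧸ Cent Cm v) = c := by
          by_contra hne
          apply hneg
          rw [Finsupp.neg_apply, Finsupp.single_apply, if_neg hne, neg_zero]
        refine ⟨i, Finset.mem_range.1 hi, by rw [c2], by rw [c2, hb]; simp, ?_⟩
        rcases mid_mem Cm hirr v x k i hxk c2 (by rw [hci, hc]) with h3 | h3
        · exact Or.inl h3
        · exact Or.inr h3
      · simp at hneg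
    have h3 : ctr Cm v x k c = 1 := by
      unfold ctr
      rw [if_pos hxk, hc, Finsupp.single_eq_same]
    have h4 := Finset.single_le_sum h2 (Finset.mem_range.2 hk)
    rw [h1, h3] at h4
    exact absurd h4 (by decide)
  · have hxk : x k = (v, false) := Prod.ext hkv hb
    obtain ⟨c, hc⟩ : ∃ c : RG Cm ⧸ Cent Cm v, c = QuotientGroup.mk (PP Cm x 0 (k + 1)) := ⟨_, rfl⟩
    have h1 : ∑ i ∈ Finset.range n, (- ctr Cm v x i c) = 0 := by
      have := DFunLike.congr_fun h c
      rw [Finsupp.finsetSum_apply, Finsupp.coe_zero, Pi.zero_apply] at this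
      rw [Finset.sum_neg_distrib, this, neg_zero]
    by_contra hcon
    have h2 : ∀ i ∈ Finset.range n, 0 ≤ - ctr Cm v x i c := by
      intro i hi
      by_contra hneg
      apply hcon
      unfold ctr at hneg
      split_ifs at hneg with c1 c2
      · have hci : (QuotientGroup.mk (PP Cm x 0 i) : RG Cm ⧸ Cent Cm v) = c := by
          by_contra hne
          apply hneg
          rw [Finsupp.single_apply, if_neg hne, neg_zero]
        refine ⟨i, Finset.mem_range.1 hi, by rw [c1], by rw [c1, hb]; simp, ?_⟩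
        rcases mid_mem Cm hirr v x i k c1 hxk (by rw [hci, hc]) with h3 | h3
        · exact Or.inr h3
        · exact Or.inl h3
      · exfalso
        apply hneg
        rw [Finsupp.neg_apply, neg_neg, Finsupp.single_apply]
        split_ifs <;> simp
      · simp at hneg
    have h3 : - ctr Cm v x k c = 1 := by
      unfold ctr
      rw [if_neg (by rw [hxk]; simp), if_pos hxk, hc, Finsupp.neg_apply, Finsupp.single_eq_same]
      rfl
    have h4 := Finset.single_le_sum h2 (Finset.mem_range.2 hk)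
    rw [h1, h3] at h4
    exact absurd h4 (by decide)

end Pool.Agent.Helper53.LG
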