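import Mathlib

/-!
# Project LG (MP_1f284c_al): mapping tori of linearly growing automorphisms are linear

Common definitions.

* `Lt Y`: signed letters, `bar` the inverse letter.
* `WSys Y I`: a system of periodic reduced bi-infinite words `w i : ℤ → Lt Y` (period `n i`), `wd` the
  directed words (`(i, true)`: the word `w i`, `(i, false)`: its inverse read backwards).
* `Cover`: a group `Q` with elements `g y` (`y : Y`), considered as a graph with vertices `Q` and
  edges `(q, y)` from `q` to `q * g y`. The words `wd i` read from any vertex give closed paths of length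
  `N i` which are embedded (`p0`), and two such closed paths meet in connected segments (`p1`).
* `RG Cm`: the right-angled Coxeter group with two generators for each `v : V`, the generators
  belonging to `u` and `v` commute if `Cm u v`.
-/

namespace Pool.Agent.Helper53.LG

/-- signed letters -/
abbrev Lt (Y : Type) : Type := Y × Bool

/-- the inverse letter -/
def bar {Y : Type} (l : Lt Y) : Lt Y := (l.1, !l.2)

@[simp] lemma bar_bar {Y : Type} (l : Lt Y) : bar (bar l) = l := by
  simp [bar]

lemma bar_ne {Y : Type} (l : Lt Y) : bar l ≠ l := by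
  intro h
  have := congrArg Prod.snd h
  simp [bar] at this

@[simp] lemma bar_fst {Y : Type} (l : Lt Y) : (bar l).1 = l.1 := rfl
@[simp] lemma bar_snd {Y : Type} (l : Lt Y) : (bar l).2 = !l.2 := rfl

/-- a system of periodic, reduced, bi-infinite words -/
structure WSys (Y I : Type) where
  n : I → ℕ
  npos : ∀ i, 0 < n i
  w : I → ℤ → Lt Y
  per : ∀ i k, w i (k + n i) = w i k
  red : ∀ i k, w i (k + 1) ≠ bar (w i k)

/-- the same word read in the opposite direction -/
def rev {I : Type} (i : I × Bool) : I × Bool := (i.1, !i.2)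

@[simp] lemma rev_rev {I : Type} (i : I × Bool) : rev (rev i) = i := by simp [rev]
@[simp] lemma rev_fst {I : Type} (i : I × Bool) : (rev i).1 = i.1 := rfl

section
variable {Y I : Type}

/-- directed words -/
def WSys.wd (S : WSys Y I) (i : I × Bool) (k : ℤ) : Lt Y :=
  if i.2 then S.w i.1 k else bar (S.w i.1 (-1 - k))

/-- agreement of two directed words on a window of length `R0` implies that they are equal -/
def WSys.Sep (S : WSys Y I) (R0 : ℕ) : Prop :=
  ∀ (i j : I × Bool) (a b : ℤ), (∀ s : ℕ, s < R0 → S.wd i (a + s) = S.wd j (b + s)) →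
    i = j ∧ (S.n i.1 : ℤ) ∣ a - b

/-- value of a letter in a group -/
def lv {Q : Type} [Group Q] (g : Y → Q) (l : Lt Y) : Q := if l.2 then g l.1 else (g l.1)⁻¹

/-- value of the subword of length `m` of the directed word `i` starting at position `κ` -/
def WSys.seg {Q : Type} [Group Q] (S : WSys Y I) (g : Y → Q) (i : I × Bool) (κ : ℤ) : ℕ → Q
  | 0 => 1
  | m + 1 => WSys.seg S g i κ m * lv g (S.wd i (κ + m))

/-- the (unoriented) edge of the dart with label `l` starting at the vertex `p` -/
def dedge {Q : Type} [Group Q] (g : Y → Q) (p : Q) (l : Lt Y) : Q × Y :=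
  if l.2 then (p, l.1) else (p * (g l.1)⁻¹, l.1)

/-- a group `Q` as a graph in which the words of `S` give embedded closed paths meeting nicely -/
structure Cover (S : WSys Y I) (Q : Type) [Group Q] where
  g : Y → Q
  N : I → ℕ
  Npos : ∀ i, 3 ≤ N i
  nN : ∀ i, S.n i ∣ N i
  p0 : ∀ (i : I × Bool) (κ : ℤ) (m : ℕ), S.seg g i κ m = 1 ↔ N i.1 ∣ m
  p1 : ∀ (i j : I × Bool) (κ l : ℤ) (m m' : ℕ), 1 ≤ m → 1 ≤ m' → 2 * m ≤ N i.1 → 2 * m' ≤ N j.1 →
    S.seg g i κ m = S.seg g j l m' →
    (S.wd i κ = S.wd j l ∨ 2 * m < N i.1 ∨ 2 * m' < N j.1) →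
    m = m' ∧ ∀ s : ℕ, s < m → S.wd i (κ + s) = S.wd j (l + s)

variable {S : WSys Y I} {Q : Type} [Group Q]

/-- the edges of the closed path read from the vertex `p` along the directed word `i` from
position `κ` -/
def Cover.Lin (C : Cover S Q) (i : I × Bool) (κ : ℤ) (p : Q) : Set (Q × Y) :=
  {e | ∃ m : ℕ, e = dedge C.g (p * S.seg C.g i κ m) (S.wd i (κ + m))}

/-- two different edges commute if they lie on a common closed path -/
def Cover.Cm (C : Cover S Q) (e f : Q × Y) : Prop :=
  e ≠ f ∧ ∃ i κ p, e ∈ C.Lin i κ p ∧ f ∈ C.Lin i κ p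

/-- the star of an edge -/
def Cover.St (C : Cover S Q) (e : Q × Y) : Set (Q × Y) := {f | f = e ∨ C.Cm e f}

/-- the number of directed positions -/
def WSys.D0 [Fintype I] (S : WSys Y I) : ℕ := 2 * ∑ i, S.n i

/-- bound for the small intersections -/
def WSys.L0 [Fintype I] (S : WSys Y I) (R0 : ℕ) : ℕ := 2 * R0 * (S.D0 + 1)

/-- convex sets of edges -/
def Cover.Conv (C : Cover S Q) (L : ℕ) (T : Set (Q × Y)) : Prop :=
  ∀ i κ p, C.Lin i κ p ⊆ T ∨ (C.Lin i κ p ∩ T).ncard ≤ L

/-- all closed paths are long -/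
def Cover.Long [Fintype I] (C : Cover S Q) (R0 : ℕ) : Prop :=
  1 ≤ R0 ∧ S.Sep R0 ∧ ∀ i, 2 * (S.L0 R0 + 4 * R0 + 4) ≤ C.N i

/-- `v` are the vertices and `a` the labels of a path -/
def IsPath (g : Y → Q) (v : ℕ → Q) (a : ℕ → Lt Y) : Prop := ∀ k, v (k + 1) = v k * lv g (a k)

/-- the edge at position `k` -/
def edg (g : Y → Q) (v : ℕ → Q) (a : ℕ → Lt Y) (k : ℕ) : Q × Y := dedge g (v k) (a k)

/-- the signed edge at position `k` -/
def sed (g : Y → Q) (v : ℕ → Q) (a : ℕ → Lt Y) (k : ℕ) : (Q × Y) × Bool := (edg g v a k, (a k).2)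

/-- the first `n` letters form a reduced word -/
def RedOn (a : ℕ → Lt Y) (n : ℕ) : Prop := ∀ k, k + 1 < n → a (k + 1) ≠ bar (a k)

end

/-! ### right-angled Coxeter groups -/

section RACG

variable {V : Type} (Cm : V → V → Prop)

/-- relators: all generators are involutions, the generators over `u` and `v` commute if `Cm u v` -/
def rels : Set (FreeGroup (V × Bool)) :=
  {r | ∃ x, r = FreeGroup.of x * FreeGroup.of x} ∪
  {r | ∃ x y : V × Bool, Cm x.1 y.1 ∧
    r = FreeGroup.of x * FreeGroup.of y * (FreeGroup.of x)⁻¹ * (FreeGroup.of y)⁻¹}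

/-- the right-angled Coxeter group with two generators over each `v : V` -/
abbrev RG : Type := PresentedGroup (rels Cm)

/-- the generators -/
def gen (x : V × Bool) : RG Cm := PresentedGroup.of x

lemma gen_sq (x : V × Bool) : gen Cm x * gen Cm x = 1 := by
  have h : FreeGroup.of x * FreeGroup.of x ∈ rels Cm := Or.inl ⟨x, rfl⟩
  have h1 := PresentedGroup.one_of_mem h
  simpa [gen, PresentedGroup.of] using h1

lemma gen_comm {x y : V × Bool} (h : Cm x.1 y.1) : gen Cm x * gen Cm y = gen Cm y * gen Cm x := by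
  have h0 : FreeGroup.of x * FreeGroup.of y * (FreeGroup.of x)⁻¹ * (FreeGroup.of y)⁻¹ ∈ rels Cm :=
    Or.inr ⟨x, y, h, rfl⟩
  have h1 := PresentedGroup.one_of_mem h0
  have h2 : gen Cm x * gen Cm y * (gen Cm x)⁻¹ * (gen Cm y)⁻¹ = 1 := by
    simpa [gen, PresentedGroup.of] using h1
  have h3 := mul_inv_eq_one.1 h2
  exact mul_inv_eq_iff_eq_mul.1 h3

/-- the standard subgroup generated by the generators over `T` -/
def Wsub (T : Set V) : Subgroup (RG Cm) :=
  Subgroup.closure {g | ∃ x : V × Bool, x.1 ∈ T ∧ g = gen Cm x}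

/-- the link of a vertex -/
def Lk (v : V) : Set V := {u | Cm v u}

/-- the image of a signed edge: `s_v r_v` or its inverse `r_v s_v` -/
def tau (e : V × Bool) : RG Cm :=
  if e.2 then gen Cm (e.1, true) * gen Cm (e.1, false) else
    gen Cm (e.1, false) * gen Cm (e.1, true)

/-- the image of the part of the path `x` at the positions `i, …, i + n - 1` -/
def PP (x : ℕ → V × Bool) (i : ℕ) : ℕ → RG Cm
  | 0 => 1
  | n + 1 => PP x i n * tau Cm (x (i + n))

@[simp] lemma PP_zero (x : ℕ → V × Bool) (i : ℕ) : PP Cm x i 0 = 1 := rfl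

lemma PP_succ (x : ℕ → V × Bool) (i n : ℕ) : PP Cm x i (n + 1) = PP Cm x i n * tau Cm (x (i + n)) := rfl

lemma PP_add (x : ℕ → V × Bool) (i n m : ℕ) : PP Cm x i (n + m) = PP Cm x i n * PP Cm x (i + n) m := by
  induction m with
  | zero => simp
  | succ m ih => rw [← add_assoc, PP_succ, ih, PP_succ, mul_assoc, add_assoc]

lemma PP_shift (x : ℕ → V × Bool) (i j n : ℕ) : PP Cm (fun k => x (i + k)) j n = PP Cm x (i + j) n := by
  induction n with
  | zero => simp
  | succ n ih => rw [PP_succ, PP_succ, ih, add_assoc]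

end RACG

end Pool.Agent.Helper53.LG
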