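import Pool.Agent.Helper53.LG.Chain

/-!
# LG-51: doubling of the letters

`double`: `φ b_i = u_i b_i v_i`, `u_i, v_i ∈ ⟨b_j : j < i⟩` fixed by `φ`. `N = 2 n`, `b'_i = of (2 i)`, `b''_i = of (2 i + 1)`, `ι b_i = b'_i⁻¹ b''_i`; `ι` is injective:
`r ∘ ι = id` for `r : b'_i ↦ 1, b''_i ↦ b_i`. `f : b'_i ↦ b'_i ι(u_i)⁻¹`, `b''_i ↦ b''_i ι(v_i)` (lift). `f (ι w) = ι (φ w)` (check on `b_i`:
`(b'_i ι(u_i)⁻¹)⁻¹ b''_i ι(v_i) = ι (u_i b_i v_i)`), so `f` fixes `ι(u_i)`, `ι(v_i)`. `f' : b'_i ↦ b'_i ι(u_i)`, `b''_i ↦ b''_i ι(v_i)⁻¹`, `f' (ι w) = ι (φ⁻¹ w)`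
(`φ⁻¹ b_i = u_i⁻¹ b_i v_i⁻¹`), so `f'` fixes `ι(u_i)`, `ι(v_i)`, and `f`, `f'` are inverse to each other. `φ₂` is the automorphism `f`.
`Tri`: `ι(u_i), ι(v_i) ∈ closure (of '' {j | j < 2 i})` since `ι(b_j)`, `j < i`, is a product of the letters `2 j, 2 j + 1 < 2 i`.
-/

namespace Pool.Agent.Helper53.LG

theorem double (n : ℕ) (φ : MulAut (FreeGroup (Fin n))) (u v : Fin n → FreeGroup (Fin n))
    (hu : ∀ i, u i ∈ Subgroup.closure (FreeGroup.of '' {j : Fin n | j < i}))
    (hv : ∀ i, v i ∈ Subgroup.closure (FreeGroup.of '' {j : Fin n | j < i}))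
    (hφ : ∀ i, φ (FreeGroup.of i) = u i * FreeGroup.of i * v i)
    (fu : ∀ i, φ (u i) = u i) (fv : ∀ i, φ (v i) = v i) :
    ∃ (N : ℕ) (φ₂ : MulAut (FreeGroup (Fin N))) (ι : FreeGroup (Fin n) →* FreeGroup (Fin N)), Tri N φ₂ ∧
      Function.Injective ι ∧ ∀ w, ι (φ w) = φ₂ (ι w) := by
  classical
  have lt0 : ∀ i : Fin n, 2 * i.val < 2 * n := fun i => by have := i.isLt; omega
  have lt1 : ∀ i : Fin n, 2 * i.val + 1 < 2 * n := fun i => by have := i.isLt; omega
  have lth : ∀ k : Fin (2 * n), k.val / 2 < n := fun k => by have := k.isLt; omega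
  let half : Fin (2 * n) → Fin n := fun k => ⟨k.val / 2, lth k⟩
  let i0 : Fin n → Fin (2 * n) := fun i => ⟨2 * i.val, lt0 i⟩
  let i1 : Fin n → Fin (2 * n) := fun i => ⟨2 * i.val + 1, lt1 i⟩
  have h0 : ∀ i, half (i0 i) = i := fun i => by apply Fin.ext; simp [half, i0]
  have h1 : ∀ i, half (i1 i) = i := fun i => by
    apply Fin.ext
    show (2 * i.val + 1) / 2 = i.val
    omega
  have e0 : ∀ i, (i0 i).val % 2 = 0 := fun i => by simp [i0]
  have e1 : ∀ i, ¬ (i1 i).val % 2 = 0 := fun i => by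
    show ¬ (2 * i.val + 1) % 2 = 0
    omega
  let ι : FreeGroup (Fin n) →* FreeGroup (Fin (2 * n)) :=
    FreeGroup.lift fun i => (FreeGroup.of (i0 i))⁻¹ * FreeGroup.of (i1 i)
  have ιof : ∀ i, ι (FreeGroup.of i) = (FreeGroup.of (i0 i))⁻¹ * FreeGroup.of (i1 i) := fun i => by
    simp [ι]
  let t : Fin (2 * n) → FreeGroup (Fin (2 * n)) := fun k =>
    if k.val % 2 = 0 then (ι (u (half k)))⁻¹ else ι (v (half k))
  have t0 : ∀ i, t (i0 i) = (ι (u i))⁻¹ := fun i => by
    show (if (i0 i).val % 2 = 0 then (ι (u (half (i0 i))))⁻¹ else ι (v (half (i0 i)))) = _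
    rw [if_pos (e0 i), h0]
  have t1 : ∀ i, t (i1 i) = ι (v i) := fun i => by
    show (if (i1 i).val % 2 = 0 then (ι (u (half (i1 i))))⁻¹ else ι (v (half (i1 i)))) = _
    rw [if_neg (e1 i), h1]
  let f : FreeGroup (Fin (2 * n)) →* FreeGroup (Fin (2 * n)) :=
    FreeGroup.lift fun k => FreeGroup.of k * t k
  let f' : FreeGroup (Fin (2 * n)) →* FreeGroup (Fin (2 * n)) :=
    FreeGroup.lift fun k => FreeGroup.of k * (t k)⁻¹
  have fof : ∀ k, f (FreeGroup.of k) = FreeGroup.of k * t k := fun k => by simp [f]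
  have f'of : ∀ k, f' (FreeGroup.of k) = FreeGroup.of k * (t k)⁻¹ := fun k => by simp [f']
  -- `f ∘ ι = ι ∘ φ`
  have hfι : ∀ w, f (ι w) = ι (φ w) := by
    intro w
    have : f.comp ι = ι.comp φ.toMonoidHom := by
      refine FreeGroup.ext_hom _ _ fun i => ?_
      show f (ι (FreeGroup.of i)) = ι (φ (FreeGroup.of i))
      rw [hφ, map_mul ι, map_mul ι, ιof, map_mul f, map_inv f, fof, fof, t0, t1]
      group
    exact congrArg (fun g : FreeGroup (Fin n) →* FreeGroup (Fin (2 * n)) => g w) this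
  have hsymm : ∀ i, φ⁻¹ (FreeGroup.of i) = (u i)⁻¹ * FreeGroup.of i * (v i)⁻¹ := by
    intro i
    apply φ.injective
    rw [MulAut.apply_inv_self, map_mul, map_mul, map_inv, map_inv, fu, fv, hφ]
    group
  have hf'ι : ∀ w, f' (ι w) = ι (φ⁻¹ w) := by
    intro w
    have : f'.comp ι = ι.comp (φ⁻¹ : MulAut (FreeGroup (Fin n))).toMonoidHom := by
      refine FreeGroup.ext_hom _ _ fun i => ?_
      show f' (ι (FreeGroup.of i)) = ι (φ⁻¹ (FreeGroup.of i))
      rw [hsymm, map_mul ι, map_mul ι, map_inv ι, map_inv ι, ιof, map_mul f', map_inv f', f'of, f'of, t0, t1]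
      group
    exact congrArg (fun g : FreeGroup (Fin n) →* FreeGroup (Fin (2 * n)) => g w) this
  have fu' : ∀ i, φ⁻¹ (u i) = u i := fun i => by
    apply φ.injective
    rw [MulAut.apply_inv_self, fu]
  have fv' : ∀ i, φ⁻¹ (v i) = v i := fun i => by
    apply φ.injective
    rw [MulAut.apply_inv_self, fv]
  have ft : ∀ k, f (t k) = t k := by
    intro k
    show f (if k.val % 2 = 0 then (ι (u (half k)))⁻¹ else ι (v (half k))) =
      if k.val % 2 = 0 then (ι (u (half k)))⁻¹ else ι (v (half k))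
    split_ifs
    · rw [map_inv, hfι, fu]
    · rw [hfι, fv]
  have f't : ∀ k, f' (t k) = t k := by
    intro k
    show f' (if k.val % 2 = 0 then (ι (u (half k)))⁻¹ else ι (v (half k))) =
      if k.val % 2 = 0 then (ι (u (half k)))⁻¹ else ι (v (half k))
    split_ifs
    · rw [map_inv, hf'ι, fu']
    · rw [hf'ι, fv']
  have ff' : f.comp f' = MonoidHom.id _ := by
    refine FreeGroup.ext_hom _ _ fun k => ?_
    show f (f' (FreeGroup.of k)) = FreeGroup.of k
    rw [f'of, map_mul, map_inv, ft, fof, mul_assoc, mul_inv_cancel, mul_one]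
  have f'f : f'.comp f = MonoidHom.id _ := by
    refine FreeGroup.ext_hom _ _ fun k => ?_
    show f' (f (FreeGroup.of k)) = FreeGroup.of k
    rw [fof, map_mul, f't, f'of, mul_assoc, inv_mul_cancel, mul_one]
  let φ₂ : MulAut (FreeGroup (Fin (2 * n))) := MonoidHom.toMulEquiv f f' f'f ff'
  have hφ₂ : ∀ w, φ₂ w = f w := fun w => rfl
  refine ⟨2 * n, φ₂, ι, ?_, ?_, ?_⟩
  · intro k
    have hgen : ∀ x, x ∈ Subgroup.closure (FreeGroup.of '' {j : Fin n | j < half k}) →
        ι x ∈ Subgroup.closure (FreeGroup.of '' {j : Fin (2 * n) | j < k}) := by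
      intro x hx
      have hle : Subgroup.closure (FreeGroup.of '' {j : Fin n | j < half k}) ≤
          (Subgroup.closure (FreeGroup.of '' {j : Fin (2 * n) | j < k})).comap ι := by
        rw [Subgroup.closure_le]
        rintro _ ⟨j, hj, rfl⟩
        have hj' : j.val < k.val / 2 := hj
        show ι (FreeGroup.of j) ∈ Subgroup.closure (FreeGroup.of '' {j : Fin (2 * n) | j < k})
        rw [ιof]
        refine Subgroup.mul_mem _ (Subgroup.inv_mem _ (Subgroup.subset_closure ⟨i0 j, ?_, rfl⟩))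
          (Subgroup.subset_closure ⟨i1 j, ?_, rfl⟩)
        · show 2 * j.val < k.val
          omega
        · show 2 * j.val + 1 < k.val
          omega
      exact hle hx
    refine ⟨t k, ?_, ?_, ?_⟩
    · show (if k.val % 2 = 0 then (ι (u (half k)))⁻¹ else ι (v (half k))) ∈ _
      split_ifs
      · exact Subgroup.inv_mem _ (hgen _ (hu _))
      · exact hgen _ (hv _)
    · rw [hφ₂, ft]
    · rw [hφ₂, fof]
  · let r : FreeGroup (Fin (2 * n)) →* FreeGroup (Fin n) :=
      FreeGroup.lift fun k => if k.val % 2 = 0 then 1 else FreeGroup.of (half k)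
    have rof : ∀ k, r (FreeGroup.of k) = if k.val % 2 = 0 then 1 else FreeGroup.of (half k) := fun k => by
      simp [r]
    have hr : r.comp ι = MonoidHom.id _ := by
      refine FreeGroup.ext_hom _ _ fun i => ?_
      show r (ι (FreeGroup.of i)) = FreeGroup.of i
      rw [ιof, map_mul, map_inv, rof, rof, if_pos (e0 i), if_neg (e1 i), h1]
      simp
    intro a b hab
    have h2 := congrArg r hab
    have h3 : ∀ w, r (ι w) = w := fun w =>
      congrArg (fun g : FreeGroup (Fin n) →* FreeGroup (Fin n) => g w) hr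
    rwa [h3, h3] at h2
  · intro w
    rw [hφ₂, hfι]

end Pool.Agent.Helper53.LG
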