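import Pool.Agent.Helper53.LG.Game

/-!
# LG-24: the geometric representation is faithful

`lam0 = (0, 1)`: `yy s lam0 = 1` for all `s`. `exists_clean` for `T = ∅`: `w = wprod l * u`, `u ∈ Wsub ∅ = ⊥` (closure of the empty
set), `l` clean. If `l ≠ []` with last letter `t` then `game_neg` gives `act w lam0 = lam0 - ∑ c t • al t` with `c ≥ 0`, `c t > 0`, which
is not `lam0` (look at the coordinate `t` of the first component). So `l = []`, `w = 1`.
-/

namespace Pool.Agent.Helper53.LG

variable {V : Type} [Fintype V] (Cm : V → V → Prop)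
  (hsymm : ∀ u v, Cm u v → Cm v u) (hirr : ∀ u, ¬ Cm u u)

/-- a regular vector -/
def lam0 : EE V := (0, fun _ => 1)

theorem act_faithful (w : RG Cm) (h : act Cm hsymm hirr w lam0 = lam0) : w = 1 := by
  classical
  have hlam1 : ∀ s : V × Bool, yy Cm s (lam0 : EE V) = 1 := by
    intro s
    simp [yy, lam0]
  have hlam : ∀ s : V × Bool, 0 ≤ yy Cm s (lam0 : EE V) := fun s => by
    rw [hlam1]; exact zero_le_one
  obtain ⟨l, u, hl, hu, hw, -⟩ := exists_clean Cm w ∅
  have hu1 : u = 1 := by
    have h1 : Wsub Cm (∅ : Set V) = ⊥ := by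
      unfold Wsub
      have h2 : {g : RG Cm | ∃ x : V × Bool, x.1 ∈ (∅ : Set V) ∧ g = gen Cm x} = ∅ := by
        ext g
        simp
      rw [h2, Subgroup.closure_empty]
    rw [h1, Subgroup.mem_bot] at hu
    exact hu
  rw [hu1, mul_one] at hw
  obtain ⟨c, hc0, hc, hct⟩ := game_neg Cm hsymm hirr lam0 hlam l hl
  rw [← hw, h] at hc
  have hsum : ∀ t, c t = 0 := by
    intro t
    have h0 : ∑ s, c s • (al s : EE V) = 0 := by
      have h1 := hc.symm
      rwa [sub_eq_self] at h1
    have h1 := congrArg (fun x : EE V => x.1 t) h0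
    simp only [Prod.fst_sum, Finset.sum_apply, Prod.smul_fst, Pi.smul_apply, al, Pi.single_apply,
      smul_eq_mul, Prod.fst_zero, Pi.zero_apply, mul_ite, mul_one, mul_zero] at h1
    rw [Finset.sum_ite_eq Finset.univ t] at h1
    simpa using h1
  rcases l with _ | ⟨r, l⟩
  · rw [hw]
    simp [wprod]
  · exfalso
    obtain ⟨t, ht⟩ : ∃ t, (r :: l).getLast? = some t :=
      ⟨_, List.getLast?_eq_some_getLast (by simp)⟩
    have h1 := hct t ht (by rw [hlam1]; exact one_pos)
    rw [hsum t] at h1
    exact lt_irrefl _ h1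

end Pool.Agent.Helper53.LG
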