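import Pool.Agent.Helper53.LG.Game

/-!
# LG-11: positivity

`pos`: `T, T'` maximal cliques, `w ∈ RG`. By `exists_clean` (for `T'`): `w = wprod l * u`, `l` clean, `u ∈ Wsub T'`, the last
letter of `l` is not over `T'`. `act w (uu T') = act (wprod l) (uu T')` (`act_uu`). Let `lam = - uu T'`: `yy s lam ≥ 0` for all
`s` (`yy_uu`, `yy_uu_nonpos`), `> 0` if `s.1 ∉ T'` (maximality). By `game_neg`
`act w (uu T') = uu T' + ∑ c t • al t` with `c ≥ 0`; so `ff T (act w (uu T')) = ff T (uu T') + ∑ c t * ff T (al t)`, and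
`ff T (uu T') = ∑_{s.1 ∈ T'} ff T (al s)` (`uu T' = ∑_{s.1 ∈ T'} al s`). All terms are `≤ 0` (`ff_al_zero`, `ff_al_nonpos`).
If the value is `0` all terms are `0`: for `s.1 ∈ T'` `ff T (al s) = 0` implies `s.1 ∈ T` (`ff_al_nonpos` with the
maximality of `T`), so `T' ⊆ T`; if `v ∈ T`, `v ∉ T'`, there is `u ∈ T'` with `¬ Cm v u`, but `u, v ∈ T`, `u ≠ v`,
contradiction; so `T = T'`. If `l ≠ []` has last letter `t`: `t.1 ∉ T`, `c t > 0` (`yy t lam > 0`) and
`ff T (al t) < 0`, contradiction. So `l = []`, `w = u ∈ Wsub T`.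
-/

namespace Pool.Agent.Helper53.LG

variable {V : Type} [Fintype V] (Cm : V → V → Prop)
  (hsymm : ∀ u v, Cm u v → Cm v u) (hirr : ∀ u, ¬ Cm u u)

open scoped Classical in
lemma lg11_uu (T : Set V) : uu T = ∑ s : V × Bool, (if s.1 ∈ T then (1 : ℝ) else 0) • al s := by
  refine Prod.ext ?_ ?_
  · funext t
    rw [Prod.fst_sum, Finset.sum_apply]
    simp only [uu, al, Prod.smul_mk, Pi.smul_apply, smul_eq_mul]
    rw [Finset.sum_eq_single t]
    · simp
    · intro b _ hb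
      rw [Pi.single_eq_of_ne (Ne.symm hb), mul_zero]
    · intro h
      exact absurd (Finset.mem_univ t) h
  · rw [Prod.snd_sum]
    refine (Finset.sum_eq_zero fun s _ => ?_).symm
    split_ifs
    · simp [al]
    · simp

theorem pos (T T' : Set V) (hT : MaxC Cm T) (hT' : MaxC Cm T') (w : RG Cm) :
    ff Cm T (act Cm hsymm hirr w (uu T')) ≤ 0 ∧
    (ff Cm T (act Cm hsymm hirr w (uu T')) = 0 → T = T' ∧ w ∈ Wsub Cm T) := by
  classical
  obtain ⟨l, u, hl, hu, hw, hlast⟩ := exists_clean Cm w T'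
  set lam : EE V := -uu T' with hlam
  have hyy : ∀ s : V × Bool, yy Cm s lam = -yy Cm s (uu T') := fun s => by rw [hlam, map_neg]
  have hyy0 : ∀ s, 0 ≤ yy Cm s lam := by
    intro s
    rw [hyy]
    by_cases hs : s.1 ∈ T'
    · rw [yy_uu Cm hirr T' hT'.1 s hs, neg_zero]
    · have := (yy_uu_nonpos Cm T' s hs).1
      linarith
  have hyy1 : ∀ s : V × Bool, s.1 ∉ T' → 0 < yy Cm s lam := by
    intro s hs
    rw [hyy]
    obtain ⟨v, hv, hvc⟩ := hT'.2 s.1 hs
    have := (yy_uu_nonpos Cm T' s hs).2 ⟨v, hv, hvc⟩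
    linarith
  have hff0 : ∀ t : V × Bool, ff Cm T (al t) ≤ 0 := by
    intro t
    by_cases ht : t.1 ∈ T
    · rw [ff_al_zero Cm hsymm hirr T hT.1 t ht]
    · exact (ff_al_nonpos Cm hsymm T t ht).1
  have hff1 : ∀ t : V × Bool, t.1 ∉ T → ff Cm T (al t) < 0 := by
    intro t ht
    obtain ⟨v, hv, hvc⟩ := hT.2 t.1 ht
    exact (ff_al_nonpos Cm hsymm T t ht).2 ⟨v, hv, hvc⟩
  obtain ⟨c, hc0, hc1, hc2⟩ := game_neg Cm hsymm hirr lam hyy0 l hl
  have hact : act Cm hsymm hirr w (uu T') = uu T' + ∑ t, c t • al t := by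
    have h1 : act Cm hsymm hirr w (uu T') = act Cm hsymm hirr (wprod Cm l) (uu T') := by
      rw [hw, map_mul]
      change act Cm hsymm hirr (wprod Cm l) (act Cm hsymm hirr u (uu T')) = _
      rw [act_uu Cm hsymm hirr T' hT'.1 u hu]
    have h2 : uu T' = -lam := by rw [hlam, neg_neg]
    rw [h1]
    conv_lhs => rw [h2]
    rw [map_neg, hc1, hlam]
    abel
  have hval : ff Cm T (act Cm hsymm hirr w (uu T')) =
      (∑ s : V × Bool, (if s.1 ∈ T' then (1 : ℝ) else 0) * ff Cm T (al s)) +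
        ∑ t, c t * ff Cm T (al t) := by
    rw [hact, map_add, map_sum, lg11_uu, map_sum]
    simp only [map_smul, smul_eq_mul]
  have ht1 : ∀ s ∈ (Finset.univ : Finset (V × Bool)),
      (if s.1 ∈ T' then (1 : ℝ) else 0) * ff Cm T (al s) ≤ 0 := by
    intro s _
    refine mul_nonpos_of_nonneg_of_nonpos ?_ (hff0 s)
    split_ifs <;> norm_num
  have ht2 : ∀ t ∈ (Finset.univ : Finset (V × Bool)), c t * ff Cm T (al t) ≤ 0 := fun t _ =>
    mul_nonpos_of_nonneg_of_nonpos (hc0 t) (hff0 t)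
  have hs1 := Finset.sum_nonpos ht1
  have hs2 := Finset.sum_nonpos ht2
  rw [hval]
  refine ⟨add_nonpos hs1 hs2, fun h0 => ?_⟩
  have hz1 : (∑ s : V × Bool, (if s.1 ∈ T' then (1 : ℝ) else 0) * ff Cm T (al s)) = 0 := by
    linarith
  have hz2 : (∑ t, c t * ff Cm T (al t)) = 0 := by linarith
  have hz1' := (Finset.sum_eq_zero_iff_of_nonpos ht1).1 hz1
  have hz2' := (Finset.sum_eq_zero_iff_of_nonpos ht2).1 hz2
  have hsub : T' ⊆ T := by
    intro v hv
    by_contra hvT
    have h1 := hz1' (v, true) (Finset.mem_univ _)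
    have h2 := hff1 (v, true) hvT
    rw [if_pos (show ((v, true) : V × Bool).1 ∈ T' from hv), one_mul] at h1
    linarith
  have hTT : T = T' := by
    refine Set.Subset.antisymm ?_ hsub
    intro v hv
    by_contra hvT
    obtain ⟨x, hx, hxc⟩ := hT'.2 v hvT
    refine hxc (hT.1 v hv x (hsub hx) ?_)
    intro h
    exact hvT (h ▸ hx)
  refine ⟨hTT, ?_⟩
  have hlnil : l = [] := by
    rcases List.eq_nil_or_concat l with h | ⟨l', t, h⟩
    · exact h
    · exfalso
      have hlt : l.getLast? = some t := by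
        rw [h]
        simp
      have h1 : t.1 ∉ T' := hlast t hlt
      have h2 := hc2 t hlt (hyy1 t h1)
      have h3 := hff1 t (by rw [hTT]; exact h1)
      have h4 := hz2' t (Finset.mem_univ _)
      have h5 := mul_neg_of_pos_of_neg h2 h3
      linarith
  rw [hw, hlnil, hTT]
  simpa [wprod] using hu

end Pool.Agent.Helper53.LG
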