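import Pool.Agent.Helper53.LG.GLcons
import Pool.Agent.Helper53.LG.Posi
import Pool.Agent.Helper53.LG.Faith

/-!
# LG-25: the representation on `Q → EE (Q × Y)`, vectors and functionals

`repE l f q = act (tc l q) (f (q * ev l))`. `uE i q = uu (Lin (i, true) 0 q)`, `fE i f = ∑ q, ff (Lin (i, true) 0 q) (f q)`.
`A q = Lin (i, true) 0 q`; `c = cwS i = S.seg of (i, true) 0 n`.

* `maxC_line`: `Lin_clique`, `Lin_max`.
* `tc_cwS_mem`: `seg_eq_fpw`, `coc_fpw` for the path `isPath_line`; `PP` is the product of the `tau` of darts with edges in `A q`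
  (definition of `Lin`), `tau e ∈ Wsub T` if `e.1 ∈ T`; induction.
* `line_cwS`: `Lin (i, true) 0 (q * ev c) = A q`: `Lin_shift` with `m = n`, `Lin_congr`, `evQ_seg`.
* `uE_fix`: at `q`: `act (tc c q) (uu (A (q * ev c))) = act (tc c q) (uu (A q)) = uu (A q)` (`act_uu`).
* `fE_fix`: `∑ q, ff (A q) (act (tc c q) (x (q * ev c))) = ∑ q, ff (A q) (x (q * ev c)) = ∑ q, ff (A (q * ev c)) (x (q * ev c))`, reindex.
* `fE_nonpos`, `fE_zero`: `fE i (repE l (uE j)) = ∑ q, ff (A q) (act (tc l q) (uu (Lin (j, true) 0 (q * ev l))))`, all terms are `≤ 0` by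
  `pos`; if the sum is `0`, the term for `q = 1` is `0`, so `A 1 = Lin (j, true) 0 (ev l)` and `tc l 1 ∈ Wsub (A 1)` and `tc_line` applies.
* `fE_self`: `ff T (uu T) = 0` for a clique (`uu T` is the sum of the `al s`, `ff_al_zero`; or `yy_uu`).
* `repE_inj`: let `x = fun q => if q = 1 then lam0 else 0`; `repE l x = x` at `q = 1`: `act (tc l 1) (x (ev l)) = lam0 ≠ 0` (as `Q × Y × Bool` is
  nonempty if `l ≠ 1`), so `ev l = 1` and `act (tc l 1) lam0 = lam0`, `act_faithful`, `tc_eq_one`.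
-/

namespace Pool.Agent.Helper53.LG

variable {Y I : Type} [Fintype Y] [Fintype I] {S : WSys Y I} {Q : Type} [Group Q] [Fintype Q] (C : Cover S Q)

/-- the value of one period -/
abbrev cwS (S : WSys Y I) (i : I) : FreeGroup Y := S.seg FreeGroup.of (i, true) 0 (S.n i)

/-- the induced representation -/
noncomputable def Cover.repE : FreeGroup Y →* ((Q → EE (Q × Y)) ≃ₗ[ℝ] (Q → EE (Q × Y))) :=
  repC C.g (fun e => tau C.Cm (e, true)) (act C.Cm (fun _ _ h => Cm_symm C h) (Cm_irrefl C))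

lemma repE_apply (l : FreeGroup Y) (f : Q → EE (Q × Y)) (q : Q) :
    C.repE l f q = act C.Cm (fun _ _ h => Cm_symm C h) (Cm_irrefl C) (C.tc l q) (f (q * evQ C.g l)) :=
  repC_apply _ _ _ _ _ _

/-- the vector of a word -/
noncomputable def Cover.uE (i : I) : Q → EE (Q × Y) := fun q => uu (C.Lin (i, true) 0 q)

/-- the functional of a word -/
noncomputable def Cover.fE (i : I) : (Q → EE (Q × Y)) →ₗ[ℝ] ℝ :=
  ∑ q : Q, (ff C.Cm (C.Lin (i, true) 0 q)).comp (LinearMap.proj q)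

theorem maxC_line {R0 : ℕ} (hL : C.Long R0) (i : I × Bool) (κ : ℤ) (q : Q) : MaxC C.Cm (C.Lin i κ q) :=
  ⟨fun _ hu _ hv huv => Lin_clique C i κ q hu hv huv, fun v hv => Lin_max C hL i κ q v hv⟩

omit [Fintype Y] [Fintype I] [Fintype Q] [Group Q] in
private lemma ev_tau_mem (Cm : Q × Y → Q × Y → Prop) (T : Set (Q × Y)) (e : (Q × Y) × Bool)
    (he : e.1 ∈ T) : tau Cm e ∈ Wsub Cm T := by
  unfold tau Wsub
  split_ifs
  · exact mul_mem (Subgroup.subset_closure ⟨(e.1, true), he, rfl⟩)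
      (Subgroup.subset_closure ⟨(e.1, false), he, rfl⟩)
  · exact mul_mem (Subgroup.subset_closure ⟨(e.1, false), he, rfl⟩)
      (Subgroup.subset_closure ⟨(e.1, true), he, rfl⟩)

omit [Fintype Y] [Fintype I] [Fintype Q] [Group Q] in
private lemma ev_PP_mem (Cm : Q × Y → Q × Y → Prop) (T : Set (Q × Y)) (x : ℕ → (Q × Y) × Bool)
    (n : ℕ) (hx : ∀ k, k < n → (x k).1 ∈ T) : PP Cm x 0 n ∈ Wsub Cm T := by
  induction n with
  | zero => exact one_mem _
  | succ n ih =>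
    rw [PP_succ, zero_add]
    exact mul_mem (ih fun k hk => hx k (by omega)) (ev_tau_mem Cm T _ (hx n (by omega)))

theorem tc_cwS_mem (i : I) (q : Q) : C.tc (cwS S i) q ∈ Wsub C.Cm (C.Lin (i, true) 0 q) := by
  have h1 : cwS S i = fpw (fun s : ℕ => S.wd (i, true) (0 + s)) (S.n i) :=
    seg_eq_fpw S (i, true) 0 (S.n i)
  rw [h1, tc_fpw]
  apply ev_PP_mem
  intro k _
  refine ⟨k, ?_⟩
  show dedge C.g (q * evQ C.g (fpw (fun s : ℕ => S.wd (i, true) (0 + s)) k))
    (S.wd (i, true) (0 + k)) = _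
  rw [← seg_eq_fpw S (i, true) 0 k, evQ_seg]

theorem line_cwS (i : I) (q : Q) : C.Lin (i, true) 0 (q * evQ C.g (cwS S i)) = C.Lin (i, true) 0 q := by
  have h1 : evQ C.g (cwS S i) = S.seg C.g (i, true) 0 (S.n i) := evQ_seg C.g S (i, true) 0 (S.n i)
  rw [h1]
  have h2 := Lin_shift C (i, true) 0 q (S.n i)
  rw [← h2]
  apply Lin_congr
  rw [zero_add, zero_sub, dvd_neg]

theorem uE_fix {R0 : ℕ} (hL : C.Long R0) (i : I) : C.repE (cwS S i) (C.uE i) = C.uE i := by
  funext q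
  rw [repE_apply]
  unfold Cover.uE
  rw [line_cwS]
  exact act_uu C.Cm _ _ _ (maxC_line C hL (i, true) 0 q).1 _ (tc_cwS_mem C i q)

omit [Fintype I] in
private lemma ev_fE_apply (i : I) (x : Q → EE (Q × Y)) :
    C.fE i x = ∑ q : Q, ff C.Cm (C.Lin (i, true) 0 q) (x q) := by
  unfold Cover.fE
  rw [LinearMap.sum_apply]
  rfl

theorem fE_fix {R0 : ℕ} (hL : C.Long R0) (i : I) (x : Q → EE (Q × Y)) :
    C.fE i (C.repE (cwS S i) x) = C.fE i x := by
  rw [ev_fE_apply, ev_fE_apply]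
  have h1 : ∀ q : Q, ff C.Cm (C.Lin (i, true) 0 q) (C.repE (cwS S i) x q) =
      ff C.Cm (C.Lin (i, true) 0 (q * evQ C.g (cwS S i))) (x (q * evQ C.g (cwS S i))) := by
    intro q
    rw [repE_apply, line_cwS]
    exact ff_act C.Cm _ _ _ (maxC_line C hL (i, true) 0 q).1 _ (tc_cwS_mem C i q) _
  rw [Finset.sum_congr rfl fun q _ => h1 q]
  exact Equiv.sum_comp (Equiv.mulRight (evQ C.g (cwS S i)))
    (fun q => ff C.Cm (C.Lin (i, true) 0 q) (x q))

private lemma ev_term {R0 : ℕ} (hL : C.Long R0) (i j : I) (l : FreeGroup Y) (q : Q) :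
    ff C.Cm (C.Lin (i, true) 0 q) (C.repE l (C.uE j) q) ≤ 0 ∧
    (ff C.Cm (C.Lin (i, true) 0 q) (C.repE l (C.uE j) q) = 0 →
      C.Lin (i, true) 0 q = C.Lin (j, true) 0 (q * evQ C.g l) ∧
        C.tc l q ∈ Wsub C.Cm (C.Lin (i, true) 0 q)) := by
  rw [repE_apply]
  exact pos C.Cm _ _ _ _ (maxC_line C hL (i, true) 0 q)
    (maxC_line C hL (j, true) 0 (q * evQ C.g l)) (C.tc l q)

theorem fE_nonpos {R0 : ℕ} (hL : C.Long R0) (i j : I) (l : FreeGroup Y) :
    C.fE i (C.repE l (C.uE j)) ≤ 0 := by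
  rw [ev_fE_apply]
  exact Finset.sum_nonpos fun q _ => (ev_term C hL i j l q).1

theorem fE_zero {R0 : ℕ} (hL : C.Long R0) (i j : I) (l : FreeGroup Y)
    (h : C.fE i (C.repE l (C.uE j)) = 0) : i = j ∧ l ∈ Subgroup.zpowers (cwS S i) := by
  rw [ev_fE_apply] at h
  have h1 := (Finset.sum_eq_zero_iff_of_nonpos fun q _ => (ev_term C hL i j l q).1).1 h 1
    (Finset.mem_univ _)
  obtain ⟨h2, h3⟩ := (ev_term C hL i j l 1).2 h1
  exact tc_line C hL i j l 1 h3 h2.symm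

theorem fE_self {R0 : ℕ} (hL : C.Long R0) (i : I) : C.fE i (C.uE i) = 0 := by
  classical
  rw [ev_fE_apply]
  refine Finset.sum_eq_zero fun q _ => ?_
  unfold Cover.uE ff
  rw [LinearMap.sum_apply]
  refine Finset.sum_eq_zero fun s _ => ?_
  split_ifs with hs
  · exact yy_uu C.Cm (Cm_irrefl C) _ (maxC_line C hL (i, true) 0 q).1 s hs
  · rfl

theorem repE_inj {R0 : ℕ} (hL : C.Long R0) (l : FreeGroup Y) (h : ∀ x, C.repE l x = x) : l = 1 := by
  classical
  by_contra hl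
  have hY : Nonempty Y := by
    by_contra hY
    rw [not_nonempty_iff] at hY
    exact hl (Subsingleton.elim _ _)
  obtain ⟨y⟩ := hY
  have h1 := congrFun (h (fun q => if q = 1 then lam0 else 0)) 1
  rw [repE_apply] at h1
  simp only [one_mul, if_true] at h1
  by_cases h2 : evQ C.g l = 1
  · rw [if_pos h2] at h1
    exact hl (tc_eq_one C hL l 1 (act_faithful C.Cm _ _ _ h1))
  · rw [if_neg h2, map_zero] at h1
    have h3 := congrFun (congrArg Prod.snd h1) ((1, y), true)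
    simp [lam0] at h3

end Pool.Agent.Helper53.LG
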