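import Pool.Agent.Helper53.LG.Ext

/-!
# LG-45: maps of normalized data; change of the new letter

* `emb_psi`: `hom_unique` for the homomorphisms `D'.psi ∘ map j` and `map j ∘ D.psi` from `D.F` to `D'.F`, `j = Sum.map jX jB`: on `inl x` both are
  `of (inl (jX x))`; on `inr b`, if they agree on `cw (inr (root b))`:
  `D'.psi (of (inr (jB b))) = of (inr (jB b)) * D'.psi (D'.cw (inr (D'.root (jB b)))) * (…)⁻¹` and `D'.cw (inr (D'.root (jB b))) = map j (D.cw (inr (D.root b)))`.
* `emb_phi`: both sides are homomorphisms in `w`; check on the letters with `emb_psi` (`D'.rr (jB b) = map j (D.rr b)`).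
* `ext_conj`: let `D', m', e` be the data for `v' = g⁻¹ * v * phi m g`. Let `σ` be the automorphism of `FreeGroup ((X ⊕ B) ⊕ Unit)` fixing the letters `inl y`,
  `b ↦ b * (map inl g)⁻¹` (`b = of (inr ())`; inverse `b ↦ b * map inl g`). Take `e ∘ σ`. For `w`: `σ` fixes `map inl w`. For `b`:
  `e (σ (b * map inl v)) = e (b) * e (map inl (g⁻¹ * v))`, and `D'.phi m' (e (σ b)) = D'.phi m' (e b) * D'.phi m' (e (map inl g⁻¹)) =
  e (b * map inl v') * e (map inl (phi m g⁻¹)) = e (b * map inl (g⁻¹ * v * phi m g * (phi m g)⁻¹))`.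
-/

namespace Pool.Agent.Helper53.LG

theorem emb_psi {D D' : NDW} (E : Emb D D') (l : D.F) :
    D'.psi (FreeGroup.map (Sum.map E.jX E.jB) l) = FreeGroup.map (Sum.map E.jX E.jB) (D.psi l) := by
  have h : D'.psi.comp (FreeGroup.map (Sum.map E.jX E.jB)) =
      (FreeGroup.map (Sum.map E.jX E.jB)).comp D.psi := by
    apply hom_unique
    · intro x
      rw [MonoidHom.comp_apply, MonoidHom.comp_apply, psi_inl, FreeGroup.map.of, Sum.map_inl, psi_inl]
    · intro b hb
      rw [MonoidHom.comp_apply, MonoidHom.comp_apply] at hb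
      rw [MonoidHom.comp_apply, MonoidHom.comp_apply, psi_inr, FreeGroup.map.of, Sum.map_inr, psi_inr,
        E.root, E.cw, hb, map_mul, map_mul, map_inv, FreeGroup.map.of, Sum.map_inr]
  exact DFunLike.congr_fun h l

theorem emb_rr {D D' : NDW} (E : Emb D D') (b : D.B) :
    D'.rr (E.jB b) = FreeGroup.map (Sum.map E.jX E.jB) (D.rr b) := by
  unfold NDW.rr
  rw [E.root, E.cw, emb_psi]

theorem emb_phi {D D' : NDW} (E : Emb D D') (m : D.B → ℤ) (m' : D'.B → ℤ) (h : ∀ b, m' (E.jB b) = m b)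
    (w : D.F) :
    D'.phi m' (FreeGroup.map (Sum.map E.jX E.jB) w) = FreeGroup.map (Sum.map E.jX E.jB) (D.phi m w) := by
  have h : (D'.phi m').toMonoidHom.comp (FreeGroup.map (Sum.map E.jX E.jB)) =
      (FreeGroup.map (Sum.map E.jX E.jB)).comp (D.phi m).toMonoidHom := by
    apply FreeGroup.ext_hom
    rintro (x | b)
    · change D'.phi m' (FreeGroup.map (Sum.map E.jX E.jB) (FreeGroup.of (Sum.inl x))) =
        FreeGroup.map (Sum.map E.jX E.jB) (D.phi m (FreeGroup.of (Sum.inl x)))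
      rw [phi_inl, FreeGroup.map.of, Sum.map_inl, phi_inl]
    · change D'.phi m' (FreeGroup.map (Sum.map E.jX E.jB) (FreeGroup.of (Sum.inr b))) =
        FreeGroup.map (Sum.map E.jX E.jB) (D.phi m (FreeGroup.of (Sum.inr b)))
      rw [phi_inr, FreeGroup.map.of, Sum.map_inr, phi_inr, map_mul, FreeGroup.map.of, Sum.map_inr, map_zpow,
        ← emb_rr, h]
  exact DFunLike.congr_fun h w

/-- the change of the last letter -/
private def chg {Y : Type} (g : FreeGroup Y) : FreeGroup (Y ⊕ Unit) →* FreeGroup (Y ⊕ Unit) :=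
  FreeGroup.lift (Sum.elim (fun y => FreeGroup.of (Sum.inl y))
    (fun _ => FreeGroup.of (Sum.inr ()) * FreeGroup.map Sum.inl g))

private lemma chg_inl {Y : Type} (g : FreeGroup Y) (w : FreeGroup Y) :
    chg g (FreeGroup.map Sum.inl w) = FreeGroup.map Sum.inl w := by
  have h : (chg g).comp (FreeGroup.map Sum.inl) = FreeGroup.map Sum.inl := by
    apply FreeGroup.ext_hom
    intro y
    simp [chg]
  exact DFunLike.congr_fun h w

private lemma chg_inr {Y : Type} (g : FreeGroup Y) :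
    chg g (FreeGroup.of (Sum.inr ())) = FreeGroup.of (Sum.inr ()) * FreeGroup.map Sum.inl g := by
  simp [chg]

private lemma chg_chg {Y : Type} (g g' : FreeGroup Y) (hg : g' * g = 1) (l : FreeGroup (Y ⊕ Unit)) :
    chg g (chg g' l) = l := by
  have h : (chg g).comp (chg g') = MonoidHom.id _ := by
    apply FreeGroup.ext_hom
    rintro (y | ⟨⟩)
    · rw [MonoidHom.comp_apply, MonoidHom.id_apply, ← FreeGroup.map.of (f := Sum.inl), chg_inl, chg_inl]
    · rw [MonoidHom.comp_apply, MonoidHom.id_apply, chg_inr, map_mul, chg_inr, chg_inl, mul_assoc,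
        ← map_mul]
      have : g * g' = 1 := by
        have h1 : g' = g⁻¹ := eq_inv_of_mul_eq_one_left hg
        rw [h1, mul_inv_cancel]
      rw [this, map_one, mul_one]
  exact DFunLike.congr_fun h l

theorem ext_conj (D : NDW) (m : D.B → ℤ) (v g : D.F) (h : ExtP D m (g⁻¹ * v * D.phi m g)) : ExtP D m v := by
  obtain ⟨D', m', hG, e, he, hb⟩ := h
  let σ : FreeGroup ((D.X ⊕ D.B) ⊕ Unit) ≃* FreeGroup ((D.X ⊕ D.B) ⊕ Unit) :=
    { toFun := chg g⁻¹
      invFun := chg g
      left_inv := chg_chg g g⁻¹ (inv_mul_cancel g)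
      right_inv := chg_chg g⁻¹ g (mul_inv_cancel g)
      map_mul' := map_mul (chg g⁻¹) }
  have hσ : ∀ l, σ l = chg g⁻¹ l := fun _ => rfl
  refine ⟨D', m', hG, σ.trans e, ?_, ?_⟩
  · intro w
    rw [MulEquiv.trans_apply, MulEquiv.trans_apply, hσ, hσ, chg_inl, chg_inl]
    exact he w
  · rw [MulEquiv.trans_apply, MulEquiv.trans_apply, hσ, hσ, map_mul, chg_inl, chg_inr, map_mul e, map_mul e,
      map_mul (D'.phi m'), ← hb, ← he, map_mul e, mul_assoc, mul_assoc]
    congr 1
    rw [← map_mul e, ← map_mul e, ← map_mul, ← map_mul, map_inv (D.phi m)]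
    congr 2
    group

end Pool.Agent.Helper53.LG
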