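import Mathlib

/-!
# LG-12: exponentials of operators with cube zero

`ex A = 1 + A + A² / 2`.

* `ex_smul_mul`: expand, all products of three factors `A` vanish; `noncomm_ring`/`module` after rewriting with
  `A * A * A = 0`.
* `ex_mul_comm_zero`: if `A * B = 0 = B * A`: `ex A * ex B = ex (A + B)` (expand).
* `ex_pow`: induction with `ex_smul_mul`.
* `ex_fix`: `ex A x = x` implies `A x + (1/2) A (A x) = 0`; apply `A`: `A (A x) = 0` (cube zero), so `A x = 0`.
* `ex_injective_zero`: `ex A = 1` implies `A = 0`: `ex_fix` for all `x`.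
-/

namespace Pool.Agent.Helper53.LG

variable {W : Type} [AddCommGroup W] [Module ℝ W]

/-- exponential of an operator with cube zero -/
noncomputable def ex (A : Module.End ℝ W) : Module.End ℝ W := 1 + A + (2⁻¹ : ℝ) • (A * A)

lemma ex_zero : ex (0 : Module.End ℝ W) = 1 := by
  simp [ex]

theorem ex_smul_mul (A : Module.End ℝ W) (hA : A * A * A = 0) (a b : ℝ) :
    ex (a • A) * ex (b • A) = ex ((a + b) • A) := by
  have h4 : A * A * (A * A) = 0 := by
    rw [← mul_assoc, hA, zero_mul]
  have h3 : A * (A * A) = 0 := by rw [← mul_assoc, hA]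
  unfold ex
  simp only [mul_add, add_mul, one_mul, mul_one, smul_mul_assoc,
    mul_smul_comm, smul_smul, hA, h3, h4, smul_zero, add_zero]
  module

theorem ex_mul_comm_zero (A B : Module.End ℝ W) (h1 : A * B = 0) (h2 : B * A = 0) :
    ex A * ex B = ex (A + B) := by
  have e1 : A * (B * B) = 0 := by rw [← mul_assoc, h1, zero_mul]
  have e2 : A * A * B = 0 := by rw [mul_assoc, h1, mul_zero]
  have e3 : A * A * (B * B) = 0 := by rw [mul_assoc, e1, mul_zero]
  unfold ex
  simp only [mul_add, add_mul, one_mul, mul_one, smul_mul_assoc,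
    mul_smul_comm, h1, h2, e1, e2, e3, smul_zero, add_zero, zero_add]
  module

theorem ex_pow (A : Module.End ℝ W) (hA : A * A * A = 0) (a : ℝ) (k : ℕ) :
    ex (a • A) ^ k = ex ((k * a) • A) := by
  induction k with
  | zero => simp [ex_zero]
  | succ k ih =>
    rw [pow_succ, ih, ex_smul_mul A hA]
    congr 2
    push_cast
    ring

theorem ex_fix (A : Module.End ℝ W) (hA : A * A * A = 0) (x : W) (h : ex A x = x) : A x = 0 := by
  have h1 : A x + (2⁻¹ : ℝ) • A (A x) = 0 := by
    have h2 : x + A x + (2⁻¹ : ℝ) • A (A x) = x := h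
    have h3 : x + (A x + (2⁻¹ : ℝ) • A (A x)) = x + 0 := by
      rw [add_zero, ← add_assoc]
      exact h2
    exact add_left_cancel h3
  have h2 : A (A (A x)) = 0 := by
    have h3 : (A * A * A) x = 0 := by rw [hA]; rfl
    exact h3
  have h3 : A (A x) = 0 := by
    have h4 := congrArg A h1
    rw [map_add, map_smul, h2, smul_zero, add_zero, map_zero] at h4
    exact h4
  rw [h3, smul_zero, add_zero] at h1
  exact h1

end Pool.Agent.Helper53.LG
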