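import Pool.Agent.Helper53.LG.Psi
import Pool.Agent.Helper53.LG.Coc

/-!
# Project LG: adding one letter to normalized data (definitions)

`Good D m`: the exponents are nonzero and distinct on the fibres of `root`.
`ExtP D m v`: the free product of `D.F` with an infinite cyclic group `⟨b⟩`, with `phi m` extended by `b ↦ b v`, is isomorphic
to good normalized data.
`Emb D D'`: a map of normalized data.
-/

namespace Pool.Agent.Helper53.LG

/-- admissible exponents -/
def Good (D : NDW) (m : D.B → ℤ) : Prop :=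
  (∀ b, m b ≠ 0) ∧ ∀ b b', D.root b = D.root b' → m b = m b' → b = b'

/-- the extension by `b ↦ b v` is of the form `(D', m')` -/
def ExtP (D : NDW) (m : D.B → ℤ) (v : D.F) : Prop :=
  ∃ (D' : NDW) (m' : D'.B → ℤ), Good D' m' ∧ ∃ e : FreeGroup ((D.X ⊕ D.B) ⊕ Unit) ≃* D'.F,
    (∀ w : D.F, e (FreeGroup.map Sum.inl (D.phi m w)) = D'.phi m' (e (FreeGroup.map Sum.inl w))) ∧
    e (FreeGroup.of (Sum.inr ()) * FreeGroup.map Sum.inl v) = D'.phi m' (e (FreeGroup.of (Sum.inr ())))

/-- maps of normalized data -/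
structure Emb (D D' : NDW) where
  jX : D.X → D'.X
  jB : D.B → D'.B
  jR : D.R → D'.R
  root : ∀ b, D'.root (jB b) = jR (D.root b)
  cw : ∀ ρ, D'.cw (Sum.inr (jR ρ)) = FreeGroup.map (Sum.map jX jB) (D.cw (Sum.inr ρ))

end Pool.Agent.Helper53.LG
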