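import Pool.Agent.Helper53.LG.NDLin

/-!
# LG-43: the fixed subgroup of `phi m` is the image of `psi`

Write `φ = D.phi m`, `flip p = (p.1, !p.2)`. `φ (psi y) = psi y` (`phi_psi`). `φ (bl p) = psi (α p) * bl p * psi (β p)` with `α p = 1`, `β p = cw (rt p) ^ m b` for
`p = (b, true)`, `α p = cw (lt p) ^ (- m b)`, `β p = 1` for `p = (b, false)` (`phi_inr`). `bl (flip p) = (bl p)⁻¹`, `lt (flip p) = rt p`.

Lemma A (`mid_ne_one`): `s = exval ((l₁, p₁) :: e) l` reduced, `y ∈ L` with `l₁⁻¹ * y * l₁ ∉ zpowers (cw (lt p₁))`. Then `s⁻¹ * psi y * φ s ≠ 1`. Proof: with the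
entries `(l₁, p₁), …, (l_n, p_n)`, `s⁻¹ * psi y * φ s` is the value of the expression
`(l⁻¹, flip p_n), (l_n⁻¹, flip p_{n-1}), …, (l₂⁻¹, flip p₁), (l₁⁻¹ y l₁ α(p₁), p₁), (β(p₁) l₂ α(p₂), p₂), …, (β(p_{n-1}) l_n α(p_n), p_n)` with final element
`β(p_n) l`. It is reduced: at the junctions on the left: `(flip p_{i+1}, l_{i+1}⁻¹, flip p_i)` is not reduced iff `(p_i, l_{i+1}, p_{i+1})` is not (if
`p_{i+1} = flip p_i` then `rt (flip p_{i+1}) = lt p_{i+1} = rt p_i`); on the right: if `p_{i+1} = flip p_i` then `α(p_{i+1})` and `β(p_i)` are in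
`zpowers (cw (rt p_i))`; in the middle: `rt (flip p₁) = lt p₁`, `α(p₁) ∈ zpowers (cw (lt p₁))`. So it is `≠ 1` by `exval_ne_one`.

Lemma B (`cancel`): `(bl p)⁻¹ * psi (cw (lt p)) ^ a * φ (bl p) = psi (cw (rt p)) ^ a'`, `a' = a + m b` for `p = (b, true)`, `a' = a - m b` for `p = (b, false)`
(`bl_conj` for `flip p`).

Lemma C: let `(x, p) :: e` be reduced, `a ≠ 0`, and `a = m p.1` if `p.2 = true`. Then `s⁻¹ * psi (cw (rt p) ^ a) * φ s ≠ 1` for `s = exval e l`. Induction on the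
length of `e`. `e = []`: `psi (l⁻¹ * cw ^ a * l) ≠ 1` (`psi_injective`, `cw ≠ 1`, torsion free). `e = (l', p') :: e'`: if `l'⁻¹ * cw (rt p) ^ a * l'` is not in
`zpowers (cw (lt p'))`: Lemma A. Otherwise `cw (rt p) ^ a * l' = l' * cw (lt p') ^ ν`, by `nd_free_conj` `rt p = lt p'` and `l' ∈ zpowers (cw (rt p))`, so
`l'⁻¹ * cw (rt p) ^ a * l' = cw (lt p') ^ a`. As the expression is reduced, `p' ≠ flip p`. If `p = (b, false)`: `lt p' = rt p = inl b`, so `p' = (b, true) = flip p`,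
contradiction. So `p = (b, true)`, `lt p' = inr (root b)`, `p' = (b', false)`, `root b' = root b`, `b' ≠ b`. By Lemma B
`s⁻¹ * psi (cw (rt p) ^ a) * φ s = s'⁻¹ * psi (cw (rt p') ^ (a - m b')) * φ s'`, `s' = exval e' l`, and `a - m b' = m b - m b' ≠ 0` (`hinj`); apply Lemma C to
`(l', p') :: e'` (`p'.2 = false`).

`nd_fix`: `w = exval e l` reduced. If `e = []` then `w = psi l`. If `e = (l₁, p₁) :: e'`: `1 = w⁻¹ * φ w = s'⁻¹ * psi (cw (rt p₁) ^ a) * φ s'` (Lemma B with `a = 0`;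
`psi l₁` is fixed), `a = ± m p₁.1 ≠ 0`, `= m p₁.1` if `p₁.2 = true`, contradiction to Lemma C.
-/

namespace Pool.Agent.Helper53.LG

variable (D : NDW)

/-- the opposite letter -/
private def flp (p : D.B × Bool) : D.B × Bool := (p.1, !p.2)

private lemma rt_flp (p : D.B × Bool) : D.rt (flp D p) = D.lt p := by
  rcases p with ⟨b, _ | _⟩ <;> rfl

private lemma lt_flp (p : D.B × Bool) : D.lt (flp D p) = D.rt p := by
  rcases p with ⟨b, _ | _⟩ <;> rfl

private lemma bl_flp (p : D.B × Bool) : D.bl (flp D p) = (D.bl p)⁻¹ := by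
  rcases p with ⟨b, _ | _⟩
  · change FreeGroup.of (Sum.inr b) = ((FreeGroup.of (Sum.inr b))⁻¹)⁻¹
    rw [inv_inv]
  · rfl

/-- the left correction -/
private def alp (m : D.B → ℤ) (p : D.B × Bool) : D.F := if p.2 then 1 else D.cw (D.lt p) ^ (-(m p.1))

/-- the right correction -/
private def bet (m : D.B → ℤ) (p : D.B × Bool) : D.F := if p.2 then D.cw (D.rt p) ^ (m p.1) else 1

private lemma alp_mem (m : D.B → ℤ) (p : D.B × Bool) :
    alp D m p ∈ Subgroup.zpowers (D.cw (D.lt p)) := by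
  unfold alp
  split_ifs
  · exact one_mem _
  · exact Subgroup.zpow_mem _ (Subgroup.mem_zpowers _) _

private lemma bet_mem (m : D.B → ℤ) (p : D.B × Bool) :
    bet D m p ∈ Subgroup.zpowers (D.cw (D.rt p)) := by
  unfold bet
  split_ifs
  · exact Subgroup.zpow_mem _ (Subgroup.mem_zpowers _) _
  · exact one_mem _

private lemma phi_bl (m : D.B → ℤ) (p : D.B × Bool) :
    D.phi m (D.bl p) = D.psi (alp D m p) * D.bl p * D.psi (bet D m p) := by
  rcases p with ⟨b, _ | _⟩
  · change D.phi m ((FreeGroup.of (Sum.inr b))⁻¹) =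
      D.psi (D.cw (Sum.inr (D.root b)) ^ (-(m b))) * (FreeGroup.of (Sum.inr b))⁻¹ * D.psi 1
    rw [map_inv, phi_inr, mul_inv_rev, map_one, mul_one, map_zpow, zpow_neg]
    rfl
  · change D.phi m (FreeGroup.of (Sum.inr b)) =
      D.psi 1 * FreeGroup.of (Sum.inr b) * D.psi (D.cw (Sum.inr (D.root b)) ^ (m b))
    rw [phi_inr, map_one, one_mul, map_zpow]
    rfl

private lemma exval_cons (l₁ : D.F) (p₁ : D.B × Bool) (e : List (D.F × (D.B × Bool))) (l : D.F) :
    D.exval ((l₁, p₁) :: e) l = D.psi l₁ * D.bl p₁ * D.exval e l := by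
  simp [NDW.exval, mul_assoc]

private lemma exval_nil (l : D.F) : D.exval [] l = D.psi l := by
  simp [NDW.exval]

private lemma redx_cons (x y : D.F) (p : D.B × Bool) (e : List (D.F × (D.B × Bool)))
    (h : D.Redx ((x, p) :: e)) : D.Redx ((y, p) :: e) := by
  unfold NDW.Redx at h ⊢
  cases e with
  | nil => exact List.isChain_singleton _
  | cons q e =>
    rw [List.isChain_cons_cons] at h ⊢
    exact h

private lemma redx_cons_cons (x y : D.F) (p q : D.B × Bool) (e : List (D.F × (D.B × Bool))) :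
    D.Redx ((x, p) :: (y, q) :: e) ↔
      (¬ (q = flp D p ∧ y ∈ Subgroup.zpowers (D.cw (D.rt p)))) ∧ D.Redx ((y, q) :: e) := by
  unfold NDW.Redx
  rw [List.isChain_cons_cons]
  have : (q.1 = p.1 ∧ q.2 = !p.2 ∧ y ∈ Subgroup.zpowers (D.cw (D.rt p))) ↔
      (q = flp D p ∧ y ∈ Subgroup.zpowers (D.cw (D.rt p))) := by
    unfold flp
    rw [Prod.ext_iff, and_assoc]
  rw [← this]

/-- the inverse of a reduced expression -/
private lemma rev_expr (e : List (D.F × (D.B × Bool))) :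
    ∀ (l₁ : D.F) (p₁ : D.B × Bool) (l x : D.F) (acc : List (D.F × (D.B × Bool))) (g : D.F),
      D.Redx ((l₁, p₁) :: e) → D.Redx ((x, flp D p₁) :: acc) →
      ∃ E, E ≠ [] ∧ D.Redx E ∧
        (D.exval ((l₁, p₁) :: e) l)⁻¹ * D.psi l₁ * D.exval acc g = D.exval E g := by
  induction e with
  | nil =>
    intro l₁ p₁ l x acc g _ h2
    refine ⟨(l⁻¹, flp D p₁) :: acc, by simp, redx_cons D x _ _ _ h2, ?_⟩
    rw [exval_cons, exval_cons, exval_nil, bl_flp, map_inv]
    group
  | cons q e ih =>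
    intro l₁ p₁ l x acc g h1 h2
    rcases q with ⟨l₂, p₂⟩
    rw [redx_cons_cons] at h1
    obtain ⟨E, hE, hE1, hE2⟩ := ih l₂ p₂ l 1 ((l₂⁻¹, flp D p₁) :: acc) g h1.2 (by
      rw [redx_cons_cons]
      refine ⟨?_, redx_cons D x _ _ _ h2⟩
      rintro ⟨h3, h4⟩
      apply h1.1
      have h5 : p₂ = flp D p₁ := by
        rcases p₁ with ⟨b, c⟩
        rcases p₂ with ⟨b', c'⟩
        simp only [flp, Prod.mk.injEq, Bool.not_not] at h3 ⊢
        exact ⟨h3.1.symm, h3.2.symm⟩
      refine ⟨h5, ?_⟩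
      have h6 : D.rt (flp D p₂) = D.rt p₁ := by
        rw [rt_flp, h5, lt_flp]
      rw [h6] at h4
      exact (Subgroup.inv_mem_iff _).1 h4)
    refine ⟨E, hE, hE1, ?_⟩
    rw [← hE2, exval_cons D l₁, exval_cons D l₂, exval_cons D l₂⁻¹, bl_flp, map_inv]
    group

/-- the image of a reduced expression under `phi m` -/
private lemma phi_expr (m : D.B → ℤ) (e : List (D.F × (D.B × Bool))) :
    ∀ (p₀ : D.B × Bool) (x l : D.F), D.Redx ((x, p₀) :: e) →
      ∃ E g, D.Redx ((1, p₀) :: E) ∧ D.psi (bet D m p₀) * D.phi m (D.exval e l) = D.exval E g := by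
  induction e with
  | nil =>
    intro p₀ x l _
    refine ⟨[], bet D m p₀ * l, List.isChain_singleton _, ?_⟩
    rw [exval_nil, exval_nil, phi_psi, map_mul]
  | cons q e ih =>
    intro p₀ x l h
    rcases q with ⟨l₁, p₁⟩
    rw [redx_cons_cons] at h
    obtain ⟨E, g, h1, h2⟩ := ih p₁ l₁ l h.2
    refine ⟨(bet D m p₀ * l₁ * alp D m p₁, p₁) :: E, g, ?_, ?_⟩
    · rw [redx_cons_cons]
      refine ⟨?_, redx_cons D 1 _ _ _ h1⟩
      rintro ⟨h3, h4⟩
      apply h.1
      refine ⟨h3, ?_⟩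
      have h5 : alp D m p₁ ∈ Subgroup.zpowers (D.cw (D.rt p₀)) := by
        have := alp_mem D m p₁
        rwa [h3, lt_flp, ← h3] at this
      have h6 := bet_mem D m p₀
      have h7 := Subgroup.mul_mem _ (Subgroup.mul_mem _ (Subgroup.inv_mem _ h6) h4) (Subgroup.inv_mem _ h5)
      have h8 : (bet D m p₀)⁻¹ * (bet D m p₀ * l₁ * alp D m p₁) * (alp D m p₁)⁻¹ = l₁ := by group
      rwa [h8] at h7
    · rw [exval_cons, exval_cons, map_mul, map_mul, phi_psi, phi_bl, ← h2, map_mul, map_mul]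
      simp only [mul_assoc]

/-- Lemma A -/
private lemma mid_ne_one (m : D.B → ℤ) (hm : ∀ b, m b ≠ 0)
    (hinj : ∀ b b', D.root b = D.root b' → m b = m b' → b = b')
    (l₁ : D.F) (p₁ : D.B × Bool) (e : List (D.F × (D.B × Bool))) (l y : D.F)
    (hred : D.Redx ((l₁, p₁) :: e)) (hy : l₁⁻¹ * y * l₁ ∉ Subgroup.zpowers (D.cw (D.lt p₁))) :
    (D.exval ((l₁, p₁) :: e) l)⁻¹ * D.psi y * D.phi m (D.exval ((l₁, p₁) :: e) l) ≠ 1 := by
  obtain ⟨E, g, h1, h2⟩ := phi_expr D m e p₁ l₁ l hred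
  obtain ⟨E', h3, h4, h5⟩ := rev_expr D e l₁ p₁ l 1 ((l₁⁻¹ * y * l₁ * alp D m p₁, p₁) :: E) g hred (by
    rw [redx_cons_cons]
    refine ⟨?_, redx_cons D 1 _ _ _ h1⟩
    rintro ⟨-, h6⟩
    apply hy
    rw [rt_flp] at h6
    have h7 := Subgroup.mul_mem _ h6 (Subgroup.inv_mem _ (alp_mem D m p₁))
    rwa [mul_inv_cancel_right] at h7)
  have h6 : (D.exval ((l₁, p₁) :: e) l)⁻¹ * D.psi y * D.phi m (D.exval ((l₁, p₁) :: e) l) =
      D.exval E' g := by
    rw [← h5, mul_assoc, mul_assoc]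
    congr 1
    rw [exval_cons, exval_cons, ← h2, map_mul (D.phi m), map_mul (D.phi m), phi_psi, phi_bl]
    simp only [map_mul, map_inv]
    group
  rw [h6]
  exact exval_ne_one D m hm hinj E' h3 h4 g

/-- Lemma B -/
private lemma cancel_bl (m : D.B → ℤ) (p : D.B × Bool) (a : ℤ) :
    (D.bl p)⁻¹ * D.psi (D.cw (D.lt p)) ^ a * D.phi m (D.bl p) =
      D.psi (D.cw (D.rt p)) ^ (if p.2 then a + m p.1 else a - m p.1) := by
  have h1 : (D.bl p)⁻¹ * D.psi (D.cw (D.lt p)) ^ a * D.bl p = D.psi (D.cw (D.rt p)) ^ a := by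
    have h := bl_conj D (flp D p) a
    have h2 : D.bl ((flp D p).1, !(flp D p).2) = D.bl p := by
      rcases p with ⟨b, _ | _⟩ <;> rfl
    rw [h2, rt_flp, lt_flp, bl_flp] at h
    exact h
  rw [phi_bl]
  rcases p with ⟨b, _ | _⟩
  · have h2 := bl_conj D (flp D (b, false)) (a - m b)
    have h3 : D.bl ((flp D (b, false)).1, !(flp D (b, false)).2) = D.bl (b, false) := rfl
    rw [h3, rt_flp, lt_flp, bl_flp] at h2
    have h4 : bet D m (b, false) = 1 := rfl
    have h5 : alp D m (b, false) = D.cw (D.lt (b, false)) ^ (-(m b)) := rfl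
    rw [h4, h5, map_one, mul_one, map_zpow]
    simp only [Bool.false_eq_true, if_false]
    rw [← h2, sub_eq_add_neg, zpow_add]
    simp only [mul_assoc]
  · have h4 : bet D m (b, true) = D.cw (D.rt (b, true)) ^ (m b) := rfl
    have h5 : alp D m (b, true) = 1 := rfl
    rw [h4, h5, map_one, one_mul, map_zpow, ← mul_assoc, h1]
    simp only [if_true]
    rw [← zpow_add]

private lemma cw_ne_one (i : D.B ⊕ D.R) : D.cw i ≠ 1 := by
  classical
  intro h
  have h2 := fseg_norm D.S (i, true) 0 (D.S.n i)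
  unfold NDW.cw at h
  rw [h, FreeGroup.norm_one] at h2
  exact (D.S.npos _).ne h2

/-- Lemma C -/
private lemma lemC (m : D.B → ℤ) (hm : ∀ b, m b ≠ 0)
    (hinj : ∀ b b', D.root b = D.root b' → m b = m b' → b = b') (e : List (D.F × (D.B × Bool))) :
    ∀ (x : D.F) (p : D.B × Bool) (a : ℤ) (l : D.F), D.Redx ((x, p) :: e) → a ≠ 0 →
      (p.2 = true → a = m p.1) →
      (D.exval e l)⁻¹ * D.psi (D.cw (D.rt p) ^ a) * D.phi m (D.exval e l) ≠ 1 := by
  induction e with
  | nil =>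
    intro x p a l _ ha _ h
    rw [exval_nil, phi_psi, ← map_inv, ← map_mul, ← map_mul, ← map_one D.psi] at h
    have h2 := psi_injective D h
    have h3 : D.cw (D.rt p) ^ a = 1 := by
      have h4 : D.cw (D.rt p) ^ a = l * (l⁻¹ * D.cw (D.rt p) ^ a * l) * l⁻¹ := by group
      rw [h4, h2]
      group
    have h5 : Function.Injective (fun z : ℤ => D.cw (D.rt p) ^ z) := by
      rw [injective_zpow_iff_not_isOfFinOrder]
      exact not_isOfFinOrder_of_isMulTorsionFree (cw_ne_one D _)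
    apply ha
    apply h5
    change D.cw (D.rt p) ^ a = D.cw (D.rt p) ^ (0 : ℤ)
    rw [h3, zpow_zero]
  | cons q e ih =>
    intro x p a l hred ha hp
    rcases q with ⟨l', p'⟩
    rw [redx_cons_cons] at hred
    by_cases hy : l'⁻¹ * D.cw (D.rt p) ^ a * l' ∈ Subgroup.zpowers (D.cw (D.lt p'))
    · obtain ⟨ν, hν⟩ := Subgroup.mem_zpowers_iff.1 hy
      have h1 : D.cw (D.rt p) ^ a * l' = l' * D.cw (D.lt p') ^ ν := by
        rw [hν]
        group
      obtain ⟨h2, h3⟩ := nd_free_conj D (D.rt p) (D.lt p') l' a ν ha h1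
      obtain ⟨z, hz⟩ := Subgroup.mem_zpowers_iff.1 h3
      have h4 : l'⁻¹ * D.cw (D.rt p) ^ a * l' = D.cw (D.lt p') ^ a := by
        rw [← h2, ← hz, ← zpow_neg, ← zpow_add, ← zpow_add]
        congr 1
        ring
      have h5 : p' ≠ flp D p := fun h => hred.1 ⟨h, h3⟩
      rcases p with ⟨b, _ | _⟩
      · exfalso
        rcases p' with ⟨b', _ | _⟩
        · change Sum.inl b = Sum.inr (D.root b') at h2
          exact Sum.inl_ne_inr h2
        · change Sum.inl b = Sum.inl b' at h2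
          apply h5
          rw [← Sum.inl_injective h2]
          rfl
      · rcases p' with ⟨b', _ | _⟩
        · change Sum.inr (D.root b) = Sum.inr (D.root b') at h2
          have h6 := Sum.inr_injective h2
          have h7 : b ≠ b' := by
            rintro rfl
            exact h5 rfl
          have h8 : a = m b := hp rfl
          have h9 := ih l' (b', false) (a - m b') l hred.2 (by
            intro h
            apply h7
            apply hinj b b' h6
            omega) (by intro h; exact absurd h (by simp))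
          intro h10
          apply h9
          rw [← h10, exval_cons, map_mul (D.phi m), map_mul (D.phi m), phi_psi]
          have h11 := cancel_bl D m (b', false) a
          simp only [Bool.false_eq_true, if_false] at h11
          rw [map_zpow, ← h11, ← map_zpow, ← h4]
          simp only [map_mul, map_inv]
          group
        · exfalso
          change Sum.inr (D.root b) = Sum.inl b' at h2
          exact Sum.inr_ne_inl h2
    · exact mid_ne_one D m hm hinj l' p' e l _ hred.2 hy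

theorem nd_fix (D : NDW) (m : D.B → ℤ) (hm : ∀ b, m b ≠ 0)
    (hinj : ∀ b b', D.root b = D.root b' → m b = m b' → b = b') (w : D.F) (hw : D.phi m w = w) :
    ∃ l, w = D.psi l := by
  obtain ⟨e, l, hred, rfl⟩ := exists_red D w
  cases e with
  | nil => exact ⟨l, exval_nil D l⟩
  | cons q e =>
    exfalso
    rcases q with ⟨l₁, p₁⟩
    have h1 := lemC D m hm hinj e l₁ p₁ (if p₁.2 then 0 + m p₁.1 else 0 - m p₁.1) l hred (by
      split_ifs
      · rw [zero_add]; exact hm _
      · rw [zero_sub]; exact neg_ne_zero.2 (hm _)) (by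
      intro h
      rw [if_pos h, zero_add])
    apply h1
    have h2 := cancel_bl D m p₁ 0
    rw [map_zpow, ← h2, zpow_zero, mul_one]
    have h3 : D.phi m (D.bl p₁) * D.phi m (D.exval e l) = D.bl p₁ * D.exval e l := by
      rw [exval_cons, map_mul (D.phi m), map_mul (D.phi m), phi_psi, mul_assoc, mul_assoc] at hw
      exact mul_left_cancel hw
    rw [mul_assoc, mul_assoc, h3]
    group

end Pool.Agent.Helper53.LG
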