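import Pool.Agent.Helper53.LG.Coc

/-!
# LG-44: roots in the free group

`root_decomp`: write `l = x * c * x⁻¹` with `c` cyclically reduced (`FreeGroup.reduceCyclically`), extend the word of `c` periodically to
`w : ℤ → Lt Y`, and let `n` be the least positive period of `w`.

`conj_of_shift`: if `w s = S.wd i (a + s)` for all `s` then the values of one period are conjugate: `seg i a n` is conjugate to
`seg i 0 n` (`seg_add`, `seg_congr`: `seg i 0 a' * seg i a' n = seg i 0 n * seg i 0 a'` for `a' = a mod n`), and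
`seg (i₀, false) 0 n = (seg (i₀, true) (-n) n)⁻¹ = (seg (i₀, true) 0 n)⁻¹`.
-/

namespace Pool.Agent.Helper53.LG

private lemma fpw_add' {Y : Type} (a : ℕ → Lt Y) (m n : ℕ) :
    fpw a (m + n) = fpw a m * fpw (fun s => a (m + s)) n := by
  induction n with
  | zero => change fpw a m = fpw a m * 1; rw [mul_one]
  | succ n ih =>
    change fpw a (m + n) * lv FreeGroup.of (a (m + n)) = fpw a m * (fpw (fun s => a (m + s)) n *
      lv FreeGroup.of (a (m + n)))
    rw [ih, mul_assoc]

private lemma fpw_pow {Y : Type} (a : ℕ → Lt Y) (p : ℕ) (h : ∀ s, a (p + s) = a s) (k : ℕ) :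
    fpw a (p * k) = fpw a p ^ k := by
  induction k with
  | zero => rw [mul_zero, pow_zero]; rfl
  | succ k ih =>
    rw [mul_add, mul_one, add_comm, fpw_add', pow_succ', ← ih]
    congr 1
    congr 1
    funext s
    exact h s

theorem root_decomp {Y : Type} (l : FreeGroup Y) (hl : l ≠ 1) :
    ∃ (n : ℕ) (w : ℤ → Lt Y) (h : FreeGroup Y) (k : ℕ), 0 < n ∧ 1 ≤ k ∧ (∀ s, w (s + n) = w s) ∧
      (∀ s, w (s + 1) ≠ bar (w s)) ∧ (∀ a : ℤ, (∀ s, w (a + s) = w s) → (n : ℤ) ∣ a) ∧
      l = h * (fpw (fun s : ℕ => w s) n) ^ k * h⁻¹ := by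
  classical
  obtain ⟨L, hL⟩ : ∃ L : List (Y × Bool), L = FreeGroup.reduceCyclically l.toWord := ⟨_, rfl⟩
  obtain ⟨K, hK⟩ : ∃ K : List (Y × Bool), K = FreeGroup.reduceCyclically.conjugator l.toWord := ⟨_, rfl⟩
  have hconj : K ++ L ++ FreeGroup.invRev K = l.toWord := by
    rw [hL, hK]; exact FreeGroup.reduceCyclically.conj_conjugator_reduceCyclically _
  have hl' : l = FreeGroup.mk K * FreeGroup.mk L * (FreeGroup.mk K)⁻¹ := by
    rw [FreeGroup.inv_mk, FreeGroup.mul_mk, FreeGroup.mul_mk, hconj, FreeGroup.mk_toWord]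
  have hne : L ≠ [] := by
    intro h0
    rw [h0, ← FreeGroup.one_eq_mk, mul_one, mul_inv_cancel] at hl'
    exact hl hl'
  have hcyc : FreeGroup.IsCyclicallyReduced L := by
    rw [hL]; exact FreeGroup.reduceCyclically.isCyclicallyReduced FreeGroup.isReduced_toWord
  obtain ⟨N, hN⟩ : ∃ N : ℕ, N = L.length := ⟨_, rfl⟩
  have hNpos : 0 < N := by rw [hN]; exact List.length_pos_iff.mpr hne
  have hNz : (N : ℤ) ≠ 0 := by exact_mod_cast hNpos.ne'
  let w : ℤ → Lt Y := fun s => L.getD (s % N).toNat (L.head hne)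
  have hmod : ∀ s : ℤ, (s % N).toNat < N := by
    intro s
    have h1 := Int.emod_nonneg s hNz
    have h2 := Int.emod_lt_of_pos s (by exact_mod_cast hNpos : (0 : ℤ) < N)
    omega
  have hw : ∀ (s : ℤ) (r : ℕ) (hr : r < L.length), s % N = r → w s = L[r] := by
    intro s r hr h
    change L.getD (s % N).toNat (L.head hne) = _
    rw [h, Int.toNat_natCast]
    exact List.getD_eq_getElem L _ hr
  have hper : ∀ s, w (s + N) = w s := by
    intro s
    change L.getD ((s + N) % N).toNat _ = L.getD (s % N).toNat _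
    rw [Int.add_emod_right]
  have hred : ∀ s, w (s + 1) ≠ bar (w s) := by
    intro s hbar
    obtain ⟨r, hr⟩ : ∃ r : ℕ, s % N = r := ⟨(s % N).toNat, (Int.toNat_of_nonneg (Int.emod_nonneg s hNz)).symm⟩
    have hrN : r < N := by
      have := hmod s
      rw [hr, Int.toNat_natCast] at this
      exact this
    rw [hw s r (by omega) hr] at hbar
    by_cases hr1 : r + 1 < N
    · have h1 : (s + 1) % N = ((r + 1 : ℕ) : ℤ) := by
        rw [Int.add_emod, hr]
        by_cases h2 : N = 1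
        · omega
        · rw [Int.emod_eq_of_lt (a := 1) (by norm_num) (by omega)]
          rw [Int.emod_eq_of_lt (by omega) (by omega)]
          push_cast; ring
      rw [hw (s + 1) (r + 1) (by omega) h1] at hbar
      have h2 := List.isChain_iff_getElem.mp hcyc.1 r (by omega)
      have h3 : (L[r]'(by omega)).1 = (L[r + 1]'(by omega)).1 := by rw [hbar]; rfl
      have h4 := h2 h3
      rw [hbar] at h4
      simp [bar] at h4
    · have hrN1 : r + 1 = N := by omega
      have h1 : (s + 1) % N = ((0 : ℕ) : ℤ) := by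
        rw [← Int.emod_add_emod, hr]
        have : ((r : ℤ) + 1) = N := by exact_mod_cast hrN1
        rw [this, Int.emod_self]; rfl
      rw [hw (s + 1) 0 (by omega) h1] at hbar
      have h2 := hcyc.2 (L[r]'(by omega)) (by
        rw [Option.mem_def, List.getLast?_eq_getElem?]
        have : L.length - 1 = r := by omega
        rw [this]
        exact List.getElem?_eq_getElem _) (L[0]'(by omega)) (by
        rw [Option.mem_def, List.head?_eq_getElem?]
        exact List.getElem?_eq_getElem _)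
      have h3 := h2 (by rw [hbar]; rfl)
      rw [hbar] at h3
      simp [bar] at h3
  have hfpw : ∀ m, m ≤ N → fpw (fun s : ℕ => w s) m = FreeGroup.mk (L.take m) := by
    intro m
    induction m with
    | zero => intro _; rw [List.take_zero]; rfl
    | succ m ih =>
      intro hm
      change fpw (fun s : ℕ => w s) m * lv FreeGroup.of (w m) = _
      have h1 : w (m : ℤ) = L[m]'(by omega) := hw m m (by omega) (Int.emod_eq_of_lt (by omega) (by omega))
      rw [ih (by omega), h1, List.take_succ_eq_append_getElem (by omega), ← FreeGroup.mul_mk]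
      congr 1
      rcases L[m] with ⟨y, _ | _⟩
      · simp [lv, FreeGroup.of, FreeGroup.inv_mk, FreeGroup.invRev]
      · simp [lv, FreeGroup.of]
  have hfN : fpw (fun s : ℕ => w s) N = FreeGroup.mk L := by
    rw [hfpw N le_rfl, hN, List.take_length]
  -- the least period
  have hex : ∃ p : ℕ, 0 < p ∧ ∀ s, w (s + p) = w s := ⟨N, hNpos, hper⟩
  obtain ⟨p, hp, hmin⟩ : ∃ p : ℕ, (0 < p ∧ ∀ s, w (s + p) = w s) ∧ ∀ q : ℕ, q < p → ¬ (0 < q ∧ ∀ s, w (s + q) = w s) :=
    ⟨Nat.find hex, Nat.find_spec hex, fun q hq => Nat.find_min hex hq⟩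
  have hpz : ∀ (z s : ℤ), w (s + p * z) = w s := by
    intro z
    induction z using Int.induction_on with
    | zero => intro s; simp
    | succ z ih =>
      intro s
      rw [mul_add, mul_one, ← add_assoc, hp.2, ih]
    | pred z ih =>
      intro s
      rw [← hp.2 (s + p * (-(z : ℤ) - 1)), ← ih s]
      congr 1
      ring
  have hprim : ∀ a : ℤ, (∀ s, w (a + s) = w s) → (p : ℤ) ∣ a := by
    intro a ha
    have hp0 : (p : ℤ) ≠ 0 := by exact_mod_cast hp.1.ne'
    have h1 := Int.emod_nonneg a hp0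
    have h2 := Int.emod_lt_of_pos a (by exact_mod_cast hp.1 : (0 : ℤ) < p)
    obtain ⟨q, hq⟩ : ∃ q : ℕ, a % p = q := ⟨(a % p).toNat, (Int.toNat_of_nonneg h1).symm⟩
    by_contra hnd
    have hq0 : 0 < q := by
      rcases Nat.eq_zero_or_pos q with h3 | h3
      · exfalso
        apply hnd
        rw [h3] at hq
        exact Int.dvd_of_emod_eq_zero hq
      · exact h3
    refine hmin q (by omega) ⟨hq0, fun s => ?_⟩
    have h3 : (q : ℤ) = a + p * (-(a / p)) := by
      rw [← hq]
      have := Int.emod_add_mul_ediv a p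
      linarith
    rw [h3, ← add_assoc, hpz, add_comm, ha]
  obtain ⟨k, hk⟩ : (p : ℤ) ∣ N := hprim N fun s => by rw [add_comm]; exact hper s
  have hk1 : 1 ≤ k := by
    by_contra hcon
    have h1 : k ≤ 0 := by omega
    have h2 : (p : ℤ) * k ≤ 0 := mul_nonpos_of_nonneg_of_nonpos (by omega) h1
    omega
  obtain ⟨k', rfl⟩ : ∃ k' : ℕ, k = k' := ⟨k.toNat, (Int.toNat_of_nonneg (by omega)).symm⟩
  refine ⟨p, w, FreeGroup.mk K, k', hp.1, by exact_mod_cast hk1, hp.2, hred, hprim, ?_⟩
  have h1 : N = p * k' := by exact_mod_cast hk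
  rw [← fpw_pow (fun s : ℕ => w s) p (fun s => by
    have := hp.2 (s : ℤ)
    push_cast
    rw [add_comm]; exact this) k', ← h1, hfN]
  exact hl'

theorem conj_of_shift {Y I : Type} (S : WSys Y I) (i : I × Bool) (a : ℤ) :
    ∃ (g : FreeGroup Y) (ε : ℤ), (ε = 1 ∨ ε = -1) ∧
      fpw (fun s : ℕ => S.wd i (a + s)) (S.n i.1) =
        g * (S.seg FreeGroup.of (i.1, true) 0 (S.n i.1)) ^ ε * g⁻¹ := by
  obtain ⟨n, hn⟩ : ∃ n : ℕ, n = S.n i.1 := ⟨_, rfl⟩
  have hnpos : 0 < n := by rw [hn]; exact S.npos _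
  have hnz : (n : ℤ) ≠ 0 := by exact_mod_cast hnpos.ne'
  rw [← seg_eq_fpw]
  obtain ⟨a', ha'⟩ : ∃ a' : ℕ, a % n = a' := ⟨(a % n).toNat, (Int.toNat_of_nonneg (Int.emod_nonneg a hnz)).symm⟩
  have h1 : S.seg FreeGroup.of i a (S.n i.1) = S.seg FreeGroup.of i (a' : ℤ) (S.n i.1) := by
    apply seg_congr
    rw [← hn, ← ha']
    exact Int.dvd_self_sub_emod
  have h2 : S.seg (FreeGroup.of : Y → FreeGroup Y) i 0 (a' + S.n i.1) =
      S.seg FreeGroup.of i 0 a' * S.seg FreeGroup.of i (a' : ℤ) (S.n i.1) := by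
    rw [seg_add, zero_add]
  have h3 : S.seg (FreeGroup.of : Y → FreeGroup Y) i 0 (S.n i.1 + a') =
      S.seg FreeGroup.of i 0 (S.n i.1) * S.seg FreeGroup.of i 0 a' := by
    rw [seg_add, zero_add]
    congr 1
    apply seg_congr
    simp
  rw [add_comm, h2] at h3
  have h4 : S.seg FreeGroup.of i a (S.n i.1) = (S.seg (FreeGroup.of : Y → FreeGroup Y) i 0 a')⁻¹ *
      S.seg FreeGroup.of i 0 (S.n i.1) * ((S.seg (FreeGroup.of : Y → FreeGroup Y) i 0 a')⁻¹)⁻¹ := by
    rw [h1, inv_inv, mul_assoc, ← h3, inv_mul_cancel_left]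
  rcases i with ⟨i, _ | _⟩
  · refine ⟨(S.seg (FreeGroup.of : Y → FreeGroup Y) (i, false) 0 a')⁻¹, -1, Or.inr rfl, ?_⟩
    rw [h4]
    have h5 := seg_rev (FreeGroup.of : Y → FreeGroup Y) S (i, true) (-(S.n i : ℤ)) (S.n i)
    have h6 : S.seg (FreeGroup.of : Y → FreeGroup Y) (i, true) (-(S.n i : ℤ)) (S.n i) =
        S.seg FreeGroup.of (i, true) 0 (S.n i) := by
      apply seg_congr
      simp
    rw [h6, neg_neg, sub_self] at h5
    rw [zpow_neg, zpow_one]
    change _ * S.seg FreeGroup.of (i, false) 0 (S.n i) * _ = _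
    rw [h5]
    rfl
  · refine ⟨(S.seg (FreeGroup.of : Y → FreeGroup Y) (i, true) 0 a')⁻¹, 1, Or.inl rfl, ?_⟩
    rw [zpow_one]
    exact h4

end Pool.Agent.Helper53.LG
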