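import Pool.Agent.Helper53.LG.AddX
import Pool.Agent.Helper53.LG.AddR
import Pool.Agent.Helper53.LG.Fix
import Pool.Agent.Helper53.LG.RootDec

/-!
# LG-49: adding an arbitrary letter

* `ext_pow`: `ExtP D m (D.psi (D.cw (inr ρ)) ^ k)` for all `ρ`, `k`: `k = 0`: `ext_one`. `k ≠ 0` and no `b` with `root b = ρ`, `m b = k`: `ext_root`. If there is
  such a `b`: `ext_conj` with `g = (of (inr b))⁻¹`: `g⁻¹ * v * phi m g = b * r ^ k * (b * r ^ k)⁻¹ = 1` (`phi_inr`, `rr b = psi (cw (inr (root b)))`), `ext_one`.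
* `ext_cw`: `ExtP D m (D.psi (D.cw i) ^ k)` for all `i : B ⊕ R`, `k`: `i = inr ρ`: `ext_pow`. `i = inl b`: `cw (inl b) = s_b`, `ext_conj` with `g = of (inr b)`:
  `g⁻¹ * psi s_b ^ k * phi m g = b⁻¹ (b r b⁻¹)^k b r ^ (m b) = r ^ (k + m b)`, `ext_pow`.
* `ext_all`: `v = psi l` by `nd_fix`. `l = 1`: `ext_one`. Otherwise `root_decomp`: `l = h * c ^ k * h⁻¹`, `c = fpw w n`, `k ≥ 1`. `ext_conj` with `g = psi h` (fixed by
  `phi m`: `phi_psi`): it suffices `ExtP D m (psi c ^ k)`. If `w` is not a shift of a `wd i`: `ext_new`. If `w s = wd i (a + s)` for all `s`: the periods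
  agree: `n = S.n i.1` (`hprim` with `a = S.n i.1` gives `n ∣ S.n i.1`; `sepi` for `i, i` and the shift `n` gives `S.n i.1 ∣ n`), so `conj_of_shift`:
  `c = g * cw (i.1) ^ ε * g⁻¹`, and again `ext_conj` with `psi g`: it suffices `ExtP D m (psi (cw i.1) ^ (ε * k))`, `ext_cw`.
-/

namespace Pool.Agent.Helper53.LG

theorem ext_pow (D : NDW) (m : D.B → ℤ) (hg : Good D m) (ρ : D.R) (k : ℤ) :
    ExtP D m (D.psi (D.cw (Sum.inr ρ)) ^ k) := by
  by_cases hk : k = 0
  · rw [hk, zpow_zero]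
    exact ext_one D m hg
  by_cases h : ∃ b, D.root b = ρ ∧ m b = k
  · obtain ⟨b, rfl, rfl⟩ := h
    apply ext_conj D m _ (FreeGroup.of (Sum.inr b))⁻¹
    have h1 : (FreeGroup.of (Sum.inr b) : D.F)⁻¹⁻¹ * D.psi (D.cw (Sum.inr (D.root b))) ^ m b *
        D.phi m (FreeGroup.of (Sum.inr b) : D.F)⁻¹ = 1 := by
      rw [map_inv, phi_inr, inv_inv]
      exact mul_inv_cancel _
    rw [h1]
    exact ext_one D m hg
  · exact ext_root D m hg ρ k hk (fun b hb hm => h ⟨b, hb, hm⟩)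

private lemma ea_cw_inl (D : NDW) (b : D.B) : D.cw (Sum.inl b) = FreeGroup.of (Sum.inr b) := by
  unfold NDW.cw
  rw [D.nB, seg_one, wd_true, D.wB]
  simp [lv]

theorem ext_cw (D : NDW) (m : D.B → ℤ) (hg : Good D m) (i : D.B ⊕ D.R) (k : ℤ) :
    ExtP D m (D.psi (D.cw i) ^ k) := by
  rcases i with b | ρ
  · rw [ea_cw_inl, psi_inr, conj_zpow]
    apply ext_conj D m _ (FreeGroup.of (Sum.inr b))
    have h1 : (FreeGroup.of (Sum.inr b) : D.F)⁻¹ *
        (FreeGroup.of (Sum.inr b) * D.psi (D.cw (Sum.inr (D.root b))) ^ k *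
          (FreeGroup.of (Sum.inr b))⁻¹) * D.phi m (FreeGroup.of (Sum.inr b)) =
        D.psi (D.cw (Sum.inr (D.root b))) ^ (k + m b) := by
      rw [phi_inr, zpow_add]
      unfold NDW.rr
      group
    rw [h1]
    exact ext_pow D m hg _ _
  · exact ext_pow D m hg ρ k

private lemma ext_psi_conj (D : NDW) (m : D.B → ℤ) (v g : D.F) (h : ExtP D m v) :
    ExtP D m (D.psi g * v * (D.psi g)⁻¹) := by
  apply ext_conj D m _ (D.psi g)
  rw [phi_psi]
  have h1 : (D.psi g)⁻¹ * (D.psi g * v * (D.psi g)⁻¹) * D.psi g = v := by group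
  rw [h1]
  exact h

theorem ext_all (D : NDW) (m : D.B → ℤ) (hg : Good D m) (v : D.F) (hv : D.phi m v = v) : ExtP D m v := by
  obtain ⟨l, rfl⟩ := nd_fix D m hg.1 hg.2 v hv
  by_cases hl : l = 1
  · rw [hl, map_one]
    exact ext_one D m hg
  obtain ⟨n, w, h, k, hn, hk, hper, hred, hprim, hl'⟩ := root_decomp l hl
  have h1 : D.psi l = D.psi h * D.psi (fpw (fun s : ℕ => w s) n) ^ (k : ℤ) * (D.psi h)⁻¹ := by
    rw [hl', map_mul, map_mul, map_inv, map_pow, zpow_natCast]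
  rw [h1]
  apply ext_psi_conj
  by_cases hnew : ∀ (i : (D.B ⊕ D.R) × Bool) (a : ℤ), ¬ ∀ s, w s = D.S.wd i (a + s)
  · exact ext_new D m hg n w hn hper hred hprim hnew (k : ℤ) (by omega)
  · rw [not_forall] at hnew
    obtain ⟨i, hi⟩ := hnew
    rw [not_forall] at hi
    obtain ⟨a, ha⟩ := hi
    rw [not_not] at ha
    have hd1 : (n : ℤ) ∣ (D.S.n i.1 : ℤ) := by
      apply hprim
      intro s
      rw [ha, ha, show a + ((D.S.n i.1 : ℤ) + s) = a + s + D.S.n i.1 by ring]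
      exact wd_per D.S i (a + s)
    have hd2 : (D.S.n i.1 : ℤ) ∣ (n : ℤ) := by
      have h2 := (D.sepi i i (a + n) a (by
        intro s
        rw [show a + (n : ℤ) + s = a + (s + n) by ring, ← ha, ← ha]
        exact hper s)).2
      rwa [add_sub_cancel_left] at h2
    have hnn : n = D.S.n i.1 :=
      Nat.dvd_antisymm (Int.natCast_dvd_natCast.1 hd1) (Int.natCast_dvd_natCast.1 hd2)
    obtain ⟨g, ε, -, hc⟩ := conj_of_shift D.S i a
    have h3 : fpw (fun s : ℕ => w s) n = g * D.cw i.1 ^ ε * g⁻¹ := by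
      have h4 : (fun s : ℕ => w s) = fun s : ℕ => D.S.wd i (a + s) := by
        funext s
        exact ha s
      rw [h4, hnn]
      exact hc
    have h5 : D.psi (fpw (fun s : ℕ => w s) n) ^ (k : ℤ) =
        D.psi g * D.psi (D.cw i.1) ^ (ε * k) * (D.psi g)⁻¹ := by
      rw [h3, map_mul, map_mul, map_inv, map_zpow, conj_zpow, zpow_mul]
    rw [h5]
    exact ext_psi_conj D m _ g (ext_cw D m hg i.1 (ε * k))

end Pool.Agent.Helper53.LG
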