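import Pool.Agent.Helper53.LG.Tau

/-!
# LG-14: products of commuting elements `tau e`

`x : ℕ → V × Bool` a sequence of signed vertices, the first `n` of them pairwise commuting (so distinct).
`AA x n = ∑_{k < n} nn (x k)`. `T = {(x k).1 | k < n}`.

* `AA_sq`: `nn_nn` (and symmetry) for `i ≠ j`, `nn_sq`. * `AA_cube`: same with `nn_cube`.
* `act_PP`: induction on `n` with `act_tau`, `ex_mul_comm_zero`, `nn_nn`.
* `AA_sq_zero`: if `AA (AA y) = 0` then by `AA_sq` and the linear independence of the `al s` (look at the coordinate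
  `((x k).1, true)` of the first component) `yy (v, true) y + yy (v, false) y = 0` for `v = (x k).1`, `k < n`, and
  `ff T y` is the sum of these over the distinct `(x k).1`, `k < n`.
* `AA_rank`: the range of `AA` is the span of the `2 n` linearly independent vectors `al (v, true)`,
  `al (v, false)`, `v = (x k).1`, `k < n`: `AA (om (v, true)) = ± al (v, false)`, `AA (om (v, false)) = ∓ al (v, true)` where
  `om s = (0, Pi.single s 1)` (`yy s (om t) = δ`), and `⊆` is clear. The range of `AA * AA` is the span of the `n`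
  linearly independent vectors `al (v, false) + al (v, true)`: `AA (AA (om (v, true))) = -2 (al (v, false) + al (v, true))`.
-/

namespace Pool.Agent.Helper53.LG

variable {V : Type} [Fintype V] (Cm : V → V → Prop)
  (hsymm : ∀ u v, Cm u v → Cm v u) (hirr : ∀ u, ¬ Cm u u)

/-- the logarithm of a product of commuting elements -/
noncomputable def AA (x : ℕ → V × Bool) (n : ℕ) : Module.End ℝ (EE V) :=
  ∑ k ∈ Finset.range n, nn Cm (x k)

omit [Fintype V] in
private lemma al_self (s : V × Bool) : (al s).1 s = 1 := by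
  simp [al]

omit [Fintype V] in
private lemma al_ne {s t : V × Bool} (h : t ≠ s) : (al s).1 t = 0 := by
  simp [al, h]

omit [Fintype V] in
private lemma al_snd (s : V × Bool) : (al s).2 = 0 := rfl

open Classical in
/-- the second basis -/
private noncomputable def om (s : V × Bool) : EE V := (0, Pi.single s 1)

private lemma yy_om_self (s : V × Bool) : yy Cm s (om s) = 1 := by
  show ∑ t, mm Cm s t * (om s).1 t + (om s).2 s = 1
  simp [om]

private lemma yy_om_ne {s t : V × Bool} (h : s ≠ t) : yy Cm s (om t) = 0 := by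
  show ∑ r, mm Cm s r * (om t).1 r + (om t).2 s = 0
  simp [om, h]

section

variable {Cm}

include hsymm in
omit [Fintype V] in
private lemma cm_ne {x : ℕ → V × Bool} {n : ℕ} (hx : ∀ i j, i < j → j < n → Cm (x i).1 (x j).1)
    {i j : ℕ} (hi : i < n) (hj : j < n) (hij : i ≠ j) : Cm (x i).1 (x j).1 := by
  rcases Nat.lt_or_gt_of_ne hij with h | h
  · exact hx i j h hj
  · exact hsymm _ _ (hx j i h hi)

include hsymm hirr in
omit [Fintype V] in
private lemma fst_ne {x : ℕ → V × Bool} {n : ℕ} (hx : ∀ i j, i < j → j < n → Cm (x i).1 (x j).1)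
    {i j : ℕ} (hi : i < n) (hj : j < n) (hij : i ≠ j) : (x i).1 ≠ (x j).1 := by
  intro h
  have h1 := cm_ne hsymm hx hi hj hij
  rw [h] at h1
  exact hirr _ h1

include hsymm hirr in
private lemma AA_mul_AA {x : ℕ → V × Bool} {n : ℕ}
    (hx : ∀ i j, i < j → j < n → Cm (x i).1 (x j).1) :
    AA Cm x n * AA Cm x n = ∑ k ∈ Finset.range n, nn Cm (x k) * nn Cm (x k) := by
  unfold AA
  rw [Finset.mul_sum]
  apply Finset.sum_congr rfl
  intro j hj
  rw [Finset.sum_mul]
  rw [Finset.sum_eq_single_of_mem j hj]
  intro i hi hij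
  exact nn_nn Cm hsymm hirr _ _ (cm_ne hsymm hx (Finset.mem_range.1 hi) (Finset.mem_range.1 hj) hij)

end

include hsymm hirr

theorem AA_sq (x : ℕ → V × Bool) (n : ℕ) (hx : ∀ i j, i < j → j < n → Cm (x i).1 (x j).1) (y : EE V) :
    AA Cm x n (AA Cm x n y) = ∑ k ∈ Finset.range n,
      (-2 * (yy Cm ((x k).1, true) y + yy Cm ((x k).1, false) y)) •
        (al ((x k).1, false) + al ((x k).1, true)) := by
  have h1 : AA Cm x n (AA Cm x n y) = (AA Cm x n * AA Cm x n) y := rfl
  rw [h1, AA_mul_AA hsymm hirr hx, LinearMap.sum_apply]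
  apply Finset.sum_congr rfl
  intro k _
  exact nn_sq Cm hirr (x k) y

theorem AA_cube (x : ℕ → V × Bool) (n : ℕ) (hx : ∀ i j, i < j → j < n → Cm (x i).1 (x j).1) :
    AA Cm x n * AA Cm x n * AA Cm x n = 0 := by
  rw [AA_mul_AA hsymm hirr hx, Finset.sum_mul]
  apply Finset.sum_eq_zero
  intro k hk
  rw [AA, Finset.mul_sum]
  rw [Finset.sum_eq_single_of_mem k hk]
  · exact nn_cube Cm hirr (x k)
  · intro j hj hjk
    rw [mul_assoc, nn_nn Cm hsymm hirr _ _
      (cm_ne hsymm hx (Finset.mem_range.1 hk) (Finset.mem_range.1 hj) hjk.symm), mul_zero]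

theorem act_PP (x : ℕ → V × Bool) (n : ℕ) (hx : ∀ i j, i < j → j < n → Cm (x i).1 (x j).1) (y : EE V) :
    act Cm hsymm hirr (PP Cm x 0 n) y = ex (AA Cm x n) y := by
  induction n generalizing y with
  | zero =>
    simp [AA, ex_zero]
  | succ n ih =>
    have hx' : ∀ i j, i < j → j < n → Cm (x i).1 (x j).1 := fun i j hij hj => hx i j hij (by omega)
    have h0 : AA Cm x (n + 1) = AA Cm x n + nn Cm (x n) := by
      unfold AA
      rw [Finset.sum_range_succ]
    have h1 : AA Cm x n * nn Cm (x n) = 0 := by
      unfold AA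
      rw [Finset.sum_mul]
      apply Finset.sum_eq_zero
      intro k hk
      exact nn_nn Cm hsymm hirr _ _ (hx k n (Finset.mem_range.1 hk) (by omega))
    have h2 : nn Cm (x n) * AA Cm x n = 0 := by
      unfold AA
      rw [Finset.mul_sum]
      apply Finset.sum_eq_zero
      intro k hk
      exact nn_nn Cm hsymm hirr _ _ (hsymm _ _ (hx k n (Finset.mem_range.1 hk) (by omega)))
    rw [PP_succ, map_mul, zero_add, h0, ← ex_mul_comm_zero _ _ h1 h2]
    show act Cm hsymm hirr (PP Cm x 0 n) (act Cm hsymm hirr (tau Cm (x n)) y)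
      = ex (AA Cm x n) (ex (nn Cm (x n)) y)
    rw [ih hx', act_tau]

theorem AA_sq_zero (x : ℕ → V × Bool) (n : ℕ) (hx : ∀ i j, i < j → j < n → Cm (x i).1 (x j).1)
    (y : EE V) (h : AA Cm x n (AA Cm x n y) = 0) : ff Cm {v | ∃ k, k < n ∧ (x k).1 = v} y = 0 := by
  rw [AA_sq Cm hsymm hirr x n hx] at h
  have key : ∀ k, k < n → yy Cm ((x k).1, true) y + yy Cm ((x k).1, false) y = 0 := by
    intro k hk
    have h1 := congrArg (fun z : EE V => z.1 ((x k).1, true)) h
    simp only [Prod.fst_sum, Finset.sum_apply] at h1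
    rw [Finset.sum_eq_single_of_mem k (Finset.mem_range.2 hk)] at h1
    · have h2 : (al ((x k).1, false)).1 ((x k).1, true) = (0 : ℝ) := al_ne (by simp)
      have h3 : (al ((x k).1, true)).1 ((x k).1, true) = (1 : ℝ) := al_self _
      simp only [Prod.smul_fst, Prod.fst_add, Pi.smul_apply, Pi.add_apply, h2, h3, smul_eq_mul,
        Prod.fst_zero, Pi.zero_apply] at h1
      linarith
    · intro j hj hjk
      have hne := fst_ne hsymm hirr hx (Finset.mem_range.1 hj) hk hjk
      have h2 : (al ((x j).1, false)).1 ((x k).1, true) = (0 : ℝ) :=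
        al_ne (fun h => hne (congrArg Prod.fst h).symm)
      have h3 : (al ((x j).1, true)).1 ((x k).1, true) = (0 : ℝ) :=
        al_ne (fun h => hne (congrArg Prod.fst h).symm)
      simp only [Prod.smul_fst, Prod.fst_add, Pi.smul_apply, Pi.add_apply, h2, h3, smul_eq_mul]
      ring
  unfold ff
  rw [LinearMap.sum_apply, Fintype.sum_prod_type]
  apply Finset.sum_eq_zero
  intro v _
  rw [Fintype.sum_bool]
  by_cases hv : v ∈ {v | ∃ k, k < n ∧ (x k).1 = v}
  · rw [if_pos hv, if_pos hv]
    obtain ⟨k, hk, rfl⟩ := hv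
    exact key k hk
  · rw [if_neg hv, if_neg hv]
    simp

private lemma AA_om_true (x : ℕ → V × Bool) (n : ℕ)
    (hx : ∀ i j, i < j → j < n → Cm (x i).1 (x j).1) (k : ℕ) (hk : k < n) :
    AA Cm x n (om ((x k).1, true)) = (if (x k).2 then (1 : ℝ) else -1) • al ((x k).1, false) := by
  unfold AA
  rw [LinearMap.sum_apply, Finset.sum_eq_single_of_mem k (Finset.mem_range.2 hk)]
  · rw [nn_apply, yy_om_self, yy_om_ne Cm (s := ((x k).1, false)) (by simp), one_smul, zero_smul,
      sub_zero]
  · intro j hj hjk
    have hne := fst_ne hsymm hirr hx (Finset.mem_range.1 hj) hk hjk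
    rw [nn_apply, yy_om_ne Cm (s := ((x j).1, true)) (t := ((x k).1, _))
        (fun h => hne (Prod.mk.inj h).1),
      yy_om_ne Cm (s := ((x j).1, false)) (t := ((x k).1, _)) (fun h => hne (Prod.mk.inj h).1),
      zero_smul, zero_smul, sub_zero, smul_zero]

private lemma AA_om_false (x : ℕ → V × Bool) (n : ℕ)
    (hx : ∀ i j, i < j → j < n → Cm (x i).1 (x j).1) (k : ℕ) (hk : k < n) :
    AA Cm x n (om ((x k).1, false)) = (if (x k).2 then (1 : ℝ) else -1) • -al ((x k).1, true) := by
  unfold AA
  rw [LinearMap.sum_apply, Finset.sum_eq_single_of_mem k (Finset.mem_range.2 hk)]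
  · rw [nn_apply, yy_om_self, yy_om_ne Cm (s := ((x k).1, true)) (by simp), one_smul, zero_smul,
      zero_sub]
  · intro j hj hjk
    have hne := fst_ne hsymm hirr hx (Finset.mem_range.1 hj) hk hjk
    rw [nn_apply, yy_om_ne Cm (s := ((x j).1, true)) (t := ((x k).1, _))
        (fun h => hne (Prod.mk.inj h).1),
      yy_om_ne Cm (s := ((x j).1, false)) (t := ((x k).1, _)) (fun h => hne (Prod.mk.inj h).1),
      zero_smul, zero_smul, sub_zero, smul_zero]

theorem AA_rank (x : ℕ → V × Bool) (n : ℕ) (hx : ∀ i j, i < j → j < n → Cm (x i).1 (x j).1) :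
    Module.finrank ℝ (LinearMap.range (AA Cm x n)) = 2 * n ∧
    Module.finrank ℝ (LinearMap.range (AA Cm x n * AA Cm x n)) = n := by
  have hsgn : ∀ k, (if (x k).2 then (1 : ℝ) else -1) * (if (x k).2 then (1 : ℝ) else -1) = 1 := by
    intro k
    split_ifs <;> norm_num
  constructor
  · have hli : LinearIndependent ℝ (fun p : Fin n × Bool => (al ((x p.1).1, p.2) : EE V)) := by
      rw [Fintype.linearIndependent_iff]
      intro g hg p
      have h1 := congrArg (fun z : EE V => z.1 ((x p.1).1, p.2)) hg
      simp only [Prod.fst_sum, Finset.sum_apply] at h1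
      rw [Finset.sum_eq_single_of_mem p (Finset.mem_univ _)] at h1
      · simp only [Prod.smul_fst, Pi.smul_apply, al_self, smul_eq_mul, mul_one, Prod.fst_zero,
          Pi.zero_apply] at h1
        exact h1
      · intro q _ hqp
        have h2 : (al ((x q.1).1, q.2)).1 ((x p.1).1, p.2) = (0 : ℝ) := by
          apply al_ne
          intro h
          apply hqp
          have h3 := congrArg Prod.fst h
          have h4 := congrArg Prod.snd h
          simp only at h3 h4
          apply Prod.ext _ h4.symm
          apply Fin.ext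
          by_contra hne
          exact fst_ne hsymm hirr hx q.1.2 p.1.2 hne h3.symm
        simp only [Prod.smul_fst, Pi.smul_apply, h2, smul_eq_mul, mul_zero]
    have hr : LinearMap.range (AA Cm x n) =
        Submodule.span ℝ (Set.range (fun p : Fin n × Bool => (al ((x p.1).1, p.2) : EE V))) := by
      apply le_antisymm
      · rintro _ ⟨y, rfl⟩
        unfold AA
        rw [LinearMap.sum_apply]
        apply Submodule.sum_mem
        intro k hk
        rw [nn_apply]
        apply Submodule.smul_mem
        apply Submodule.sub_mem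
        · exact Submodule.smul_mem _ _ (Submodule.subset_span
            ⟨(⟨k, Finset.mem_range.1 hk⟩, false), rfl⟩)
        · exact Submodule.smul_mem _ _ (Submodule.subset_span
            ⟨(⟨k, Finset.mem_range.1 hk⟩, true), rfl⟩)
      · rw [Submodule.span_le]
        rintro _ ⟨⟨k, b⟩, rfl⟩
        rcases b with _ | _
        · refine ⟨(if (x k).2 then (1 : ℝ) else -1) • om ((x k).1, true), ?_⟩
          rw [map_smul, AA_om_true Cm hsymm hirr x n hx k k.2, smul_smul, hsgn, one_smul]
        · refine ⟨(if (x k).2 then (1 : ℝ) else -1) • -om ((x k).1, false), ?_⟩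
          rw [map_smul, map_neg, AA_om_false Cm hsymm hirr x n hx k k.2, smul_neg, smul_smul, hsgn,
            one_smul, neg_neg]
    rw [hr, finrank_span_eq_card hli]
    simp [mul_comm]
  · have hli : LinearIndependent ℝ
        (fun k : Fin n => (al ((x k).1, false) + al ((x k).1, true) : EE V)) := by
      rw [Fintype.linearIndependent_iff]
      intro g hg k
      have h1 := congrArg (fun z : EE V => z.1 ((x k).1, true)) hg
      simp only [Prod.fst_sum, Finset.sum_apply] at h1
      rw [Finset.sum_eq_single_of_mem k (Finset.mem_univ _)] at h1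
      · have h2 : (al ((x k).1, false)).1 ((x k).1, true) = (0 : ℝ) := al_ne (by simp)
        simp only [Prod.smul_fst, Prod.fst_add, Pi.smul_apply, Pi.add_apply, h2, al_self,
          smul_eq_mul, zero_add, mul_one, Prod.fst_zero, Pi.zero_apply] at h1
        exact h1
      · intro j _ hjk
        have hne := fst_ne hsymm hirr hx j.2 k.2 (fun h => hjk (Fin.ext h))
        have h2 : (al ((x j).1, false)).1 ((x k).1, true) = (0 : ℝ) :=
          al_ne (fun h => hne (congrArg Prod.fst h).symm)
        have h3 : (al ((x j).1, true)).1 ((x k).1, true) = (0 : ℝ) :=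
          al_ne (fun h => hne (congrArg Prod.fst h).symm)
        simp only [Prod.smul_fst, Prod.fst_add, Pi.smul_apply, Pi.add_apply, h2, h3, smul_eq_mul,
          add_zero, mul_zero]
    have hr : LinearMap.range (AA Cm x n * AA Cm x n) =
        Submodule.span ℝ (Set.range
          (fun k : Fin n => (al ((x k).1, false) + al ((x k).1, true) : EE V))) := by
      apply le_antisymm
      · rintro _ ⟨y, rfl⟩
        show AA Cm x n (AA Cm x n y) ∈ _
        rw [AA_sq Cm hsymm hirr x n hx]
        apply Submodule.sum_mem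
        intro k hk
        exact Submodule.smul_mem _ _ (Submodule.subset_span ⟨⟨k, Finset.mem_range.1 hk⟩, rfl⟩)
      · rw [Submodule.span_le]
        rintro _ ⟨k, rfl⟩
        refine ⟨(-1 / 2 : ℝ) • om ((x k).1, true), ?_⟩
        show AA Cm x n (AA Cm x n ((-1 / 2 : ℝ) • om ((x k).1, true))) = _
        rw [map_smul, map_smul, AA_sq Cm hsymm hirr x n hx,
          Finset.sum_eq_single_of_mem (k : ℕ) (Finset.mem_range.2 k.2)]
        · rw [yy_om_self, yy_om_ne Cm (s := ((x k).1, false)) (by simp), smul_smul]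
          norm_num
        · intro j hj hjk
          have hne := fst_ne hsymm hirr hx (Finset.mem_range.1 hj) k.2 hjk
          rw [yy_om_ne Cm (s := ((x j).1, true)) (t := ((x k).1, _))
              (fun h => hne (Prod.mk.inj h).1),
            yy_om_ne Cm (s := ((x j).1, false)) (t := ((x k).1, _))
              (fun h => hne (Prod.mk.inj h).1)]
          simp
    rw [hr, finrank_span_eq_card hli]
    simp

end Pool.Agent.Helper53.LG
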