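import Pool.Agent.Helper53.LG.EVec
import Pool.Agent.Helper53.LG.TauProd

/-!
# LG-26: loops along a line; conjugacy in the free group

`lineA i q = AA C.Cm (x) (C.N i)` where `x s = sed (line)` is the signed dart at position `s` of the line `(i, true), 0` from `q`.

* `line_comm`: the edges at the positions `a < b < N` are different (`dart_inj`) and on a common line, so they commute.
* `lineA_cube`, `tc_loop` (`tc (c ^ k) q` for `S.n i * k = C.N i`, i.e. one turn): `seg_pow`/`seg_eq_fpw`/`coc_fpw`, `act_PP`.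
* `order_cwS`: `ev (c ^ k) = S.seg C.g (i, true) 0 (n k)` is `1` iff `N ∣ n k` iff `N / n ∣ k` (`p0`, `nN`).
* `lineA_shift`: the sum over one full turn of the periodic sequence of darts does not depend on the starting point
  (base point `q * ev c`: shift by `n`).
* `lineA_zero`: if `act (tc (c ^ k) q) y = y` where `n k = N * j`, `j > 0`, then `ff (Lin (i, true) 0 q) y = 0`: `act (tc (c ^ k) q)` is the
  `j`-th power of `ex (lineA)` (`coc_mul`, `ev = 1`), so `ex (j • lineA)` (`ex_pow`); `ex_fix` gives `lineA y = 0`; `AA_sq_zero`, the set there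
  is `Lin (i, true) 0 q` (`mem_Lin_iff`).
* `free_conj`: `c_i ^ μ * l = l * c_j ^ ν`, `μ ≠ 0`. Replacing `(μ, ν)` by `(-μ, -ν)` (invert and conjugate: `c_i ^ (-μ) * l = l * c_j ^ (-ν)`) let
  `μ > 0`; taking the power: `c_i ^ (μ M) * l = l * c_j ^ (ν M)` for `M = card Q` (`N / n` divides it: order of an element). Let
  `x = repE l (uE j)`. `repE (c_j ^ z)` fixes `uE j` (`uE_fix`), so `repE (c_i ^ (μ M)) x = x`; at `q` (`ev (c_i ^ (μ M)) = 1`)
  `act (tc (c_i ^ (μ M)) q) (x q) = x q`, so `ff (Lin (i, true) 0 q) (x q) = 0` by `lineA_zero`, for all `q`, so `fE i x = 0` and `fE_zero` applies.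
-/

namespace Pool.Agent.Helper53.LG

variable {Y I : Type} [Fintype Y] [Fintype I] {S : WSys Y I} {Q : Type} [Group Q] [Fintype Q] (C : Cover S Q)

/-- the signed darts of a line -/
def Cover.ld (i : I) (q : Q) : ℕ → (Q × Y) × Bool :=
  sed C.g (fun m => q * S.seg C.g (i, true) 0 m) (fun m => S.wd (i, true) (0 + m))

/-- the logarithm of a loop along a line -/
noncomputable def Cover.lineA (i : I) (q : Q) : Module.End ℝ (EE (Q × Y)) := AA C.Cm (C.ld i q) (C.N i)

omit [Fintype Y] [Fintype I] [Fintype Q] in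
theorem line_comm (i : I) (q : Q) (a b : ℕ) (hab : a < b) (hb : b < C.N i) :
    C.Cm (C.ld i q a).1 (C.ld i q b).1 := by
  have ha : (C.ld i q a).1 ∈ C.Lin (i, true) 0 q := ⟨a, rfl⟩
  have hb' : (C.ld i q b).1 ∈ C.Lin (i, true) 0 q := ⟨b, rfl⟩
  refine Lin_clique C (i, true) 0 q ha hb' ?_
  intro h
  have h1 := dart_inj C (i, true) 0 q a b (lt_trans hab hb) hb h
  omega

omit [Fintype I] in
theorem lineA_cube (i : I) (q : Q) : C.lineA i q * C.lineA i q * C.lineA i q = 0 :=
  AA_cube C.Cm (fun _ _ h => Cm_symm C h) (Cm_irrefl C) (C.ld i q) (C.N i)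
    (fun a b hab hb => line_comm C i q a b hab hb)

omit [Fintype I] in
theorem lineA_rank (i : I) (q : Q) :
    Module.finrank ℝ (LinearMap.range (C.lineA i q)) = 2 * C.N i ∧
    Module.finrank ℝ (LinearMap.range (C.lineA i q * C.lineA i q)) = C.N i :=
  AA_rank C.Cm (fun _ _ h => Cm_symm C h) (Cm_irrefl C) (C.ld i q) (C.N i)
    (fun a b hab hb => line_comm C i q a b hab hb)

omit [Fintype Y] [Fintype I] in
private lemma cw_pow (S : WSys Y I) (i : I) (k : ℕ) :
    cwS S i ^ k = S.seg FreeGroup.of (i, true) 0 (S.n i * k) := by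
  have h := seg_pow S FreeGroup.of (i, true) 0 k 0
  rw [add_zero, seg_zero, mul_one] at h
  exact h.symm

omit [Fintype I] in
theorem tc_loop (i : I) (q : Q) (y : EE (Q × Y)) :
    act C.Cm (fun _ _ h => Cm_symm C h) (Cm_irrefl C) (C.tc (cwS S i ^ (C.N i / S.n i)) q) y =
      ex (C.lineA i q) y := by
  have h1 : cwS S i ^ (C.N i / S.n i) = fpw (fun s : ℕ => S.wd (i, true) (0 + s)) (C.N i) := by
    rw [cw_pow, Nat.mul_div_cancel' (C.nN i), seg_eq_fpw]
  have h2 : C.tc (cwS S i ^ (C.N i / S.n i)) q = PP C.Cm (C.ld i q) 0 (C.N i) := by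
    rw [h1]
    have h3 := coc_fpw C.g C.Cm (fun m => q * S.seg C.g (i, true) 0 m)
      (fun m : ℕ => S.wd (i, true) (0 + m)) (isPath_line C.g S (i, true) 0 q) (C.N i)
    have h4 : q * S.seg C.g (i, true) 0 0 = q := by
      rw [seg_zero, mul_one]
    rw [h4] at h3
    exact h3
  rw [h2]
  exact act_PP C.Cm (fun _ _ h => Cm_symm C h) (Cm_irrefl C) (C.ld i q) (C.N i)
    (fun a b hab hb => line_comm C i q a b hab hb) y

omit [Fintype Y] [Fintype I] [Fintype Q] in
private lemma ev_cw_pow (i : I) (k : ℕ) :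
    evQ C.g (cwS S i ^ k) = S.seg C.g (i, true) 0 (S.n i * k) := by
  rw [cw_pow, evQ_seg]

omit [Fintype Y] [Fintype I] [Fintype Q] in
private lemma ev_pow_eq_one (i : I) (k : ℕ) :
    evQ C.g (cwS S i) ^ k = 1 ↔ C.N i / S.n i ∣ k := by
  rw [← map_pow, ev_cw_pow, C.p0 (i, true) 0]
  obtain ⟨t, ht⟩ := C.nN i
  have hn := S.npos i
  change C.N i ∣ S.n i * k ↔ _
  rw [ht, Nat.mul_div_cancel_left _ hn, Nat.mul_dvd_mul_iff_left hn]

omit [Fintype Y] [Fintype I] in
theorem order_cwS (i : I) : orderOf (evQ C.g (cwS S i)) = C.N i / S.n i := by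
  apply Nat.dvd_antisymm
  · rw [orderOf_dvd_iff_pow_eq_one, ev_pow_eq_one]
  · rw [← ev_pow_eq_one C i, pow_orderOf_eq_one]

private lemma sum_shift {M : Type*} [AddCommMonoid M] [IsCancelAdd M] (f : ℕ → M) (N : ℕ)
    (hf : ∀ k, f (k + N) = f k) (n : ℕ) :
    ∑ k ∈ Finset.range N, f (n + k) = ∑ k ∈ Finset.range N, f k := by
  induction n with
  | zero => simp
  | succ n ih =>
    have h1 := Finset.sum_range_succ' (fun k => f (n + k)) N
    have h2 := Finset.sum_range_succ (fun k => f (n + k)) N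
    rw [h1] at h2
    simp only [add_zero, hf] at h2
    have h3 := add_right_cancel h2
    rw [← ih, ← h3]
    refine Finset.sum_congr rfl fun k _ => ?_
    congr 1
    ring

omit [Fintype Y] [Fintype I] [Fintype Q] in
private lemma ld_shift (i : I) (q : Q) (k : ℕ) :
    C.ld i (q * evQ C.g (cwS S i)) k = C.ld i q (S.n i + k) := by
  have h1 : q * evQ C.g (cwS S i) * S.seg C.g (i, true) 0 k =
      q * S.seg C.g (i, true) 0 (S.n i + k) := by
    rw [evQ_seg, seg_add, mul_assoc]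
    congr 2
    exact seg_congr C.g S (i, true) (by simp) k
  have h2 : S.wd (i, true) (0 + (k : ℤ)) = S.wd (i, true) (0 + ((S.n i + k : ℕ) : ℤ)) :=
    wd_congr S (i, true) (by push_cast; simp)
  unfold Cover.ld sed edg
  simp only
  rw [h1, h2]

omit [Fintype Y] [Fintype I] [Fintype Q] in
private lemma ld_per (i : I) (q : Q) (k : ℕ) : C.ld i q (k + C.N i) = C.ld i q k := by
  have h1 : S.seg C.g (i, true) 0 (k + C.N i) = S.seg C.g (i, true) 0 k := by
    rw [← seg_mod C (i, true) 0 (k + C.N i), ← seg_mod C (i, true) 0 k]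
    congr 1
    exact Nat.add_mod_right k (C.N i)
  have h2 : S.wd (i, true) (0 + ((k + C.N i : ℕ) : ℤ)) = S.wd (i, true) (0 + (k : ℤ)) := by
    apply wd_congr S (i, true)
    push_cast
    have := N_dvd C (i, true)
    simpa using this
  unfold Cover.ld sed edg
  simp only
  rw [h1, h2]

omit [Fintype I] in
theorem lineA_shift (i : I) (q : Q) : C.lineA i (q * evQ C.g (cwS S i)) = C.lineA i q := by
  unfold Cover.lineA AA
  simp only [ld_shift C i q]
  exact sum_shift (fun k => nn C.Cm (C.ld i q k)) (C.N i) (fun k => by rw [ld_per]) (S.n i)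

omit [Fintype I] in
theorem lineA_zero (i : I) (q : Q) (y : EE (Q × Y)) (j : ℕ) (hj : 0 < j)
    (h : act C.Cm (fun _ _ h => Cm_symm C h) (Cm_irrefl C) (C.tc (cwS S i ^ (C.N i / S.n i * j)) q) y = y) :
    ff C.Cm (C.Lin (i, true) 0 q) y = 0 := by
  set L : FreeGroup Y := cwS S i ^ (C.N i / S.n i) with hL
  have hev : evQ C.g L = 1 := by
    rw [hL, map_pow, ev_pow_eq_one]
  have htc : ∀ m : ℕ, C.tc (L ^ m) q = C.tc L q ^ m := by
    intro m
    induction m with
    | zero =>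
      rw [pow_zero, pow_zero]
      exact coc_one _ _ _
    | succ m ih =>
      have h1 := coc_mul C.g (fun e => tau C.Cm (e, true)) (L ^ m) L q
      rw [map_pow, hev, one_pow, mul_one] at h1
      rw [pow_succ, pow_succ, ← ih]
      exact h1
  rw [pow_mul, ← hL, htc] at h
  have hpow : ∀ (m : ℕ) (z : EE (Q × Y)),
      act C.Cm (fun _ _ h => Cm_symm C h) (Cm_irrefl C) (C.tc L q ^ m) z = (ex (C.lineA i q) ^ m) z := by
    intro m
    induction m with
    | zero =>
      intro z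
      rw [pow_zero, pow_zero, map_one]
      rfl
    | succ m ih =>
      intro z
      rw [pow_succ, map_mul, pow_succ]
      change act C.Cm _ _ (C.tc L q ^ m) (act C.Cm _ _ (C.tc L q) z) =
        (ex (C.lineA i q) ^ m) (ex (C.lineA i q) z)
      rw [ih, tc_loop]
  rw [hpow] at h
  have hcube := lineA_cube C i q
  have h1 : ex (C.lineA i q) ^ j = ex ((j : ℝ) • C.lineA i q) := by
    have h2 := ex_pow (C.lineA i q) hcube 1 j
    rw [one_smul, mul_one] at h2
    exact h2
  rw [h1] at h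
  have hc2 : ((j : ℝ) • C.lineA i q) * ((j : ℝ) • C.lineA i q) * ((j : ℝ) • C.lineA i q) = 0 := by
    rw [smul_mul_smul_comm, smul_mul_smul_comm, hcube, smul_zero]
  have h3 := ex_fix _ hc2 y h
  have hj0 : (j : ℝ) ≠ 0 := by
    have : j ≠ 0 := by omega
    exact_mod_cast this
  rw [LinearMap.smul_apply] at h3
  have h4 : C.lineA i q y = 0 := (smul_eq_zero.1 h3).resolve_left hj0
  have h5 : AA C.Cm (C.ld i q) (C.N i) (AA C.Cm (C.ld i q) (C.N i) y) = 0 := by
    have h6 : AA C.Cm (C.ld i q) (C.N i) y = 0 := h4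
    rw [h6, map_zero]
  have h7 := AA_sq_zero C.Cm (fun _ _ h => Cm_symm C h) (Cm_irrefl C) (C.ld i q) (C.N i)
    (fun a b hab hb => line_comm C i q a b hab hb) y h5
  have h8 : {v | ∃ k, k < C.N i ∧ (C.ld i q k).1 = v} = C.Lin (i, true) 0 q := by
    ext v
    rw [mem_Lin_iff]
    constructor
    · rintro ⟨k, hk, rfl⟩
      exact ⟨k, hk, rfl⟩
    · rintro ⟨k, hk, rfl⟩
      exact ⟨k, hk, rfl⟩
  rw [h8] at h7
  exact h7

private lemma free_conj_pos {R0 : ℕ} (hL : C.Long R0) (i j : I) (l : FreeGroup Y) (m : ℕ) (ν : ℤ)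
    (hm : 0 < m) (h : cwS S i ^ m * l = l * cwS S j ^ ν) :
    i = j ∧ l ∈ Subgroup.zpowers (cwS S i) := by
  have hMpos : 0 < Nat.card Q := Nat.card_pos
  have hconj : cwS S i ^ m = l * cwS S j ^ ν * l⁻¹ := eq_mul_inv_of_mul_eq h
  have hM : cwS S i ^ (m * Nat.card Q) * l = l * (cwS S j ^ ν) ^ Nat.card Q := by
    rw [pow_mul, hconj, conj_pow, inv_mul_cancel_right]
  have hdvd : C.N i / S.n i ∣ Nat.card Q := by
    rw [← order_cwS C i]
    exact orderOf_dvd_natCard _
  obtain ⟨t, ht⟩ := hdvd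
  have ht0 : 0 < t := by
    rcases Nat.eq_zero_or_pos t with h0 | h0
    · rw [h0, mul_zero] at ht
      omega
    · exact h0
  have hexp : m * Nat.card Q = C.N i / S.n i * (m * t) := by
    rw [ht]
    ring
  set x : Q → EE (Q × Y) := C.repE l (C.uE j) with hx
  have hfixj : C.repE (cwS S j) (C.uE j) = C.uE j := uE_fix C hL j
  have hfixz : ∀ z : ℤ, C.repE (cwS S j ^ z) (C.uE j) = C.uE j := by
    have hmem : cwS S j ∈ (MulAction.stabilizer ((Q → EE (Q × Y)) ≃ₗ[ℝ] (Q → EE (Q × Y)))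
        (C.uE j)).comap C.repE := hfixj
    intro z
    exact Subgroup.zpow_mem _ hmem z
  have hxfix : C.repE (cwS S i ^ (m * Nat.card Q)) x = x := by
    have h1 : C.repE (cwS S i ^ (m * Nat.card Q)) x =
        C.repE (cwS S i ^ (m * Nat.card Q) * l) (C.uE j) := by
      rw [map_mul]
      rfl
    have h2 : C.repE (l * (cwS S j ^ ν) ^ Nat.card Q) (C.uE j) =
        C.repE l (C.repE ((cwS S j ^ ν) ^ Nat.card Q) (C.uE j)) := by
      rw [map_mul]
      rfl
    rw [h1, hM, h2, ← zpow_natCast, ← zpow_mul, hfixz]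
  have hev1 : evQ C.g (cwS S i ^ (m * Nat.card Q)) = 1 := by
    rw [map_pow, mul_comm, pow_mul, pow_card_eq_one', one_pow]
  have hzero : C.fE i x = 0 := by
    unfold Cover.fE
    rw [LinearMap.sum_apply]
    refine Finset.sum_eq_zero fun q _ => ?_
    change ff C.Cm (C.Lin (i, true) 0 q) (x q) = 0
    refine lineA_zero C i q (x q) (m * t) (Nat.mul_pos hm ht0) ?_
    rw [← hexp]
    have h1 := congrFun hxfix q
    rw [repE_apply, hev1, mul_one] at h1
    exact h1
  exact fE_zero C hL i j l hzero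

theorem free_conj {R0 : ℕ} (hL : C.Long R0) (i j : I) (l : FreeGroup Y) (μ ν : ℤ) (hμ : μ ≠ 0)
    (h : cwS S i ^ μ * l = l * cwS S j ^ ν) : i = j ∧ l ∈ Subgroup.zpowers (cwS S i) := by
  rcases lt_or_gt_of_ne hμ with hneg | hpos
  · obtain ⟨m, hm⟩ : ∃ m : ℕ, -μ = m := ⟨(-μ).toNat, (Int.toNat_of_nonneg (by omega)).symm⟩
    refine free_conj_pos C hL i j l m (-ν) (by omega) ?_
    have h1 : cwS S i ^ μ = l * cwS S j ^ ν * l⁻¹ := eq_mul_inv_of_mul_eq h
    have h2 : cwS S i ^ (-μ) = l * cwS S j ^ (-ν) * l⁻¹ := by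
      rw [zpow_neg, h1, mul_inv_rev, mul_inv_rev, inv_inv, zpow_neg, mul_assoc]
    rw [← zpow_natCast, ← hm, h2, inv_mul_cancel_right]
  · obtain ⟨m, hm⟩ : ∃ m : ℕ, μ = m := ⟨μ.toNat, (Int.toNat_of_nonneg (by omega)).symm⟩
    refine free_conj_pos C hL i j l m ν (by omega) ?_
    rw [← zpow_natCast, ← hm]
    exact h

end Pool.Agent.Helper53.LG
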