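import Pool.Agent.Helper53.LG.Double
import Pool.Agent.Helper53.LG.CoindGL

/-!
# LG-53: final assembly

`nd_linear_all`: let `k`, `φ_k : Multiplicative ℤ →* MulAut D.F` with `φ_k (ofAdd 1) = D.phi (k m) = (D.phi m) ^ k` (`phi_pow`) be as in `nd_linear`
(`φ_k j = φ (k j)`: `φ` composed with the `k`-th power map of `Multiplicative ℤ`). `G₀ = D.F ⋊[φ] ℤ` has the subgroup `G_k` of the elements
`(w, t^j)` with `k ∣ j` (the preimage of `zpowers (t^k)` under the projection), of finite index, isomorphic to `D.F ⋊[φ_k] ℤ`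
(the map `(w, t^j) ↦ (w, t^(k j))` is an injective homomorphism with image `G_k`). `nd_linear` and `coind_GL`.

`lg_linear`: `double` for `φ₁ = φ (ofAdd 1)` gives `φ₂, ι`; `chain` gives `D, m, e`; `Φ : Multiplicative ℤ →* MulAut D.F`, `Φ (ofAdd 1) = D.phi m`
(`zpowersHom`). `(w, t^j) ↦ (e (ι w), t^j)` is an injective homomorphism from `F_n ⋊[φ] ℤ` to `D.F ⋊[Φ] ℤ` (`SemidirectProduct.map`; the
compatibility for `ofAdd 1` extends to all integers). So `F_n ⋊[φ] ℤ` embeds in `GL (Fin N) K`, hence so does `H`; `coind_GL` for `H ≤ G`.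
-/

namespace Pool.Agent.Helper53.LG

private theorem compat_ext {F F' : Type} [Group F] [Group F'] (φ : Multiplicative ℤ →* MulAut F)
    (Φ : Multiplicative ℤ →* MulAut F') (θ : F →* F')
    (h : ∀ w, θ (φ (Multiplicative.ofAdd 1) w) = Φ (Multiplicative.ofAdd 1) (θ w)) :
    ∀ (g : Multiplicative ℤ) (w : F), θ (φ g w) = Φ g (θ w) := by
  have hmul : ∀ g g' : Multiplicative ℤ, (∀ w, θ (φ g w) = Φ g (θ w)) →
      (∀ w, θ (φ g' w) = Φ g' (θ w)) → ∀ w, θ (φ (g * g') w) = Φ (g * g') (θ w) := by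
    intro g g' h1 h2 w
    rw [map_mul, map_mul, MulAut.mul_apply, MulAut.mul_apply, h1, h2]
  have hinv : ∀ g : Multiplicative ℤ, (∀ w, θ (φ g w) = Φ g (θ w)) →
      ∀ w, θ (φ g⁻¹ w) = Φ g⁻¹ (θ w) := by
    intro g h1 w
    have h2 := h1 (φ g⁻¹ w)
    rw [← MulAut.mul_apply, ← map_mul, mul_inv_cancel, map_one, MulAut.one_apply] at h2
    rw [h2, ← MulAut.mul_apply, ← map_mul, inv_mul_cancel, map_one, MulAut.one_apply]
  have hone : ∀ w, θ (φ 1 w) = Φ 1 (θ w) := by
    intro w
    rw [map_one, map_one, MulAut.one_apply, MulAut.one_apply]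
  have hz : ∀ (j : ℤ) (w : F), θ (φ (Multiplicative.ofAdd j) w) =
      Φ (Multiplicative.ofAdd j) (θ w) := by
    intro j
    induction j using Int.induction_on with
    | zero => exact hone
    | succ j ih =>
      rw [ofAdd_add]
      exact hmul _ _ ih h
    | pred j ih =>
      rw [sub_eq_add_neg, ofAdd_add, ofAdd_neg]
      exact hmul _ _ ih (hinv _ h)
  intro g
  exact hz (Multiplicative.toAdd g)

theorem nd_linear_all (D : NDW) (m : D.B → ℤ) (hg : Good D m) (φ : Multiplicative ℤ →* MulAut D.F)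
    (hφ : φ (Multiplicative.ofAdd 1) = D.phi m) :
    ∃ (K : Type) (_ : Field K) (N : ℕ)
      (f : SemidirectProduct D.F (Multiplicative ℤ) φ →* Matrix.GeneralLinearGroup (Fin N) K),
      CharZero K ∧ Function.Injective f := by
  obtain ⟨k, hk, hlin⟩ := nd_linear D m hg.1 hg.2
  have hk0 : (k : ℤ) ≠ 0 := by exact_mod_cast hk.ne'
  haveI : NeZero k := ⟨hk.ne'⟩
  obtain ⟨φk, hφk⟩ : ∃ φk : Multiplicative ℤ →* MulAut D.F, φk = φ.comp (powMonoidHom k) := ⟨_, rfl⟩
  have hφk1 : φk (Multiplicative.ofAdd 1) = D.phi (fun b => k * m b) := by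
    rw [hφk, MonoidHom.comp_apply, powMonoidHom_apply, map_pow, hφ, phi_pow]
  obtain ⟨K, fK, N, f, hK, hf⟩ := hlin φk hφk1
  let π : SemidirectProduct D.F (Multiplicative ℤ) φ →* Multiplicative (ZMod k) :=
    (AddMonoidHom.toMultiplicative (Int.castAddHom (ZMod k))).comp SemidirectProduct.rightHom
  have hdvd : ∀ g : π.ker, (k : ℤ) ∣ Multiplicative.toAdd g.1.right := by
    intro g
    have h1 : π g.1 = 1 := g.2
    have h2 : ((Multiplicative.toAdd g.1.right : ℤ) : ZMod k) = 0 := h1
    exact (ZMod.intCast_zmod_eq_zero_iff_dvd _ _).mp h2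
  have hφd : ∀ g : π.ker, φk (Multiplicative.ofAdd (Multiplicative.toAdd g.1.right / (k : ℤ))) =
      φ g.1.right := by
    intro g
    rw [hφk, MonoidHom.comp_apply, powMonoidHom_apply]
    congr 1
    have h1 := Int.ediv_mul_cancel (hdvd g)
    rw [← ofAdd_nsmul, nsmul_eq_mul, mul_comm, h1]
    rfl
  let ρ : π.ker →* SemidirectProduct D.F (Multiplicative ℤ) φk :=
    { toFun := fun g => ⟨g.1.left, Multiplicative.ofAdd (Multiplicative.toAdd g.1.right / (k : ℤ))⟩
      map_one' := by
        apply SemidirectProduct.ext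
        · rfl
        · change Multiplicative.ofAdd ((0 : ℤ) / (k : ℤ)) = 1
          rw [Int.zero_ediv]
          rfl
      map_mul' := fun g g' => by
        apply SemidirectProduct.ext
        · change g.1.left * φ g.1.right g'.1.left = g.1.left *
            φk (Multiplicative.ofAdd (Multiplicative.toAdd g.1.right / (k : ℤ))) g'.1.left
          rw [hφd]
        · change Multiplicative.ofAdd ((Multiplicative.toAdd g.1.right +
            Multiplicative.toAdd g'.1.right) / (k : ℤ)) =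
            Multiplicative.ofAdd (Multiplicative.toAdd g.1.right / (k : ℤ)) *
            Multiplicative.ofAdd (Multiplicative.toAdd g'.1.right / (k : ℤ))
          rw [Int.add_ediv_of_dvd_left (hdvd g), ofAdd_add] }
  have hρ : Function.Injective ρ := by
    intro g g' h
    have h1' : (ρ g).left = (ρ g').left := by rw [h]
    have h2' : (ρ g).right = (ρ g').right := by rw [h]
    have h1 : g.1.left = g'.1.left := h1'
    have h2 : Multiplicative.toAdd g.1.right / (k : ℤ) = Multiplicative.toAdd g'.1.right / (k : ℤ) :=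
      h2'
    have h3 : Multiplicative.toAdd g.1.right = Multiplicative.toAdd g'.1.right := by
      rw [← Int.ediv_mul_cancel (hdvd g), h2, Int.ediv_mul_cancel (hdvd g')]
    apply Subtype.ext
    apply SemidirectProduct.ext
    · exact h1
    · exact h3
  obtain ⟨N', f', hf'⟩ := coind_GL π.ker (f.comp ρ) (hf.comp hρ)
  exact ⟨K, fK, N', f', hK, hf'⟩

theorem lg_linear (n : ℕ) (φ : Multiplicative ℤ →* MulAut (FreeGroup (Fin n))) (u v : Fin n → FreeGroup (Fin n))
    (hu : ∀ i, u i ∈ Subgroup.closure (FreeGroup.of '' {j : Fin n | j < i}))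
    (hv : ∀ i, v i ∈ Subgroup.closure (FreeGroup.of '' {j : Fin n | j < i}))
    (hφ : ∀ i, φ (Multiplicative.ofAdd 1) (FreeGroup.of i) = u i * FreeGroup.of i * v i)
    (fu : ∀ i, φ (Multiplicative.ofAdd 1) (u i) = u i) (fv : ∀ i, φ (Multiplicative.ofAdd 1) (v i) = v i)
    (G : Type) [Group G] (H : Subgroup G) [H.FiniteIndex]
    (e : H →* SemidirectProduct (FreeGroup (Fin n)) (Multiplicative ℤ) φ) (he : Function.Injective e) :
    ∃ (K : Type) (_ : Field K) (N : ℕ) (f : G →* Matrix.GeneralLinearGroup (Fin N) K),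
      CharZero K ∧ Function.Injective f := by
  obtain ⟨N, φ₂, ι, hTri, hι, hcomp⟩ := double n (φ (Multiplicative.ofAdd 1)) u v hu hv hφ fu fv
  obtain ⟨D, m, hg, e', he'⟩ := chain N φ₂ hTri
  obtain ⟨Φ, hΦ⟩ : ∃ Φ : Multiplicative ℤ →* MulAut D.F,
      Φ (Multiplicative.ofAdd 1) = D.phi m := by
    refine ⟨zpowersHom _ (D.phi m), ?_⟩
    rw [zpowersHom_apply, toAdd_ofAdd, zpow_one]
  obtain ⟨K, fK, M, f₀, hK, hf₀⟩ := nd_linear_all D m hg Φ hΦ
  have hcompat := compat_ext φ Φ (e'.toMonoidHom.comp ι) (fun w => by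
    change e' (ι (φ (Multiplicative.ofAdd 1) w)) = Φ (Multiplicative.ofAdd 1) (e' (ι w))
    rw [hcomp, he', hΦ])
  let θ : SemidirectProduct (FreeGroup (Fin n)) (Multiplicative ℤ) φ →*
      SemidirectProduct D.F (Multiplicative ℤ) Φ :=
    SemidirectProduct.map (e'.toMonoidHom.comp ι) (MonoidHom.id _) (fun g => by
      ext w
      exact hcompat g _)
  have hθ : Function.Injective θ := by
    intro g g' h
    have h1' : (θ g).left = (θ g').left := by rw [h]
    have h2' : (θ g).right = (θ g').right := by rw [h]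
    have h1 : e' (ι g.left) = e' (ι g'.left) := h1'
    have h2 : g.right = g'.right := h2'
    apply SemidirectProduct.ext
    · exact hι (e'.injective h1)
    · exact h2
  obtain ⟨N', f', hf'⟩ := coind_GL H ((f₀.comp θ).comp e) ((hf₀.comp hθ).comp he)
  exact ⟨K, fK, N', f', hK, hf'⟩

end Pool.Agent.Helper53.LG
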