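import Pool.Agent.Helper53.LG.Meet

/-!
# LG-05: a reduced closed path in the star of an edge runs along a closed line

`exists_run`: the path `v, a` of length `n`: the first dart is `(v 0, a 0)` with edge `e = edg 0`; the rest of the
path is closed: `v n = v 1`, `1 < n`, its edges are in `St e` and different from `e`. Induction on `H`.

`H = 0`: the edge at position `1` commutes with `e`, so there is a closed line containing `e`, by `exists_base`
it is `Lin j l (v 0)` with `wd j l = a 0`.

`H → H + 1`: (`2 (H + 1) ≤ N` for all `N`.) Let `j, l` be as in the statement for `H`; so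
`v (H + 1) = v 0 * seg j l (H + 1)` (`path_add`). `H + 1 < n`: otherwise `n = H + 1`, `v 1 = v n` gives
`seg j l 1 = seg j l (H + 1)`, `vt_inj`, and `H + 1 < N j`, so `H = 0`, `n = 1`, contradiction. So the edge
`x = edg (H + 1)` is in `St e`, `≠ e`: there is a closed line containing `e` and `x`, by `exists_base`
it is `Lin j' l' (v 0)` with `wd j' l' = a 0`. By `vertex_of_mem` `v (H + 1) = v 0 * seg j' l' M'` with `M' < N j'`. By
`close_short` (with `M = H + 1`, `2 M ≤ N j`): `M' = H + 1` and `wd j (l + s) = wd j' (l' + s)` for `s ≤ H`, so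
`a s = wd j' (l' + s)` for `s ≤ H`. Now `x = dedge (v (H + 1)) (a (H + 1))` is in
`Lin j' l' (v 0) = Lin j' (l' + (H + 1)) (v (H + 1))` (`Lin_shift`), so by `next_dart`
`a (H + 1) = wd j' (l' + (H + 1))` (as wanted) or `a (H + 1) = bar (wd j' (l' + H)) = bar (a H)`, excluded (`RedOn`).
-/

namespace Pool.Agent.Helper53.LG

variable {Y I : Type} {S : WSys Y I} {Q : Type} [Group Q] (C : Cover S Q)

theorem exists_run (v : ℕ → Q) (a : ℕ → Lt Y) (hp : IsPath C.g v a) (n : ℕ) (hn : 1 < n)
    (hcl : v n = v 1) (hred : RedOn a n)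
    (hst : ∀ q, 1 ≤ q → q < n → edg C.g v a q ∈ C.St (edg C.g v a 0) ∧ edg C.g v a q ≠ edg C.g v a 0)
    (H : ℕ) (hH : ∀ i, 2 * H ≤ C.N i) :
    ∃ (j : I × Bool) (l : ℤ), H < n ∧ ∀ s : ℕ, s ≤ H → a s = S.wd j (l + s) := by
  -- the line through `e` and the edge at position `q`
  have key : ∀ q, 1 ≤ q → q < n → ∃ (j : I × Bool) (l : ℤ), S.wd j l = a 0 ∧
      edg C.g v a q ∈ C.Lin j l (v 0) := by
    intro q hq1 hqn
    obtain ⟨h1, h2⟩ := hst q hq1 hqn
    rcases h1 with h1 | ⟨-, i, κ, p, he, hx⟩
    · exact absurd h1 h2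
    · obtain ⟨j, l, -, hw, hL⟩ := exists_base C i κ p (v 0) (a 0) he
      exact ⟨j, l, hw, by rw [hL]; exact hx⟩
  induction H with
  | zero =>
    obtain ⟨j, l, hw, -⟩ := key 1 le_rfl hn
    refine ⟨j, l, by omega, ?_⟩
    intro s hs
    have hs0 : s = 0 := by omega
    subst hs0
    simpa using hw.symm
  | succ H ih =>
    obtain ⟨j, l, hHn, hs⟩ := ih (fun i => by have := hH i; omega)
    have hNj := hH j.1
    have hN3 := C.Npos j.1
    have hv : v (H + 1) = v 0 * S.seg C.g j l (H + 1) := by
      have := path_add C.g S hp j l 0 (H + 1) (fun s hs' => by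
        rw [Nat.zero_add]; exact hs s (by omega))
      simpa using this
    have hv1 : v 1 = v 0 * S.seg C.g j l 1 := by
      have := path_add C.g S hp j l 0 1 (fun s hs' => by
        rw [Nat.zero_add]; exact hs s (by omega))
      simpa using this
    have hlt : H + 1 < n := by
      by_contra hcon
      have hnH : n = H + 1 := by omega
      have h1 : v 0 * S.seg C.g j l 1 = v 0 * S.seg C.g j l (H + 1) := by
        rw [← hv1, ← hv, ← hnH, hcl]
      have h2 := vt_inj C j l (v 0) 1 (H + 1) h1
      rw [Nat.mod_eq_of_lt (by omega), Nat.mod_eq_of_lt (by omega)] at h2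
      omega
    obtain ⟨j', l', hw', hx⟩ := key (H + 1) (by omega) hlt
    obtain ⟨M', hM', hvM⟩ := vertex_of_mem C j' l' (v 0) (v (H + 1)) (a (H + 1)) hx
    have hw : S.wd j l = a 0 := by
      have := hs 0 (by omega)
      simpa using this.symm
    have hseg : S.seg C.g j l (H + 1) = S.seg C.g j' l' M' := by
      rw [hv] at hvM
      exact mul_left_cancel hvM
    obtain ⟨hMM, hws⟩ := close_short C j j' l l' (H + 1) M' (by rw [hw, hw']) (by omega) hNj hM' hseg
    refine ⟨j', l', hlt, ?_⟩
    intro s hsH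
    rcases Nat.lt_or_ge s (H + 1) with hs1 | hs1
    · rw [hs s (by omega), hws s hs1]
    · have hsH1 : s = H + 1 := by omega
      subst hsH1
      have h3 : dedge C.g (v (H + 1)) (a (H + 1)) ∈
          C.Lin j' (l' + ((H + 1 : ℕ) : ℤ)) (v 0 * S.seg C.g j' l' (H + 1)) := by
        rw [Lin_shift]
        exact hx
      rw [← hMM] at hvM
      rw [← hvM] at h3
      rcases next_dart C j' _ _ _ h3 with h4 | h4
      · exact h4
      · exfalso
        apply hred H hlt
        rw [h4, hs H le_rfl, hws H (by omega)]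
        congr 2
        push_cast
        ring

end Pool.Agent.Helper53.LG
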