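import Pool.Agent.Helper53.LG.Meet

/-!
# LG-06: maximal runs along a closed line

A path `v, a` of length `n` (reduced) whose darts at the positions `i0 ≤ k ≤ i1` are darts of the closed line
`Lin j l (v i0)`: `a k = wd j (l + (k - i0))`. `N = C.N j.1`. By `path_add`, `v (i0 + m) = v i0 * seg j l m` for
`m ≤ i1 + 1 - i0`; by `Lin_shift`, `A := Lin j l (v i0) = Lin j (l + m) (v (i0 + m))` for these `m`.

`window_forward`: the run is maximal on the right. Let `i0 ≤ k ≤ i1`, `y = edg k`, `k < j'` a position with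
edge `y` and the opposite sign, all edges strictly between are in `St y`.
(a) `i1 < j'`: if `j' ≤ i1` the dart at `j'` is a dart of `A`: `k = i0 + m`, `j' = i0 + m'`, same edge, so by
`dart_inj` (after reducing `m, m'` modulo `N`: `seg_mod`, `wd_congr`, `N_dvd`) the labels are equal, but the signs
differ.
(b) So `i1 + 1 < n` and the dart at `i1 + 1` is at the vertex `v (i1 + 1)` of `A`. Its edge `x` is not in `A`:
otherwise `next_dart` for `A = Lin j (l + (i1 + 1 - i0)) (v (i1 + 1))` gives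
`a (i1 + 1) = wd j (l + (i1 + 1 - i0))`, excluded by maximality, or `a (i1 + 1) = bar (a i1)`, excluded since the
path is reduced.
(c) If `i1 + 1 = j'` then `x = y ∈ A`, contradiction. So `k < i1 + 1 < j'` and `x ∈ St y`, `x ≠ y` (as `y ∈ A`), so
there is a closed line `B` with `y, x ∈ B`; `B ≠ A`. By `exists_base`, `B = Lin j₂ l₂ (v k)` with `wd j₂ l₂ = a k`, by
`vertex_of_mem` (for `x = dedge (v (i1 + 1)) …`) `v (i1 + 1) = v k * seg j₂ l₂ M'` with `M' < N j₂`. Also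
`A = Lin j (l + (k - i0)) (v k)` and `v (i1 + 1) = v k * seg j (l + (k - i0)) ((i1 + 1 - k) % N)` (`seg_mod`), so
`Lin_eq_or` with `M = (i1 + 1 - k) % N` gives the conclusion.

`window_backward`: the mirror image. The run is maximal on the left, `j' < k` has edge `y = edg k` and the opposite
sign and all edges strictly between are in `St y`.
(a) `j' < i0` as before. (b) The dart at `i0 - 1` ends at the vertex `v i0`; its edge
`x = edg (i0 - 1) = dedge (v i0) (bar (a (i0 - 1)))` (`dedge_bar`, `IsPath`) is not in `A`: otherwise `next_dart` gives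
`bar (a (i0 - 1)) = wd j l = a i0` (excluded: reduced) or `bar (a (i0 - 1)) = bar (wd j (l - 1))` (excluded by
maximality). (c) `j' ≠ i0 - 1` since `y ∈ A`; so `x ∈ St y`, `x ≠ y`, there is a closed line `B ≠ A` containing `y`
and `x`. Base both lines at the inverse dart of `y`: it starts at `v (k + 1)` with label `bar (a k)`:
`B = Lin j₂ l₂ (v (k + 1))` with `wd j₂ l₂ = bar (a k)` (`exists_base`, `dedge_bar`), `v i0 = v (k + 1) * seg j₂ l₂ M'`, `M' < N j₂`
(`vertex_of_mem`), and `A = Lin (rev j) (-(l + (k + 1 - i0))) (v (k + 1))` (`Lin_rev`),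
`wd (rev j) (-(l + (k + 1 - i0))) = bar (wd j (l + (k - i0))) = bar (a k)` (`wd_rev`), and
`v i0 = v (k + 1) * seg (rev j) (-(l + (k + 1 - i0))) (k + 1 - i0)` (from `v (k + 1) = v i0 * seg j l (k + 1 - i0)` and
`seg_rev`); reduce modulo `N` and apply `Lin_eq_or`.
-/

namespace Pool.Agent.Helper53.LG

variable {Y I : Type} {S : WSys Y I} {Q : Type} [Group Q] (C : Cover S Q)

private lemma wd_modN (i : I × Bool) (κ : ℤ) (m : ℕ) :
    S.wd i (κ + ((m % C.N i.1 : ℕ) : ℤ)) = S.wd i (κ + m) := by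
  apply wd_congr
  have h := Nat.mod_add_div m (C.N i.1)
  have h1 : κ + ((m % C.N i.1 : ℕ) : ℤ) - (κ + m) = (C.N i.1 : ℤ) * (-((m / C.N i.1 : ℕ) : ℤ)) := by
    have h2 : ((m % C.N i.1 : ℕ) : ℤ) + (C.N i.1 : ℤ) * ((m / C.N i.1 : ℕ) : ℤ) = m := by
      exact_mod_cast h
    linarith
  rw [h1]
  exact Dvd.dvd.mul_right (N_dvd C i) _

private lemma run_pos (v : ℕ → Q) (a : ℕ → Lt Y) (hp : IsPath C.g v a) (i0 i1 : ℕ)
    (j : I × Bool) (l : ℤ) (hrun : ∀ k, i0 ≤ k → k ≤ i1 → a k = S.wd j (l + ((k : ℤ) - i0)))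
    (k q : ℕ) (hk : i0 ≤ k) (hkq : k ≤ q) (hq : q ≤ i1 + 1) :
    v q = v k * S.seg C.g j (l + ((k : ℤ) - i0)) (q - k) := by
  have h := path_add C.g S hp j (l + ((k : ℤ) - i0)) k (q - k) (fun s hs => by
    rw [hrun (k + s) (by omega) (by omega)]
    congr 1
    push_cast
    ring)
  rw [← h]
  congr 1
  omega

private lemma run_line (v : ℕ → Q) (a : ℕ → Lt Y) (hp : IsPath C.g v a) (i0 i1 : ℕ)
    (j : I × Bool) (l : ℤ) (hrun : ∀ k, i0 ≤ k → k ≤ i1 → a k = S.wd j (l + ((k : ℤ) - i0)))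
    (q : ℕ) (hq0 : i0 ≤ q) (hq : q ≤ i1 + 1) :
    C.Lin j (l + ((q : ℤ) - i0)) (v q) = C.Lin j l (v i0) := by
  have h := run_pos C v a hp i0 i1 j l hrun i0 q le_rfl hq0 hq
  rw [sub_self, add_zero] at h
  have h1 : ((q - i0 : ℕ) : ℤ) = (q : ℤ) - i0 := by omega
  rw [h, ← h1, Lin_shift]

private lemma run_inj (v : ℕ → Q) (a : ℕ → Lt Y) (hp : IsPath C.g v a) (i0 i1 : ℕ)
    (j : I × Bool) (l : ℤ) (hrun : ∀ k, i0 ≤ k → k ≤ i1 → a k = S.wd j (l + ((k : ℤ) - i0)))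
    (k k' : ℕ) (hk0 : i0 ≤ k) (hk1 : k ≤ i1) (hk0' : i0 ≤ k') (hk1' : k' ≤ i1)
    (he : edg C.g v a k' = edg C.g v a k) : a k' = a k := by
  have hN : 0 < C.N j.1 := by have := C.Npos j.1; omega
  have key : ∀ q, i0 ≤ q → q ≤ i1 → edg C.g v a q =
      dedge C.g (v i0 * S.seg C.g j l ((q - i0) % C.N j.1))
        (S.wd j (l + (((q - i0) % C.N j.1 : ℕ) : ℤ))) ∧
      a q = S.wd j (l + (((q - i0) % C.N j.1 : ℕ) : ℤ)) := by
    intro q h0 h1
    have h2 := run_pos C v a hp i0 i1 j l hrun i0 q le_rfl h0 (by omega)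
    rw [sub_self, add_zero] at h2
    have h3 : a q = S.wd j (l + (((q - i0) % C.N j.1 : ℕ) : ℤ)) := by
      rw [wd_modN, hrun q h0 h1]
      congr 2
      omega
    refine ⟨?_, h3⟩
    unfold edg
    rw [seg_mod, ← h2, ← h3]
  obtain ⟨e1, a1⟩ := key k hk0 hk1
  obtain ⟨e2, a2⟩ := key k' hk0' hk1'
  rw [e1, e2] at he
  have h4 := dart_inj C j l (v i0) _ _ (Nat.mod_lt _ hN) (Nat.mod_lt _ hN) he
  rw [a1, a2, h4]

theorem window_forward {R0 : ℕ} (hR0 : 1 ≤ R0) (hsep : S.Sep R0) (v : ℕ → Q) (a : ℕ → Lt Y)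
    (hp : IsPath C.g v a) (n : ℕ) (hred : RedOn a n) (i0 i1 : ℕ) (hi : i0 ≤ i1) (hi1 : i1 < n)
    (j : I × Bool) (l : ℤ) (hrun : ∀ k, i0 ≤ k → k ≤ i1 → a k = S.wd j (l + ((k : ℤ) - i0)))
    (hmax : i1 + 1 < n → a (i1 + 1) ≠ S.wd j (l + ((i1 : ℤ) + 1 - i0)))
    (k j' : ℕ) (hk0 : i0 ≤ k) (hk1 : k ≤ i1) (hkj : k < j') (hj' : j' < n)
    (hey : edg C.g v a j' = edg C.g v a k) (hsg : (a j').2 ≠ (a k).2)
    (hst : ∀ q, k < q → q < j' → edg C.g v a q ∈ C.St (edg C.g v a k)) :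
    (i1 + 1 - k) % C.N j.1 < R0 ∨ C.N j.1 < (i1 + 1 - k) % C.N j.1 + R0 := by
  have hN : 0 < C.N j.1 := by have := C.Npos j.1; omega
  have hyA : edg C.g v a k ∈ C.Lin j l (v i0) := by
    rw [← run_line C v a hp i0 i1 j l hrun k hk0 (by omega)]
    unfold edg
    rw [hrun k hk0 hk1]
    exact self_mem_Lin C j _ _
  have ha : i1 < j' := by
    by_contra hc
    exact hsg (by rw [run_inj C v a hp i0 i1 j l hrun k j' hk0 hk1 (by omega) (by omega) hey])
  have hxA : edg C.g v a (i1 + 1) ∉ C.Lin j l (v i0) := by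
    intro hx
    rw [← run_line C v a hp i0 i1 j l hrun (i1 + 1) (by omega) le_rfl] at hx
    rcases next_dart C j _ (v (i1 + 1)) (a (i1 + 1)) hx with h1 | h1
    · apply hmax (by omega)
      rw [h1]
      congr 1
    · apply hred i1 (by omega)
      rw [h1, hrun i1 hi le_rfl]
      congr 2
      push_cast
      ring
  have hne : i1 + 1 ≠ j' := by
    intro h
    apply hxA
    rw [h, hey]
    exact hyA
  rcases hst (i1 + 1) (by omega) (by omega) with h1 | ⟨-, i', κ', p', h1, h2⟩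
  · exact absurd (h1 ▸ hyA) hxA
  · obtain ⟨j₂, l₂, -, hw, hL⟩ := exists_base C i' κ' p' (v k) (a k) h1
    rw [← hL] at h2
    obtain ⟨M', hM', hv⟩ := vertex_of_mem C j₂ l₂ (v k) (v (i1 + 1)) (a (i1 + 1)) h2
    have hv2 := run_pos C v a hp i0 i1 j l hrun k (i1 + 1) hk0 (by omega) le_rfl
    rw [← seg_mod] at hv2
    rcases Lin_eq_or C hR0 hsep j j₂ (l + ((k : ℤ) - i0)) l₂ (v k) _ M'
      (by rw [hw, hrun k hk0 hk1]) (Nat.mod_lt _ hN) hM' (by rw [← hv2, ← hv]) with h3 | h3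
    · exfalso
      apply hxA
      rw [← run_line C v a hp i0 i1 j l hrun k hk0 (by omega), h3]
      exact h2
    · exact h3

theorem window_backward {R0 : ℕ} (hR0 : 1 ≤ R0) (hsep : S.Sep R0) (v : ℕ → Q) (a : ℕ → Lt Y)
    (hp : IsPath C.g v a) (n : ℕ) (hred : RedOn a n) (i0 i1 : ℕ) (hi : i0 ≤ i1) (hi1 : i1 < n)
    (j : I × Bool) (l : ℤ) (hrun : ∀ k, i0 ≤ k → k ≤ i1 → a k = S.wd j (l + ((k : ℤ) - i0)))
    (hmax : 0 < i0 → a (i0 - 1) ≠ S.wd j (l - 1))
    (k j' : ℕ) (hk0 : i0 ≤ k) (hk1 : k ≤ i1) (hkj : j' < k)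
    (hey : edg C.g v a j' = edg C.g v a k) (hsg : (a j').2 ≠ (a k).2)
    (hst : ∀ q, j' < q → q < k → edg C.g v a q ∈ C.St (edg C.g v a k)) :
    (k + 1 - i0) % C.N j.1 < R0 ∨ C.N j.1 < (k + 1 - i0) % C.N j.1 + R0 := by
  have hN : 0 < C.N j.1 := by have := C.Npos j.1; omega
  have hyA : edg C.g v a k ∈ C.Lin j l (v i0) := by
    rw [← run_line C v a hp i0 i1 j l hrun k hk0 (by omega)]
    unfold edg
    rw [hrun k hk0 hk1]
    exact self_mem_Lin C j _ _
  have ha : j' < i0 := by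
    by_contra hc
    exact hsg (by rw [run_inj C v a hp i0 i1 j l hrun k j' hk0 hk1 (by omega) (by omega) hey])
  obtain ⟨b, hb⟩ : ∃ b, i0 = b + 1 := ⟨i0 - 1, by omega⟩
  have hbar : ∀ q, edg C.g v a q = dedge C.g (v (q + 1)) (bar (a q)) := by
    intro q
    unfold edg
    rw [hp q, dedge_bar]
  have hxA : edg C.g v a b ∉ C.Lin j l (v i0) := by
    intro hx
    rw [hbar b, ← hb] at hx
    rcases next_dart C j l (v i0) (bar (a b)) hx with h1 | h1
    · apply hred b (by omega)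
      rw [← hb, hrun i0 le_rfl hi, h1]
      congr 1
      ring
    · apply hmax (by omega)
      have h2 := congrArg bar h1
      rw [bar_bar, bar_bar] at h2
      rw [← h2]
      congr 1
      omega
  have hne : b ≠ j' := by
    intro h
    apply hxA
    rw [h, hey]
    exact hyA
  rcases hst b (by omega) (by omega) with h1 | ⟨-, i', κ', p', h1, h2⟩
  · exact absurd (h1 ▸ hyA) hxA
  · rw [hbar k] at h1
    obtain ⟨j₂, l₂, -, hw, hL⟩ := exists_base C i' κ' p' (v (k + 1)) (bar (a k)) h1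
    rw [← hL] at h2
    have h2' := h2
    rw [hbar b, ← hb] at h2'
    obtain ⟨M', hM', hv⟩ := vertex_of_mem C j₂ l₂ (v (k + 1)) (v i0) (bar (a b)) h2'
    have hA : C.Lin (rev j) (-(l + (((k + 1 : ℕ) : ℤ) - i0))) (v (k + 1)) = C.Lin j l (v i0) := by
      rw [Lin_rev]
      exact run_line C v a hp i0 i1 j l hrun (k + 1) (by omega) (by omega)
    have hw2 : S.wd (rev j) (-(l + (((k + 1 : ℕ) : ℤ) - i0))) = bar (a k) := by
      rw [wd_rev, hrun k hk0 hk1]
      congr 2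
      push_cast
      ring
    have hv2 : v i0 = v (k + 1) * S.seg C.g (rev j) (-(l + (((k + 1 : ℕ) : ℤ) - i0)))
        ((k + 1 - i0) % C.N j.1) := by
      have h3 := run_pos C v a hp i0 i1 j l hrun i0 (k + 1) le_rfl (by omega) (by omega)
      rw [sub_self, add_zero] at h3
      have h4 : S.seg C.g (rev j) (-(l + (((k + 1 : ℕ) : ℤ) - i0))) ((k + 1 - i0) % C.N j.1) =
          S.seg C.g (rev j) (-(l + (((k + 1 : ℕ) : ℤ) - i0))) (k + 1 - i0) :=
        seg_mod C (rev j) _ _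
      have h5 : -(l + (((k + 1 : ℕ) : ℤ) - i0)) = -l - ((k + 1 - i0 : ℕ) : ℤ) := by omega
      rw [h4, h5, ← seg_rev, h3, mul_inv_cancel_right]
    rcases Lin_eq_or C hR0 hsep (rev j) j₂ (-(l + (((k + 1 : ℕ) : ℤ) - i0))) l₂ (v (k + 1))
      ((k + 1 - i0) % C.N j.1) M'
      (by rw [hw, hw2]) (Nat.mod_lt _ hN) hM' (by rw [← hv2, ← hv])
      with h3 | h3
    · exfalso
      apply hxA
      rw [← hA, h3]
      exact h2
    · exact h3

end Pool.Agent.Helper53.LG
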