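import Pool.Agent.Helper53.LG.Crossed
import Pool.Agent.Helper53.LG.Run
import Pool.Agent.Helper53.LG.Window

/-!
# LG-07: the main lemma on reduced paths

`gl_main`: strong induction on `n` (for all `T, v, a`). Write `E k = edg C.g v a k`, `X = sed C.g v a`, `N = C.N j.1`.
Assume that `E k ∉ T` for some `k < n`.

(1) Consider the pairs `(k, k')` with `k < k' < n`, `E k = E k' ∉ T`, `(a k).2 ≠ (a k').2` and
`PP X (k + 1) (k' - k - 1) ∈ Wsub (Lk (E k))`. By `partner` (applied to `X`, and `hnul` for `e = E k`) there is one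
(exchange `k` and `k'` in the second alternative). Choose one with `k' - k` minimal (`Nat.find` on the
difference). Put `e = E k`.
(2) `k + 1 < k'`: otherwise `edg_succ_eq` gives `a (k + 1) = bar (a k)`, excluded by `RedOn`.
(3) The middle part: the shifted path `v' q = v (k + 1 + q)`, `a' q = a (k + 1 + q)` of length `k' - k - 1 < n`
(`isPath_shift`, `PP_shift`; its signed edges are `fun q => X (k + 1 + q)`). `PP` of it is in `Wsub (Lk e)`, so it is `Nul`
for all `y ∉ Lk e` (`nul_Wsub`), in particular for all `y ∉ St e`; by the induction hypothesis for `T := St e`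
(`conv_St`) all edges `E q`, `k < q < k'`, are in `St e`. None of them is `e`: if `E q = e` with `k < q < k'`, apply
`partner` to the middle part for `v := e` (`e ∉ Lk e` since `Cm` is irreflexive) and the position of `q`: we get a pair
as in (1) with smaller difference, contradiction.
(4) `v k' = v (k + 1)`: `dedge (v k') (a k') = dedge (v k) (a k)` and the labels differ (signs), `dedge_eq_iff`.
(5) `exists_run` for the path shifted by `k`, length `k' - k`, with `H = L0 + 4 R0`: there are `j, l` with `k + H < k'` and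
`a (k + s) = wd j (l + s)` for `s ≤ H` (`2 H ≤ N i` for all `i` by `Long`). Let `A = Lin j l (v k)`. `e ∈ A` (`s = 0`), so `A ⊄ T`
and `(A ∩ T).ncard ≤ L0` (`hT`).
(6) The maximal run: let `i0 ≤ k` and `k + H ≤ i1 < n` be such that `a q = wd j (l + (q - k))` for all `i0 ≤ q ≤ i1`,
`i1` maximal and `i0` minimal (`Nat.findGreatest`, `Nat.find`). So with `l' = l + i0 - k` the hypotheses of
`window_forward`, `window_backward` hold.
(7) Let `k ≤ q ≤ k + H` with `E q ∉ T`. `partner` for `y = E q` gives a position `q'` with edge `y`, the opposite sign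
and `PP` of the part strictly between in `Wsub (Lk y)`; as in (3) (the part is shorter than `n`) all edges
strictly between are in `St y`. So by `window_forward` or `window_backward` `q` satisfies
`(i1 + 1 - q) % N ∈ Bad` or `(q + 1 - i0) % N ∈ Bad` where `Bad = {m < N | m < R0 ∨ N < m + R0}` has at most
`2 R0 - 1` elements. As `q ↦ (i1 + 1 - q) % N` and `q ↦ (q + 1 - i0) % N` are injective on the
`H + 1 ≤ N` consecutive integers `q ∈ [k, k + H]`, at most `2 (2 R0 - 1)` of these `q` have `E q ∉ T`. The edges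
`E q`, `k ≤ q ≤ k + H` are distinct elements of `A` (`dart_inj`, `H < N`, `v (k + s) = v k * seg j l s`), so
`(A ∩ T).ncard ≥ H + 1 - (4 R0 - 2) > L0`, contradiction with (5).
-/

set_option autoImplicit false

namespace Pool.Agent.Helper53.LG

variable {Y I : Type} {S : WSys Y I} {Q : Type} [Group Q] (C : Cover S Q)

/-- balanced over the edge `e` -/
def Cover.Nul (e : Q × Y) (x : RG C.Cm) : Prop :=
  LG.Nul C.Cm (fun _ _ h => Cm_symm C h) (Cm_irrefl C) e x

/-- number of elements of a window of residues near `0` -/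
lemma card_bad (N R0 H c : ℕ) (hN : 0 < N) (hH : H < N) (hR0 : 1 ≤ R0) (f : ℕ → ℕ)
    (hf : ∀ q q', q ≤ H → q' ≤ H → f q = f q' → q = q') (hc : ∀ q, q ≤ H → f q < N) :
    ((Finset.range (H + 1)).filter (fun q => f q < R0 ∨ N < f q + R0)).card ≤ 2 * R0 - 1 := by
  have h1 : (((Finset.range (H + 1)).filter (fun q => f q < R0 ∨ N < f q + R0)).image f) ⊆
      Finset.range R0 ∪ Finset.Ioo (N - R0) N := by
    intro m hm
    obtain ⟨q, hq, rfl⟩ := Finset.mem_image.1 hm
    obtain ⟨hq1, hq2⟩ := Finset.mem_filter.1 hq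
    have hqH : q ≤ H := by
      have := Finset.mem_range.1 hq1
      omega
    have hfq := hc q hqH
    by_cases hlt : f q < R0
    · exact Finset.mem_union_left _ (Finset.mem_range.2 hlt)
    · refine Finset.mem_union_right _ (Finset.mem_Ioo.2 ⟨?_, hfq⟩)
      rcases hq2 with h | h
      · exact absurd h hlt
      · omega
  have h2 : (((Finset.range (H + 1)).filter (fun q => f q < R0 ∨ N < f q + R0)).image f).card =
      ((Finset.range (H + 1)).filter (fun q => f q < R0 ∨ N < f q + R0)).card := by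
    apply Finset.card_image_of_injOn
    intro q hq q' hq' h
    have hq1 := Finset.mem_range.1 (Finset.mem_filter.1 hq).1
    have hq2 := Finset.mem_range.1 (Finset.mem_filter.1 hq').1
    exact hf q q' (by omega) (by omega) h
  have h3 := Finset.card_le_card h1
  have h4 := Finset.card_union_le (Finset.range R0) (Finset.Ioo (N - R0) N)
  rw [Finset.card_range, Nat.card_Ioo] at h4
  omega

private lemma mod_inj {x y N : ℕ} (h : x % N = y % N) (h1 : x < y + N) (h2 : y < x + N) : x = y := by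
  rcases le_total x y with hxy | hxy
  · have h3 := Nat.sub_mod_eq_zero_of_mod_eq h.symm
    rw [Nat.mod_eq_of_lt (by omega)] at h3
    omega
  · have h3 := Nat.sub_mod_eq_zero_of_mod_eq h
    rw [Nat.mod_eq_of_lt (by omega)] at h3
    omega

/-- the induction hypothesis -/
private def IH [Fintype I] (R0 n : ℕ) : Prop :=
  ∀ m, m < n → ∀ (T : Set (Q × Y)), C.Conv (S.L0 R0) T →
    ∀ (v : ℕ → Q) (a : ℕ → Lt Y), IsPath C.g v a → RedOn a m →
    (∀ e, e ∉ T → C.Nul e (PP C.Cm (sed C.g v a) 0 m)) →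
    ∀ k, k < m → edg C.g v a k ∈ T

private lemma nul_of_Wsub (y e : Q × Y) (hy : ¬ C.Cm e y) (x : RG C.Cm)
    (hx : x ∈ Wsub C.Cm (Lk C.Cm e)) : C.Nul y x :=
  nul_Wsub C.Cm _ _ y (Lk C.Cm e) hy x hx

private lemma mid_St [Fintype I] {R0 n : ℕ} (hL : C.Long R0) (ih : IH C R0 n) {v : ℕ → Q}
    {a : ℕ → Lt Y} (hp : IsPath C.g v a) (hred : RedOn a n) (e : Q × Y) (p q : ℕ) (hq : q < n)
    (hmem : PP C.Cm (sed C.g v a) (p + 1) (q - p - 1) ∈ Wsub C.Cm (Lk C.Cm e)) :
    ∀ r, p < r → r < q → edg C.g v a r ∈ C.St e := by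
  intro r hr hrq
  have h := ih (q - p - 1) (by omega) (C.St e) (conv_St C hL.1 hL.2.1 e)
    (fun s => v (p + 1 + s)) (fun s => a (p + 1 + s)) (isPath_shift C.g hp (p + 1)) (by
      intro s hs
      have h2 := hred (p + 1 + s) (by omega)
      exact h2) (by
      intro y hy
      have h3 : PP C.Cm (sed C.g (fun s => v (p + 1 + s)) (fun s => a (p + 1 + s))) 0 (q - p - 1) =
          PP C.Cm (sed C.g v a) (p + 1) (q - p - 1) := PP_shift C.Cm (sed C.g v a) (p + 1) 0 _
      rw [h3]
      exact nul_of_Wsub C y e (fun hc => hy (Or.inr hc)) _ hmem) (r - p - 1) (by omega)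
  have h4 : p + 1 + (r - p - 1) = r := by omega
  have h5 : edg C.g (fun s => v (p + 1 + s)) (fun s => a (p + 1 + s)) (r - p - 1) =
      edg C.g v a (p + 1 + (r - p - 1)) := rfl
  rw [h5, h4] at h
  exact h

theorem gl_main [Fintype I] {R0 : ℕ} (hL : C.Long R0) (n : ℕ) : ∀ (T : Set (Q × Y)), C.Conv (S.L0 R0) T →
    ∀ (v : ℕ → Q) (a : ℕ → Lt Y), IsPath C.g v a → RedOn a n →
    (∀ e, e ∉ T → C.Nul e (PP C.Cm (sed C.g v a) 0 n)) →
    ∀ k, k < n → edg C.g v a k ∈ T := by
  induction n using Nat.strong_induction_on with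
  | _ n ih0 =>
  have ih : IH C R0 n := fun m hm => ih0 m hm
  intro T hT v a hp hred hnul k0 hk0
  by_contra hk0T
  classical
  obtain ⟨X, hX⟩ : ∃ X : ℕ → (Q × Y) × Bool, X = sed C.g v a := ⟨_, rfl⟩
  obtain ⟨E, hE⟩ : ∃ E : ℕ → Q × Y, E = edg C.g v a := ⟨_, rfl⟩
  have hX1 : ∀ k, (X k).1 = E k := fun k => by rw [hX, hE]; rfl
  have hX2 : ∀ k, (X k).2 = (a k).2 := fun k => by rw [hX]; rfl
  have hEdef : ∀ k, E k = dedge C.g (v k) (a k) := fun k => by rw [hE]; rfl
  rw [← hE] at hk0T
  rw [← hX] at hnul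
  have hmid : ∀ (e : Q × Y) (p q : ℕ), q < n →
      PP C.Cm X (p + 1) (q - p - 1) ∈ Wsub C.Cm (Lk C.Cm e) →
      ∀ r, p < r → r < q → E r ∈ C.St e := by
    intro e p q hq hmem
    rw [hX] at hmem
    rw [hE]
    exact mid_St C hL ih hp hred e p q hq hmem
  -- pairs
  let P : ℕ → ℕ → Prop := fun k k' => k < k' ∧ k' < n ∧ E k' = E k ∧ E k ∉ T ∧
    (a k').2 ≠ (a k).2 ∧ PP C.Cm X (k + 1) (k' - k - 1) ∈ Wsub C.Cm (Lk C.Cm (E k))
  -- partners in the whole path
  have hpart : ∀ k, k < n → E k ∉ T → ∃ k', k' < n ∧ E k' = E k ∧ (a k').2 ≠ (a k).2 ∧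
      ((k < k' ∧ PP C.Cm X (k + 1) (k' - k - 1) ∈ Wsub C.Cm (Lk C.Cm (E k))) ∨
       (k' < k ∧ PP C.Cm X (k' + 1) (k - k' - 1) ∈ Wsub C.Cm (Lk C.Cm (E k)))) := by
    intro k hk hkT
    obtain ⟨k', h1, h2, h3, h4⟩ := partner C.Cm _ _ (E k) X n (hnul _ hkT) k hk (hX1 k)
    refine ⟨k', h1, ?_, ?_, h4⟩
    · rw [← hX1]; exact h2
    · rw [← hX2, ← hX2]; exact h3
  have hex : ∃ d, ∃ k, P k (k + d) := by
    obtain ⟨k', h1, h2, h3, h4 | h4⟩ := hpart k0 hk0 hk0T
    · refine ⟨k' - k0, k0, ?_⟩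
      have e1 : k0 + (k' - k0) = k' := by omega
      rw [e1]
      exact ⟨h4.1, h1, h2, hk0T, h3, h4.2⟩
    · refine ⟨k0 - k', k', ?_⟩
      have e1 : k' + (k0 - k') = k0 := by omega
      rw [e1]
      refine ⟨h4.1, hk0, h2.symm, ?_, h3.symm, ?_⟩
      · rw [h2]; exact hk0T
      · rw [h2]; exact h4.2
  obtain ⟨d, hd, hdmin⟩ : ∃ d, (∃ k, P k (k + d)) ∧ ∀ d' < d, ¬ ∃ k, P k (k + d') :=
    ⟨Nat.find hex, Nat.find_spec hex, fun d' hd' => Nat.find_min hex hd'⟩
  obtain ⟨k, hPk⟩ := hd
  obtain ⟨k', hk'⟩ : ∃ k', k' = k + d := ⟨_, rfl⟩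
  rw [← hk'] at hPk
  obtain ⟨hkk', hk'n, hEE, hET, hsg, hW⟩ := hPk
  have hmin : ∀ p q, q < p + d → ¬ P p q := by
    intro p q hpq hP
    have hlt := hP.1
    refine hdmin (q - p) (by omega) ⟨p, ?_⟩
    have e1 : p + (q - p) = q := by omega
    rw [e1]
    exact hP
  -- (2)
  have h2 : k + 1 < k' := by
    by_contra hcon
    have e1 : k' = k + 1 := by omega
    rw [e1] at hEE hsg hk'n
    rw [hE] at hEE
    exact hred k hk'n (edg_succ_eq C.g k hEE hsg)
  -- (3)
  have h3 : ∀ q, k < q → q < k' → E q ∈ C.St (E k) ∧ E q ≠ E k := by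
    intro q hq hq'
    refine ⟨hmid (E k) k k' hk'n hW q hq hq', ?_⟩
    intro hqe
    have hPn : LG.Nul C.Cm (fun _ _ h => Cm_symm C h) (Cm_irrefl C) (E k)
        (PP C.Cm (fun s => X (k + 1 + s)) 0 (k' - k - 1)) := by
      rw [PP_shift, add_zero]
      exact nul_of_Wsub C (E k) (E k) (Cm_irrefl C _) _ hW
    have e1 : k + 1 + (q - k - 1) = q := by omega
    obtain ⟨r, hr1, hr2, hr3, hr4⟩ := partner C.Cm _ _ (E k) (fun s => X (k + 1 + s)) (k' - k - 1)
      hPn (q - k - 1) (by omega) (by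
        change (X (k + 1 + (q - k - 1))).1 = E k
        rw [e1, hX1, hqe])
    have hr2' : E (k + 1 + r) = E k := by
      rw [← hX1]; exact hr2
    have hr3' : (a (k + 1 + r)).2 ≠ (a q).2 := by
      have : (X (k + 1 + r)).2 ≠ (X (k + 1 + (q - k - 1))).2 := hr3
      rw [e1, hX2, hX2] at this
      exact this
    rcases hr4 with ⟨hlt, hmem⟩ | ⟨hlt, hmem⟩
    · refine hmin q (k + 1 + r) (by omega) ⟨by omega, by omega, ?_, ?_, hr3', ?_⟩
      · rw [hr2', hqe]
      · rw [hqe]; exact hET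
      · rw [PP_shift] at hmem
        have e2 : k + 1 + (q - k - 1 + 1) = q + 1 := by omega
        have e3 : r - (q - k - 1) - 1 = k + 1 + r - q - 1 := by omega
        rw [e2, e3] at hmem
        rw [hqe]
        exact hmem
    · refine hmin (k + 1 + r) q (by omega) ⟨by omega, by omega, ?_, ?_, hr3'.symm, ?_⟩
      · rw [hr2', hqe]
      · rw [hr2']; exact hET
      · rw [PP_shift] at hmem
        have e2 : k + 1 + (r + 1) = k + 1 + r + 1 := by omega
        have e3 : q - k - 1 - r - 1 = q - (k + 1 + r) - 1 := by omega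
        rw [e2, e3] at hmem
        rw [hr2']
        exact hmem
  -- (4)
  have h4 : v k' = v (k + 1) := by
    have h5 : dedge C.g (v k) (a k) = dedge C.g (v k') (a k') := by
      rw [← hEdef, ← hEdef, hEE]
    rcases (dedge_eq_iff C.g _ _ _ _).1 h5 with ⟨-, h6⟩ | ⟨h6, -⟩
    · exact absurd (by rw [h6]) hsg
    · rw [h6, hp k]
  -- (5)
  obtain ⟨H, hH⟩ : ∃ H, H = S.L0 R0 + 4 * R0 := ⟨_, rfl⟩
  have hLN := hL.2.2
  obtain ⟨j, l, hHlt, hrun0⟩ := exists_run C (fun s => v (k + s)) (fun s => a (k + s))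
    (isPath_shift C.g hp k) (k' - k) (by omega) (by
      change v (k + (k' - k)) = v (k + 1)
      have e1 : k + (k' - k) = k' := by omega
      rw [e1, h4]) (by
      intro s hs
      exact hred (k + s) (by omega)) (by
      intro q hq hq'
      have h7 := h3 (k + q) (by omega) (by omega)
      rw [hE] at h7
      exact h7) H (by
      intro i
      have := hLN i
      omega)
  have hrun1 : ∀ s, s ≤ H → a (k + s) = S.wd j (l + s) := hrun0
  have hNj := hLN j.1
  have hHN : H < C.N j.1 := by omega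
  have hN0 : 0 < C.N j.1 := by omega
  have hR0 : 1 ≤ R0 := hL.1
  -- the positions on the line
  have hEA : ∀ s, s ≤ H → E (k + s) = dedge C.g (v k * S.seg C.g j l s) (S.wd j (l + s)) := by
    intro s hs
    rw [hEdef, path_add C.g S hp j l k s (fun s' hs' => hrun1 s' (by omega)), hrun1 s hs]
  have hEmem : ∀ s, s ≤ H → E (k + s) ∈ C.Lin j l (v k) := fun s hs => ⟨s, hEA s hs⟩
  have hEinj : ∀ s s', s ≤ H → s' ≤ H → E (k + s) = E (k + s') → s = s' := by
    intro s s' hs hs' h
    rw [hEA s hs, hEA s' hs'] at h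
    exact dart_inj C j l (v k) s s' (by omega) (by omega) h
  have hcard : (C.Lin j l (v k) ∩ T).ncard ≤ S.L0 R0 := by
    rcases hT j l (v k) with h | h
    · exact absurd (h (hEmem 0 (Nat.zero_le _))) hET
    · exact h
  -- (6)
  let Rn : ℕ → Prop := fun q => a q = S.wd j (l + ((q : ℤ) - k))
  obtain ⟨i1, hi1a, hi1n, hi1r, hi1m⟩ : ∃ i1, k + H ≤ i1 ∧ i1 < n ∧ (∀ q, k ≤ q → q ≤ i1 → Rn q) ∧
      (i1 + 1 < n → ¬ Rn (i1 + 1)) := by
    let P1 : ℕ → Prop := fun m => ∀ q, k ≤ q → q ≤ m → Rn q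
    have hbase : P1 (k + H) := by
      intro q hq hq'
      obtain ⟨s, rfl⟩ := Nat.exists_eq_add_of_le hq
      have := hrun1 s (by omega)
      change a (k + s) = S.wd j (l + (((k + s : ℕ) : ℤ) - k))
      rw [this]
      congr 1
      push_cast
      ring
    have hle : k + H ≤ n - 1 := by omega
    refine ⟨Nat.findGreatest P1 (n - 1), Nat.le_findGreatest hle hbase, ?_,
      Nat.findGreatest_spec hle hbase, ?_⟩
    · have := Nat.findGreatest_le (P := P1) (n - 1)
      omega
    · intro hlt hRn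
      refine Nat.findGreatest_is_greatest (P := P1) (n := n - 1)
        (k := Nat.findGreatest P1 (n - 1) + 1) (Nat.lt_succ_self _) (by omega) ?_
      intro q hq hq'
      rcases Nat.lt_or_ge q (Nat.findGreatest P1 (n - 1) + 1) with h | h
      · exact Nat.findGreatest_spec hle hbase q hq (by omega)
      · have e1 : q = Nat.findGreatest P1 (n - 1) + 1 := le_antisymm hq' h
        rw [e1]
        exact hRn
  obtain ⟨i0, hi0k, hi0r, hi0m⟩ : ∃ i0, i0 ≤ k ∧ (∀ q, i0 ≤ q → q ≤ k → Rn q) ∧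
      (0 < i0 → ¬ Rn (i0 - 1)) := by
    have hex2 : ∃ m, ∀ q, m ≤ q → q ≤ k → Rn q := by
      refine ⟨k, fun q hq hq' => ?_⟩
      have e1 : q = k := le_antisymm hq' hq
      rw [e1]
      exact hi1r k le_rfl (by omega)
    refine ⟨Nat.find hex2, ?_, Nat.find_spec hex2, ?_⟩
    · refine Nat.find_min' hex2 (fun q hq hq' => ?_)
      have e1 : q = k := le_antisymm hq' hq
      rw [e1]
      exact hi1r k le_rfl (by omega)
    · intro hpos hRn
      refine Nat.find_min hex2 (m := Nat.find hex2 - 1) (by omega) ?_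
      intro q hq hq'
      rcases Nat.lt_or_ge q (Nat.find hex2) with h | h
      · have e1 : q = Nat.find hex2 - 1 := by omega
        rw [e1]
        exact hRn
      · exact Nat.find_spec hex2 q h hq'
  obtain ⟨l', hl'⟩ : ∃ l' : ℤ, l' = l + (i0 : ℤ) - k := ⟨_, rfl⟩
  have hrunW : ∀ q, i0 ≤ q → q ≤ i1 → a q = S.wd j (l' + ((q : ℤ) - i0)) := by
    intro q hq hq'
    have h8 : Rn q := by
      rcases Nat.lt_or_ge q k with h | h
      · exact hi0r q hq h.le
      · exact hi1r q h hq'
    have h9 : a q = S.wd j (l + ((q : ℤ) - k)) := h8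
    rw [h9, hl']
    congr 1
    ring
  have hmaxF : i1 + 1 < n → a (i1 + 1) ≠ S.wd j (l' + ((i1 : ℤ) + 1 - i0)) := by
    intro h h9
    apply hi1m h
    change a (i1 + 1) = S.wd j (l + (((i1 + 1 : ℕ) : ℤ) - k))
    rw [h9, hl']
    congr 1
    push_cast
    ring
  have hmaxB : 0 < i0 → a (i0 - 1) ≠ S.wd j (l' - 1) := by
    intro h h9
    apply hi0m h
    change a (i0 - 1) = S.wd j (l + (((i0 - 1 : ℕ) : ℤ) - k))
    rw [h9, hl', Nat.cast_sub (by omega)]
    congr 1
    push_cast
    ring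
  -- (7)
  have h7 : ∀ s, s ≤ H → E (k + s) ∉ T →
      ((i1 + 1 - (k + s)) % C.N j.1 < R0 ∨ C.N j.1 < (i1 + 1 - (k + s)) % C.N j.1 + R0) ∨
      ((k + s + 1 - i0) % C.N j.1 < R0 ∨ C.N j.1 < (k + s + 1 - i0) % C.N j.1 + R0) := by
    intro s hs hsT
    obtain ⟨q', hq1, hq2, hq3, hq4 | hq4⟩ := hpart (k + s) (by omega) hsT
    · left
      refine window_forward C hR0 hL.2.1 v a hp n hred i0 i1 (by omega) hi1n j l' hrunW hmaxF
        (k + s) q' (by omega) (by omega) hq4.1 hq1 ?_ hq3 ?_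
      · rw [← hE]; exact hq2
      · intro r hr hr'
        have := hmid (E (k + s)) (k + s) q' hq1 hq4.2 r hr hr'
        rw [hE] at this
        exact this
    · right
      refine window_backward C hR0 hL.2.1 v a hp n hred i0 i1 (by omega) hi1n j l' hrunW hmaxB
        (k + s) q' (by omega) (by omega) hq4.1 ?_ hq3 ?_
      · rw [← hE]; exact hq2
      · intro r hr hr'
        have := hmid (E (k + s)) q' (k + s) (by omega) hq4.2 r hr hr'
        rw [hE] at this
        exact this
  -- counting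
  let G := (Finset.range (H + 1)).filter (fun s => E (k + s) ∈ T)
  let B := (Finset.range (H + 1)).filter (fun s => ¬ E (k + s) ∈ T)
  let B1 := (Finset.range (H + 1)).filter (fun s => (i1 + 1 - (k + s)) % C.N j.1 < R0 ∨
    C.N j.1 < (i1 + 1 - (k + s)) % C.N j.1 + R0)
  let B2 := (Finset.range (H + 1)).filter (fun s => (k + s + 1 - i0) % C.N j.1 < R0 ∨
    C.N j.1 < (k + s + 1 - i0) % C.N j.1 + R0)
  have hGB : G.card + B.card = H + 1 := by
    have := Finset.card_filter_add_card_filter_not (s := Finset.range (H + 1))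
      (fun s => E (k + s) ∈ T)
    rw [Finset.card_range] at this
    exact this
  have hBsub : B ⊆ B1 ∪ B2 := by
    intro s hs
    obtain ⟨hs1, hs2⟩ := Finset.mem_filter.1 hs
    have hsH : s ≤ H := by
      have := Finset.mem_range.1 hs1
      omega
    rcases h7 s hsH hs2 with h | h
    · exact Finset.mem_union_left _ (Finset.mem_filter.2 ⟨hs1, h⟩)
    · exact Finset.mem_union_right _ (Finset.mem_filter.2 ⟨hs1, h⟩)
  have hB1 : B1.card ≤ 2 * R0 - 1 := by
    refine card_bad (C.N j.1) R0 H 0 hN0 hHN hR0 (fun s => (i1 + 1 - (k + s)) % C.N j.1) ?_ ?_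
    · intro q q' hq hq' h
      have := mod_inj h (by omega) (by omega)
      omega
    · intro q _
      exact Nat.mod_lt _ hN0
  have hB2 : B2.card ≤ 2 * R0 - 1 := by
    refine card_bad (C.N j.1) R0 H 0 hN0 hHN hR0 (fun s => (k + s + 1 - i0) % C.N j.1) ?_ ?_
    · intro q q' hq hq' h
      have := mod_inj h (by omega) (by omega)
      omega
    · intro q _
      exact Nat.mod_lt _ hN0
  have hG : G.card ≤ S.L0 R0 := by
    refine le_trans ?_ hcard
    have hfin : (C.Lin j l (v k) ∩ T).Finite := (Lin_finite C j l (v k)).inter_of_left T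
    have h9 : (G.image (fun s => E (k + s))).card = G.card := by
      apply Finset.card_image_of_injOn
      intro s hs s' hs' h
      have hs1 := Finset.mem_range.1 (Finset.mem_filter.1 hs).1
      have hs2 := Finset.mem_range.1 (Finset.mem_filter.1 hs').1
      exact hEinj s s' (by omega) (by omega) h
    rw [← h9, ← Set.ncard_coe_finset]
    refine Set.ncard_le_ncard ?_ hfin
    intro y hy
    obtain ⟨s, hs, rfl⟩ := Finset.mem_image.1 (Finset.mem_coe.1 hy)
    obtain ⟨hs1, hs2⟩ := Finset.mem_filter.1 hs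
    have hs3 := Finset.mem_range.1 hs1
    exact ⟨hEmem s (by omega), hs2⟩
  have h10 := Finset.card_le_card hBsub
  have h11 := Finset.card_union_le B1 B2
  omega

end Pool.Agent.Helper53.LG
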