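import Pool.Agent.Helper53.LG.GL
import Pool.Agent.Helper53.LG.Coc

/-!
# LG-23: consequences of the main lemma

`tc C l q = coc C.g (fun e => tau C.Cm (e, true)) l q`.

* `line_unique`: `Lin i κ p = Lin j l p` and `wd i κ = wd j l`: the vertex `p * seg i κ R0` (`R0 < N`) is an endpoint of an edge
  of `Lin i κ p = Lin j l p`, so by `vertex_of_mem` it is `p * seg j l M'`, `M' < N j`; `close_dart` with `M = R0`: the alternatives
  `R0 < R0` and `N < 2 R0` are impossible (`Long`).
* `line_unique'`: the dart `(p, wd i κ)` has its edge in `Lin j l p`, `next_dart`: `wd i κ = wd j l` (`line_unique`), or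
  `wd i κ = bar (wd j (l - 1)) = wd (rev j) (-l)`, and `Lin j l p = Lin (rev j) (-l) p` (`Lin_rev`), `line_unique`.
* `tc_eq_one`: if `l ≠ 1` take `a, n` from `exists_fpw` and the path `v k = q * evQ (fpw a k)`; by `coc_fpw` `PP = 1`, `nul_one`,
  `gl_main` for `T = ∅` (`conv_empty`): the edge at position `0` is in `∅`.
* `tc_line`: `A = Lin (i, true) 0 q`. If `l = 1`: `Lin (j, true) 0 q = A`, `line_unique'`: `(i, true) = (j, true)` (the other
  alternative `(j, true) = rev (i, true) = (i, false)` is impossible). If `l ≠ 1`: `l = fpw a n`, path `v` as before; `gl_main`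
  for `T = A` (`conv_Lin`, `nul_Wsub`): all edges are in `A`. `next_dart` at the vertex `q`: `a 0 = wd (i, true) 0` or
  `a 0 = bar (wd (i, true) (-1)) = wd (i, false) 0`; so with `i' = (i, true)` or `(i, false)`: `a 0 = wd i' 0`, `A = Lin i' 0 q`
  (`Lin_rev`). By induction `a k = wd i' k` for `k < n`: `v (k + 1) = q * seg i' 0 (k + 1)`, `A = Lin i' (k + 1) (v (k + 1))`
  (`Lin_shift`), `next_dart`: the other alternative is `a (k + 1) = bar (wd i' k) = bar (a k)`, excluded. So
  `l = seg of i' 0 n`, and `Lin (j, true) 0 (v n) = A = Lin i' n (v n)`, so by `line_unique'` `j = i` and `S.n i ∣ n`. If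
  `i' = (i, true)` then `l = c ^ (n / S.n i)` (`seg_pow`); if `i' = (i, false)`, `l⁻¹ = seg (i, true) (-n) n = seg (i, true) 0 n` (`seg_rev`,
  `seg_congr`).
-/

namespace Pool.Agent.Helper53.LG

variable {Y I : Type} [Fintype I] {S : WSys Y I} {Q : Type} [Group Q] (C : Cover S Q)

/-- the cocycle with values in the right-angled Coxeter group -/
noncomputable def Cover.tc (l : FreeGroup Y) (q : Q) : RG C.Cm := coc C.g (fun e => tau C.Cm (e, true)) l q

omit [Fintype I] in
lemma evQ_lv (a : Lt Y) : evQ C.g (lv FreeGroup.of a) = lv C.g a := by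
  rcases a with ⟨y, _ | _⟩ <;> simp [lv]

omit [Fintype I] in
lemma fpw_congr {a b : ℕ → Lt Y} {n : ℕ} (h : ∀ s, s < n → a s = b s) : fpw a n = fpw b n := by
  induction n with
  | zero => rfl
  | succ n ih =>
    rw [fpw, fpw, ih (fun s hs => h s (by omega)), h n (by omega)]

omit [Fintype I] in
/-- the path from `q` with letters `a` -/
lemma isPath_fpw (a : ℕ → Lt Y) (q : Q) : IsPath C.g (fun k => q * evQ C.g (fpw a k)) a := by
  intro k
  show q * evQ C.g (fpw a (k + 1)) = q * evQ C.g (fpw a k) * lv C.g (a k)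
  rw [fpw, map_mul, evQ_lv, mul_assoc]

omit [Fintype I] in
lemma tc_fpw (a : ℕ → Lt Y) (q : Q) (n : ℕ) :
    C.tc (fpw a n) q = PP C.Cm (sed C.g (fun k => q * evQ C.g (fpw a k)) a) 0 n := by
  have h := coc_fpw C.g C.Cm (fun k => q * evQ C.g (fpw a k)) a (isPath_fpw C a q) n
  have h0 : q * evQ C.g (fpw a 0) = q := by
    rw [fpw, map_one, mul_one]
  rw [← h]
  show coc C.g (fun e => tau C.Cm (e, true)) (fpw a n) q =
    coc C.g (fun e => tau C.Cm (e, true)) (fpw a n) (q * evQ C.g (fpw a 0))
  rw [h0]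

theorem line_unique {R0 : ℕ} (hL : C.Long R0) (i j : I × Bool) (κ l : ℤ) (p : Q)
    (h : C.Lin i κ p = C.Lin j l p) (hl : S.wd i κ = S.wd j l) : i = j ∧ (S.n i.1 : ℤ) ∣ κ - l := by
  obtain ⟨hR0, hsep, hN⟩ := hL
  have hNi := hN i.1
  have hmem : dedge C.g (p * S.seg C.g i κ R0) (S.wd i (κ + R0)) ∈ C.Lin j l p := by
    rw [← h]
    exact ⟨R0, rfl⟩
  obtain ⟨M', hM', hv⟩ := vertex_of_mem C j l p _ _ hmem
  have hseg := mul_left_cancel hv
  rcases close_dart C hR0 hsep i j κ l R0 M' hl (by omega) hM' hseg with h1 | h1 | h1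
  · exact h1
  · exact absurd h1 (lt_irrefl _)
  · omega

theorem line_unique' {R0 : ℕ} (hL : C.Long R0) (i j : I × Bool) (κ l : ℤ) (p : Q)
    (h : C.Lin i κ p = C.Lin j l p) :
    (i = j ∧ (S.n i.1 : ℤ) ∣ κ - l) ∨ (i = rev j ∧ (S.n i.1 : ℤ) ∣ κ + l) := by
  have hm : dedge C.g p (S.wd i κ) ∈ C.Lin j l p := by
    rw [← h]
    exact self_mem_Lin C i κ p
  rcases next_dart C j l p _ hm with h1 | h1
  · exact Or.inl (line_unique C hL i j κ l p h h1)
  · right
    have h2 : S.wd i κ = S.wd (rev j) (-l) := by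
      rw [wd_rev, h1]
      congr 2
      ring
    have h3 := line_unique C hL i (rev j) κ (-l) p (by rw [Lin_rev, h]) h2
    refine ⟨h3.1, ?_⟩
    have h4 := h3.2
    rwa [sub_neg_eq_add] at h4

theorem tc_eq_one {R0 : ℕ} (hL : C.Long R0) (l : FreeGroup Y) (q : Q) (h : C.tc l q = 1) : l = 1 := by
  by_contra hl
  obtain ⟨a, n, hn, hred, rfl⟩ := exists_fpw l hl
  rw [tc_fpw] at h
  have h1 := gl_main C hL n ∅ (conv_empty C _) (fun k => q * evQ C.g (fpw a k)) a (isPath_fpw C a q)
    hred (by
      intro e _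
      rw [h]
      exact nul_one C.Cm _ _ e) 0 hn
  exact h1

theorem tc_line {R0 : ℕ} (hL : C.Long R0) (i j : I) (l : FreeGroup Y) (q : Q)
    (h1 : C.tc l q ∈ Wsub C.Cm (C.Lin (i, true) 0 q))
    (h2 : C.Lin (j, true) 0 (q * evQ C.g l) = C.Lin (i, true) 0 q) :
    i = j ∧ l ∈ Subgroup.zpowers (S.seg FreeGroup.of (i, true) 0 (S.n i)) := by
  by_cases hl : l = 1
  · subst hl
    rw [map_one, mul_one] at h2
    rcases line_unique' C hL (j, true) (i, true) 0 0 q h2 with h3 | h3
    · refine ⟨?_, one_mem _⟩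
      have := congrArg Prod.fst h3.1
      exact this.symm
    · have := congrArg Prod.snd h3.1
      simp [rev] at this
  obtain ⟨a, n, hn, hred, rfl⟩ := exists_fpw l hl
  rw [tc_fpw] at h1
  set v : ℕ → Q := fun k => q * evQ C.g (fpw a k) with hv
  have hpath : IsPath C.g v a := isPath_fpw C a q
  have hv0 : v 0 = q := by
    simp [hv, fpw]
  have hmain := gl_main C hL n (C.Lin (i, true) 0 q) (conv_Lin C hL.1 hL.2.1 (i, true) 0 q) v a hpath
    hred (by
      intro e he
      exact nul_Wsub C.Cm _ _ e _ he _ h1)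
  -- the direction
  obtain ⟨i', hi1, hi2, hi3⟩ : ∃ i' : I × Bool, (i' = (i, true) ∨ i' = (i, false)) ∧ a 0 = S.wd i' 0 ∧
      C.Lin i' 0 q = C.Lin (i, true) 0 q := by
    have h3 := hmain 0 hn
    have h4 : edg C.g v a 0 = dedge C.g q (a 0) := by
      unfold edg
      rw [hv0]
    rw [h4] at h3
    rcases next_dart C (i, true) 0 q _ h3 with h5 | h5
    · exact ⟨(i, true), Or.inl rfl, h5, rfl⟩
    · refine ⟨(i, false), Or.inr rfl, ?_, ?_⟩
      · have h6 := wd_rev S (i, true) 0
        have h7 : rev (i, true) = (i, false) := rfl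
        rw [h7] at h6
        rw [h6, h5]
        congr 2
      · have h6 := Lin_rev C (i, true) 0 q
        have h7 : rev (i, true) = (i, false) := rfl
        rw [h7, neg_zero] at h6
        exact h6
  have hfst : i'.1 = i := by
    rcases hi1 with rfl | rfl <;> rfl
  have hrun : ∀ k, k < n → ∀ s, s ≤ k → a s = S.wd i' ((0 : ℤ) + s) := by
    intro k
    induction k with
    | zero =>
      intro _ s hs
      have : s = 0 := by omega
      subst this
      rw [hi2]
      simp
    | succ k ih =>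
      intro hk s hs
      have ih' := ih (by omega)
      rcases Nat.lt_or_ge s (k + 1) with h3 | h3
      · exact ih' s (by omega)
      have hs' : s = k + 1 := by omega
      subst hs'
      have hvk : v (k + 1) = q * S.seg C.g i' 0 (k + 1) := by
        have h4 := path_add C.g S hpath i' 0 0 (k + 1) (fun s hs => by
          rw [zero_add]
          exact ih' s (by omega))
        rw [zero_add, hv0] at h4
        exact h4
      have h4 := hmain (k + 1) hk
      unfold edg at h4
      rw [hvk, ← hi3, ← Lin_shift C i' 0 q (k + 1)] at h4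
      rcases next_dart C i' _ _ _ h4 with h5 | h5
      · exact h5
      · exfalso
        apply hred k hk
        rw [h5, ih' k le_rfl]
        congr 2
        push_cast
        ring
  have hrun' : ∀ s, s < n → a s = S.wd i' ((0 : ℤ) + s) := fun s hs => hrun s hs s le_rfl
  have hl1 : fpw a n = S.seg FreeGroup.of i' 0 n := by
    rw [seg_eq_fpw]
    exact fpw_congr hrun'
  have hev : evQ C.g (fpw a n) = S.seg C.g i' 0 n := by
    rw [hl1, evQ_seg]
  rw [hev, ← hi3, ← Lin_shift C i' 0 q n] at h2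
  have hdvd : j = i ∧ S.n i ∣ n := by
    rcases line_unique' C hL (j, true) i' 0 _ _ h2 with h3 | h3
    · have h4 : j = i := by
        have := congrArg Prod.fst h3.1
        rw [hfst] at this
        exact this
      refine ⟨h4, ?_⟩
      have h5 : (S.n j : ℤ) ∣ 0 - (0 + n) := h3.2
      rw [h4, zero_add, zero_sub, dvd_neg] at h5
      exact_mod_cast h5
    · have h4 : j = i := by
        have := congrArg Prod.fst h3.1
        rw [rev_fst, hfst] at this
        exact this
      refine ⟨h4, ?_⟩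
      have h5 : (S.n j : ℤ) ∣ 0 + (0 + n) := h3.2
      rw [h4, zero_add, zero_add] at h5
      exact_mod_cast h5
  obtain ⟨hji, k, hk⟩ := hdvd
  refine ⟨hji.symm, ?_⟩
  have hpow : S.seg FreeGroup.of (i, true) 0 n = (S.seg FreeGroup.of (i, true) 0 (S.n i)) ^ k := by
    have h3 := seg_pow S FreeGroup.of (i, true) 0 k 0
    rw [add_zero, seg_zero, mul_one] at h3
    rw [hk]
    exact h3
  rcases hi1 with rfl | rfl
  · rw [hl1, hpow]
    exact Subgroup.npow_mem_zpowers _ k
  · have h3 := seg_rev FreeGroup.of S (i, false) 0 n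
    have h4 : rev (i, false) = (i, true) := rfl
    rw [h4] at h3
    have h5 : S.seg FreeGroup.of (i, true) (-0 - (n : ℤ)) n = S.seg FreeGroup.of (i, true) 0 n := by
      refine seg_congr FreeGroup.of S (i, true) ?_ n
      show (S.n i : ℤ) ∣ _
      rw [hk]
      push_cast
      exact ⟨-k, by ring⟩
    rw [h5, hpow] at h3
    rw [hl1, ← inv_inv (S.seg FreeGroup.of (i, false) 0 n), h3]
    exact inv_mem (Subgroup.npow_mem_zpowers _ k)

end Pool.Agent.Helper53.LG
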