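import Pool.Agent.Helper53.LG.NG
import Pool.Agent.Helper53.LG.Clean

/-!
# LG-10: the numbers game for clean words

`lam` with `yy s lam ≥ 0` for all `s`; `l` a clean word, `x = act (wprod l) lam`.

`game`: (i) `yy s x ≤ 0` for `s ∈ Des l`; (ii) `yy s x ≥ 0` for `s ∉ Des l`; (iii) `yy s x ≥ |yy r x|` for
`s ∉ Des l`, `r ∈ Des l`, `¬ Cm s.1 r.1`. Induction on `l`. `l = []`: `Des = ∅`, hypothesis. `s :: l`: let
`x = act (wprod l) lam`, `x' = act (gen s) x = x - yy s x • al s`, `s ∉ Des l`, so `yy s x ≥ 0`. By `yy_al`: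
`yy s x' = - yy s x`; `yy r x' = yy r x` if `Cm r.1 s.1`; `yy r x' = yy r x + 2 yy s x` if `r ≠ s`, `¬ Cm r.1 s.1`.
`Des (s :: l) = {s} ∪ {r ∈ Des l | Cm r.1 s.1}`.
(i): `s`: clear. `r ∈ Des l`, `Cm r.1 s.1`: `yy r x' = yy r x ≤ 0`.
(ii) and (iii) with `r = s`: let `q ∉ Des (s :: l)`, so `q ≠ s`. If `Cm q.1 s.1` then `q ∉ Des l`, `yy q x' = yy q x ≥ 0`. If
`¬ Cm q.1 s.1`: if `q ∈ Des l` then `yy s x ≥ |yy q x|` by (iii) for `l` (with `s ∉ Des l`, symmetry), so
`yy q x' ≥ yy s x = |yy s x'| ≥ 0`; if `q ∉ Des l` then `yy q x' ≥ 2 yy s x ≥ |yy s x'|`.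
(iii) with `r ∈ Des l`, `Cm r.1 s.1`, `q ∉ Des (s :: l)`, `¬ Cm q.1 r.1`: `yy r x' = yy r x`. If `Cm q.1 s.1`: `q ∉ Des l`, and
`yy q x' = yy q x ≥ |yy r x|`. If `¬ Cm q.1 s.1`: `q ∈ Des l` is impossible by `des_comm` (`q ≠ r`, since
`r ∈ Des (s :: l)`), so `yy q x' ≥ yy q x ≥ |yy r x|` by (iii).

`game_neg`: induction on `l` with `game`: `x' = x - yy s x • al s` and `yy s x ≥ 0`. The last letter `t`: for
`l = [t]` the coefficient of `al t` is `yy t lam`; then the coefficients only increase.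
-/

namespace Pool.Agent.Helper53.LG

variable {V : Type} [Fintype V] (Cm : V → V → Prop)
  (hsymm : ∀ u v, Cm u v → Cm v u) (hirr : ∀ u, ¬ Cm u u)

private lemma game_act_cons (lam : EE V) (s : V × Bool) (l : List (V × Bool)) :
    act Cm hsymm hirr (wprod Cm (s :: l)) lam =
      act Cm hsymm hirr (wprod Cm l) lam -
        yy Cm s (act Cm hsymm hirr (wprod Cm l) lam) • al s := by
  have h1 : wprod Cm (s :: l) = gen Cm s * wprod Cm l := by
    simp [wprod]
  rw [h1, map_mul]
  show act Cm hsymm hirr (gen Cm s) (act Cm hsymm hirr (wprod Cm l) lam) = _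
  rw [act_gen]

omit [Fintype V] in
private lemma game_mm_self (s : V × Bool) : mm Cm s s = 2 := by
  unfold mm
  rw [if_pos rfl]

omit [Fintype V] in
include hirr in
private lemma game_mm_comm {s t : V × Bool} (h : Cm s.1 t.1) : mm Cm s t = 0 := by
  unfold mm
  rw [if_neg, if_pos h]
  rintro rfl
  exact hirr _ h

omit [Fintype V] in
private lemma game_mm_ne {s t : V × Bool} (hst : s ≠ t) (h : ¬ Cm s.1 t.1) : mm Cm s t = -2 := by
  unfold mm
  rw [if_neg hst, if_neg h]

theorem game (lam : EE V) (hlam : ∀ s, 0 ≤ yy Cm s lam) (l : List (V × Bool)) (hl : Clean Cm l) :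
    (∀ s ∈ Des Cm l, yy Cm s (act Cm hsymm hirr (wprod Cm l) lam) ≤ 0) ∧
    (∀ s, s ∉ Des Cm l → 0 ≤ yy Cm s (act Cm hsymm hirr (wprod Cm l) lam)) ∧
    (∀ s, s ∉ Des Cm l → ∀ r ∈ Des Cm l, ¬ Cm s.1 r.1 →
      |yy Cm r (act Cm hsymm hirr (wprod Cm l) lam)| ≤ yy Cm s (act Cm hsymm hirr (wprod Cm l) lam)) := by
  induction l with
  | nil =>
    have h1 : wprod Cm ([] : List (V × Bool)) = 1 := rfl
    have h2 : act Cm hsymm hirr (wprod Cm ([] : List (V × Bool))) lam = lam := by
      rw [h1, map_one]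
      rfl
    rw [h2]
    refine ⟨?_, fun s _ => hlam s, ?_⟩
    · intro s hs
      exact absurd hs (Set.notMem_empty s)
    · intro s _ r hr
      exact absurd hr (Set.notMem_empty r)
  | cons s l ih =>
    obtain ⟨hsl, hl'⟩ := hl
    obtain ⟨i1, i2, i3⟩ := ih hl'
    obtain ⟨x, hx⟩ : ∃ x, x = act Cm hsymm hirr (wprod Cm l) lam := ⟨_, rfl⟩
    rw [game_act_cons, ← hx]
    rw [← hx] at i1 i2 i3
    have hs0 : 0 ≤ yy Cm s x := i2 s hsl
    have e0 : ∀ q, yy Cm q (x - yy Cm s x • al s) = yy Cm q x - yy Cm s x * mm Cm q s := by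
      intro q
      rw [map_sub, map_smul, yy_al, smul_eq_mul]
    have es : yy Cm s (x - yy Cm s x • al s) = -yy Cm s x := by
      rw [e0, game_mm_self]
      ring
    have ec : ∀ q : V × Bool, Cm q.1 s.1 → yy Cm q (x - yy Cm s x • al s) = yy Cm q x := by
      intro q hq
      rw [e0, game_mm_comm Cm hirr hq, mul_zero, sub_zero]
    have en : ∀ q : V × Bool, q ≠ s → ¬ Cm q.1 s.1 →
        yy Cm q (x - yy Cm s x • al s) = yy Cm q x + 2 * yy Cm s x := by
      intro q hq hqs
      rw [e0, game_mm_ne Cm hq hqs]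
      ring
    have hdes : ∀ q, q ∈ Des Cm (s :: l) ↔ q = s ∨ (q ∈ Des Cm l ∧ Cm q.1 s.1) := by
      intro q
      simp [Des]
    have hneg : ∀ q, q ∉ Des Cm (s :: l) → q ≠ s ∧ (Cm q.1 s.1 → q ∉ Des Cm l) := by
      intro q hq
      rw [hdes, not_or] at hq
      exact ⟨hq.1, fun h h2 => hq.2 ⟨h2, h⟩⟩
    -- a bound for the letters which do not commute with `s`
    have hbig : ∀ q, q ≠ s → ¬ Cm q.1 s.1 →
        yy Cm s x ≤ yy Cm q (x - yy Cm s x • al s) := by
      intro q hq hqs
      rw [en q hq hqs]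
      by_cases hql : q ∈ Des Cm l
      · have h1 := i3 s hsl q hql (fun h => hqs (hsymm _ _ h))
        have h2 := abs_le.1 h1
        linarith [h2.1]
      · have h1 := i2 q hql
        linarith
    refine ⟨?_, ?_, ?_⟩
    · intro r hr
      rcases (hdes r).1 hr with rfl | ⟨hr1, hr2⟩
      · rw [es]
        linarith
      · rw [ec r hr2]
        exact i1 r hr1
    · intro q hq
      obtain ⟨hq1, hq2⟩ := hneg q hq
      by_cases hqs : Cm q.1 s.1
      · rw [ec q hqs]
        exact i2 q (hq2 hqs)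
      · exact hs0.trans (hbig q hq1 hqs)
    · intro q hq r hr hqr
      obtain ⟨hq1, hq2⟩ := hneg q hq
      rcases (hdes r).1 hr with rfl | ⟨hr1, hr2⟩
      · rw [es, abs_neg, abs_of_nonneg hs0]
        exact hbig q hq1 hqr
      · rw [ec r hr2]
        by_cases hqs : Cm q.1 s.1
        · rw [ec q hqs]
          exact i3 q (hq2 hqs) r hr1 hqr
        · have hql : q ∉ Des Cm l := by
            intro hql
            apply hqr
            apply des_comm Cm hsymm l q r hql hr1
            rintro rfl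
            exact hq hr
          rw [en q hq1 hqs]
          have h1 := i3 q hql r hr1 hqr
          linarith

theorem game_neg (lam : EE V) (hlam : ∀ s, 0 ≤ yy Cm s lam) (l : List (V × Bool)) (hl : Clean Cm l) :
    ∃ c : V × Bool → ℝ, (∀ t, 0 ≤ c t) ∧
      act Cm hsymm hirr (wprod Cm l) lam = lam - ∑ t, c t • al t ∧
      ∀ t, l.getLast? = some t → 0 < yy Cm t lam → 0 < c t := by
  classical
  induction l with
  | nil =>
    refine ⟨fun _ => 0, fun _ => le_rfl, ?_, ?_⟩
    · have h1 : wprod Cm ([] : List (V × Bool)) = 1 := rfl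
      rw [h1, map_one]
      simp
    · intro t ht
      simp at ht
  | cons s l ih =>
    obtain ⟨hsl, hl'⟩ := hl
    obtain ⟨c, hc0, hc, hct⟩ := ih hl'
    obtain ⟨-, i2, -⟩ := game Cm hsymm hirr lam hlam l hl'
    have hs0 : 0 ≤ yy Cm s (act Cm hsymm hirr (wprod Cm l) lam) := i2 s hsl
    obtain ⟨y, hy⟩ : ∃ y, y = yy Cm s (act Cm hsymm hirr (wprod Cm l) lam) := ⟨_, rfl⟩
    rw [← hy] at hs0
    refine ⟨fun t => c t + if t = s then y else 0, ?_, ?_, ?_⟩
    · intro t
      have := hc0 t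
      dsimp only
      split_ifs
      · linarith
      · linarith
    · rw [game_act_cons, ← hy, hc]
      have h1 : ∑ t, (c t + if t = s then y else 0) • (al t : EE V) =
          ∑ t, c t • (al t : EE V) + y • al s := by
        simp only [add_smul, ite_smul, zero_smul, Finset.sum_add_distrib, Finset.sum_ite_eq',
          Finset.mem_univ, if_true]
      rw [h1]
      abel
    · intro t ht htl
      dsimp only
      rcases l with _ | ⟨r, l⟩
      · have hts : s = t := by simpa using ht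
        subst hts
        have h1 : act Cm hsymm hirr (wprod Cm ([] : List (V × Bool))) lam = lam := by
          have h1 : wprod Cm ([] : List (V × Bool)) = 1 := rfl
          rw [h1, map_one]
          rfl
        rw [h1] at hy
        rw [if_pos rfl, hy]
        have := hc0 s
        linarith
      · have h1 : (r :: l).getLast? = some t := by
          rw [← ht]
          simp [List.getLast?_cons]
        have h2 := hct t h1 htl
        split_ifs
        · linarith
        · linarith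

end Pool.Agent.Helper53.LG
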