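import Pool.Agent.Helper53.LG.NFops

/-!
# LG-29: trivialization along the cosets of a cyclic group

`Q` finite group, `h ∈ Q` of order `d`, `(c f) q = ρ q (f (q * h))`, `(t f) q = T (f q)`, with `∏_{j < d} ρ (q h^j) = X q ^ d` (ordered product),
`X (q h) = X q`, `T` commutes with all `ρ q` and `X q`. Let `O = Q ⧸ zpowers h` (left cosets `q ⟨h⟩`), `q_o = o.out`. Every `q` is uniquely
`q_o * h ^ j`, `0 ≤ j < d`. Define `Φ f o k = H o j (f (q_o * h ^ j))`, `j = k.val` (`k : ZMod d`), where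
`H o j = X(q_o)^{-j} ∘ ρ (q_o) ∘ ρ (q_o h) ∘ … ∘ ρ (q_o h^{j-1})`. Then
`H o (j + 1) = X⁻¹ ∘ H o j ∘ ρ (q_o h^j)` (`X(q_o)` commutes with its powers) and `H o d = 1` by the product hypothesis, so
`Φ (c f) o k = H o j (ρ (q_o h^j) (f (q_o h^{j+1}))) = X(q_o) (H o (j + 1) (f (q_o h^{j+1}))) = X(q_o) (Φ f o (k + 1))`, also for `j = d - 1`
(`(k + 1).val = 0`, `h^d = 1`, `H o d = 1 = H o 0`). `T` commutes with `H o j`. `Φ` is a linear equivalence
`(Q → U) ≃ (O → ZMod d → U)` (`q ↦ (o, j)` is a bijection `Q ≃ O × ZMod d` and the `H o j` are invertible). Now apply `nf_conj` and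
`nf_of_nf1` (`X(q_o)`, `M q_o`).
-/

namespace Pool.Agent.Helper53.LG

/-- the ordered product of the first `j` values along a coset -/
private noncomputable def gP {Q U : Type} [Group Q] [AddCommGroup U] [Module ℝ U] (h : Q)
    (ρ : Q → (U ≃ₗ[ℝ] U)) (q : Q) (j : ℕ) : U ≃ₗ[ℝ] U :=
  ((List.range j).map fun i => ρ (q * h ^ i)).prod

private theorem gP_zero {Q U : Type} [Group Q] [AddCommGroup U] [Module ℝ U] (h : Q)
    (ρ : Q → (U ≃ₗ[ℝ] U)) (q : Q) : gP h ρ q 0 = 1 := by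
  simp [gP]

private theorem gP_succ {Q U : Type} [Group Q] [AddCommGroup U] [Module ℝ U] (h : Q)
    (ρ : Q → (U ≃ₗ[ℝ] U)) (q : Q) (j : ℕ) : gP h ρ q (j + 1) = gP h ρ q j * ρ (q * h ^ j) := by
  simp [gP, List.range_succ]

/-- the gauge transformation -/
private noncomputable def gH {Q U : Type} [Group Q] [AddCommGroup U] [Module ℝ U] (h : Q)
    (ρ X : Q → (U ≃ₗ[ℝ] U)) (q : Q) (j : ℕ) : U ≃ₗ[ℝ] U :=
  (X q)⁻¹ ^ j * gP h ρ q j

private theorem gH_zero {Q U : Type} [Group Q] [AddCommGroup U] [Module ℝ U] (h : Q)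
    (ρ X : Q → (U ≃ₗ[ℝ] U)) (q : Q) : gH h ρ X q 0 = 1 := by
  simp [gH, gP_zero]

private theorem gH_succ {Q U : Type} [Group Q] [AddCommGroup U] [Module ℝ U] (h : Q)
    (ρ X : Q → (U ≃ₗ[ℝ] U)) (q : Q) (j : ℕ) :
    X q * gH h ρ X q (j + 1) = gH h ρ X q j * ρ (q * h ^ j) := by
  unfold gH
  rw [gP_succ, pow_succ', mul_assoc, mul_assoc, ← mul_assoc (X q), mul_inv_cancel, one_mul]

private theorem gH_comm {Q U : Type} [Group Q] [AddCommGroup U] [Module ℝ U] (h : Q)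
    (ρ X : Q → (U ≃ₗ[ℝ] U)) (T : U ≃ₗ[ℝ] U) (hTρ : ∀ q, T * ρ q = ρ q * T)
    (hTX : ∀ q, T * X q = X q * T) (q : Q) (j : ℕ) : T * gH h ρ X q j = gH h ρ X q j * T := by
  have h1 : Commute T (X q)⁻¹ := (show Commute T (X q) from hTX q).inv_right
  have h2 : ∀ j, Commute T (gP h ρ q j) := by
    intro j
    induction j with
    | zero => rw [gP_zero]; exact Commute.one_right T
    | succ j ih => rw [gP_succ]; exact ih.mul_right (hTρ _)
  exact (h1.pow_right j).mul_right (h2 j)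

private theorem g_bij {Q : Type} [Group Q] [Fintype Q] (h : Q) :
    Function.Bijective (fun p : (Q ⧸ Subgroup.zpowers h) × ZMod (orderOf h) =>
      p.1.out * h ^ p.2.val) := by
  haveI : NeZero (orderOf h) := ⟨(orderOf_pos h).ne'⟩
  constructor
  · rintro ⟨o, k⟩ ⟨o', k'⟩ he
    simp only at he
    have h1 : o = o' := by
      rw [← Quotient.out_eq' o, ← Quotient.out_eq' o']
      have h2 : (QuotientGroup.mk (o.out * h ^ k.val) : Q ⧸ Subgroup.zpowers h) =
          QuotientGroup.mk (o'.out * h ^ k'.val) := by rw [he]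
      rw [QuotientGroup.mk_mul_of_mem _ (Subgroup.npow_mem_zpowers h _),
        QuotientGroup.mk_mul_of_mem _ (Subgroup.npow_mem_zpowers h _)] at h2
      exact h2
    subst h1
    have h3 := mul_left_cancel he
    have h4 : k.val = k'.val := by
      rw [pow_inj_mod, Nat.mod_eq_of_lt (ZMod.val_lt k), Nat.mod_eq_of_lt (ZMod.val_lt k')] at h3
      exact h3
    rw [ZMod.val_injective _ h4]
  · intro q
    have h1 : (QuotientGroup.mk (QuotientGroup.mk q : Q ⧸ Subgroup.zpowers h).out :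
        Q ⧸ Subgroup.zpowers h) = QuotientGroup.mk q := Quotient.out_eq' _
    rw [QuotientGroup.eq, Subgroup.mem_zpowers_iff] at h1
    obtain ⟨z, hz⟩ := h1
    refine ⟨(QuotientGroup.mk q, (z : ZMod (orderOf h))), ?_⟩
    simp only
    have h2 : h ^ ((z : ZMod (orderOf h)).val) = h ^ z := by
      rw [← zpow_natCast, ZMod.val_intCast, zpow_mod_orderOf]
    rw [h2, hz, mul_inv_cancel_left]

theorem nf_gauge {Q U : Type} [Group Q] [Fintype Q] [AddCommGroup U] [Module ℝ U] (h : Q)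
    (ρ X : Q → (U ≃ₗ[ℝ] U)) (T : U ≃ₗ[ℝ] U) (c t : (Q → U) ≃ₗ[ℝ] (Q → U))
    (hc : ∀ f q, c f q = ρ q (f (q * h))) (ht : ∀ f q, t f q = T (f q))
    (hX : ∀ q, X (q * h) = X q)
    (hρ : ∀ q, ((List.range (orderOf h)).map fun j => ρ (q * h ^ j)).prod = X q ^ orderOf h)
    (hTρ : ∀ q, T * ρ q = ρ q * T) (hTX : ∀ q, T * X q = X q * T)
    (M : Q → Multiset (ℝ × ℝ)) (hM : ∀ q, NF1 (X q) T (M q))
    [Fintype (Q ⧸ Subgroup.zpowers h)] :
    HasNF (orderOf h) c t (∑ o : Q ⧸ Subgroup.zpowers h, M o.out) := by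
  classical
  haveI : NeZero (orderOf h) := ⟨(orderOf_pos h).ne'⟩
  have hd := orderOf_pos h
  let e : (Q ⧸ Subgroup.zpowers h) × ZMod (orderOf h) ≃ Q := Equiv.ofBijective _ (g_bij h)
  have he : ∀ p, e p = p.1.out * h ^ p.2.val := fun p => rfl
  let Φ : (Q → U) ≃ₗ[ℝ] ((Q ⧸ Subgroup.zpowers h) → ZMod (orderOf h) → U) :=
    ((LinearEquiv.funCongrLeft ℝ U e).trans
      (LinearEquiv.piCongrRight fun p => gH h ρ X p.1.out p.2.val)).trans
      (LinearEquiv.curry ℝ U (Q ⧸ Subgroup.zpowers h) (ZMod (orderOf h)))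
  have hΦ : ∀ f o k, Φ f o k = gH h ρ X o.out k.val (f (o.out * h ^ k.val)) := fun f o k => rfl
  have hfull : ∀ q, gH h ρ X q (orderOf h) = 1 := by
    intro q
    unfold gH gP
    rw [hρ q, inv_pow, inv_mul_cancel]
  have hstep : ∀ (f : Q → U) (o : Q ⧸ Subgroup.zpowers h) (k : ZMod (orderOf h)),
      gH h ρ X o.out (k + 1).val (f (o.out * h ^ (k + 1).val)) =
        gH h ρ X o.out (k.val + 1) (f (o.out * h ^ (k.val + 1))) := by
    intro f o k
    by_cases hk : k.val + 1 < orderOf h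
    · have h1 : (k + 1).val = k.val + 1 := by
        have h2 : k + 1 = ((k.val + 1 : ℕ) : ZMod (orderOf h)) := by
          rw [Nat.cast_add, Nat.cast_one, ZMod.natCast_zmod_val]
        rw [h2, ZMod.val_natCast, Nat.mod_eq_of_lt hk]
      rw [h1]
    · have h0 := ZMod.val_lt k
      have h1 : k.val + 1 = orderOf h := by omega
      have h2 : (k + 1).val = 0 := by
        have h3 : k + 1 = ((k.val + 1 : ℕ) : ZMod (orderOf h)) := by
          rw [Nat.cast_add, Nat.cast_one, ZMod.natCast_zmod_val]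
        rw [h3, h1, ZMod.natCast_self, ZMod.val_zero]
      rw [h1, h2, hfull, gH_zero, pow_zero, pow_orderOf_eq_one]
  have hΦc : ∀ f o k, Φ (c f) o k = X o.out (Φ f o (k + 1)) := by
    intro f o k
    rw [hΦ, hΦ, hc, hstep]
    have h1 := gH_succ h ρ X o.out k.val
    have h2 := congrArg (fun g : U ≃ₗ[ℝ] U => g (f (o.out * h ^ (k.val + 1)))) h1
    simp only [LinearEquiv.mul_apply] at h2
    rw [h2, mul_assoc, ← pow_succ]
  have hΦt : ∀ f o k, Φ (t f) o k = T (Φ f o k) := by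
    intro f o k
    rw [hΦ, hΦ, ht]
    have h1 := gH_comm h ρ X T hTρ hTX o.out k.val
    have h2 := congrArg (fun g : U ≃ₗ[ℝ] U => g (f (o.out * h ^ k.val))) h1
    simp only [LinearEquiv.mul_apply] at h2
    exact h2.symm
  refine nf_conj Φ (c' := (Φ.symm.trans c).trans Φ) (t' := (Φ.symm.trans t).trans Φ) ?_ ?_
    (nf_of_nf1 (orderOf h) (fun o : Q ⧸ Subgroup.zpowers h => X o.out) T (fun o => M o.out)
      (fun o => hM o.out) _ _ ?_ ?_)
  · intro v
    simp
  · intro v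
    simp
  · intro f o k
    simp only [LinearEquiv.trans_apply]
    rw [hΦc, LinearEquiv.apply_symm_apply]
  · intro f o k
    simp only [LinearEquiv.trans_apply]
    rw [hΦt, LinearEquiv.apply_symm_apply]

end Pool.Agent.Helper53.LG
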