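import Pool.Agent.Helper53.LG.NFEK
import Pool.Agent.Helper53.LG.Cells

/-!
# LG-35: realization of formal cochains

`n = S.n i`, `N = C.N i`, `dd = C.dd i`, `n * dd = N`, `c = cwS S i`, `h = ev c`.

* `cv_seg`: the value of a cochain `a` on a segment of the line from `q` is `∑_{s < M} sg (wd (i, true) s) * a (edge at position s)`
  (induction on `M`, `coc_mul`, `coc_inv`; the letter `(y, false)` contributes `- a (q * (g y)⁻¹, y)`).
* `val_single`: `a = Pi.single e x`, `x ≠ 0`: `c ^ dd = seg 0 N`, the edges at the positions `s < N` are distinct (`dart_inj`), so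
  `val a i q = sg (wd (i, true) s) * x / dd` if `e` is the edge at position `s < N`, and `0` if `e ∉ Lin (i, true) 0 q`.
* `geo_single`: bijection between the cosets `o` (`q = o.out`) with `e ∈ Lin (i, true) 0 q`, and the `κ < n` with
  `(S.w i κ).1 = e.2 =: y`: to `o` assign `κ = s % n`, `s < N` the position of `e`. Inverse: for `κ` let `q_κ` be the vertex with
  `dedge q_κ (wd (i, true) κ) = e` (`q_κ = e.1` if the sign is `true`, `q_κ = e.1 * g y` otherwise) and `o` the coset of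
  `q_κ * (seg 0 κ)⁻¹`; injectivity: if the positions `s`, `s'` of `e` on the lines from `q`, `q'` have the same residue `κ` then
  `q * seg 0 s = q_κ = q' * seg 0 s'`, and `seg 0 (n j + κ) = h ^ j * seg 0 κ` (`seg_pow`), so `q' ∈ q ⟨h⟩`. The value is
  `sg (S.w i κ) * x / dd`, which is not `0`.
* `far`: `J = dd / 2` (natural division): `R0 ≤ n J` and `n J + R0 ≤ N` (`N = n dd ≥ 2 (L0 + 4 R0 + 4)`, `L0 ≥ 2 n`, `n ≤ D0`). Let `z = Lin (i0, true) 0 1`,
  `e` the edge at position `0`, `e'` the edge at position `n J` (`e ≠ e'`, same label). A closed line `A` containing `e` and `e'` is `z`: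
  `exists_base` at the dart `(1, wd (i0, true) 0)`: `A = Lin j l 1`, `vertex_of_mem` for the start of the dart of `e'`, `Lin_eq_or` with
  `M = n J`.
* `geo_double`: `a = Pi.single e x + Pi.single e' x'`; `val a i q = val (Pi.single e x) i q + val (Pi.single e' x') i q` (`cv` is additive in `a` by
  `cv_seg`). For `q` with `Lin (i, true) 0 q ≠ z` at most one of the two summands is nonzero. If `i ≠ i0` no line `Lin (i, true) 0 q` is `z`
  (`line_unique'` at a common vertex: `q` is a vertex of `z`, `z = Lin (i0, true) s q`), so the multiset of nonzero values is the sum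
  of those of the two singles. If `i = i0` the only coset `o` with `Lin (i0, true) 0 o.out = z` is the coset of `1` (same argument), its
  value is `sg * (x + x') / dd ≠ 0`, instead of the two values `sg * x / dd`, `sg * x' / dd` (both edges are traversed with the sign
  of `S.w i0 0`) of the singles.
* `exists_real`: case distinction.
-/

namespace Pool.Agent.Helper53.LG

section aux

variable {Y I : Type} {S : WSys Y I} {Q : Type} [Group Q] (C : Cover S Q)

private theorem n_dd_ge (i : I) : S.n i * C.dd i = C.N i := Nat.mul_div_cancel' (C.nN i)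

private theorem dd_pos_ge (i : I) : 0 < C.dd i := by
  have h := n_dd_ge C i
  have hN := C.Npos i
  rcases Nat.eq_zero_or_pos (C.dd i) with h0 | h0
  · rw [h0, mul_zero] at h
    omega
  · exact h0

private theorem n_le_N_ge (i : I) : S.n i ≤ C.N i :=
  Nat.le_of_dvd (by have := C.Npos i; omega) (C.nN i)

private theorem cv_mul_ge (a : Q × Y → ℝ) (l l' : FreeGroup Y) (q : Q) :
    C.cv a (l * l') q = C.cv a l q + C.cv a l' (q * evQ C.g l) := by
  unfold Cover.cv
  rw [coc_mul, toAdd_mul]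

private theorem cv_one_ge (a : Q × Y → ℝ) (q : Q) : C.cv a 1 q = 0 := by
  unfold Cover.cv
  rw [coc_one, toAdd_one]

private theorem cv_lv_ge (a : Q × Y → ℝ) (l : Lt Y) (q : Q) :
    C.cv a (lv FreeGroup.of l) q = sg l * a (dedge C.g q l) := by
  rcases l with ⟨y, _ | _⟩
  · have e1 : lv (FreeGroup.of : Y → FreeGroup Y) (y, false) = (FreeGroup.of y)⁻¹ := by
      simp [lv]
    rw [e1]
    unfold Cover.cv
    rw [coc_inv, coc_of]
    simp [dedge, sg]
  · have e1 : lv (FreeGroup.of : Y → FreeGroup Y) (y, true) = FreeGroup.of y := by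
      simp [lv]
    rw [e1]
    unfold Cover.cv
    rw [coc_of]
    simp [dedge, sg]

/-- the edge at the position `s` of the line `(i, true)` from `q` -/
private def ed (i : I) (q : Q) (s : ℕ) : Q × Y :=
  dedge C.g (q * S.seg C.g (i, true) 0 s) (S.wd (i, true) (s : ℤ))

private theorem ed_inj {i : I} {q : Q} {s t : ℕ} (hs : s < C.N i) (ht : t < C.N i)
    (h : ed C i q s = ed C i q t) : s = t := by
  apply dart_inj C (i, true) 0 q s t hs ht
  rw [zero_add, zero_add]
  exact h

private theorem ed_mem {i : I} {q : Q} (s : ℕ) : ed C i q s ∈ C.Lin (i, true) 0 q :=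
  ⟨s, by rw [zero_add]; rfl⟩

private theorem mem_iff_ed {i : I} {q : Q} {e : Q × Y} :
    e ∈ C.Lin (i, true) 0 q ↔ ∃ s : ℕ, s < C.N i ∧ ed C i q s = e := by
  rw [mem_Lin_iff]
  constructor
  · rintro ⟨m, hm, h⟩
    refine ⟨m, hm, ?_⟩
    rw [h, zero_add]
    rfl
  · rintro ⟨m, hm, h⟩
    refine ⟨m, hm, ?_⟩
    rw [← h, zero_add]
    rfl

private theorem sg_ne (l : Lt Y) : sg l ≠ 0 := by
  unfold sg
  split_ifs <;> norm_num

end aux

variable {Y I : Type} [Fintype Y] [Fintype I] {S : WSys Y I} {Q : Type} [Group Q] [Fintype Q] (C : Cover S Q)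

omit [Fintype Y] [Fintype I] [Fintype Q] in
theorem cv_seg (a : Q × Y → ℝ) (i : I) (q : Q) (M : ℕ) :
    C.cv a (S.seg FreeGroup.of (i, true) 0 M) q = ∑ s ∈ Finset.range M,
      sg (S.wd (i, true) (s : ℤ)) * a (dedge C.g (q * S.seg C.g (i, true) 0 s) (S.wd (i, true) (s : ℤ))) := by
  induction M with
  | zero => rw [seg_zero, cv_one_ge, Finset.sum_range_zero]
  | succ M ih =>
    rw [seg_succ, cv_mul_ge, ih, Finset.sum_range_succ, cv_lv_ge, evQ_seg, zero_add]

omit [Fintype Y] [Fintype I] [Fintype Q] in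
private theorem val_eq_ge (a : Q × Y → ℝ) (i : I) (q : Q) :
    C.val a i q = (∑ s ∈ Finset.range (C.N i), sg (S.wd (i, true) (s : ℤ)) * a (ed C i q s)) /
      C.dd i := by
  have h : cwS S i ^ C.dd i = S.seg FreeGroup.of (i, true) 0 (C.N i) := by
    have h1 := seg_pow S FreeGroup.of (i, true) 0 (C.dd i) 0
    rw [add_zero, seg_zero, mul_one] at h1
    rw [← n_dd_ge C i]
    exact h1.symm
  unfold Cover.val
  rw [h, cv_seg]
  rfl

omit [Fintype Y] [Fintype I] [Fintype Q] in
private theorem val_add_ge (a a' : Q × Y → ℝ) (i : I) (q : Q) :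
    C.val (a + a') i q = C.val a i q + C.val a' i q := by
  rw [val_eq_ge, val_eq_ge, val_eq_ge, ← add_div, ← Finset.sum_add_distrib]
  congr 1
  refine Finset.sum_congr rfl fun s _ => ?_
  rw [Pi.add_apply]
  ring

omit [Fintype Y] [Fintype I] [Fintype Q] in
private theorem val_hit {a : Q × Y → ℝ} {e : Q × Y} {x : ℝ} (hae : a e = x)
    (ha : ∀ f, f ≠ e → a f = 0) {i : I} {q : Q} {s : ℕ} (hs : s < C.N i) (he : ed C i q s = e) :
    C.val a i q = sg (S.wd (i, true) (s : ℤ)) * x / C.dd i := by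
  rw [val_eq_ge]
  congr 1
  rw [Finset.sum_eq_single_of_mem s (Finset.mem_range.2 hs)]
  · rw [he, hae]
  · intro t ht hts
    rw [ha, mul_zero]
    intro h
    exact hts (ed_inj C (Finset.mem_range.1 ht) hs (h.trans he.symm))

omit [Fintype Y] [Fintype I] [Fintype Q] in
private theorem val_miss {a : Q × Y → ℝ} {e : Q × Y}
    (ha : ∀ f, f ≠ e → a f = 0) {i : I} {q : Q} (h : e ∉ C.Lin (i, true) 0 q) :
    C.val a i q = 0 := by
  rw [val_eq_ge, Finset.sum_eq_zero, zero_div]
  intro t ht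
  rw [ha, mul_zero]
  intro h1
  exact h ((mem_iff_ed C).2 ⟨t, Finset.mem_range.1 ht, h1⟩)

omit [Fintype Y] [Fintype I] [Fintype Q] in
private theorem val_ne_iff {a : Q × Y → ℝ} {e : Q × Y} {x : ℝ} (hx : x ≠ 0) (hae : a e = x)
    (ha : ∀ f, f ≠ e → a f = 0) {i : I} {q : Q} :
    C.val a i q ≠ 0 ↔ e ∈ C.Lin (i, true) 0 q := by
  constructor
  · intro h
    by_contra h1
    exact h (val_miss C ha h1)
  · intro h
    obtain ⟨s, hs, h1⟩ := (mem_iff_ed C).1 h
    rw [val_hit C hae ha hs h1]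
    have h2 := dd_pos_ge C i
    have h3 : (C.dd i : ℝ) ≠ 0 := by exact_mod_cast h2.ne'
    exact div_ne_zero (mul_ne_zero (sg_ne _) hx) h3

/-- the shift of the base point by a period -/
private theorem ed_pow {Y I : Type} {S : WSys Y I} {Q : Type} [Group Q] (C : Cover S Q) (i : I) (q : Q)
    (j s : ℕ) : ed C i q (S.n i * j + s) = ed C i (q * evQ C.g (cwS S i) ^ j) s := by
  unfold ed
  have h1 := seg_pow S C.g (i, true) 0 j s
  have h2 : S.seg C.g (i, true) 0 (S.n i * j + s) =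
      S.seg C.g (i, true) 0 (S.n i) ^ j * S.seg C.g (i, true) 0 s := h1
  rw [h2, evQ_seg, mul_assoc]
  congr 1
  apply wd_congr
  push_cast
  have h3 : (S.n i : ℤ) * j + s - s = S.n i * j := by ring
  rw [h3]
  exact dvd_mul_right _ _

/-- the vertex from which the letter `l` reads the edge `e` -/
private def qv {Y I : Type} {S : WSys Y I} {Q : Type} [Group Q] (C : Cover S Q) (e : Q × Y) (l : Lt Y) :
    Q := if l.2 then e.1 else e.1 * C.g e.2

private theorem dedge_qv {Y I : Type} {S : WSys Y I} {Q : Type} [Group Q] (C : Cover S Q) (e : Q × Y)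
    (l : Lt Y) (h : l.1 = e.2) : dedge C.g (qv C e l) l = e := by
  obtain ⟨e1, e2⟩ := e
  rcases l with ⟨y, _ | _⟩
  · simp only at h
    subst h
    simp [dedge, qv]
  · simp only at h
    subst h
    simp [dedge, qv]

private theorem dedge_left {Y Q : Type} [Group Q] {g : Y → Q} {p p' : Q} {l : Lt Y}
    (h : dedge g p l = dedge g p' l) : p = p' := by
  rcases (dedge_eq_iff g _ _ _ _).1 h with ⟨h1, -⟩ | ⟨-, h2⟩
  · exact h1
  · exact absurd h2.symm (bar_ne l)

private theorem dedge_snd {Y Q : Type} [Group Q] {g : Y → Q} {p : Q} {l : Lt Y} :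
    (dedge g p l).2 = l.1 := by
  unfold dedge
  split_ifs <;> rfl

omit [Fintype Y] [Fintype I] in
open scoped Classical in
private theorem geo_aux (i : I) (e : Q × Y) (x : ℝ) (hx : x ≠ 0) (a : Q × Y → ℝ) (hae : a e = x)
    (ha : ∀ f, f ≠ e → a f = 0) :
    (C.valM a i).filter (fun v => v ≠ 0) = sgl S C.dd e.2 x i := by
  let _ : Fintype (Q ⧸ Subgroup.zpowers (evQ C.g (cwS S i))) := Fintype.ofFinite _
  have hn := S.npos i
  have hnN := n_le_N_ge C i
  have hwd : ∀ κ : ℕ, S.wd (i, true) (κ : ℤ) = S.w i κ := fun κ => wd_true S i κ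
  -- the map from positions to cosets
  obtain ⟨φ, hφ⟩ : ∃ φ : ℕ → Q, ∀ κ, φ κ = qv C e (S.w i κ) * (S.seg C.g (i, true) 0 κ)⁻¹ :=
    ⟨_, fun _ => rfl⟩
  have hφe : ∀ κ : ℕ, (S.w i κ).1 = e.2 → ed C i (φ κ) κ = e := by
    intro κ hκ
    unfold ed
    rw [hφ, inv_mul_cancel_right, hwd]
    exact dedge_qv C e _ hκ
  have hval : ∀ κ : ℕ, κ < S.n i → (S.w i κ).1 = e.2 →
      C.val a i (Quotient.out (QuotientGroup.mk (φ κ) : Q ⧸ Subgroup.zpowers (evQ C.g (cwS S i)))) =
        sg (S.w i κ) * x / C.dd i := by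
    intro κ hκ hκe
    rw [val_shift C a i _ (φ κ) (Quotient.out_eq _),
      val_hit C hae ha (lt_of_lt_of_le hκ hnN) (hφe κ hκe), hwd]
  have hfin : (C.valM a i).filter (fun v => v ≠ 0) =
      ((Finset.univ : Finset (Q ⧸ Subgroup.zpowers (evQ C.g (cwS S i)))).filter
        (fun o => C.val a i o.out ≠ 0)).val.map (fun o => C.val a i o.out) := by
    unfold Cover.valM
    rw [Multiset.filter_map]
    rfl
  rw [hfin]
  unfold sgl
  symm
  refine Multiset.map_eq_map_of_bij_of_nodup _ _ (Finset.nodup _) (Finset.nodup _)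
    (fun κ _ => (QuotientGroup.mk (φ κ) : Q ⧸ Subgroup.zpowers (evQ C.g (cwS S i)))) ?_ ?_ ?_ ?_
  · intro κ hκ
    rw [Finset.mem_val, Finset.mem_filter, Finset.mem_range] at hκ
    rw [Finset.mem_val, Finset.mem_filter]
    refine ⟨Finset.mem_univ _, ?_⟩
    rw [hval κ hκ.1 hκ.2]
    have h3 : (C.dd i : ℝ) ≠ 0 := by exact_mod_cast (dd_pos_ge C i).ne'
    exact div_ne_zero (mul_ne_zero (sg_ne _) hx) h3
  · intro κ hκ κ' hκ' hmk
    rw [Finset.mem_val, Finset.mem_filter, Finset.mem_range] at hκ hκ'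
    have hz : (φ κ)⁻¹ * φ κ' ∈ Subgroup.zpowers (evQ C.g (cwS S i)) := QuotientGroup.eq.1 hmk
    have hfo : IsOfFinOrder (evQ C.g (cwS S i)) := isOfFinOrder_of_finite _
    rw [hfo.mem_zpowers_iff_mem_range_orderOf, order_cwS, Finset.mem_image] at hz
    obtain ⟨j, hj, hz⟩ := hz
    rw [Finset.mem_range] at hj
    have h1 : φ κ' = φ κ * evQ C.g (cwS S i) ^ j := by
      rw [hz, mul_inv_cancel_left]
    have h2 := hφe κ' hκ'.2
    rw [h1, ← ed_pow] at h2
    have h3 : S.n i * j + κ' < C.N i := by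
      have h4 : S.n i * (j + 1) ≤ S.n i * C.dd i := Nat.mul_le_mul_left _ hj
      rw [n_dd_ge C i] at h4
      have h5 : S.n i * (j + 1) = S.n i * j + S.n i := by ring
      omega
    have h4 := ed_inj C h3 (lt_of_lt_of_le hκ.1 hnN) (h2.trans (hφe κ hκ.2).symm)
    rcases Nat.eq_zero_or_pos j with h0 | h0
    · subst h0
      omega
    · have h5 : S.n i * 1 ≤ S.n i * j := Nat.mul_le_mul_left _ h0
      omega
  · intro o ho
    rw [Finset.mem_val, Finset.mem_filter] at ho
    obtain ⟨s, hs, hse⟩ := (mem_iff_ed C).1 ((val_ne_iff C hx hae ha).1 ho.2)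
    have h1 : S.n i * (s / S.n i) + s % S.n i = s := Nat.div_add_mod s (S.n i)
    have h2 : ed C i (o.out * evQ C.g (cwS S i) ^ (s / S.n i)) (s % S.n i) = e := by
      rw [← ed_pow, h1, hse]
    have h3 : (S.w i ((s % S.n i : ℕ) : ℤ)).1 = e.2 := by
      rw [← h2]
      unfold ed
      rw [dedge_snd, hwd]
    refine ⟨s % S.n i, ?_, ?_⟩
    · rw [Finset.mem_val, Finset.mem_filter, Finset.mem_range]
      exact ⟨Nat.mod_lt _ hn, h3⟩
    · have h4 := hφe _ h3
      have h5 : φ (s % S.n i) = o.out * evQ C.g (cwS S i) ^ (s / S.n i) := by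
        have h6 := h4.trans h2.symm
        unfold ed at h6
        exact mul_right_cancel (dedge_left h6)
      rw [h5]
      have h6 : (QuotientGroup.mk (o.out * evQ C.g (cwS S i) ^ (s / S.n i)) :
          Q ⧸ Subgroup.zpowers (evQ C.g (cwS S i))) = QuotientGroup.mk o.out := by
        rw [QuotientGroup.eq]
        rw [mul_inv_rev, mul_assoc, inv_mul_cancel, mul_one]
        exact Subgroup.inv_mem _ (Subgroup.pow_mem _ (Subgroup.mem_zpowers _) _)
      rw [h6]
      exact Quotient.out_eq _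
  · intro κ hκ
    rw [Finset.mem_val, Finset.mem_filter, Finset.mem_range] at hκ
    exact (hval κ hκ.1 hκ.2).symm

open scoped Classical in
theorem geo_single (i : I) (e : Q × Y) (x : ℝ) (hx : x ≠ 0) :
    (C.valM (Pi.single e x) i).filter (fun v => v ≠ 0) = sgl S C.dd e.2 x i :=
  geo_aux C i e x hx _ (Pi.single_eq_same _ _) (fun _ hf => Pi.single_eq_of_ne hf _)

theorem far {R0 : ℕ} (hL : C.Long R0) (i0 : I) : ∃ e e' : Q × Y, e ≠ e' ∧
    e = dedge C.g 1 (S.wd (i0, true) 0) ∧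
    (∃ s : ℕ, s < C.N i0 ∧ S.wd (i0, true) s = S.wd (i0, true) 0 ∧
      e' = dedge C.g (S.seg C.g (i0, true) 0 s) (S.wd (i0, true) s)) ∧
    ∀ i κ p, e ∈ C.Lin i κ p → e' ∈ C.Lin i κ p → C.Lin i κ p = C.Lin (i0, true) 0 1 := by
  obtain ⟨hR0, hsep, hN⟩ := hL
  have hNi := hN i0
  have hnD : S.n i0 ≤ S.D0 := by
    have h1 : S.n i0 ≤ ∑ k, S.n k := Finset.single_le_sum (fun _ _ => Nat.zero_le _)
      (Finset.mem_univ i0)
    unfold WSys.D0
    omega
  have hDL : S.D0 ≤ S.L0 R0 := by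
    unfold WSys.L0
    nlinarith
  have hdd := n_dd_ge C i0
  have hn := S.npos i0
  obtain ⟨J, hJ⟩ : ∃ J, J = C.dd i0 / 2 := ⟨_, rfl⟩
  have hJ1 : 2 * J ≤ C.dd i0 := by omega
  have hJ2 : C.dd i0 ≤ 2 * J + 1 := by omega
  have h1 : 2 * (S.n i0 * J) ≤ C.N i0 := by
    rw [← hdd]
    nlinarith
  have h2 : C.N i0 ≤ 2 * (S.n i0 * J) + S.n i0 := by
    rw [← hdd]
    nlinarith
  obtain ⟨M, hM⟩ : ∃ M, M = S.n i0 * J := ⟨_, rfl⟩
  rw [← hM] at h1 h2
  have hMR : R0 ≤ M := by omega
  have hMN : M + R0 ≤ C.N i0 := by omega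
  have hM0 : M < C.N i0 := by omega
  have hwM : S.wd (i0, true) (M : ℤ) = S.wd (i0, true) 0 := by
    apply wd_congr
    rw [hM]
    push_cast
    rw [sub_zero]
    exact dvd_mul_right _ _
  refine ⟨dedge C.g 1 (S.wd (i0, true) 0),
    dedge C.g (S.seg C.g (i0, true) 0 M) (S.wd (i0, true) M), ?_, rfl, ⟨M, hM0, hwM, rfl⟩, ?_⟩
  · intro h
    have h3 : ed C i0 1 0 = ed C i0 1 M := by
      unfold ed
      rw [seg_zero, one_mul, one_mul]
      exact h
    have h4 := ed_inj C (by omega) hM0 h3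
    omega
  · intro i κ p he he'
    obtain ⟨j, κ', -, hw, hLin⟩ := exists_base C i κ p 1 (S.wd (i0, true) 0) he
    rw [← hLin] at he' ⊢
    obtain ⟨M', hM', hv⟩ := vertex_of_mem C j κ' 1 _ _ he'
    rcases Lin_eq_or C hR0 hsep (i0, true) j 0 κ' 1 M M' hw.symm hM0 hM'
      (by rw [one_mul]; exact hv) with h3 | h3 | h3
    · exact h3.symm
    · omega
    · have h4 : C.N i0 < M + R0 := h3
      omega

private theorem fpos_ge {v : ℝ} (h : v ≠ 0) (s : Multiset ℝ) :
    (v ::ₘ s).filter (fun v => v ≠ 0) = v ::ₘ s.filter (fun v => v ≠ 0) :=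
  Multiset.filter_cons_of_pos (p := fun v : ℝ => v ≠ 0) s h

private theorem fneg_ge {v : ℝ} (h : v = 0) (s : Multiset ℝ) :
    (v ::ₘ s).filter (fun v => v ≠ 0) = s.filter (fun v => v ≠ 0) :=
  Multiset.filter_cons_of_neg (p := fun v : ℝ => v ≠ 0) s (fun h' => h' h)

/-- sums of functions with disjoint supports -/
private theorem filter_add_ge {O : Type} (s : Multiset O) (V V' : O → ℝ)
    (h : ∀ o ∈ s, V o = 0 ∨ V' o = 0) :
    (s.map (fun o => V o + V' o)).filter (fun v => v ≠ 0) =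
      (s.map V).filter (fun v => v ≠ 0) + (s.map V').filter (fun v => v ≠ 0) := by
  induction s using Multiset.induction_on with
  | empty => simp
  | cons o s ih =>
    have ih' := ih (fun o ho => h o (Multiset.mem_cons_of_mem ho))
    rw [Multiset.map_cons, Multiset.map_cons, Multiset.map_cons]
    rcases h o (Multiset.mem_cons_self o s) with h0 | h0
    · rw [fneg_ge h0]
      by_cases h1 : V' o = 0
      · rw [fneg_ge h1, fneg_ge (by rw [h0, h1, add_zero]), ih']
      · rw [fpos_ge h1, fpos_ge (by rw [h0, zero_add]; exact h1), ih', Multiset.add_cons, h0,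
          zero_add]
    · rw [fneg_ge h0]
      by_cases h1 : V o = 0
      · rw [fneg_ge h1, fneg_ge (by rw [h0, h1, add_zero]), ih']
      · rw [fpos_ge h1, fpos_ge (by rw [h0, add_zero]; exact h1), ih', Multiset.cons_add, h0,
          add_zero]

/-- a line of type `(i, true)` which is the line `(i0, true)` from `1` -/
private theorem z_unique {R0 : ℕ} (hL : C.Long R0) {i i0 : I} {q : Q}
    (h : C.Lin (i, true) 0 q = C.Lin (i0, true) 0 1) :
    i = i0 ∧ (QuotientGroup.mk q : Q ⧸ Subgroup.zpowers (evQ C.g (cwS S i0))) =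
      QuotientGroup.mk 1 := by
  have h1 : dedge C.g q (S.wd (i, true) 0) ∈ C.Lin (i0, true) 0 1 := by
    rw [← h]
    exact self_mem_Lin C (i, true) 0 q
  obtain ⟨M, hM, hq⟩ := vertex_of_mem C (i0, true) 0 1 _ _ h1
  have h2 : C.Lin (i, true) 0 q = C.Lin (i0, true) (0 + (M : ℤ)) q := by
    rw [h, ← Lin_shift C (i0, true) 0 1 M, ← hq]
  rcases line_unique' C hL (i, true) (i0, true) 0 (0 + (M : ℤ)) q h2 with ⟨h3, h4⟩ | ⟨h3, -⟩
  · have h5 : i = i0 := congrArg Prod.fst h3
    refine ⟨h5, ?_⟩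
    subst h5
    have h6 : (S.n i : ℤ) ∣ (M : ℤ) := by
      have h7 : (0 : ℤ) - (0 + M) = -(M : ℤ) := by ring
      rw [h7] at h4
      exact (dvd_neg).1 h4
    have h7 : S.n i ∣ M := by exact_mod_cast h6
    obtain ⟨k, rfl⟩ := h7
    rw [one_mul] at hq
    have h8 := seg_pow S C.g (i, true) 0 k 0
    rw [add_zero, seg_zero, mul_one] at h8
    have h9 : q = evQ C.g (cwS S i) ^ k := by
      rw [hq, evQ_seg]
      exact h8
    rw [QuotientGroup.eq, mul_one, h9]
    exact Subgroup.inv_mem _ (Subgroup.pow_mem _ (Subgroup.mem_zpowers _) _)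
  · exfalso
    have h5 := congrArg Prod.snd h3
    simp [rev] at h5

open scoped Classical in
theorem geo_double {R0 : ℕ} (hL : C.Long R0) (i0 : I) (x x' : ℝ) (hx : x ≠ 0) (hx' : x' ≠ 0)
    (hxx : x + x' ≠ 0) : ∃ a : Q × Y → ℝ, ∀ i,
    (C.valM a i).filter (fun v => v ≠ 0) = cells S C.dd i (FCo.double i0 x x') := by
  obtain ⟨e, e', hee, he, ⟨s, hs, hws, he'⟩, hfar⟩ := far C hL i0
  obtain ⟨b, hb⟩ : ∃ b : Q × Y → ℝ, b = Pi.single e x := ⟨_, rfl⟩
  obtain ⟨b', hb'⟩ : ∃ b' : Q × Y → ℝ, b' = Pi.single e' x' := ⟨_, rfl⟩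
  have hb1 : b e = x := by rw [hb]; exact Pi.single_eq_same _ _
  have hb2 : ∀ f, f ≠ e → b f = 0 := fun f hf => by rw [hb]; exact Pi.single_eq_of_ne hf _
  have hb1' : b' e' = x' := by rw [hb']; exact Pi.single_eq_same _ _
  have hb2' : ∀ f, f ≠ e' → b' f = 0 := fun f hf => by rw [hb']; exact Pi.single_eq_of_ne hf _
  have hw0 : S.wd (i0, true) 0 = S.w i0 0 := wd_true S i0 0
  have he2 : e.2 = (S.w i0 0).1 := by rw [he, dedge_snd, hw0]
  have he2' : e'.2 = (S.w i0 0).1 := by rw [he', dedge_snd, hws, hw0]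
  refine ⟨b + b', fun i => ?_⟩
  have hg := geo_aux C i e x hx b hb1 hb2
  have hg' := geo_aux C i e' x' hx' b' hb1' hb2'
  rw [he2] at hg
  rw [he2'] at hg'
  obtain ⟨U, hU⟩ : ∃ U : Multiset (Q ⧸ Subgroup.zpowers (evQ C.g (cwS S i))),
      U = (@Finset.univ (Q ⧸ Subgroup.zpowers (evQ C.g (cwS S i))) (Fintype.ofFinite _)).val :=
    ⟨_, rfl⟩
  obtain ⟨V, hV⟩ : ∃ V : (Q ⧸ Subgroup.zpowers (evQ C.g (cwS S i))) → ℝ,
      V = fun o => C.val b i o.out := ⟨_, rfl⟩
  obtain ⟨V', hV'⟩ : ∃ V' : (Q ⧸ Subgroup.zpowers (evQ C.g (cwS S i))) → ℝ,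
      V' = fun o => C.val b' i o.out := ⟨_, rfl⟩
  have hvb : C.valM b i = U.map V := by
    rw [hU, hV]
    rfl
  have hvb' : C.valM b' i = U.map V' := by
    rw [hU, hV']
    rfl
  have hvs : C.valM (b + b') i = U.map (fun o => V o + V' o) := by
    unfold Cover.valM
    rw [← hU]
    refine Multiset.map_congr rfl fun o _ => ?_
    rw [hV, hV', val_add_ge]
  rw [hvb] at hg
  rw [hvb'] at hg'
  rw [hvs]
  have hboth : ∀ o, V o ≠ 0 → V' o ≠ 0 → C.Lin (i, true) 0 o.out = C.Lin (i0, true) 0 1 := by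
    intro o h1 h2
    rw [hV] at h1
    rw [hV'] at h2
    exact hfar _ _ _ ((val_ne_iff C hx hb1 hb2).1 h1) ((val_ne_iff C hx' hb1' hb2').1 h2)
  by_cases hi : i0 = i
  · subst hi
    have hc : cells S C.dd i0 (FCo.double i0 x x') =
        (sgl S C.dd (S.w i0 0).1 x i0 - {sg (S.w i0 0) * x / C.dd i0}) +
        (sgl S C.dd (S.w i0 0).1 x' i0 - {sg (S.w i0 0) * x' / C.dd i0}) +
        {sg (S.w i0 0) * (x + x') / C.dd i0} := by
      unfold cells
      exact if_pos rfl
    rw [hc, ← hg, ← hg']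
    obtain ⟨o1, ho1⟩ : ∃ o1 : Q ⧸ Subgroup.zpowers (evQ C.g (cwS S i0)),
        o1 = QuotientGroup.mk 1 := ⟨_, rfl⟩
    have hmem : o1 ∈ U := by
      rw [hU]
      exact @Finset.mem_univ _ (Fintype.ofFinite _) o1
    obtain ⟨U', hU'⟩ := Multiset.exists_cons_of_mem hmem
    have hnd : U.Nodup := by
      rw [hU]
      exact Finset.nodup _
    rw [hU'] at hnd
    have ho1' : o1 ∉ U' := (Multiset.nodup_cons.1 hnd).1
    have hout : (QuotientGroup.mk o1.out : Q ⧸ Subgroup.zpowers (evQ C.g (cwS S i0))) =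
        QuotientGroup.mk 1 := by
      rw [← ho1]
      exact Quotient.out_eq _
    have hVo : V o1 = sg (S.w i0 0) * x / C.dd i0 := by
      rw [hV]
      show C.val b i0 o1.out = _
      rw [val_shift C b i0 _ 1 hout]
      have h1 : ed C i0 1 0 = e := by
        unfold ed
        rw [seg_zero, one_mul, he]
        rfl
      rw [val_hit C hb1 hb2 (by have := C.Npos i0; omega) h1]
      rw [Nat.cast_zero, hw0]
    have hVo' : V' o1 = sg (S.w i0 0) * x' / C.dd i0 := by
      rw [hV']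
      show C.val b' i0 o1.out = _
      rw [val_shift C b' i0 _ 1 hout]
      have h1 : ed C i0 1 s = e' := by
        unfold ed
        rw [one_mul, he']
      rw [val_hit C hb1' hb2' hs h1, hws, hw0]
    have h3 : (C.dd i0 : ℝ) ≠ 0 := by exact_mod_cast (dd_pos_ge C i0).ne'
    have hV0 : V o1 ≠ 0 := by
      rw [hVo]
      exact div_ne_zero (mul_ne_zero (sg_ne _) hx) h3
    have hV0' : V' o1 ≠ 0 := by
      rw [hVo']
      exact div_ne_zero (mul_ne_zero (sg_ne _) hx') h3
    have hsum : V o1 + V' o1 = sg (S.w i0 0) * (x + x') / C.dd i0 := by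
      rw [hVo, hVo']
      ring
    have hS0 : V o1 + V' o1 ≠ 0 := by
      rw [hsum]
      exact div_ne_zero (mul_ne_zero (sg_ne _) hxx) h3
    have hdis : ∀ o ∈ U', V o = 0 ∨ V' o = 0 := by
      intro o ho
      by_contra hcon
      rw [not_or] at hcon
      have h4 := z_unique C hL (hboth o hcon.1 hcon.2)
      apply ho1'
      have h5 : o = o1 := by
        rw [ho1, ← h4.2]
        exact (Quotient.out_eq _).symm
      rw [← h5]
      exact ho
    rw [hU', Multiset.map_cons, Multiset.map_cons, Multiset.map_cons,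
      fpos_ge hS0, fpos_ge hV0, fpos_ge hV0', filter_add_ge U' V V' hdis, ← hsum, ← hVo, ← hVo',
      ← Multiset.singleton_add, ← Multiset.singleton_add, ← Multiset.singleton_add]
    rw [add_tsub_cancel_left, add_tsub_cancel_left]
    rw [add_comm]
  · have hc : cells S C.dd i (FCo.double i0 x x') =
        sgl S C.dd (S.w i0 0).1 x i + sgl S C.dd (S.w i0 0).1 x' i := by
      unfold cells
      exact if_neg hi
    rw [hc, ← hg, ← hg']
    apply filter_add_ge
    intro o _
    by_contra hcon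
    rw [not_or] at hcon
    exact hi (z_unique C hL (hboth o hcon.1 hcon.2)).1.symm

open scoped Classical in
theorem exists_real {R0 : ℕ} (hL : C.Long R0) (z : FCo Y I) (hz : FVal z) : ∃ a : Q × Y → ℝ, ∀ i,
    (C.valM a i).filter (fun v => v ≠ 0) = cells S C.dd i z := by
  cases z with
  | single y x =>
    exact ⟨Pi.single (1, y) x, fun i => geo_single C i (1, y) x hz⟩
  | double i0 x x' =>
    exact geo_double C hL i0 x x' hz.1 hz.2.1 hz.2.2

end Pool.Agent.Helper53.LG
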