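import Mathlib

/-!
# LG-41: from a family of representations to one representation over a field of germs

Let `U` be an ultrafilter on `ℝ` with `U ≤ atTop` (`Ultrafilter.of atTop`), `K = Filter.Germ (U : Filter ℝ) ℝ` (a field, characteristic
zero: the map `ℝ → K` of constants is injective). Choose a basis of `V`, `N = finrank`; `M x g` the matrix of `π x g`
(`LinearMap.toMatrix`), a homomorphism `G → GL (Fin N) ℝ` for every `x`. Let `f g` be the matrix over `K` with entries the germs of
`x ↦ M x g i j`; it is multiplicative (germs of sums and products), `f 1 = 1`, so it gives `f : G →* GL (Fin N) K` (the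
inverse is `f g⁻¹`). If `f g = 1` then `M x g = 1` for `U`-almost all `x` (finitely many entries), so `π x g = 1` for these `x`; if
`g ≠ 1` this contradicts `∀ᶠ x in atTop, π x g ≠ 1` (`U ≤ atTop`, `U` is a proper filter).
-/

namespace Pool.Agent.Helper53.LG

open Filter

theorem germ_embed {G V : Type} [Group G] [AddCommGroup V] [Module ℝ V] [FiniteDimensional ℝ V]
    (π : ℝ → (G →* (V ≃ₗ[ℝ] V))) (h : ∀ g : G, g ≠ 1 → ∀ᶠ x in atTop, π x g ≠ 1) :
    ∃ (K : Type) (_ : Field K) (N : ℕ) (f : G →* Matrix.GeneralLinearGroup (Fin N) K),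
      CharZero K ∧ Function.Injective f := by
  classical
  let U : Ultrafilter ℝ := Ultrafilter.of atTop
  have hU : (U : Filter ℝ) ≤ atTop := Ultrafilter.of_le atTop
  let b := Module.finBasis ℝ V
  let N := Module.finrank ℝ V
  let F : G →* Matrix (Fin N) (Fin N) (ℝ → ℝ) :=
    { toFun := fun g => Matrix.of fun i j x => LinearMap.toMatrix b b ((π x g : V ≃ₗ[ℝ] V) : V →ₗ[ℝ] V) i j
      map_one' := by
        ext i j x
        have h1 : ((π x 1 : V ≃ₗ[ℝ] V) : V →ₗ[ℝ] V) = LinearMap.id := by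
          rw [map_one]; rfl
        simp only [Matrix.of_apply]
        rw [h1, LinearMap.toMatrix_id]
        by_cases hij : i = j
        · subst hij; simp
        · simp [hij]
      map_mul' := by
        intro g k
        ext i j x
        have h1 : ((π x (g * k) : V ≃ₗ[ℝ] V) : V →ₗ[ℝ] V) =
            ((π x g : V ≃ₗ[ℝ] V) : V →ₗ[ℝ] V) ∘ₗ ((π x k : V ≃ₗ[ℝ] V) : V →ₗ[ℝ] V) := by
          rw [map_mul]; rfl
        simp only [Matrix.of_apply]
        rw [h1, LinearMap.toMatrix_comp b b b, Matrix.mul_apply, Matrix.mul_apply,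
          Finset.sum_apply]
        rfl }
  let c : (ℝ → ℝ) →+* Filter.Germ (U : Filter ℝ) ℝ := Filter.Germ.coeRingHom (U : Filter ℝ)
  let f : G →* Matrix.GeneralLinearGroup (Fin N) (Filter.Germ (U : Filter ℝ) ℝ) :=
    ((c.mapMatrix : Matrix (Fin N) (Fin N) (ℝ → ℝ) →+*
      Matrix (Fin N) (Fin N) (Filter.Germ (U : Filter ℝ) ℝ)).toMonoidHom.comp F).toHomUnits
  refine ⟨Filter.Germ (U : Filter ℝ) ℝ, inferInstance, N, f, ?_, ?_⟩
  · infer_instance
  · rw [injective_iff_map_eq_one]
    intro g hg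
    by_contra hne
    have h1 : ∀ i j : Fin N, ∀ᶠ x in (U : Filter ℝ),
        LinearMap.toMatrix b b ((π x g : V ≃ₗ[ℝ] V) : V →ₗ[ℝ] V) i j =
          (1 : Matrix (Fin N) (Fin N) ℝ) i j := by
      intro i j
      have h2 : ((f g : Matrix.GeneralLinearGroup (Fin N) (Filter.Germ (U : Filter ℝ) ℝ)) :
          Matrix (Fin N) (Fin N) (Filter.Germ (U : Filter ℝ) ℝ)) i j =
          (1 : Matrix (Fin N) (Fin N) (Filter.Germ (U : Filter ℝ) ℝ)) i j := by
        rw [hg]; rfl
      have h3 : ((fun x => LinearMap.toMatrix b b ((π x g : V ≃ₗ[ℝ] V) : V →ₗ[ℝ] V) i j : ℝ → ℝ) :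
          Filter.Germ (U : Filter ℝ) ℝ) =
          ((fun _ => (1 : Matrix (Fin N) (Fin N) ℝ) i j : ℝ → ℝ) :
            Filter.Germ (U : Filter ℝ) ℝ) := by
        refine (show _ = _ from h2).trans ?_
        by_cases hij : i = j
        · subst hij
          simp only [Matrix.one_apply_eq]; rfl
        · simp only [Matrix.one_apply_ne hij]; rfl
      exact Filter.Germ.coe_eq.1 h3
    have h4 : ∀ᶠ x in (U : Filter ℝ), ∀ i j : Fin N,
        LinearMap.toMatrix b b ((π x g : V ≃ₗ[ℝ] V) : V →ₗ[ℝ] V) i j =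
          (1 : Matrix (Fin N) (Fin N) ℝ) i j :=
      Filter.eventually_all.2 fun i => Filter.eventually_all.2 fun j => h1 i j
    have h5 : ∀ᶠ x in (U : Filter ℝ), π x g ≠ 1 := hU (h g hne)
    obtain ⟨x, hx1, hx2⟩ := (h4.and h5).exists
    apply hx2
    have h6 : LinearMap.toMatrix b b ((π x g : V ≃ₗ[ℝ] V) : V →ₗ[ℝ] V) =
        LinearMap.toMatrix b b (LinearMap.id : V →ₗ[ℝ] V) := by
      rw [LinearMap.toMatrix_id]
      ext i j
      exact hx1 i j
    have h7 := (LinearMap.toMatrix b b).injective h6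
    ext v
    have h8 := congrArg (fun φ : V →ₗ[ℝ] V => φ v) h7
    simpa using h8

end Pool.Agent.Helper53.LG
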