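import Mathlib

/-!
# LG-15: a form of M. Hall's theorem

`hall`: let `c₀` be the coset `H` in `FreeGroup Z ⧸ H` and `Tset` the finite set of all `u • c₀`, `u` the value of a
suffix of the reduced word of an element of `F`, together with `c₀`. `T` the subtype. For `z : Z` let `p` be the
predicate `(of z • τ) ∈ Tset` on `T`, `q` the predicate `((of z)⁻¹ • τ) ∈ Tset`; `τ ↦ of z • τ` is an equivalence between the
two subtypes of `T`, extend it to a permutation of the finite type `T` (`Equiv.extendSubtype`). `π = FreeGroup.lift` of it.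
For a suffix `u` of the word of `g ∈ F`: `π (u) ω = u • c₀` (as an element of `T`, `ω = c₀`), by induction on the length
of the suffix: `(z, true) :: u`: both `u • c₀` and `of z • u • c₀` are in `Tset`, so the permutation of `z` maps the first
to the second; `(z, false) :: u`: `τ' = (of z)⁻¹ • u • c₀ ∈ Tset` and `of z • τ' = u • c₀ ∈ Tset`, so the permutation of `z`
maps `τ'` to `u • c₀`. So `π g ω = ω` iff `g • c₀ = c₀` iff `g ∈ H`.
-/

namespace Pool.Agent.Helper53.LG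

theorem hall {Z : Type} (H : Subgroup (FreeGroup Z)) (F : Finset (FreeGroup Z)) :
    ∃ (T : Type) (_ : Fintype T) (π : FreeGroup Z →* Equiv.Perm T) (ω : T),
      ∀ g ∈ F, (π g ω = ω ↔ g ∈ H) := by
  classical
  obtain ⟨c₀, hc₀⟩ : ∃ c : FreeGroup Z ⧸ H, c = ((1 : FreeGroup Z) : FreeGroup Z ⧸ H) := ⟨_, rfl⟩
  obtain ⟨Ts, hTs⟩ : ∃ Ts : Finset (FreeGroup Z ⧸ H), Ts = insert c₀ (F.biUnion fun g =>
      ((g.toWord.tails).map fun u => FreeGroup.mk u • c₀).toFinset) := ⟨_, rfl⟩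
  have hc0 : c₀ ∈ Ts := by rw [hTs]; exact Finset.mem_insert_self _ _
  have hsuf : ∀ g ∈ F, ∀ u : List (Z × Bool), u <:+ g.toWord → FreeGroup.mk u • c₀ ∈ Ts := by
    intro g hg u hu
    rw [hTs]
    refine Finset.mem_insert_of_mem (Finset.mem_biUnion.mpr ⟨g, hg, ?_⟩)
    rw [List.mem_toFinset, List.mem_map]
    exact ⟨u, (List.mem_tails _ _).mpr hu, rfl⟩
  let e : ∀ z : Z, {τ : Ts // FreeGroup.of z • (τ : FreeGroup Z ⧸ H) ∈ Ts} ≃
      {τ : Ts // (FreeGroup.of z)⁻¹ • (τ : FreeGroup Z ⧸ H) ∈ Ts} := fun z =>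
    { toFun := fun τ => ⟨⟨FreeGroup.of z • ((τ : Ts) : FreeGroup Z ⧸ H), τ.2⟩, by
        rw [inv_smul_smul]
        exact τ.1.2⟩
      invFun := fun τ => ⟨⟨(FreeGroup.of z)⁻¹ • ((τ : Ts) : FreeGroup Z ⧸ H), τ.2⟩, by
        rw [smul_inv_smul]
        exact τ.1.2⟩
      left_inv := fun τ => by
        apply Subtype.ext
        apply Subtype.ext
        exact inv_smul_smul _ _
      right_inv := fun τ => by
        apply Subtype.ext
        apply Subtype.ext
        exact smul_inv_smul _ _ }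
  let σ : Z → Equiv.Perm Ts := fun z => (e z).extendSubtype
  have hσ : ∀ (z : Z) (τ : Ts) (h : FreeGroup.of z • (τ : FreeGroup Z ⧸ H) ∈ Ts),
      ((σ z τ : Ts) : FreeGroup Z ⧸ H) = FreeGroup.of z • (τ : FreeGroup Z ⧸ H) := by
    intro z τ h
    have h1 : σ z τ = (e z ⟨τ, h⟩ : _) := Equiv.extendSubtype_apply_of_mem (e z) τ h
    rw [h1]
    rfl
  refine ⟨Ts, inferInstance, FreeGroup.lift σ, ⟨c₀, hc0⟩, ?_⟩
  have key : ∀ u : List (Z × Bool), (∀ v, v <:+ u → FreeGroup.mk v • c₀ ∈ Ts) →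
      ((FreeGroup.lift σ (FreeGroup.mk u) ⟨c₀, hc0⟩ : Ts) : FreeGroup Z ⧸ H) =
        FreeGroup.mk u • c₀ := by
    intro u
    induction u with
    | nil =>
      intro _
      rw [← FreeGroup.one_eq_mk, map_one, one_smul]
      rfl
    | cons x u ih =>
      intro h
      have ih' := ih fun v hv => h v (hv.trans (List.suffix_cons _ _))
      obtain ⟨z, b⟩ := x
      have h1 : (FreeGroup.mk ((z, b) :: u) : FreeGroup Z) = FreeGroup.mk [(z, b)] *
          FreeGroup.mk u := by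
        rw [FreeGroup.mul_mk]
        rfl
      have h2 := h ((z, b) :: u) (List.suffix_refl _)
      rw [h1, mul_smul] at h2
      rw [h1, map_mul, Equiv.Perm.mul_apply, mul_smul]
      obtain ⟨τ, hτ⟩ : ∃ τ : Ts, τ = FreeGroup.lift σ (FreeGroup.mk u) ⟨c₀, hc0⟩ := ⟨_, rfl⟩
      rw [← hτ] at ih' ⊢
      rw [← ih'] at h2 ⊢
      cases b with
      | true =>
        have h3 : (FreeGroup.mk [(z, true)] : FreeGroup Z) = FreeGroup.of z := rfl
        rw [h3] at h2 ⊢
        rw [FreeGroup.lift_apply_of]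
        exact hσ z τ h2
      | false =>
        have h3 : (FreeGroup.mk [(z, false)] : FreeGroup Z) = (FreeGroup.of z)⁻¹ := by
          rw [FreeGroup.of, FreeGroup.inv_mk]
          rfl
        rw [h3] at h2 ⊢
        rw [map_inv, FreeGroup.lift_apply_of]
        have h4 : (σ z)⁻¹ τ = ⟨(FreeGroup.of z)⁻¹ • (τ : FreeGroup Z ⧸ H), h2⟩ := by
          rw [Equiv.Perm.inv_eq_iff_eq]
          apply Subtype.ext
          rw [hσ z ⟨(FreeGroup.of z)⁻¹ • (τ : FreeGroup Z ⧸ H), h2⟩ (by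
            change FreeGroup.of z • (FreeGroup.of z)⁻¹ • (τ : FreeGroup Z ⧸ H) ∈ Ts
            rw [smul_inv_smul]
            exact τ.2)]
          exact (smul_inv_smul _ _).symm
        rw [h4]
  intro g hg
  have h1 := key g.toWord (hsuf g hg)
  rw [FreeGroup.mk_toWord] at h1
  have h2 : (FreeGroup.lift σ g ⟨c₀, hc0⟩ = ⟨c₀, hc0⟩) ↔ g • c₀ = c₀ := by
    rw [← h1, Subtype.ext_iff]
  rw [h2, hc₀]
  change ((g * 1 : FreeGroup Z) : FreeGroup Z ⧸ H) = ((1 : FreeGroup Z) : FreeGroup Z ⧸ H) ↔ _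
  rw [mul_one, QuotientGroup.eq, mul_one, inv_mem_iff]

end Pool.Agent.Helper53.LG
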