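import Pool.Agent.Helper53.LG.Basic

/-!
# LG-01: closed lines in a cover

`C : Cover S Q`; the closed line `Lin i κ p` is read from the vertex `p` (its vertices are
`p * seg i κ m`, its darts are `(p * seg i κ m, wd i (κ + m))`), it closes up after exactly `N = C.N i.1`
steps (`p0`).

* `seg_N`: `p0`, `N ∣ N * k`.
* `seg_mod`: `m = N * (m / N) + m % N`, `seg_add`, `seg_N`, `seg_congr` (`S.n i.1 ∣ N * k`, from `nN`).
* `vt_inj`: if `p * seg i κ m = p * seg i κ m'`, wlog `m ≤ m'`, `m' = m + d`, `seg_add`: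
  `seg i (κ + m) d = 1`, so `N ∣ d` by `p0`.
* `dart_inj`: the darts at two positions `m, m' < N` with the same edge: by `dedge_eq_iff` either the
  vertices are equal, so `m = m'` (`vt_inj`), or `p * seg (m') = p * seg (m + 1)` and
  `p * seg m = p * seg (m' + 1)` (apply `dedge_eq_iff` in both directions: the second dart is the inverse
  of the first), so `N ∣ m + 1 - m'` and `N ∣ m' + 1 - m` as integers, the sum gives `N ∣ 2`, but `3 ≤ N`.
* `mem_Lin_iff`: reduce `m` modulo `N` (`seg_mod` and `wd_congr`).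
* `Lin_shift`: `⊆`: `seg_add`, the edge at position `m'` of the left line is the edge at position
  `m + m'` of the right line. `⊇`: the edge at position `m'` of the right line is the edge at the
  position `m' + m * N ≥ m` (use `seg_mod`, `wd_congr`).
* `Lin_rev`: the line read backwards. `⊆`: position `m < N` of the line `(rev i, -κ)` is the dart
  with vertex `p * seg (rev i) (-κ) m` and label `bar (wd i (κ - 1 - m))`; take `m' = N - 1 - m`, then
  `seg i κ (m' + 1) * seg i (κ + m' + 1) m = 1` (`seg_N`), and `(seg i (κ + m' + 1) m)⁻¹ =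
  seg (rev i) (-κ - N) m = seg (rev i) (-κ) m` (`seg_rev`, `seg_congr`), so
  `p * seg (rev i) (-κ) m = p * seg i κ (m' + 1)` and `dedge_bar` identifies the edge with the edge
  at position `m'`. `⊇` is `⊆` for `rev i`, `-κ` (`rev_rev`).
* `exists_base`: a dart `(p', l')` with edge in the line: `dedge p' l' = dedge (p * seg m) (wd (κ + m))`; by
  `dedge_eq_iff` either `p' = p * seg m`, `l' = wd i (κ + m)`: take `j = i`, `κ' = κ + m`, `Lin_shift`; or
  `p * seg m = p' * lv l'`, `wd i (κ + m) = bar l'` i.e. `p' = p * seg (m + 1)`,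
  `l' = bar (wd i (κ + m)) = wd (rev i) (-κ - m - 1)`: take `j = rev i`, `κ' = -(κ + (m + 1))`, `Lin_rev` and
  `Lin_shift` with `m + 1`.
* `vertex_of_mem`: the endpoints of an edge of the line are vertices of the line (`dedge_eq_iff`).
* `next_dart`: the darts at the vertex `p` with edge in `Lin i κ p`: by `mem_Lin_iff` and `dedge_eq_iff`
  either `p = p * seg m`, so `m = 0` and `l = wd i κ`; or `p = p * seg (m + 1)` with `m + 1 ≤ N`, so
  `m + 1 = N`, and `l = bar (wd i (κ + m)) = bar (wd i (κ - 1))`.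
* `Lin_finite`, `Lin_ncard`: the image of the range of `N` under an injective map (`dart_inj`).
-/

namespace Pool.Agent.Helper53.LG

variable {Y I : Type} {S : WSys Y I} {Q : Type} [Group Q] (C : Cover S Q)

lemma seg_N (i : I × Bool) (κ : ℤ) (k : ℕ) : S.seg C.g i κ (C.N i.1 * k) = 1 :=
  (C.p0 i κ _).2 (Dvd.intro _ rfl)

private lemma seg_add_mul (i : I × Bool) (κ : ℤ) (m k : ℕ) :
    S.seg C.g i κ (m + C.N i.1 * k) = S.seg C.g i κ m := by
  rw [seg_add, seg_N, mul_one]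

lemma seg_mod (i : I × Bool) (κ : ℤ) (m : ℕ) : S.seg C.g i κ (m % C.N i.1) = S.seg C.g i κ m := by
  conv_rhs => rw [← Nat.mod_add_div m (C.N i.1)]
  rw [seg_add_mul]

lemma N_dvd (i : I × Bool) : (S.n i.1 : ℤ) ∣ (C.N i.1 : ℤ) := by
  exact_mod_cast C.nN i.1

private lemma wd_add_mul (i : I × Bool) (κ : ℤ) (m k : ℕ) :
    S.wd i (κ + ((m + C.N i.1 * k : ℕ) : ℤ)) = S.wd i (κ + m) := by
  apply wd_congr
  have h : κ + ((m + C.N i.1 * k : ℕ) : ℤ) - (κ + m) = C.N i.1 * k := by push_cast; ring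
  rw [h]
  exact Dvd.dvd.mul_right (N_dvd C i) _

private lemma wd_mod (i : I × Bool) (κ : ℤ) (m : ℕ) :
    S.wd i (κ + ((m % C.N i.1 : ℕ) : ℤ)) = S.wd i (κ + m) := by
  conv_rhs => rw [← Nat.mod_add_div m (C.N i.1)]
  rw [wd_add_mul]

private lemma vt_inj_aux (i : I × Bool) (κ : ℤ) (p : Q) (m d : ℕ)
    (h : p * S.seg C.g i κ m = p * S.seg C.g i κ (m + d)) : m % C.N i.1 = (m + d) % C.N i.1 := by
  have h1 := mul_left_cancel h
  rw [seg_add] at h1
  have h2 : S.seg C.g i (κ + m) d = 1 := (mul_eq_left.1 h1.symm)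
  have h3 := (C.p0 i (κ + m) d).1 h2
  obtain ⟨k, rfl⟩ := h3
  rw [Nat.add_mul_mod_self_left]

lemma vt_inj (i : I × Bool) (κ : ℤ) (p : Q) (m m' : ℕ)
    (h : p * S.seg C.g i κ m = p * S.seg C.g i κ m') : m % C.N i.1 = m' % C.N i.1 := by
  rcases le_total m m' with hle | hle
  · obtain ⟨d, rfl⟩ := Nat.exists_eq_add_of_le hle
    exact vt_inj_aux C i κ p m d h
  · obtain ⟨d, rfl⟩ := Nat.exists_eq_add_of_le hle
    exact (vt_inj_aux C i κ p m' d h.symm).symm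

/-- the second alternative for two equal edges of a line -/
private lemma second_alt {i : I × Bool} {κ : ℤ} {p p' : Q} {l' : Lt Y} {m : ℕ}
    (h1 : p * S.seg C.g i κ m = p' * lv C.g l') (h2 : S.wd i (κ + m) = bar l') :
    p' = p * S.seg C.g i κ (m + 1) ∧ l' = bar (S.wd i (κ + m)) := by
  constructor
  · rw [seg_succ, h2, lv_bar, ← mul_assoc, h1, mul_inv_cancel_right]
  · rw [h2, bar_bar]

lemma dart_inj (i : I × Bool) (κ : ℤ) (p : Q) (m m' : ℕ) (hm : m < C.N i.1) (hm' : m' < C.N i.1)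
    (h : dedge C.g (p * S.seg C.g i κ m) (S.wd i (κ + m)) =
      dedge C.g (p * S.seg C.g i κ m') (S.wd i (κ + m'))) : m = m' := by
  rcases (dedge_eq_iff C.g _ _ _ _).1 h with ⟨h1, -⟩ | ⟨h1, h2⟩
  · have h3 := vt_inj C i κ p m m' h1
    rwa [Nat.mod_eq_of_lt hm, Nat.mod_eq_of_lt hm'] at h3
  · exfalso
    have h3 : p * S.seg C.g i κ m' = p * S.seg C.g i κ (m + 1) := by
      rw [h1, seg_succ, mul_assoc]
    have h4 : p * S.seg C.g i κ m = p * S.seg C.g i κ (m' + 1) := by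
      rw [seg_succ, h2, lv_bar, ← mul_assoc, h1, mul_inv_cancel_right]
    have h5 := vt_inj C i κ p _ _ h3
    have h6 := vt_inj C i κ p _ _ h4
    have h7 : (C.N i.1 : ℤ) ∣ ((m + 1 : ℕ) : ℤ) - (m' : ℤ) := (Nat.modEq_iff_dvd).1 h5
    have h8 : (C.N i.1 : ℤ) ∣ ((m' + 1 : ℕ) : ℤ) - (m : ℤ) := (Nat.modEq_iff_dvd).1 h6
    have h9 := dvd_add h7 h8
    have h10 : ((m + 1 : ℕ) : ℤ) - (m' : ℤ) + (((m' + 1 : ℕ) : ℤ) - (m : ℤ)) = 2 := by
      push_cast; ring
    rw [h10] at h9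
    have h11 := Int.le_of_dvd (by norm_num) h9
    have h12 := C.Npos i.1
    omega

lemma mem_Lin_iff (i : I × Bool) (κ : ℤ) (p : Q) (e : Q × Y) :
    e ∈ C.Lin i κ p ↔ ∃ m : ℕ, m < C.N i.1 ∧ e = dedge C.g (p * S.seg C.g i κ m) (S.wd i (κ + m)) := by
  constructor
  · rintro ⟨m, rfl⟩
    refine ⟨m % C.N i.1, Nat.mod_lt _ (by have := C.Npos i.1; omega), ?_⟩
    rw [seg_mod, wd_mod]
  · rintro ⟨m, -, rfl⟩
    exact ⟨m, rfl⟩

lemma Lin_shift (i : I × Bool) (κ : ℤ) (p : Q) (m : ℕ) :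
    C.Lin i (κ + m) (p * S.seg C.g i κ m) = C.Lin i κ p := by
  ext e
  constructor
  · rintro ⟨m', rfl⟩
    refine ⟨m + m', ?_⟩
    rw [seg_add, mul_assoc]
    congr 2
    push_cast
    ring
  · rintro ⟨m', rfl⟩
    refine ⟨m' + m * (C.N i.1 - 1), ?_⟩
    have hN : m + (m' + m * (C.N i.1 - 1)) = m' + C.N i.1 * m := by
      have h1 := C.Npos i.1
      obtain ⟨a, ha⟩ : ∃ a, C.N i.1 = a + 1 := ⟨C.N i.1 - 1, by omega⟩
      rw [ha, Nat.add_sub_cancel]
      ring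
    rw [mul_assoc, ← seg_add, hN, seg_add_mul]
    congr 1
    rw [← wd_add_mul C i κ m' m, ← hN]
    congr 1
    push_cast
    ring

lemma Lin_congr (i : I × Bool) {κ l : ℤ} (h : (S.n i.1 : ℤ) ∣ κ - l) (p : Q) :
    C.Lin i κ p = C.Lin i l p := by
  have h1 : ∀ m : ℕ, S.wd i (κ + m) = S.wd i (l + m) := by
    intro m
    apply wd_congr
    simpa using h
  unfold Cover.Lin
  simp only [seg_congr C.g S i h, h1]

private lemma Lin_rev_sub (i : I × Bool) (κ : ℤ) (p : Q) : C.Lin (rev i) (-κ) p ⊆ C.Lin i κ p := by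
  intro e he
  obtain ⟨m, hm, rfl⟩ := (mem_Lin_iff C (rev i) (-κ) p e).1 he
  rw [rev_fst] at hm
  obtain ⟨m', hm'⟩ : ∃ m', m' + 1 + m = C.N i.1 := ⟨C.N i.1 - 1 - m, by omega⟩
  have hw : S.wd (rev i) (-κ + m) = bar (S.wd i (κ + m')) := by
    rw [wd_rev]
    congr 1
    apply wd_congr
    have h1 : -1 - (-κ + (m : ℤ)) - (κ + m') = -(C.N i.1 : ℤ) := by
      rw [← hm']; push_cast; ring
    rw [h1]
    exact (dvd_neg).2 (N_dvd C i)
  have hs : S.seg C.g (rev i) (-κ) m = S.seg C.g i κ (m' + 1) := by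
    have h1 : S.seg C.g (rev i) (-κ) m = (S.seg C.g i (κ + ((m' + 1 : ℕ) : ℤ)) m)⁻¹ := by
      rw [seg_rev]
      apply seg_congr
      have h2 : -κ - (-(κ + ((m' + 1 : ℕ) : ℤ)) - (m : ℤ)) = (C.N i.1 : ℤ) := by
        rw [← hm']; push_cast; ring
      rw [h2, rev_fst]
      exact N_dvd C i
    rw [h1, inv_eq_iff_mul_eq_one]
    have h3 : S.seg C.g i κ (m' + 1) * S.seg C.g i (κ + ((m' + 1 : ℕ) : ℤ)) m = 1 := by
      rw [← seg_add, hm']
      have := seg_N C i κ 1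
      rwa [mul_one] at this
    exact mul_eq_one_comm.1 h3
  refine ⟨m', ?_⟩
  rw [hw, hs, seg_succ, ← mul_assoc, dedge_bar]

lemma Lin_rev (i : I × Bool) (κ : ℤ) (p : Q) : C.Lin (rev i) (-κ) p = C.Lin i κ p := by
  apply Set.Subset.antisymm (Lin_rev_sub C i κ p)
  have h := Lin_rev_sub C (rev i) (-κ) p
  rwa [rev_rev, neg_neg] at h

lemma self_mem_Lin (i : I × Bool) (κ : ℤ) (p : Q) : dedge C.g p (S.wd i κ) ∈ C.Lin i κ p :=
  ⟨0, by simp⟩

lemma exists_base (i : I × Bool) (κ : ℤ) (p p' : Q) (l' : Lt Y) (h : dedge C.g p' l' ∈ C.Lin i κ p) :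
    ∃ (j : I × Bool) (κ' : ℤ), j.1 = i.1 ∧ S.wd j κ' = l' ∧ C.Lin j κ' p' = C.Lin i κ p := by
  obtain ⟨m, hm⟩ := h
  rcases (dedge_eq_iff C.g _ _ _ _).1 hm with ⟨h1, h2⟩ | ⟨h1, h2⟩
  · refine ⟨i, κ + m, rfl, h2.symm, ?_⟩
    rw [h1, Lin_shift]
  · obtain ⟨h3, h4⟩ := second_alt C h1 h2
    refine ⟨rev i, -(κ + ((m + 1 : ℕ) : ℤ)), rfl, ?_, ?_⟩
    · rw [wd_rev, h4]
      congr 2
      push_cast
      ring
    · rw [Lin_rev, h3, Lin_shift]

lemma vertex_of_mem (i : I × Bool) (κ : ℤ) (p p' : Q) (l' : Lt Y)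
    (h : dedge C.g p' l' ∈ C.Lin i κ p) : ∃ M : ℕ, M < C.N i.1 ∧ p' = p * S.seg C.g i κ M := by
  have hN : 0 < C.N i.1 := by have := C.Npos i.1; omega
  obtain ⟨m, hm⟩ := h
  rcases (dedge_eq_iff C.g _ _ _ _).1 hm with ⟨h1, h2⟩ | ⟨h1, h2⟩
  · exact ⟨m % C.N i.1, Nat.mod_lt _ hN, by rw [seg_mod]; exact h1⟩
  · obtain ⟨h3, -⟩ := second_alt C h1 h2
    exact ⟨(m + 1) % C.N i.1, Nat.mod_lt _ hN, by rw [seg_mod]; exact h3⟩

lemma next_dart (i : I × Bool) (κ : ℤ) (p : Q) (l : Lt Y) (h : dedge C.g p l ∈ C.Lin i κ p) :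
    l = S.wd i κ ∨ l = bar (S.wd i (κ - 1)) := by
  obtain ⟨m, hmN, hm⟩ := (mem_Lin_iff C i κ p _).1 h
  rcases (dedge_eq_iff C.g _ _ _ _).1 hm with ⟨h1, h2⟩ | ⟨h1, h2⟩
  · left
    have h3 : S.seg C.g i κ m = 1 := mul_eq_left.1 h1.symm
    have h4 := (C.p0 i κ m).1 h3
    have h5 : m = 0 := Nat.eq_zero_of_dvd_of_lt h4 hmN
    rw [h2, h5]
    simp
  · right
    obtain ⟨h3, h4⟩ := second_alt C h1 h2
    have h5 : S.seg C.g i κ (m + 1) = 1 := mul_eq_left.1 h3.symm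
    have h6 := (C.p0 i κ (m + 1)).1 h5
    have h7 : C.N i.1 ≤ m + 1 := Nat.le_of_dvd (by omega) h6
    have h8 : m + 1 = C.N i.1 := by omega
    rw [h4]
    congr 1
    apply wd_congr
    have h9 : κ + (m : ℤ) - (κ - 1) = (C.N i.1 : ℤ) := by
      rw [← h8]; push_cast; ring
    rw [h9]
    exact N_dvd C i

private lemma Lin_eq_image (i : I × Bool) (κ : ℤ) (p : Q) :
    C.Lin i κ p = (fun m : ℕ => dedge C.g (p * S.seg C.g i κ m) (S.wd i (κ + m))) ''
      (Finset.range (C.N i.1) : Set ℕ) := by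
  ext e
  rw [mem_Lin_iff]
  constructor
  · rintro ⟨m, hm, rfl⟩
    exact ⟨m, Finset.mem_coe.2 (Finset.mem_range.2 hm), rfl⟩
  · rintro ⟨m, hm, rfl⟩
    exact ⟨m, Finset.mem_range.1 (Finset.mem_coe.1 hm), rfl⟩

lemma Lin_finite (i : I × Bool) (κ : ℤ) (p : Q) : (C.Lin i κ p).Finite := by
  rw [Lin_eq_image]
  exact (Finset.finite_toSet _).image _

lemma Lin_ncard (i : I × Bool) (κ : ℤ) (p : Q) : (C.Lin i κ p).ncard = C.N i.1 := by
  rw [Lin_eq_image, Set.ncard_image_of_injOn, Set.ncard_coe_finset, Finset.card_range]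
  intro m hm m' hm' h
  exact dart_inj C i κ p m m' (Finset.mem_range.1 (Finset.mem_coe.1 hm))
    (Finset.mem_range.1 (Finset.mem_coe.1 hm')) h

end Pool.Agent.Helper53.LG
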