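import Pool.Agent.Helper53.LG.Close

/-!
# LG-03: intersections of closed lines, convex sets

`Lin_inter`: if `A ≠ B` are closed lines then `A ∩ B` has at most `2 R0` elements. If `A ∩ B` is empty: clear.
Otherwise let `e = dedge p l0 ∈ A ∩ B`
(with `e = (q, y)`: `p = q`, `l0 = (y, true)`); by `exists_base`: `A = Lin i κ p`, `B = Lin j l p` with
`wd i κ = l0 = wd j l`. Every `e' ∈ A ∩ B` is `dedge (p * seg i κ a) (wd i (κ + a))` with `a < N` (`mem_Lin_iff`), and
by `vertex_of_mem` (for `B`) `p * seg i κ a = p * seg j l M'` with `M' < N'`, so `a < R0` or `N < a + R0`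
(`Lin_eq_or`). So `A ∩ B` is contained in the image of `{a | a < R0} ∪ {a | a < N, N < a + R0}`
(`R0 + (R0 - 1)` elements at most) under a map.

`card_lines`: the closed lines through an edge `e = dedge p l0` (`p`, `l0` as before) are of the form
`Lin j κ p` with `0 ≤ κ < n j` (`exists_base`, `Lin_congr` with `κ % n`), so they are in the image of the
finite type `Σ j : I × Bool, Fin (S.n j.1)` of cardinality `2 ∑ n i = D0`.

`conv_empty`, `conv_Lin` (`2 R0 ≤ L0`), `conv_St`: let `B` be a line. If `e ∈ B` then `B ⊆ St e` (by the definition of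
`Cm`). If `e ∉ B`: `B ∩ St e ⊆ ⋃ (A ∩ B)` over the closed lines `A` through `e` (an element `f` of `B ∩ St e` is
not `e`, so `Cm e f` and there is a closed line `A` with `e, f ∈ A`; `A ≠ B` since `e ∉ B`). There are at most
`D0` of them and each `A ∩ B` has at most `2 R0` elements, so `≤ 2 R0 D0 ≤ L0`.

`Lin_clique`: definition of `Cm`. `Cm_symm`, `Cm_irrefl`: clear.
`Lin_max`: `e ∉ B`, assume that `Cm e f` for all `f ∈ B`. Then `B ⊆ St e`, so `B = B ∩ St e` has at most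
`2 R0 D0` elements by the estimate above; but `ncard B = N ≥ 2 (L0 + 4 R0 + 4) > 2 R0 D0` (`Lin_ncard`, `Long`). So state
the estimate `(B ∩ St e).ncard ≤ L0` for `e ∉ B` as a separate lemma.
-/

namespace Pool.Agent.Helper53.LG

variable {Y I : Type} [Fintype I] {S : WSys Y I} {Q : Type} [Group Q] (C : Cover S Q)

omit [Fintype I] in
theorem Lin_inter {R0 : ℕ} (hR0 : 1 ≤ R0) (hsep : S.Sep R0) (i j : I × Bool) (κ l : ℤ) (p q : Q)
    (hne : C.Lin i κ p ≠ C.Lin j l q) : (C.Lin i κ p ∩ C.Lin j l q).ncard ≤ 2 * R0 := by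
  classical
  rcases Set.eq_empty_or_nonempty (C.Lin i κ p ∩ C.Lin j l q) with h0 | ⟨e, he1, he2⟩
  · rw [h0]; simp
  · obtain ⟨q0, y⟩ := e
    have hd : (q0, y) = dedge C.g q0 (y, true) := by simp [dedge]
    rw [hd] at he1 he2
    obtain ⟨i', κ', hi', hw, hL⟩ := exists_base C i κ p q0 (y, true) he1
    obtain ⟨j', l', hj', hw', hL'⟩ := exists_base C j l q q0 (y, true) he2
    rw [← hL, ← hL'] at hne ⊢
    let F : ℕ → Q × Y := fun a => dedge C.g (q0 * S.seg C.g i' κ' a) (S.wd i' (κ' + a))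
    let A : Finset ℕ := Finset.range R0 ∪ Finset.Ico (C.N i'.1 + 1 - R0) (C.N i'.1)
    have hA : A.card ≤ 2 * R0 := by
      refine (Finset.card_union_le _ _).trans ?_
      rw [Finset.card_range, Nat.card_Ico]
      omega
    have hsub : C.Lin i' κ' q0 ∩ C.Lin j' l' q0 ⊆ ((A.image F : Finset (Q × Y)) : Set (Q × Y)) := by
      rintro f ⟨hf1, hf2⟩
      obtain ⟨a, ha, hfa⟩ := (mem_Lin_iff C i' κ' q0 f).1 hf1
      have hf2' := hf2
      rw [hfa] at hf2'
      obtain ⟨M, hM, hpM⟩ := vertex_of_mem C j' l' q0 _ _ hf2'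
      have h3 := Lin_eq_or C hR0 hsep i' j' κ' l' q0 a M (by rw [hw, hw']) ha hM hpM
      have haA : a ∈ A := by
        simp only [A, Finset.mem_union, Finset.mem_range, Finset.mem_Ico]
        rcases h3 with h3 | h3 | h3
        · exact absurd h3 hne
        · exact Or.inl h3
        · right
          omega
      rw [Finset.coe_image]
      exact ⟨a, haA, hfa.symm⟩
    calc (C.Lin i' κ' q0 ∩ C.Lin j' l' q0).ncard
        ≤ ((A.image F : Finset (Q × Y)) : Set (Q × Y)).ncard :=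
          Set.ncard_le_ncard hsub (Finset.finite_toSet _)
      _ = (A.image F).card := Set.ncard_coe_finset _
      _ ≤ A.card := Finset.card_image_le
      _ ≤ 2 * R0 := hA

theorem card_lines (e : Q × Y) :
    {A : Set (Q × Y) | e ∈ A ∧ ∃ i κ p, A = C.Lin i κ p}.Finite ∧
    {A : Set (Q × Y) | e ∈ A ∧ ∃ i κ p, A = C.Lin i κ p}.ncard ≤ S.D0 := by
  classical
  let F : (Σ j : I × Bool, Fin (S.n j.1)) → Set (Q × Y) := fun x => C.Lin x.1 ((x.2 : ℕ) : ℤ) e.1
  have hsub : {A : Set (Q × Y) | e ∈ A ∧ ∃ i κ p, A = C.Lin i κ p} ⊆ Set.range F := by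
    rintro A ⟨heA, i, κ, p, rfl⟩
    have hd : e = dedge C.g e.1 (e.2, true) := by simp [dedge]
    rw [hd] at heA
    obtain ⟨j, κ', -, -, hL⟩ := exists_base C i κ p e.1 (e.2, true) heA
    have hn : (0 : ℤ) < S.n j.1 := by exact_mod_cast S.npos j.1
    have h1 : 0 ≤ κ' % (S.n j.1 : ℤ) := Int.emod_nonneg _ hn.ne'
    have h2 : κ' % (S.n j.1 : ℤ) < S.n j.1 := Int.emod_lt_of_pos _ hn
    refine ⟨⟨j, ⟨(κ' % (S.n j.1 : ℤ)).toNat, by omega⟩⟩, ?_⟩
    show C.Lin j (((κ' % (S.n j.1 : ℤ)).toNat : ℕ) : ℤ) e.1 = C.Lin i κ p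
    rw [← hL]
    apply Lin_congr
    rw [Int.toNat_of_nonneg h1]
    have h3 : κ' % (S.n j.1 : ℤ) - κ' = (S.n j.1 : ℤ) * (-(κ' / (S.n j.1 : ℤ))) := by
      have := Int.emod_add_mul_ediv κ' (S.n j.1 : ℤ)
      linarith
    rw [h3]
    exact dvd_mul_right _ _
  have hfin : (Set.range F).Finite := Set.finite_range F
  refine ⟨hfin.subset hsub, (Set.ncard_le_ncard hsub hfin).trans ?_⟩
  have h1 : (Set.range F).ncard ≤ Fintype.card (Σ j : I × Bool, Fin (S.n j.1)) := by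
    rw [← Set.image_univ]
    refine (Set.ncard_image_le Set.finite_univ).trans ?_
    rw [Set.ncard_univ, Nat.card_eq_fintype_card]
  refine h1.trans ?_
  rw [Fintype.card_sigma, Fintype.sum_prod_type]
  simp [WSys.D0, Finset.sum_add_distrib, two_mul]

theorem conv_empty (L : ℕ) : C.Conv L ∅ := by
  intro i κ p
  right
  simp

theorem conv_Lin {R0 : ℕ} (hR0 : 1 ≤ R0) (hsep : S.Sep R0) (i : I × Bool) (κ : ℤ) (p : Q) :
    C.Conv (S.L0 R0) (C.Lin i κ p) := by
  intro j l q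
  by_cases h : C.Lin j l q = C.Lin i κ p
  · left
    rw [h]
  · right
    refine (Lin_inter C hR0 hsep j i l κ q p h).trans ?_
    unfold WSys.L0
    exact Nat.le_mul_of_pos_right _ (Nat.succ_pos _)

theorem inter_St {R0 : ℕ} (hR0 : 1 ≤ R0) (hsep : S.Sep R0) (e : Q × Y) (i : I × Bool) (κ : ℤ) (p : Q)
    (he : e ∉ C.Lin i κ p) : (C.Lin i κ p ∩ C.St e).ncard ≤ S.L0 R0 := by
  classical
  obtain ⟨hfin, hcard⟩ := card_lines C e
  let T : Finset (Set (Q × Y)) := hfin.toFinset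
  have hfi : ∀ A : Set (Q × Y), (C.Lin i κ p ∩ A).Finite := fun A =>
    (Lin_finite C i κ p).subset Set.inter_subset_left
  let G : Set (Q × Y) → Finset (Q × Y) := fun A => (hfi A).toFinset
  have hT : T.card ≤ S.D0 := by
    rw [← Set.ncard_coe_finset T]
    simpa [T] using hcard
  have hsub : C.Lin i κ p ∩ C.St e ⊆ ((T.biUnion G : Finset (Q × Y)) : Set (Q × Y)) := by
    rintro f ⟨hf1, hf2⟩
    rcases hf2 with hf2 | ⟨-, j, l, q, hj1, hj2⟩
    · exact absurd (hf2 ▸ hf1) he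
    · rw [Finset.mem_coe, Finset.mem_biUnion]
      refine ⟨C.Lin j l q, ?_, ?_⟩
      · rw [Set.Finite.mem_toFinset]
        exact ⟨hj1, j, l, q, rfl⟩
      · rw [Set.Finite.mem_toFinset]
        exact ⟨hf1, hj2⟩
  have hG : ∀ A ∈ T, (G A).card ≤ 2 * R0 := by
    intro A hA
    rw [Set.Finite.mem_toFinset] at hA
    obtain ⟨heA, j, l, q, rfl⟩ := hA
    have hne : C.Lin i κ p ≠ C.Lin j l q := fun h => he (h ▸ heA)
    have h1 := Lin_inter C hR0 hsep i j κ l p q hne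
    rwa [Set.ncard_eq_toFinset_card _ (hfi _)] at h1
  calc (C.Lin i κ p ∩ C.St e).ncard
      ≤ ((T.biUnion G : Finset (Q × Y)) : Set (Q × Y)).ncard :=
        Set.ncard_le_ncard hsub (Finset.finite_toSet _)
    _ = (T.biUnion G).card := Set.ncard_coe_finset _
    _ ≤ T.card * (2 * R0) := Finset.card_biUnion_le_card_mul _ _ _ hG
    _ ≤ S.D0 * (2 * R0) := Nat.mul_le_mul_right _ hT
    _ ≤ S.L0 R0 := by
      unfold WSys.L0
      nlinarith

theorem conv_St {R0 : ℕ} (hR0 : 1 ≤ R0) (hsep : S.Sep R0) (e : Q × Y) : C.Conv (S.L0 R0) (C.St e) := by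
  intro i κ p
  by_cases he : e ∈ C.Lin i κ p
  · left
    intro f hf
    by_cases hfe : f = e
    · exact Or.inl hfe
    · exact Or.inr ⟨Ne.symm hfe, i, κ, p, he, hf⟩
  · right
    exact inter_St C hR0 hsep e i κ p he

omit [Fintype I] in
theorem Cm_symm {e f : Q × Y} (h : C.Cm e f) : C.Cm f e := by
  obtain ⟨h1, i, κ, p, h2, h3⟩ := h
  exact ⟨h1.symm, i, κ, p, h3, h2⟩

omit [Fintype I] in
theorem Cm_irrefl (e : Q × Y) : ¬ C.Cm e e := fun h => h.1 rfl

omit [Fintype I] in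
theorem Lin_clique (i : I × Bool) (κ : ℤ) (p : Q) {e f : Q × Y} (he : e ∈ C.Lin i κ p)
    (hf : f ∈ C.Lin i κ p) (hne : e ≠ f) : C.Cm e f :=
  ⟨hne, i, κ, p, he, hf⟩

theorem Lin_max {R0 : ℕ} (hL : C.Long R0) (i : I × Bool) (κ : ℤ) (p : Q) (e : Q × Y)
    (he : e ∉ C.Lin i κ p) : ∃ f ∈ C.Lin i κ p, ¬ C.Cm e f := by
  obtain ⟨hR0, hsep, hlong⟩ := hL
  by_contra hcon
  push Not at hcon
  have h1 : C.Lin i κ p ∩ C.St e = C.Lin i κ p :=
    Set.inter_eq_left.2 (fun f hf => Or.inr (hcon f hf))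
  have h2 := inter_St C hR0 hsep e i κ p he
  rw [h1, Lin_ncard] at h2
  have h3 := hlong i.1
  omega

end Pool.Agent.Helper53.LG
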