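import Pool.Agent.Helper53.LG.Sepi

/-!
# Project LG: normalized data

`NDW`: finite sets `X`, `B`, `R`, each `b : B` has a root `root b : R`; a word system `S` on the letters `X ⊕ B` indexed by
`B ⊕ R`: the word `inl b` is the letter `inr b` (called `s_b`), the words of the roots `inr ρ` are arbitrary reduced
periodic words; the word of `root b` uses only letters `s_b'` with `rk b' < rk b`; `Sepi`.

`cw i : FreeGroup (X ⊕ B)` is the value of one period of the word `i`. The group `L` is `FreeGroup (X ⊕ B)` with the
letters `x`, `s_b`; the group `F` is `FreeGroup (X ⊕ B)` with the letters `x`, `b`. `psi : L →* F` sends `x` to `x` and `s_b` to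
`b r_b b⁻¹`, `r_b = psi (cw (root b))`. For `m : B → ℤ` the automorphism `phi m` of `F` fixes `x` and sends `b` to
`b r_b ^ (m b)`.
-/

namespace Pool.Agent.Helper53.LG

/-- normalized data (words only) -/
structure NDW where
  X : Type
  B : Type
  R : Type
  [fX : Fintype X]
  [fB : Fintype B]
  [fR : Fintype R]
  rk : B → ℕ
  root : B → R
  S : WSys (X ⊕ B) (B ⊕ R)
  nB : ∀ b, S.n (Sum.inl b) = 1
  wB : ∀ b k, S.w (Sum.inl b) k = (Sum.inr b, true)
  low : ∀ b b' k, (S.w (Sum.inr (root b)) k).1 = Sum.inr b' → rk b' < rk b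
  sepi : S.Sepi

attribute [instance] NDW.fX NDW.fB NDW.fR

variable (D : NDW)

/-- the free group -/
abbrev NDW.F : Type := FreeGroup (D.X ⊕ D.B)

/-- the value of one period of a word -/
def NDW.cw (i : D.B ⊕ D.R) : D.F := D.S.seg FreeGroup.of (i, true) 0 (D.S.n i)

end Pool.Agent.Helper53.LG
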