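import Pool.Agent.Helper53.LG.Psi

/-!
# LG-20: `psi` is injective

Let `L = FreeGroup (X ⊕ B)`, acting on the set `Ω = L × ℕ` by `lam l (l', n) = (l * l', n)` (`lam : L →* Equiv.Perm Ω`,
injective). `conj_perm`: if `r, s ∈ L` are `≠ 1` then `lam r`, `lam s` are conjugate in `Equiv.Perm Ω`: `L` is torsion free
(`IsMulTorsionFree (FreeGroup _)`) and countable, so `lam r` acts freely; `Ω` is equivalent to `O_r × ℤ` where `O_r` is the set of
orbits (choose representatives), `lam r` acting by `(o, z) ↦ (o, z + 1)`; `O_r` is countable and infinite (the points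
`(1, n)` are in different orbits), so there is a bijection `O_r ≃ O_s`, whence a permutation `β` of `Ω` with
`β * lam r * β⁻¹ = lam s`.
Let `β_b` be this permutation for `r = cw (root b)`, `s = s_b = of (inr b)` (both `≠ 1`: `fseg_norm`, positive period;
`FreeGroup.of_ne_one`). Let `Θ : F →* Equiv.Perm Ω` be the lift of `x ↦ lam x`, `b ↦ β_b`. Then `Θ ∘ psi = lam` by `hom_unique`:
for `b`, if `Θ (psi (cw (root b))) = lam (cw (root b))` then
`Θ (psi s_b) = β_b * lam (cw (root b)) * β_b⁻¹ = lam s_b`. As `lam` is injective so is `psi`.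
-/

namespace Pool.Agent.Helper53.LG

variable (D : NDW)

private lemma psiInj_countable (Z : Type) [Finite Z] : Countable (FreeGroup Z) := by
  have h : Function.Surjective (FreeGroup.mk : List (Z × Bool) → FreeGroup Z) := by
    intro x
    obtain ⟨L, hL⟩ := Quot.exists_rep x
    exact ⟨L, hL⟩
  exact h.countable

/-- the free action of a nontrivial element in coordinates -/
private lemma psiInj_coord {Z : Type} [Finite Z] (r : FreeGroup Z) (hr : r ≠ 1) :
    ∃ E : ℕ × ℤ ≃ FreeGroup Z × ℕ, ∀ (k : ℕ) (z : ℤ),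
      E (k, z + 1) = (r * (E (k, z)).1, (E (k, z)).2) := by
  classical
  have := psiInj_countable Z
  let O := Quotient (QuotientGroup.rightRel (Subgroup.zpowers r))
  have : Countable O := Quotient.countable
  have : Nonempty O := ⟨Quotient.mk _ 1⟩
  obtain ⟨ε⟩ : Nonempty (ℕ ≃ O × ℕ) := nonempty_equiv_of_countable
  have hinj : Function.Injective (fun z : ℤ => r ^ z) := by
    rw [injective_zpow_iff_not_isOfFinOrder]
    exact not_isOfFinOrder_of_isMulTorsionFree hr
  let f : O × ℤ → FreeGroup Z := fun q => r ^ q.2 * q.1.out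
  have hf : Function.Bijective f := by
    constructor
    · rintro ⟨q, z⟩ ⟨q', z'⟩ h
      change r ^ z * q.out = r ^ z' * q'.out at h
      have hq : q = q' := by
        rw [← Quotient.out_eq q, ← Quotient.out_eq q']
        apply Quotient.sound
        change QuotientGroup.rightRel _ _ _
        rw [QuotientGroup.rightRel_apply]
        have h2 : q'.out * q.out⁻¹ = r ^ (z - z') := by
          have h3 : q'.out = r ^ (-z') * (r ^ z * q.out) := by
            rw [h]
            group
          rw [h3, mul_assoc, mul_assoc, mul_inv_cancel, mul_one, ← zpow_add]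
          congr 1
          ring
        rw [h2]
        exact Subgroup.zpow_mem _ (Subgroup.mem_zpowers r) _
      subst hq
      have h2 : r ^ z = r ^ z' := mul_right_cancel h
      have h3 := hinj h2
      rw [h3]
    · intro g
      have h1 : QuotientGroup.rightRel (Subgroup.zpowers r)
          (Quotient.mk (QuotientGroup.rightRel (Subgroup.zpowers r)) g).out g := Quotient.mk_out g
      rw [QuotientGroup.rightRel_apply] at h1
      obtain ⟨z, hz⟩ := Subgroup.mem_zpowers_iff.1 h1
      refine ⟨(Quotient.mk _ g, z), ?_⟩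
      change r ^ z * _ = g
      rw [hz]
      group
  let F := Equiv.ofBijective f hf
  let E : ℕ × ℤ ≃ FreeGroup Z × ℕ :=
    { toFun := fun p => (F ((ε p.1).1, p.2), (ε p.1).2)
      invFun := fun p => (ε.symm ((F.symm p.1).1, p.2), (F.symm p.1).2)
      left_inv := fun p => by simp
      right_inv := fun p => by simp }
  refine ⟨E, fun k z => ?_⟩
  change (r ^ (z + 1) * _, _) = (r * (r ^ z * _), _)
  rw [add_comm z 1, zpow_add, zpow_one, mul_assoc]
  rfl

theorem conj_perm {Z : Type} [Finite Z] (r s : FreeGroup Z) (hr : r ≠ 1) (hs : s ≠ 1) :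
    ∃ β : Equiv.Perm (FreeGroup Z × ℕ), ∀ p : FreeGroup Z × ℕ, β (r * p.1, p.2) = (s * (β p).1, (β p).2) := by
  obtain ⟨E, hE⟩ := psiInj_coord r hr
  obtain ⟨E', hE'⟩ := psiInj_coord s hs
  refine ⟨E.symm.trans E', fun p => ?_⟩
  obtain ⟨⟨k, z⟩, rfl⟩ := E.surjective p
  rw [← hE]
  simp only [Equiv.trans_apply, Equiv.symm_apply_apply]
  exact hE' k z

theorem psi_injective : Function.Injective D.psi := by
  classical
  -- the regular action on `L × ℕ`
  let lam : D.F →* Equiv.Perm (D.F × ℕ) :=
    { toFun := fun l =>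
        { toFun := fun p => (l * p.1, p.2)
          invFun := fun p => (l⁻¹ * p.1, p.2)
          left_inv := fun p => by simp
          right_inv := fun p => by simp }
      map_one' := by
        ext p <;> simp
      map_mul' := fun l l' => by
        ext p <;> simp [mul_assoc] }
  have lam_apply : ∀ (l : D.F) (p : D.F × ℕ), lam l p = (l * p.1, p.2) := fun _ _ => rfl
  have lam_inj : Function.Injective lam := by
    intro l l' h
    have h2 := congrArg (fun β : Equiv.Perm (D.F × ℕ) => (β (1, 0)).1) h
    simpa [lam_apply] using h2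
  have hroot : ∀ b : D.B, D.cw (Sum.inr (D.root b)) ≠ 1 := by
    intro b h
    have h2 := fseg_norm D.S (Sum.inr (D.root b), true) 0 (D.S.n (Sum.inr (D.root b)))
    unfold NDW.cw at h
    rw [h, FreeGroup.norm_one] at h2
    exact (D.S.npos _).ne h2
  have hb : ∀ b : D.B, ∃ β : Equiv.Perm (D.F × ℕ),
      β * lam (D.cw (Sum.inr (D.root b))) * β⁻¹ = lam (FreeGroup.of (Sum.inr b)) := by
    intro b
    obtain ⟨β, hβ⟩ := conj_perm (D.cw (Sum.inr (D.root b))) (FreeGroup.of (Sum.inr b)) (hroot b)
      (FreeGroup.of_ne_one _)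
    refine ⟨β, ?_⟩
    rw [mul_inv_eq_iff_eq_mul]
    ext1 p
    rw [Equiv.Perm.mul_apply, Equiv.Perm.mul_apply, lam_apply, lam_apply]
    exact hβ p
  choose β hβ using hb
  let Θ : D.F →* Equiv.Perm (D.F × ℕ) :=
    FreeGroup.lift (Sum.elim (fun x => lam (FreeGroup.of (Sum.inl x))) β)
  have hΘx : ∀ x, Θ (FreeGroup.of (Sum.inl x)) = lam (FreeGroup.of (Sum.inl x)) := by
    intro x
    simp [Θ]
  have hΘb : ∀ b, Θ (FreeGroup.of (Sum.inr b)) = β b := by
    intro b
    simp [Θ]
  have key : Θ.comp D.psi = lam := by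
    apply hom_unique D
    · intro x
      rw [MonoidHom.comp_apply, psi_inl, hΘx]
    · intro b h
      rw [MonoidHom.comp_apply] at h ⊢
      rw [psi_inr, map_mul, map_mul, map_inv, h, hΘb]
      exact hβ b
  intro l l' h
  apply lam_inj
  rw [← key, MonoidHom.comp_apply, MonoidHom.comp_apply, h]

end Pool.Agent.Helper53.LG
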