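import Pool.Agent.Helper53.LG.Base
import Pool.Agent.Helper53.LG.CoverEx
import Pool.Agent.Helper53.LG.PsiInj

/-!
# LG-21: the cover for normalized data

`R0 = D0 + 1`, `K = L0 + 4 R0 + 4`. `exists_base_group` for `ψ = D.psi` (`psi_injective`) and `K` gives `P`, `θ`; `g0 y = θ (psi (of y))`.
`exists_cover` for `g0` (`3 ≤ K`): `C.N i = 2 (n_i * ord_i)`, `ord_i = orderOf (S.seg g0 (i, true) 0 n_i) ≥ K`.
`Long`: `1 ≤ R0`, `sep_of_sepi`, `2 K ≤ 2 n_i ord_i`.
For `b`: `S.seg g0 (inl b, true) 0 1 = θ (psi s_b)` (`nB`, `wB`, `seg_one`, `wd_true`), and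
`S.seg g0 (inr (root b), true) 0 n = θ (psi (cw (inr (root b))))` (`map_seg` for `θ.comp psi`), conjugate by `θ b` (`psi_inr`),
so the orders are equal.
-/

namespace Pool.Agent.Helper53.LG

theorem exists_nd_cover (D : NDW) : ∃ (Q : Type) (_ : Group Q) (_ : Fintype Q) (C : Cover D.S Q),
    C.Long (D.S.D0 + 1) ∧
    ∀ b : D.B, C.N (Sum.inl b) * D.S.n (Sum.inr (D.root b)) = C.N (Sum.inr (D.root b)) := by
  obtain ⟨P, _, _, θ, h1, h2⟩ := exists_base_group D.S D.psi (psi_injective D)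
    (D.S.L0 (D.S.D0 + 1) + 4 * (D.S.D0 + 1) + 4)
  obtain ⟨Q, _, _, C, hC⟩ := exists_cover D.S P (fun y => θ (D.psi (FreeGroup.of y))) h1
    (fun i => by have := h2 i; omega)
  refine ⟨Q, inferInstance, inferInstance, C, ⟨by omega, sep_of_sepi D.S D.sepi, ?_⟩, ?_⟩
  · intro i
    rw [hC]
    apply Nat.mul_le_mul_left
    calc D.S.L0 (D.S.D0 + 1) + 4 * (D.S.D0 + 1) + 4
        ≤ orderOf (D.S.seg (fun y => θ (D.psi (FreeGroup.of y))) (i, true) 0 (D.S.n i)) := h2 i
      _ = 1 * orderOf (D.S.seg (fun y => θ (D.psi (FreeGroup.of y))) (i, true) 0 (D.S.n i)) :=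
        (one_mul _).symm
      _ ≤ _ := Nat.mul_le_mul_right _ (D.S.npos i)
  · intro b
    have e1 : D.S.seg (fun y => θ (D.psi (FreeGroup.of y))) (Sum.inl b, true) 0 (D.S.n (Sum.inl b)) =
        θ (D.psi (FreeGroup.of (Sum.inr b))) := by
      rw [D.nB, seg_one, wd_true, D.wB]
      simp [lv]
    have e2 : D.S.seg (fun y => θ (D.psi (FreeGroup.of y))) (Sum.inr (D.root b), true) 0
        (D.S.n (Sum.inr (D.root b))) = θ (D.psi (D.cw (Sum.inr (D.root b)))) := by
      have h := map_seg D.S (θ.comp D.psi) FreeGroup.of (Sum.inr (D.root b), true) 0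
        (D.S.n (Sum.inr (D.root b)))
      exact h.symm
    have e3 : orderOf (θ (D.psi (FreeGroup.of (Sum.inr b)))) =
        orderOf (θ (D.psi (D.cw (Sum.inr (D.root b))))) := by
      have h : θ (D.psi (FreeGroup.of (Sum.inr b))) = MulAut.conj (θ (FreeGroup.of (Sum.inr b)))
          (θ (D.psi (D.cw (Sum.inr (D.root b))))) := by
        rw [psi_inr, map_mul, map_mul, map_inv, MulAut.conj_apply]
      rw [h, MulEquiv.orderOf_eq]
    rw [hC, hC, e1, e2, e3, D.nB]
    ring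

end Pool.Agent.Helper53.LG
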