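import Pool.Agent.Helper53.LG.Br

/-!
# LG-40: reduced expressions exist

* `bl_conj`: `bl p * psi (cw (rt p)) ^ z * bl (p.1, !p.2) = psi (cw (lt p)) ^ z` (`psi_inr`; `cw (inl b) = of (inr b)`: see `nB`, `wB`).
* `exists_red`: every `w` is `exval e l` for some `e, l` (induction on the element of the free group: letters `x = psi x`, `b = bl (b, true)`,
  multiply from the right: `exval e l * psi l' = exval e (l * l')`, `exval e l * bl p = exval (e ++ [(l, p)]) 1`). Take `e` of minimal length. If it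
  is not reduced: `e = e₁ ++ (l₁, p) :: (l₂, p') :: e₂` with `p' = (p.1, !p.2)`, `l₂ = cw (rt p) ^ z`; then
  `psi l₁ * bl p * psi l₂ * bl p' = psi (l₁ * cw (lt p) ^ z)`, to be merged with the following entry of `e₂` or with `l`: shorter.
-/

namespace Pool.Agent.Helper53.LG

variable (D : NDW)

private lemma cw_inl_aux (b : D.B) : D.cw (Sum.inl b) = FreeGroup.of (Sum.inr b) := by
  unfold NDW.cw
  rw [D.nB b, seg_one]
  simp [WSys.wd, D.wB, lv]

theorem bl_conj (p : D.B × Bool) (z : ℤ) :
    D.bl p * D.psi (D.cw (D.rt p)) ^ z * D.bl (p.1, !p.2) = D.psi (D.cw (D.lt p)) ^ z := by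
  obtain ⟨b, s⟩ := p
  cases s
  · simp only [NDW.bl, NDW.rt, NDW.lt, Bool.not_false, if_true, Bool.false_eq_true, if_false]
    rw [cw_inl_aux, psi_inr, conj_zpow]
    group
  · simp only [NDW.bl, NDW.rt, NDW.lt, Bool.not_true, if_true, Bool.false_eq_true, if_false]
    rw [cw_inl_aux, psi_inr, conj_zpow]

private lemma exval_cons (l₀ : D.F) (p : D.B × Bool) (e : List (D.F × (D.B × Bool))) (l : D.F) :
    D.exval ((l₀, p) :: e) l = D.psi l₀ * D.bl p * D.exval e l := by
  simp [NDW.exval, mul_assoc]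

private lemma exval_nil (l : D.F) : D.exval [] l = D.psi l := by
  simp [NDW.exval]

private lemma redx_cons (a : D.F × (D.B × Bool)) (b : D.F × (D.B × Bool)) (e : List (D.F × (D.B × Bool))) :
    D.Redx (a :: b :: e) ↔
      ¬ (b.2.1 = a.2.1 ∧ b.2.2 = !a.2.2 ∧ b.1 ∈ Subgroup.zpowers (D.cw (D.rt a.2))) ∧ D.Redx (b :: e) := by
  unfold NDW.Redx
  rw [List.isChain_cons_cons]

private lemma redx_head (a a' : D.F) (p : D.B × Bool) (e : List (D.F × (D.B × Bool)))
    (h : D.Redx ((a, p) :: e)) : D.Redx ((a', p) :: e) := by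
  cases e with
  | nil => exact List.isChain_singleton _
  | cons b e => rw [redx_cons] at h ⊢; exact h

private lemma redx_tail (a : D.F × (D.B × Bool)) (e : List (D.F × (D.B × Bool)))
    (h : D.Redx (a :: e)) : D.Redx e := by
  cases e with
  | nil => exact List.isChain_nil
  | cons b e => rw [redx_cons] at h; exact h.2

private lemma red_psi (l₀ : D.F) (w : D.F) (h : ∃ e l, D.Redx e ∧ w = D.exval e l) :
    ∃ e l, D.Redx e ∧ D.psi l₀ * w = D.exval e l := by
  obtain ⟨e, l, he, rfl⟩ := h
  cases e with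
  | nil =>
    refine ⟨[], l₀ * l, he, ?_⟩
    rw [exval_nil, exval_nil, map_mul]
  | cons a e =>
    obtain ⟨l₁, p⟩ := a
    refine ⟨(l₀ * l₁, p) :: e, l, redx_head D _ _ _ _ he, ?_⟩
    rw [exval_cons, exval_cons, map_mul]
    simp only [mul_assoc]

private lemma red_bl (p : D.B × Bool) (w : D.F) (h : ∃ e l, D.Redx e ∧ w = D.exval e l) :
    ∃ e l, D.Redx e ∧ D.bl p * w = D.exval e l := by
  obtain ⟨e, l, he, rfl⟩ := h
  have h1 : D.bl p * D.exval e l = D.exval ((1, p) :: e) l := by
    rw [exval_cons, map_one, one_mul]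
  cases e with
  | nil => exact ⟨[(1, p)], l, List.isChain_singleton _, h1⟩
  | cons a e =>
    by_cases hc : a.2.1 = p.1 ∧ a.2.2 = !p.2 ∧ a.1 ∈ Subgroup.zpowers (D.cw (D.rt p))
    · obtain ⟨l₁, q⟩ := a
      obtain ⟨hq1, hq2, hz⟩ := hc
      obtain ⟨z, hz⟩ := Subgroup.mem_zpowers_iff.1 hz
      have hq : q = (p.1, !p.2) := Prod.ext hq1 hq2
      have h2 := red_psi D (D.cw (D.lt p) ^ z) (D.exval e l) ⟨e, l, redx_tail D _ _ he, rfl⟩
      obtain ⟨e', l', he', h3⟩ := h2
      refine ⟨e', l', he', ?_⟩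
      rw [← h3, exval_cons, ← mul_assoc, ← mul_assoc]
      congr 1
      simp only at hz
      rw [← hz, map_zpow, map_zpow, hq]
      exact bl_conj D p z
    · exact ⟨(1, p) :: a :: e, l, (redx_cons D _ _ _).2 ⟨hc, he⟩, h1⟩

theorem exists_red (w : D.F) : ∃ e l, D.Redx e ∧ w = D.exval e l := by
  have key : ∀ w : D.F, ∀ w' : D.F, (∃ e l, D.Redx e ∧ w' = D.exval e l) →
      ∃ e l, D.Redx e ∧ w * w' = D.exval e l := by
    intro w
    induction w using FreeGroup.induction_on with
    | C1 => intro w' h; rw [one_mul]; exact h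
    | of x =>
      intro w' h
      cases x with
      | inl x =>
        have := red_psi D (FreeGroup.of (Sum.inl x)) w' h
        rw [psi_inl] at this
        exact this
      | inr b => exact red_bl D (b, true) w' h
    | inv_of x _ =>
      intro w' h
      cases x with
      | inl x =>
        have := red_psi D (FreeGroup.of (Sum.inl x))⁻¹ w' h
        rw [map_inv, psi_inl] at this
        exact this
      | inr b => exact red_bl D (b, false) w' h
    | mul x y hx hy =>
      intro w' h
      rw [mul_assoc]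
      exact hx _ (hy _ h)
  have := key w 1 ⟨[], 1, List.isChain_nil, by rw [exval_nil, map_one]⟩
  rwa [mul_one] at this

end Pool.Agent.Helper53.LG
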