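import Pool.Agent.Helper53.LG.BrEx
import Pool.Agent.Helper53.LG.Britton
import Pool.Agent.Helper53.LG.RedEx
import Pool.Agent.Helper53.LG.Germ

/-!
# LG-42: linearity for normalized data; reduced expressions are not trivial

`nd_linear`: `exists_br` gives `k` and `β : Br D m`, `m b = k * m0 b`. For `x : ℝ` let `π x : F ⋊[φ] ℤ →* (V ≃ V)`,
`(w, t^j) ↦ Θ x w * T^j` (`SemidirectProduct.lift (β.Θ x) (zpowersHom _ β.T) …`; compatibility: `Θ x (φ g w) = T^j Θ x w T^{-j}` for `g = ofAdd j`,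
from `theta_phi` and `hφ`, induction on `j`). `germ_embed`: let `g = (w, t^j) ≠ 1`, `w = exval e l` reduced (`exists_red`). If `e ≠ []`: `britton`
(`Θ x w * T^j = 1` iff `T^j * Θ x w = 1`). If `e = []`: `w = psi l`, `Θ x w = π l` (`theta_psi`), if `π l * T^j = 1` then `l = 1`, `j = 0` (`inj`), `g = 1`.

`exval_ne_one`: `britton` with `j = 0`: for large `x` `Θ x (exval e l) ≠ 1`, so `exval e l ≠ 1`.
-/

namespace Pool.Agent.Helper53.LG

private lemma theta_phi_pow {D : NDW} {m : D.B → ℤ} (β : Br D m) (x : ℝ)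
    (φ : Multiplicative ℤ →* MulAut D.F) (hφ : φ (Multiplicative.ofAdd 1) = D.phi m) (j : ℤ) (w : D.F) :
    β.Θ x (φ (Multiplicative.ofAdd j) w) = β.T ^ j * β.Θ x w * (β.T ^ j)⁻¹ := by
  have h1 : ∀ w : D.F, β.Θ x (φ (Multiplicative.ofAdd 1) w) = β.T * β.Θ x w * β.T⁻¹ := by
    intro w
    rw [hφ]
    exact theta_phi β x w
  have h2 : ∀ w : D.F, β.Θ x (φ (Multiplicative.ofAdd (-1)) w) = β.T⁻¹ * β.Θ x w * β.T := by
    intro w
    have h3 := h1 (φ (Multiplicative.ofAdd (-1)) w)
    have h4 : φ (Multiplicative.ofAdd 1) (φ (Multiplicative.ofAdd (-1)) w) = w := by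
      rw [← MulAut.mul_apply, ← map_mul, ← ofAdd_add]
      simp
    rw [h4] at h3
    rw [h3]
    group
  induction j using Int.induction_on generalizing w with
  | zero => simp
  | succ i ih =>
    have e : φ (Multiplicative.ofAdd ((i : ℤ) + 1)) w =
        φ (Multiplicative.ofAdd (i : ℤ)) (φ (Multiplicative.ofAdd 1) w) := by
      rw [← MulAut.mul_apply, ← map_mul, ← ofAdd_add]
    rw [e, ih, h1, zpow_add_one]
    group
  | pred i ih =>
    have e : φ (Multiplicative.ofAdd (-(i : ℤ) - 1)) w =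
        φ (Multiplicative.ofAdd (-(i : ℤ))) (φ (Multiplicative.ofAdd (-1)) w) := by
      rw [← MulAut.mul_apply, ← map_mul, ← ofAdd_add]
      rfl
    rw [e, ih, h2, zpow_sub_one]
    group

theorem nd_linear (D : NDW) (m0 : D.B → ℤ) (hm : ∀ b, m0 b ≠ 0)
    (hinj : ∀ b b', D.root b = D.root b' → m0 b = m0 b' → b = b') :
    ∃ k : ℕ, 0 < k ∧ ∀ (φ : Multiplicative ℤ →* MulAut D.F),
      φ (Multiplicative.ofAdd 1) = D.phi (fun b => k * m0 b) →
      ∃ (K : Type) (_ : Field K) (N : ℕ)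
        (f : SemidirectProduct D.F (Multiplicative ℤ) φ →* Matrix.GeneralLinearGroup (Fin N) K),
        CharZero K ∧ Function.Injective f := by
  obtain ⟨k, hk, ⟨β⟩⟩ := exists_br D m0 hm hinj
  refine ⟨k, hk, fun φ hφ => ?_⟩
  let π : ℝ → (SemidirectProduct D.F (Multiplicative ℤ) φ →* (β.V ≃ₗ[ℝ] β.V)) := fun x =>
    SemidirectProduct.lift (β.Θ x) (zpowersHom _ β.T) (by
      intro g
      refine MonoidHom.ext (fun w => ?_)
      have := theta_phi_pow β x φ hφ (Multiplicative.toAdd g) w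
      exact this)
  have hπ : ∀ x g, π x g = β.Θ x g.left * β.T ^ (Multiplicative.toAdd g.right) := by
    intro x g
    rfl
  refine germ_embed π ?_
  intro g hg
  obtain ⟨e, l, hred, hw⟩ := exists_red D g.left
  by_cases he : e = []
  · subst he
    have hw' : g.left = D.psi l := by rw [hw]; simp [NDW.exval]
    refine Filter.Eventually.of_forall (fun x hx => hg ?_)
    rw [hπ, hw', theta_psi] at hx
    have := β.inj l (Multiplicative.toAdd g.right) (fun v => by
      have := LinearEquiv.congr_fun hx v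
      exact this)
    apply SemidirectProduct.ext
    · rw [hw', this.1, map_one]; rfl
    · exact this.2
  · refine (britton β e he hred l (Multiplicative.toAdd g.right)).mono (fun x hx h1 => hx ?_)
    rw [hπ, hw] at h1
    exact mul_eq_one_comm.1 h1

theorem exval_ne_one (D : NDW) (m0 : D.B → ℤ) (hm : ∀ b, m0 b ≠ 0)
    (hinj : ∀ b b', D.root b = D.root b' → m0 b = m0 b' → b = b')
    (e : List (D.F × (D.B × Bool))) (he : e ≠ []) (hred : D.Redx e) (l : D.F) : D.exval e l ≠ 1 := by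
  obtain ⟨k, _, ⟨β⟩⟩ := exists_br D m0 hm hinj
  intro h
  obtain ⟨x, hx⟩ := (britton β e he hred l 0).exists
  apply hx
  rw [h, map_one, zpow_zero, one_mul]

end Pool.Agent.Helper53.LG
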