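import Pool.Agent.Helper53.LG.Ex

/-!
# Project LG: normal forms of commuting unipotents with Jordan blocks of size three (definitions)

`J3 f = (f 1, f 2, 0)` on `Fin 3 → ℝ`. `exJ a = ex (a • J3)` as a linear equivalence, `exJh` the homomorphism `a ↦ exJ a`.
`MM ι κ = (ι → Fin 3 → ℝ) × (κ → ℝ)`, `XX a` acts by `exJ (a i)` on the `i`-th block and trivially on the second factor.
`NF1 X T M`: the pair `(X, T)` on `U` is isomorphic to `(XX a, XX b)`, `M` the multiset of the pairs `(a i, b i)`.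
`HasNF d c t M`: `V` is isomorphic to the functions `ZMod d → MM ι κ`, `c` acting by the shift and `XX a`, `t` by `XX b`.
-/

namespace Pool.Agent.Helper53.LG

/-- nilpotent Jordan block of size three -/
noncomputable def J3 : Module.End ℝ (Fin 3 → ℝ) where
  toFun f := ![f 1, f 2, 0]
  map_add' f g := by ext i; fin_cases i <;> simp
  map_smul' c f := by ext i; fin_cases i <;> simp

lemma J3_apply (f : Fin 3 → ℝ) : J3 f = ![f 1, f 2, 0] := rfl

lemma J3_cube : J3 * J3 * J3 = 0 := by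
  ext f i
  fin_cases i <;> simp [J3_apply, Module.End.mul_apply]

lemma exJ_mul (a b : ℝ) : ex (a • J3) * ex (b • J3) = ex ((a + b) • J3) := ex_smul_mul J3 J3_cube a b

/-- `exp (a J3)` -/
noncomputable def exJ (a : ℝ) : (Fin 3 → ℝ) ≃ₗ[ℝ] (Fin 3 → ℝ) :=
  LinearEquiv.ofLinearMap (ex (a • J3)) (ex ((-a) • J3))
    (by
      have := exJ_mul a (-a)
      rw [add_neg_cancel, zero_smul, ex_zero] at this
      exact this)
    (by
      have := exJ_mul (-a) a
      rw [neg_add_cancel, zero_smul, ex_zero] at this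
      exact this)

lemma exJ_apply (a : ℝ) (f : Fin 3 → ℝ) : exJ a f = ex (a • J3) f := rfl

lemma exJ_add (a b : ℝ) (f : Fin 3 → ℝ) : exJ (a + b) f = exJ a (exJ b f) := by
  rw [exJ_apply, exJ_apply, exJ_apply, ← exJ_mul]
  rfl

lemma exJ_zero (f : Fin 3 → ℝ) : exJ 0 f = f := by
  rw [exJ_apply, zero_smul, ex_zero]
  rfl

/-- the homomorphism `a ↦ exp (a J3)` -/
noncomputable def exJh : Multiplicative ℝ →* ((Fin 3 → ℝ) ≃ₗ[ℝ] (Fin 3 → ℝ)) where
  toFun a := exJ a.toAdd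
  map_one' := by ext1 f; exact exJ_zero f
  map_mul' a b := by ext1 f; exact exJ_add _ _ f

lemma exJh_apply (a : Multiplicative ℝ) (f : Fin 3 → ℝ) : exJh a f = exJ a.toAdd f := rfl

/-- the model space -/
abbrev MM (ι κ : Type) : Type := (ι → Fin 3 → ℝ) × (κ → ℝ)

/-- the model operators -/
noncomputable def XX {ι κ : Type} (a : ι → ℝ) : MM ι κ ≃ₗ[ℝ] MM ι κ :=
  (LinearEquiv.piCongrRight fun i => exJ (a i)).prodCongr (LinearEquiv.refl ℝ (κ → ℝ))

lemma XX_apply {ι κ : Type} (a : ι → ℝ) (f : MM ι κ) : XX a f = (fun i => exJ (a i) (f.1 i), f.2) := rfl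

/-- normal form of a commuting pair -/
def NF1 {U : Type} [AddCommGroup U] [Module ℝ U] (X T : U ≃ₗ[ℝ] U) (M : Multiset (ℝ × ℝ)) : Prop :=
  ∃ (ι κ : Type) (_ : Fintype ι) (_ : Fintype κ) (a b : ι → ℝ) (Ψ : U ≃ₗ[ℝ] MM ι κ),
    M = Finset.univ.val.map (fun i => (a i, b i)) ∧
    (∀ u, Ψ (X u) = XX a (Ψ u)) ∧ ∀ u, Ψ (T u) = XX b (Ψ u)

/-- normal form with a shift of order `d` -/
def HasNF {V : Type} [AddCommGroup V] [Module ℝ V] (d : ℕ) (c t : V ≃ₗ[ℝ] V) (M : Multiset (ℝ × ℝ)) : Prop :=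
  ∃ (ι κ : Type) (_ : Fintype ι) (_ : Fintype κ) (a b : ι → ℝ) (Ψ : V ≃ₗ[ℝ] (ZMod d → MM ι κ)),
    M = Finset.univ.val.map (fun i => (a i, b i)) ∧
    (∀ v k, Ψ (c v) k = XX a (Ψ v (k + 1))) ∧ ∀ v k, Ψ (t v) k = XX b (Ψ v k)

end Pool.Agent.Helper53.LG
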