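import Pool.Agent.Helper53.LG.NF

/-!
# LG-27: normal form of a nilpotent operator with blocks of size three and one

`nilp_nf`: `A³ = 0`, `rank A = 2 a`, `rank A² = a`. Choose `v_i` (`i < a`) such that the `A² v_i` are a basis of the range of `A²`. The
`3 a` vectors `v_i, A v_i, A² v_i` are linearly independent (apply `A²`, then `A` to a relation). The `2 a` vectors `A v_i, A² v_i`
are in the range of `A`, so they are a basis of it. `dim ker A = dim W - 2 a`; the `A² v_i` are in `ker A`; let `C` be a complement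
of their span in `ker A`, `dim C = dim W - 3 a =: r`. `W` is the direct sum of the span `S` of the `3 a` vectors and `C`: if
`s ∈ S ∩ C` then `A s = 0`, so `s` is in the span of the `A² v_i` (write `s` in the basis and apply `A`), so `s = 0`; dimensions.
`Ψ` maps `∑ (x_i 2 • v_i + x_i 1 • A v_i + x_i 0 • A² v_i) + c` to `((x_i), coordinates of c)`. (`J3 x = (x 1, x 2, 0)`: the
coefficient of `A² v_i` in `A` of this is `x_i 1`, of `A v_i` it is `x_i 2`, of `v_i` it is `0`.)
It is easiest to construct the inverse map `Φ : MM (Fin a) (Fin r) → W`, to show that it is injective and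
`A (Φ (x, y)) = Φ (J3 x_i, 0)`, and to compare dimensions.

`nf1_of_nilp`: the equivalence `X` is given on vectors by `ex A`: `Ψ (ex A w) = XX 1 (Ψ w)` since `Ψ` intertwines `A` with the
operator `(J3, 0)`. `M = replicate a (1, 0)`, `T = 1`, `XX 0 = 1`.
-/

namespace Pool.Agent.Helper53.LG

variable {W : Type} [AddCommGroup W] [Module ℝ W] [FiniteDimensional ℝ W]

/-- the inverse of the normal form -/
noncomputable def nilPhi (A : Module.End ℝ W) {a r : ℕ} (v : Fin a → W) (c : Fin r → W) :
    MM (Fin a) (Fin r) →ₗ[ℝ] W where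
  toFun z := (∑ i, (z.1 i 2 • v i + z.1 i 1 • A (v i) + z.1 i 0 • A (A (v i)))) + ∑ k, z.2 k • c k
  map_add' z z' := by
    have h1 : (∑ i, ((z + z').1 i 2 • v i + (z + z').1 i 1 • A (v i) + (z + z').1 i 0 • A (A (v i)))) =
        (∑ i, (z.1 i 2 • v i + z.1 i 1 • A (v i) + z.1 i 0 • A (A (v i)))) +
        ∑ i, (z'.1 i 2 • v i + z'.1 i 1 • A (v i) + z'.1 i 0 • A (A (v i))) := by
      rw [← Finset.sum_add_distrib]
      refine Finset.sum_congr rfl fun i _ => ?_
      simp only [Prod.fst_add, Pi.add_apply]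
      module
    have h2 : (∑ k, (z + z').2 k • c k) = (∑ k, z.2 k • c k) + ∑ k, z'.2 k • c k := by
      rw [← Finset.sum_add_distrib]
      refine Finset.sum_congr rfl fun i _ => ?_
      simp only [Prod.snd_add, Pi.add_apply]
      module
    rw [h1, h2]
    abel
  map_smul' s z := by
    rw [RingHom.id_apply, smul_add, Finset.smul_sum, Finset.smul_sum]
    congr 1
    · refine Finset.sum_congr rfl fun i _ => ?_
      simp only [Prod.smul_fst, Pi.smul_apply, smul_eq_mul]
      module
    · refine Finset.sum_congr rfl fun i _ => ?_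
      simp only [Prod.smul_snd, Pi.smul_apply, smul_eq_mul]
      module

omit [FiniteDimensional ℝ W] in
lemma nilPhi_apply (A : Module.End ℝ W) {a r : ℕ} (v : Fin a → W) (c : Fin r → W) (z : MM (Fin a) (Fin r)) :
    nilPhi A v c z = (∑ i, (z.1 i 2 • v i + z.1 i 1 • A (v i) + z.1 i 0 • A (A (v i)))) + ∑ k, z.2 k • c k := rfl

omit [FiniteDimensional ℝ W] in
lemma nilPhi_A (A : Module.End ℝ W) (h3 : A * A * A = 0) {a r : ℕ} (v : Fin a → W) (c : Fin r → W)
    (hc : ∀ k, A (c k) = 0) (z : MM (Fin a) (Fin r)) :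
    A (nilPhi A v c z) = nilPhi A v c (fun i => J3 (z.1 i), 0) := by
  have h3' : ∀ w, A (A (A w)) = 0 := fun w => by
    have : (A * A * A) w = 0 := by rw [h3]; rfl
    exact this
  rw [nilPhi_apply, nilPhi_apply, map_add, map_sum, map_sum]
  congr 1
  · refine Finset.sum_congr rfl fun i _ => ?_
    simp only [map_add, map_smul, h3', smul_zero, add_zero, J3_apply, Matrix.cons_val_zero, Matrix.cons_val_one,
      Matrix.cons_val, zero_smul, zero_add]
  · rw [Finset.sum_eq_zero, Finset.sum_eq_zero]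
    · intro k _
      simp
    · intro k _
      rw [map_smul, hc, smul_zero]

theorem nilp_nf (A : Module.End ℝ W) (h3 : A * A * A = 0) (a : ℕ)
    (h1 : Module.finrank ℝ (LinearMap.range A) = 2 * a)
    (h2 : Module.finrank ℝ (LinearMap.range (A * A)) = a) :
    ∃ (r : ℕ) (Ψ : W ≃ₗ[ℝ] MM (Fin a) (Fin r)), ∀ w, Ψ (A w) = (fun i => J3 ((Ψ w).1 i), 0) := by
  classical
  have h3' : ∀ w, A (A (A w)) = 0 := fun w => by
    have : (A * A * A) w = 0 := by rw [h3]; rfl
    exact this
  let bR : Module.Basis (Fin a) ℝ (LinearMap.range (A * A)) := Module.finBasisOfFinrankEq ℝ _ h2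
  have hv : ∀ i, ∃ v : W, A (A v) = (bR i : W) := fun i => by
    obtain ⟨v, hv⟩ := (bR i).2
    exact ⟨v, hv⟩
  choose v hv using hv
  have hli : LinearIndependent ℝ fun i => A (A (v i)) := by
    have h4 : LinearIndependent ℝ fun i => (bR i : W) :=
      bR.linearIndependent.map' (LinearMap.range (A * A)).subtype (Submodule.ker_subtype _)
    have h5 : (fun i => A (A (v i))) = fun i => (bR i : W) := funext hv
    rw [h5]
    exact h4
  -- complement in the kernel
  let R' : Submodule ℝ (LinearMap.ker A) := (LinearMap.range (A * A)).comap (LinearMap.ker A).subtype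
  obtain ⟨C, hC⟩ := Submodule.exists_isCompl R'
  have hle : LinearMap.range (A * A) ≤ LinearMap.ker A := by
    rintro _ ⟨w, rfl⟩
    exact h3' w
  have hR' : Module.finrank ℝ R' = a := by
    rw [← h2]
    exact (Submodule.comapSubtypeEquivOfLe hle).finrank_eq
  let cB : Module.Basis (Fin (Module.finrank ℝ C)) ℝ C := Module.finBasis ℝ C
  let c : Fin (Module.finrank ℝ C) → W := fun k => ((cB k : LinearMap.ker A) : W)
  have hc : ∀ k, A (c k) = 0 := fun k => (cB k : LinearMap.ker A).2
  have hdim : Module.finrank ℝ W = 3 * a + Module.finrank ℝ C := by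
    have e1 := LinearMap.finrank_range_add_finrank_ker A
    have e2 := Submodule.finrank_add_eq_of_isCompl hC
    omega
  have hinj : Function.Injective (nilPhi A v c) := by
    rw [← LinearMap.ker_eq_bot, LinearMap.ker_eq_bot']
    intro z hz
    have ha1 := nilPhi_A A h3 v c hc z
    have ha2 := nilPhi_A A h3 v c hc (fun i => J3 (z.1 i), 0)
    have hz2 : nilPhi A v c (fun i => J3 (J3 (z.1 i)), 0) = 0 := by
      rw [← ha2, ← ha1, hz, map_zero, map_zero]
    have hz1 : nilPhi A v c (fun i => J3 (z.1 i), 0) = 0 := by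
      rw [← ha1, hz, map_zero]
    have k2 : ∀ i, z.1 i 2 = 0 := by
      rw [nilPhi_apply] at hz2
      have h6 : ∑ i, z.1 i 2 • A (A (v i)) = 0 := by
        rw [← hz2]
        simp [J3_apply]
      exact (Fintype.linearIndependent_iff.mp hli) _ h6
    have k1 : ∀ i, z.1 i 1 = 0 := by
      rw [nilPhi_apply] at hz1
      have h6 : ∑ i, z.1 i 1 • A (A (v i)) = 0 := by
        rw [← hz1]
        simp [J3_apply, k2]
      exact (Fintype.linearIndependent_iff.mp hli) _ h6
    have h7 : (∑ i, z.1 i 0 • A (A (v i))) + ∑ k, z.2 k • c k = 0 := by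
      rw [← hz, nilPhi_apply]
      simp [k1, k2]
    -- split in the kernel
    let s1 : LinearMap.ker A := ⟨∑ i, z.1 i 0 • A (A (v i)), by
      rw [LinearMap.mem_ker, map_sum]
      refine Finset.sum_eq_zero fun i _ => ?_
      rw [map_smul, h3', smul_zero]⟩
    have hs1 : s1 ∈ R' := by
      refine ⟨∑ i, z.1 i 0 • v i, ?_⟩
      change A (A (∑ i, z.1 i 0 • v i)) = ∑ i, z.1 i 0 • A (A (v i))
      rw [map_sum, map_sum]
      refine Finset.sum_congr rfl fun i _ => ?_
      rw [map_smul, map_smul]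
    let s2 : LinearMap.ker A := ((∑ k, z.2 k • cB k : C) : LinearMap.ker A)
    have hs2 : s2 ∈ C := (∑ k, z.2 k • cB k : C).2
    have hs2' : (s2 : W) = ∑ k, z.2 k • c k := by
      simp [s2, c]
    have hsum : s1 + s2 = 0 := by
      apply Subtype.ext
      change (∑ i, z.1 i 0 • A (A (v i))) + (s2 : W) = 0
      rw [hs2']
      exact h7
    have hs1' : s1 = -s2 := eq_neg_of_add_eq_zero_left hsum
    have hz0 : s1 = 0 := by
      have : s1 ∈ R' ⊓ C := ⟨hs1, by rw [hs1']; exact C.neg_mem hs2⟩
      rw [hC.inf_eq_bot] at this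
      exact this
    have hz3 : s2 = 0 := by
      rw [hz0, zero_add] at hsum
      exact hsum
    have k0 : ∀ i, z.1 i 0 = 0 := by
      have h8 : ∑ i, z.1 i 0 • A (A (v i)) = 0 := congrArg Subtype.val hz0
      exact (Fintype.linearIndependent_iff.mp hli) _ h8
    have kk : ∀ k, z.2 k = 0 := by
      have h8 : (∑ k, z.2 k • cB k : C) = 0 := Subtype.ext hz3
      exact (Fintype.linearIndependent_iff.mp cB.linearIndependent) _ h8
    refine Prod.ext ?_ ?_
    · funext i j
      fin_cases j
      · exact k0 i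
      · exact k1 i
      · exact k2 i
    · funext k
      exact kk k
  have hfr : Module.finrank ℝ (MM (Fin a) (Fin (Module.finrank ℝ C))) = Module.finrank ℝ W := by
    rw [hdim, Module.finrank_prod, Module.finrank_pi_fintype, Module.finrank_pi]
    simp
    ring
  refine ⟨Module.finrank ℝ C, (LinearMap.linearEquivOfInjective (nilPhi A v c) hinj hfr).symm, fun w => ?_⟩
  set Φ := LinearMap.linearEquivOfInjective (nilPhi A v c) hinj hfr with hΦ
  have hap : ∀ z, Φ z = nilPhi A v c z := fun z => LinearMap.linearEquivOfInjective_apply hinj hfr z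
  rw [LinearEquiv.symm_apply_eq, hap, ← nilPhi_A A h3 v c hc (Φ.symm w), ← hap, LinearEquiv.apply_symm_apply]

theorem nf1_of_nilp (A : Module.End ℝ W) (h3 : A * A * A = 0) (a : ℕ)
    (h1 : Module.finrank ℝ (LinearMap.range A) = 2 * a)
    (h2 : Module.finrank ℝ (LinearMap.range (A * A)) = a) (X : W ≃ₗ[ℝ] W) (hX : ∀ w, X w = ex A w) :
    NF1 X (LinearEquiv.refl ℝ W) (Multiset.replicate a (1, 0)) := by
  obtain ⟨r, Ψ, hΨ⟩ := nilp_nf A h3 a h1 h2
  refine ⟨Fin a, Fin r, inferInstance, inferInstance, fun _ => 1, fun _ => 0, Ψ, ?_, ?_, ?_⟩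
  · rw [Multiset.map_const']
    simp
  · intro u
    have e1 : X u = u + A u + (2⁻¹ : ℝ) • A (A u) := by
      rw [hX]
      rfl
    rw [e1, map_add, map_add, map_smul, hΨ, hΨ, hΨ, XX_apply]
    refine Prod.ext ?_ ?_
    · funext i
      change (Ψ u).1 i + J3 ((Ψ u).1 i) + (2⁻¹ : ℝ) • J3 (J3 ((Ψ u).1 i)) = exJ 1 ((Ψ u).1 i)
      rw [exJ_apply, one_smul]
      rfl
    · change (Ψ u).2 + 0 + (2⁻¹ : ℝ) • 0 = (Ψ u).2
      rw [smul_zero, add_zero, add_zero]
  · intro u
    rw [LinearEquiv.refl_apply, XX_apply]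
    refine Prod.ext ?_ rfl
    funext i
    exact (exJ_zero _).symm

end Pool.Agent.Helper53.LG
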