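import Pool.Agent.Helper53.LG.FCong
import Pool.Agent.Helper53.LG.Gauge
import Pool.Agent.Helper53.LG.Nilp

/-!
# LG-31: normal forms of the restrictions to the cyclic groups `⟨c_i⟩`

`c = cwS S i`, `h = evQ C.g c`, of order `dd i = N i / n i` (`order_cwS`).

* `cv a l q`: the sum of the cochain `a` along the path from `q` with label `l`; `cv_mul` from `coc_mul`; `cv_pow_shift`: `cv a (c^k) (q h) = cv a (c^k) q`
  when `h ^ k = 1`: `cv (c * c^k) q = cv c q + cv (c^k) (q h)` and `cv (c^k * c) q = cv (c^k) q + cv c (q h^k)`.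
* `nf_E`: `nf_gauge` with `U = EE (Q × Y)`, `ρ q = act (tc c q)`, `X q` the equivalence given by `ex ((1 / dd) • lineA i q)` (inverse
  `ex (-(1 / dd) • lineA)`, `ex_smul_mul`, `lineA_cube`), `T = 1`, `t = 1`. `X (q h) = X q`: `lineA_shift`. The product of
  the `ρ (q h^j)`, `j < dd`, is `act (tc (c ^ dd) q)` (`coc_mul`, induction) `= ex (lineA i q)` (`tc_loop`) `= X q ^ dd` (`ex_pow`).
  `NF1 (X q) 1 (replicate (N i) (1, 0))`: `nf1_of_nilp` for `(1 / dd) • lineA i q` (`lineA_rank`; scaling by a nonzero number does not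
  change the ranges). The sum over the `card Q / dd` cosets is `replicate (card Q / dd * N i) = replicate (card Q * n i)`.
* `nf_K`: `nf_gauge` with `U = Fin 3 → ℝ`, `ρ q = exJ (cv a c q)`, `X q = exJ (val a i q)`, `T = exJ μ`. The product of the `ρ (q h^j)` is
  `exJ (cv a (c ^ dd) q) = exJ (dd * val) = (exJ val) ^ dd`. `NF1 (exJ v) (exJ μ) {(v, μ)}`: `ι = Unit`, `κ = Empty`. The sum over the cosets of
  the singletons `{(val a i o.out, μ)}` is `(valM a i).map (·, μ)`.
-/

namespace Pool.Agent.Helper53.LG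

variable {Y I : Type} [Fintype Y] [Fintype I] {S : WSys Y I} {Q : Type} [Group Q] [Fintype Q] (C : Cover S Q)

/-- the number of periods in a closed line -/
def Cover.dd (i : I) : ℕ := C.N i / S.n i

/-- the sum of a cochain along a path -/
noncomputable def Cover.cv (a : Q × Y → ℝ) (l : FreeGroup Y) (q : Q) : ℝ :=
  (coc C.g (fun e => Multiplicative.ofAdd (a e)) l q).toAdd

/-- the representation defined by a cochain -/
noncomputable def Cover.repK (a : Q × Y → ℝ) : FreeGroup Y →* ((Q → Fin 3 → ℝ) ≃ₗ[ℝ] (Q → Fin 3 → ℝ)) :=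
  repC C.g (fun e => Multiplicative.ofAdd (a e)) exJh

/-- the mean value on a closed line -/
noncomputable def Cover.val (a : Q × Y → ℝ) (i : I) (q : Q) : ℝ := C.cv a (cwS S i ^ C.dd i) q / C.dd i

/-- the values on all closed lines of type `i` -/
noncomputable def Cover.valM (a : Q × Y → ℝ) (i : I) : Multiset ℝ :=
  (@Finset.univ (Q ⧸ Subgroup.zpowers (evQ C.g (cwS S i))) (Fintype.ofFinite _)).val.map
    fun o => C.val a i o.out

omit [Fintype Y] [Fintype I] [Fintype Q] in
private theorem ek_ev (l : FreeGroup Y) (k : ℕ) : evQ C.g (l ^ k) = evQ C.g l ^ k := map_pow _ _ _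

omit [Fintype Y] [Fintype I] [Fintype Q] in
private theorem ek_dd_pos (i : I) : 0 < C.dd i := by
  have h1 := C.Npos i
  unfold Cover.dd
  exact Nat.div_pos (Nat.le_of_dvd (by omega) (C.nN i)) (S.npos i)

omit [Fintype Y] [Fintype I] in
private theorem ek_pow (i : I) : evQ C.g (cwS S i) ^ C.dd i = 1 := by
  have h1 := order_cwS C i
  have h2 := pow_orderOf_eq_one (evQ C.g (cwS S i))
  rw [h1] at h2
  exact h2

omit [Fintype Y] [Fintype I] [Fintype Q] in
private theorem ek_cv_mul (a : Q × Y → ℝ) (l l' : FreeGroup Y) (q : Q) :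
    C.cv a (l * l') q = C.cv a l q + C.cv a l' (q * evQ C.g l) := by
  unfold Cover.cv
  rw [coc_mul]
  rfl

omit [Fintype Y] [Fintype I] in
private theorem ek_shift (a : Q × Y → ℝ) (i : I) (q : Q) (z : ℤ) :
    C.cv a (cwS S i ^ C.dd i) (q * evQ C.g (cwS S i) ^ z) = C.cv a (cwS S i ^ C.dd i) q := by
  have h1 := ek_cv_mul C a (cwS S i ^ z) (cwS S i ^ C.dd i) q
  have h2 := ek_cv_mul C a (cwS S i ^ C.dd i) (cwS S i ^ z) q
  have h3 : cwS S i ^ z * cwS S i ^ C.dd i = cwS S i ^ C.dd i * cwS S i ^ z := by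
    rw [← zpow_natCast, ← zpow_add, ← zpow_add, add_comm]
  rw [h3, h2, ek_ev, ek_pow, mul_one, map_zpow] at h1
  linarith

omit [Fintype Y] [Fintype I] in
theorem val_shift (a : Q × Y → ℝ) (i : I) (q q' : Q)
    (h : (QuotientGroup.mk q : Q ⧸ Subgroup.zpowers (evQ C.g (cwS S i))) = QuotientGroup.mk q') :
    C.val a i q = C.val a i q' := by
  rw [QuotientGroup.eq, Subgroup.mem_zpowers_iff] at h
  obtain ⟨z, hz⟩ := h
  have h1 : q' = q * evQ C.g (cwS S i) ^ z := by rw [hz, mul_inv_cancel_left]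
  unfold Cover.val
  rw [h1, ek_shift]

omit [Fintype Y] [Fintype I] [Fintype Q] in
theorem repK_apply (a : Q × Y → ℝ) (l : FreeGroup Y) (f : Q → Fin 3 → ℝ) (q : Q) :
    C.repK a l f q = exJ (C.cv a l q) (f (q * evQ C.g l)) := by
  unfold Cover.repK
  rw [repC_apply, exJh_apply]
  rfl

/-- the exponential of an operator with cube zero as an equivalence -/
private noncomputable def ekX {W : Type} [AddCommGroup W] [Module ℝ W] (A : Module.End ℝ W)
    (hA : A * A * A = 0) (a : ℝ) : W ≃ₗ[ℝ] W :=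
  LinearEquiv.ofLinearMap (ex (a • A)) (ex ((-a) • A))
    (by
      have := ex_smul_mul A hA a (-a)
      rw [add_neg_cancel, zero_smul, ex_zero] at this
      exact this)
    (by
      have := ex_smul_mul A hA (-a) a
      rw [neg_add_cancel, zero_smul, ex_zero] at this
      exact this)

private theorem ekX_apply {W : Type} [AddCommGroup W] [Module ℝ W] (A : Module.End ℝ W)
    (hA : A * A * A = 0) (a : ℝ) (w : W) : ekX A hA a w = ex (a • A) w := rfl

private theorem ekX_pow {W : Type} [AddCommGroup W] [Module ℝ W] (A : Module.End ℝ W)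
    (hA : A * A * A = 0) (a : ℝ) (k : ℕ) (w : W) :
    (ekX A hA a ^ k) w = ex ((k * a) • A) w := by
  rw [← ex_pow A hA a k]
  induction k generalizing w with
  | zero => rfl
  | succ k ih =>
    rw [pow_succ, pow_succ, LinearEquiv.mul_apply, ih, ekX_apply]
    rfl

omit [Fintype Y] [Fintype I] [Fintype Q] in
private theorem ek_range {G : Type} [Monoid G] (F : FreeGroup Y → Q → G)
    (hF1 : ∀ q, F 1 q = 1) (hF : ∀ l l' q, F (l * l') q = F l q * F l' (q * evQ C.g l))
    (l : FreeGroup Y) (q : Q) (k : ℕ) :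
    ((List.range k).map fun j => F l (q * evQ C.g l ^ j)).prod = F (l ^ k) q := by
  induction k with
  | zero => simp [hF1]
  | succ k ih =>
    rw [List.range_succ, List.map_append, List.prod_append, ih, pow_succ, hF, ek_ev]
    simp

omit [Fintype Y] [Fintype I] in
private theorem ek_card (i : I) [Fintype (Q ⧸ Subgroup.zpowers (evQ C.g (cwS S i)))] :
    Fintype.card (Q ⧸ Subgroup.zpowers (evQ C.g (cwS S i))) * C.N i = Fintype.card Q * S.n i := by
  have h1 := Subgroup.card_eq_card_quotient_mul_card_subgroup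
    (Subgroup.zpowers (evQ C.g (cwS S i)))
  rw [Nat.card_eq_fintype_card, Nat.card_eq_fintype_card, Nat.card_zpowers, order_cwS C i] at h1
  rw [h1, mul_assoc, Nat.div_mul_cancel (C.nN i)]

omit [Fintype I] in
theorem nf_E (i : I) : HasNF (C.dd i) (C.repE (cwS S i)) (LinearEquiv.refl ℝ (Q → EE (Q × Y)))
    (Multiset.replicate (Fintype.card Q * S.n i) (1, 0)) := by
  classical
  haveI : Fintype (Q ⧸ Subgroup.zpowers (evQ C.g (cwS S i))) := Fintype.ofFinite _
  have hd : (C.dd i : ℝ) ≠ 0 := Nat.cast_ne_zero.2 (ek_dd_pos C i).ne'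
  have hdi : (1 / (C.dd i : ℝ)) ≠ 0 := one_div_ne_zero hd
  have key := nf_gauge (evQ C.g (cwS S i))
    (fun q => act C.Cm (fun _ _ h => Cm_symm C h) (Cm_irrefl C) (C.tc (cwS S i) q))
    (fun q => ekX (C.lineA i q) (lineA_cube C i q) (1 / C.dd i)) (LinearEquiv.refl ℝ (EE (Q × Y)))
    (C.repE (cwS S i)) (LinearEquiv.refl ℝ (Q → EE (Q × Y)))
    (fun f q => repC_apply _ _ _ _ _ _) (fun f q => rfl) ?_ ?_ (fun q => rfl) (fun q => rfl)
    (fun _ => Multiset.replicate (C.N i) (1, 0)) ?_
  · have h1 : (∑ _o : Q ⧸ Subgroup.zpowers (evQ C.g (cwS S i)),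
        Multiset.replicate (C.N i) ((1 : ℝ), (0 : ℝ))) =
        Multiset.replicate (Fintype.card Q * S.n i) (1, 0) := by
      rw [Finset.sum_const, Finset.card_univ, Multiset.nsmul_replicate, ek_card]
    rw [h1, order_cwS C i] at key
    exact key
  · intro q
    ext w : 1
    rw [ekX_apply, ekX_apply, lineA_shift]
  · intro q
    have h1 := ek_range C
      (fun l q => act C.Cm (fun _ _ h => Cm_symm C h) (Cm_irrefl C) (C.tc l q))
      (fun q => by unfold Cover.tc; rw [coc_one, map_one])
      (fun l l' q => by unfold Cover.tc; rw [coc_mul, map_mul]) (cwS S i) q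
      (orderOf (evQ C.g (cwS S i)))
    rw [h1, order_cwS C i]
    refine LinearEquiv.ext fun w => ?_
    rw [tc_loop C i q w, ekX_pow]
    have h2 : ((C.N i / S.n i : ℕ) : ℝ) * (1 / (C.dd i : ℝ)) = 1 := mul_one_div_cancel hd
    rw [h2, one_smul]
  · intro q
    have hr := lineA_rank C i q
    refine nf1_of_nilp ((1 / (C.dd i : ℝ)) • C.lineA i q) ?_ (C.N i) ?_ ?_ _ (fun w => rfl)
    · rw [smul_mul_smul_comm, smul_mul_smul_comm, lineA_cube, smul_zero]
    · rw [LinearMap.range_smul _ _ hdi]
      exact hr.1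
    · rw [smul_mul_smul_comm, LinearMap.range_smul _ _ (mul_ne_zero hdi hdi)]
      exact hr.2

private theorem ekJ_pow (v : ℝ) (k : ℕ) : exJ v ^ k = exJ (k * v) := by
  induction k with
  | zero =>
    refine LinearEquiv.ext fun f => ?_
    rw [pow_zero, Nat.cast_zero, zero_mul, exJ_zero]
    rfl
  | succ k ih =>
    refine LinearEquiv.ext fun f => ?_
    rw [pow_succ, ih, LinearEquiv.mul_apply, ← exJ_add]
    congr 2
    push_cast
    ring

private theorem ekJ_nf1 (v μ : ℝ) : NF1 (exJ v) (exJ μ) {(v, μ)} := by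
  refine ⟨Unit, Empty, inferInstance, inferInstance, fun _ => v, fun _ => μ,
    { toFun := fun u => (fun _ => u, fun e => e.elim)
      map_add' := fun u w => by
        ext x
        · rfl
        · exact x.elim
      map_smul' := fun c u => by
        ext x
        · rfl
        · exact x.elim
      invFun := fun p => p.1 ()
      left_inv := fun u => rfl
      right_inv := fun p => by
        ext x
        · rfl
        · exact x.elim }, ?_, ?_, ?_⟩
  · rfl
  · intro u
    ext x
    · rfl
    · exact x.elim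
  · intro u
    ext x
    · rfl
    · exact x.elim

private theorem ekJ_sum {O : Type} [Fintype O] (g : O → ℝ × ℝ) :
    (∑ o, ({g o} : Multiset (ℝ × ℝ))) = (Finset.univ : Finset O).val.map g := by
  rw [Finset.sum_eq_multiset_sum]
  have h1 : (Finset.univ : Finset O).val.map (fun o => ({g o} : Multiset (ℝ × ℝ))) =
      ((Finset.univ : Finset O).val.map g).map (fun a => ({a} : Multiset (ℝ × ℝ))) := by
    rw [Multiset.map_map]
    rfl
  rw [h1, Multiset.sum_map_singleton]

omit [Fintype Y] [Fintype I] in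
theorem nf_K (a : Q × Y → ℝ) (μ : ℝ) (i : I) :
    HasNF (C.dd i) (C.repK a (cwS S i)) (LinearEquiv.piCongrRight fun _ : Q => exJ μ)
      ((C.valM a i).map fun v => (v, μ)) := by
  classical
  let _ : Fintype (Q ⧸ Subgroup.zpowers (evQ C.g (cwS S i))) := Fintype.ofFinite _
  have hd : (C.dd i : ℝ) ≠ 0 := Nat.cast_ne_zero.2 (ek_dd_pos C i).ne'
  have hcomm : ∀ x y : ℝ, exJ x * exJ y = exJ y * exJ x := by
    intro x y
    refine LinearEquiv.ext fun f => ?_
    rw [LinearEquiv.mul_apply, LinearEquiv.mul_apply, ← exJ_add, ← exJ_add, add_comm]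
  have key := nf_gauge (evQ C.g (cwS S i))
    (fun q => exJ (C.cv a (cwS S i) q)) (fun q => exJ (C.val a i q)) (exJ μ)
    (C.repK a (cwS S i)) (LinearEquiv.piCongrRight fun _ : Q => exJ μ)
    (fun f q => repK_apply C _ _ f q) (fun f q => rfl) ?_ ?_ (fun q => hcomm _ _)
    (fun q => hcomm _ _)
    (fun q => {(C.val a i q, μ)}) (fun q => ekJ_nf1 _ _)
  · have h1 : (∑ o : Q ⧸ Subgroup.zpowers (evQ C.g (cwS S i)),
        ({(C.val a i o.out, μ)} : Multiset (ℝ × ℝ))) = (C.valM a i).map fun v => (v, μ) := by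
      rw [ekJ_sum]
      unfold Cover.valM
      rw [Multiset.map_map]
      rfl
    rw [h1, order_cwS C i] at key
    exact key
  · intro q
    have h1 := val_shift C a i (q * evQ C.g (cwS S i)) q
      (QuotientGroup.mk_mul_of_mem _ (Subgroup.mem_zpowers _))
    simp only [h1]
  · intro q
    have h1 := ek_range C (fun l q => exJ (C.cv a l q))
      (fun q => by
        refine LinearEquiv.ext fun f => ?_
        have h0 : C.cv a 1 q = 0 := by
          unfold Cover.cv
          rw [coc_one]
          rfl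
        rw [h0, exJ_zero]
        rfl)
      (fun l l' q => by
        refine LinearEquiv.ext fun f => ?_
        rw [ek_cv_mul, exJ_add]
        rfl) (cwS S i) q (orderOf (evQ C.g (cwS S i)))
    rw [h1, order_cwS C i, ekJ_pow]
    congr 1
    have h2 : C.val a i q = C.cv a (cwS S i ^ C.dd i) q / C.dd i := rfl
    rw [h2]
    exact (mul_div_cancel₀ _ hd).symm

end Pool.Agent.Helper53.LG
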