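import Pool.Agent.Helper53.LG.NF

/-!
# LG-28: operations on normal forms

* `nf_prod`: index types `ι ⊕ ι'`, `κ ⊕ κ'`; `Ψ (v, v') k = (Sum.elim (Ψ v k).1 (Ψ' v' k).1, Sum.elim (Ψ v k).2 (Ψ' v' k).2)`.
* `nf_pi`: index types `Σ j, ι j`, `Σ j, κ j` (choose the data for every `j : J`, `J` finite; the types `ι j`, `κ j` are in
  `Type`), `Ψ v k = (fun p => (Ψ_j (v j) k).1 p.2 …)`. The multiset: `Finset.univ.val` of a sigma type is the sum (`Finset.univ_sigma_univ`,
  `Finset.sum_sigma` with singletons: `Multiset.map f s.val = ∑ i ∈ s, {f i}`).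
* `nf_congr`: transport by equality of the maps.
* `nf_of_nf1`: `V = (O → ZMod d → U)`: for every `o : O` take the data of `NF1 (X o) T (M o)`, index types `Σ o, ι o`, `Σ o, κ o`;
  `Ψ f k = (fun p => (Ψ_{p.1} (f p.1 k)).1 p.2, …)`; this is invertible, `Ψ (c f) k = XX a (Ψ f (k + 1))` for
  `(c f) o k = X o (f o (k + 1))`.
-/

namespace Pool.Agent.Helper53.LG

private theorem val_map_eq_sum {α β : Type} (s : Finset α) (f : α → β) :
    s.val.map f = ∑ i ∈ s, ({f i} : Multiset β) := by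
  rw [Finset.sum, show (fun i => ({f i} : Multiset β)) = (fun a => {a}) ∘ f from rfl,
    ← Multiset.map_map, Multiset.sum_map_singleton]

theorem nf_prod {V V' : Type} [AddCommGroup V] [Module ℝ V] [AddCommGroup V'] [Module ℝ V'] {d : ℕ}
    {c t : V ≃ₗ[ℝ] V} {c' t' : V' ≃ₗ[ℝ] V'} {M M' : Multiset (ℝ × ℝ)} (h : HasNF d c t M) (h' : HasNF d c' t' M') :
    HasNF d (c.prodCongr c') (t.prodCongr t') (M + M') := by
  obtain ⟨ι, κ, iι, iκ, a, b, Ψ, hM, hc, ht⟩ := h
  obtain ⟨ι', κ', iι', iκ', a', b', Ψ', hM', hc', ht'⟩ := h'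
  let Θ : (V × V') ≃ₗ[ℝ] (ZMod d → MM (ι ⊕ ι') (κ ⊕ κ')) :=
    { toFun := fun v k => (Sum.elim (Ψ v.1 k).1 (Ψ' v.2 k).1, Sum.elim (Ψ v.1 k).2 (Ψ' v.2 k).2)
      map_add' := by
        intro v w
        funext k
        refine Prod.ext ?_ ?_
        · funext i
          rcases i with i | i <;> simp
        · funext i
          rcases i with i | i <;> simp
      map_smul' := by
        intro r v
        funext k
        refine Prod.ext ?_ ?_
        · funext i
          rcases i with i | i <;> simp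
        · funext i
          rcases i with i | i <;> simp
      invFun := fun g => (Ψ.symm fun k => (fun i => (g k).1 (Sum.inl i), fun i => (g k).2 (Sum.inl i)),
        Ψ'.symm fun k => (fun i => (g k).1 (Sum.inr i), fun i => (g k).2 (Sum.inr i)))
      left_inv := by
        intro v
        refine Prod.ext ?_ ?_
        · exact Ψ.symm_apply_apply v.1
        · exact Ψ'.symm_apply_apply v.2
      right_inv := by
        intro g
        funext k
        refine Prod.ext ?_ ?_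
        · funext i
          rcases i with i | i <;> simp
        · funext i
          rcases i with i | i <;> simp }
  have hΘ : ∀ v k, Θ v k = (Sum.elim (Ψ v.1 k).1 (Ψ' v.2 k).1, Sum.elim (Ψ v.1 k).2 (Ψ' v.2 k).2) :=
    fun _ _ => rfl
  refine ⟨ι ⊕ ι', κ ⊕ κ', inferInstance, inferInstance, Sum.elim a a', Sum.elim b b', Θ, ?_, ?_, ?_⟩
  · rw [hM, hM', val_map_eq_sum, val_map_eq_sum, val_map_eq_sum, Fintype.sum_sum_type]
    rfl
  · intro v k
    rw [hΘ, hΘ, XX_apply, LinearEquiv.prodCongr_apply]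
    show (Sum.elim (Ψ (c v.1) k).1 (Ψ' (c' v.2) k).1, Sum.elim (Ψ (c v.1) k).2 (Ψ' (c' v.2) k).2) = _
    rw [hc, hc', XX_apply, XX_apply]
    refine Prod.ext ?_ rfl
    funext i
    rcases i with i | i <;> rfl
  · intro v k
    rw [hΘ, hΘ, XX_apply, LinearEquiv.prodCongr_apply]
    show (Sum.elim (Ψ (t v.1) k).1 (Ψ' (t' v.2) k).1, Sum.elim (Ψ (t v.1) k).2 (Ψ' (t' v.2) k).2) = _
    rw [ht, ht', XX_apply, XX_apply]
    refine Prod.ext ?_ rfl
    funext i
    rcases i with i | i <;> rfl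

theorem nf_pi {J : Type} [Fintype J] {V : J → Type} [∀ j, AddCommGroup (V j)] [∀ j, Module ℝ (V j)] {d : ℕ}
    (c t : ∀ j, V j ≃ₗ[ℝ] V j) (M : J → Multiset (ℝ × ℝ)) (h : ∀ j, HasNF d (c j) (t j) (M j)) :
    HasNF d (LinearEquiv.piCongrRight c) (LinearEquiv.piCongrRight t) (∑ j, M j) := by
  choose ι κ iι iκ a b Ψ hM hc ht using h
  let Θ : (∀ j, V j) ≃ₗ[ℝ] (ZMod d → MM (Σ j, ι j) (Σ j, κ j)) :=
    { toFun := fun v k => (fun p => (Ψ p.1 (v p.1) k).1 p.2, fun p => (Ψ p.1 (v p.1) k).2 p.2)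
      map_add' := by
        intro v w
        funext k
        refine Prod.ext ?_ ?_
        · funext p
          simp
        · funext p
          simp
      map_smul' := by
        intro r v
        funext k
        refine Prod.ext ?_ ?_
        · funext p
          simp
        · funext p
          simp
      invFun := fun g j => (Ψ j).symm fun k => (fun i => (g k).1 ⟨j, i⟩, fun i => (g k).2 ⟨j, i⟩)
      left_inv := by
        intro v
        funext j
        exact (Ψ j).symm_apply_apply (v j)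
      right_inv := by
        intro g
        funext k
        refine Prod.ext ?_ ?_
        · funext p
          simp
        · funext p
          simp }
  have hΘ : ∀ v k, Θ v k =
      (fun p => (Ψ p.1 (v p.1) k).1 p.2, fun p => (Ψ p.1 (v p.1) k).2 p.2) :=
    fun _ _ => rfl
  refine ⟨Σ j, ι j, Σ j, κ j, inferInstance, inferInstance, fun p => a p.1 p.2, fun p => b p.1 p.2,
    Θ, ?_, ?_, ?_⟩
  · rw [val_map_eq_sum, Fintype.sum_sigma]
    apply Finset.sum_congr rfl
    intro j _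
    rw [hM j, val_map_eq_sum]
  · intro v k
    rw [hΘ, hΘ, XX_apply]
    refine Prod.ext ?_ ?_
    · funext p
      show (Ψ p.1 (c p.1 (v p.1)) k).1 p.2 = _
      rw [hc, XX_apply]
    · funext p
      show (Ψ p.1 (c p.1 (v p.1)) k).2 p.2 = _
      rw [hc, XX_apply]
  · intro v k
    rw [hΘ, hΘ, XX_apply]
    refine Prod.ext ?_ ?_
    · funext p
      show (Ψ p.1 (t p.1 (v p.1)) k).1 p.2 = _
      rw [ht, XX_apply]
    · funext p
      show (Ψ p.1 (t p.1 (v p.1)) k).2 p.2 = _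
      rw [ht, XX_apply]

theorem nf_of_nf1 {O U : Type} [Fintype O] [AddCommGroup U] [Module ℝ U] (d : ℕ) (X : O → (U ≃ₗ[ℝ] U))
    (T : U ≃ₗ[ℝ] U) (M : O → Multiset (ℝ × ℝ)) (h : ∀ o, NF1 (X o) T (M o))
    (c t : (O → ZMod d → U) ≃ₗ[ℝ] (O → ZMod d → U)) (hc : ∀ f o k, c f o k = X o (f o (k + 1)))
    (ht : ∀ f o k, t f o k = T (f o k)) : HasNF d c t (∑ o, M o) := by
  have hcc : c = LinearEquiv.piCongrRight fun o =>
      (LinearEquiv.funCongrLeft ℝ U (Equiv.addRight (1 : ZMod d))).trans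
        (LinearEquiv.piCongrRight fun _ => X o) := by
    ext f o k
    rw [hc]
    rfl
  have htt : t = LinearEquiv.piCongrRight fun _ : O =>
      (LinearEquiv.piCongrRight fun _ : ZMod d => T) := by
    ext f o k
    rw [ht]
    rfl
  rw [hcc, htt]
  apply nf_pi
  intro o
  obtain ⟨ι, κ, iι, iκ, a, b, Ψ, hM, hX, hT⟩ := h o
  refine ⟨ι, κ, iι, iκ, a, b, LinearEquiv.piCongrRight fun _ => Ψ, hM, ?_, ?_⟩
  · intro v k
    exact hX (v (k + 1))
  · intro v k
    exact hT (v k)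

theorem nf_conj {V V' : Type} [AddCommGroup V] [Module ℝ V] [AddCommGroup V'] [Module ℝ V'] {d : ℕ}
    (Φ : V ≃ₗ[ℝ] V') {c t : V ≃ₗ[ℝ] V} {c' t' : V' ≃ₗ[ℝ] V'} (hc : ∀ v, Φ (c v) = c' (Φ v))
    (ht : ∀ v, Φ (t v) = t' (Φ v)) {M : Multiset (ℝ × ℝ)} (h : HasNF d c' t' M) : HasNF d c t M := by
  obtain ⟨ι, κ, iι, iκ, a, b, Ψ, hM, hX, hT⟩ := h
  refine ⟨ι, κ, iι, iκ, a, b, Φ.trans Ψ, hM, ?_, ?_⟩
  · intro v k
    rw [LinearEquiv.trans_apply, hc, hX]
    rfl
  · intro v k
    rw [LinearEquiv.trans_apply, ht, hT]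
    rfl

end Pool.Agent.Helper53.LG
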