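import Pool.Agent.Helper53.LG.Defs

/-!
# LG-08: the geometric representation (numbers game)

`V` finite, `Cm` symmetric and irreflexive. `SS = V × Bool`. `EE = (SS → ℝ) × (SS → ℝ)`: the first factor has the
basis `al s`, the second one the basis `om s`. The functionals `yy s` on `EE`:
`yy s (al t) = mm s t` (`2` if `s = t`, `0` if `Cm s.1 t.1`, `-2` otherwise), `yy s (om t) = δ_{st}`.
The reflection `rf s x = x - yy s x • al s`.

* `rf_sq`: `yy s (al s) = 2`. `rf_comm`: if `Cm s.1 t.1` then `mm s t = 0 = mm t s` (`s ≠ t` by irreflexivity).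
* `exists_act`: `PresentedGroup.toGroup` with the group `EE ≃ₗ[ℝ] EE` (`LinearEquiv.ofInvolutive` or
  `LinearEquiv.ofLinear` for `rf s`); relators: `rf_sq`, `rf_comm`.
* `uu T`, `ff T` for a set `T` of vertices: `uu T = ∑_{s.1 ∈ T} al s`, `ff T = ∑_{s.1 ∈ T} yy s`.
* `yy_uu`: `T` a clique, `s.1 ∈ T`: `yy s (uu T) = 2 - 2 + 0`: the terms of `∑_t [t.1 ∈ T] mm s t` are `2` for
  `t = s`, `-2` for `t = (s.1, !s.2)` (`¬ Cm s.1 s.1`), `0` for all other `t` with `t.1 ∈ T`.
* `act_uu`, `ff_act`: closure induction; for a generator `x = gen s`, `s.1 ∈ T`: `rf s (uu T) = uu T` by `yy_uu`;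
  `ff T (rf s x) = ff T x - yy s x * ff T (al s)` and `ff T (al s) = ∑_{t.1 ∈ T} mm t s = 0` in the same way
  (`mm` is symmetric).
* `ff_al`: `ff T (al t) = 0` if `t.1 ∈ T` (as before), and `≤ 0` if `t.1 ∉ T` (all terms `mm s t`, `s.1 ∈ T`, are `0` or
  `-2`, since `s ≠ t`), `< 0` if moreover some `u ∈ T` does not commute with `t.1`.
* `yy_uu_nonpos`: same as `ff_al`.
-/

namespace Pool.Agent.Helper53.LG

open scoped Classical

variable {V : Type} [Fintype V] (Cm : V → V → Prop)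

/-- the matrix of the form -/
noncomputable def mm (s t : V × Bool) : ℝ := if s = t then 2 else if Cm s.1 t.1 then 0 else -2

/-- the space -/
abbrev EE (V : Type) : Type := (V × Bool → ℝ) × (V × Bool → ℝ)

/-- the roots -/
noncomputable def al (s : V × Bool) : EE V := (Pi.single s 1, 0)

/-- the coordinate functionals -/
noncomputable def yy (s : V × Bool) : EE V →ₗ[ℝ] ℝ where
  toFun x := ∑ t, mm Cm s t * x.1 t + x.2 s
  map_add' x y := by simp [mul_add, Finset.sum_add_distrib]; ring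
  map_smul' c x := by simp [Finset.mul_sum, mul_left_comm, mul_add]

/-- the reflection -/
noncomputable def rf (s : V × Bool) : EE V →ₗ[ℝ] EE V :=
  LinearMap.id - (yy Cm s).smulRight (al s)

lemma rf_apply (s : V × Bool) (x : EE V) : rf Cm s x = x - yy Cm s x • al s := by
  simp [rf]

lemma yy_al (s t : V × Bool) : yy Cm s (al t) = mm Cm s t := by
  simp [yy, al, Pi.single_apply]

lemma mm_symm (hsymm : ∀ u v, Cm u v → Cm v u) (s t : V × Bool) : mm Cm s t = mm Cm t s := by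
  unfold mm
  by_cases h : s = t
  · rw [if_pos h, if_pos h.symm]
  · rw [if_neg h, if_neg (Ne.symm h)]
    by_cases h2 : Cm s.1 t.1
    · rw [if_pos h2, if_pos (hsymm _ _ h2)]
    · rw [if_neg h2, if_neg (fun h3 => h2 (hsymm _ _ h3))]

private lemma ng_mm_self (s : V × Bool) : mm Cm s s = 2 := by
  unfold mm
  rw [if_pos rfl]

private lemma ng_mm_comm (hirr : ∀ u, ¬ Cm u u) {s t : V × Bool} (h : Cm s.1 t.1) :
    mm Cm s t = 0 := by
  unfold mm
  rw [if_neg, if_pos h]
  rintro rfl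
  exact hirr _ h

private lemma ng_rf_sq (s : V × Bool) (x : EE V) : rf Cm s (rf Cm s x) = x := by
  rw [rf_apply, rf_apply, map_sub, map_smul, yy_al, ng_mm_self, smul_eq_mul]
  have : yy Cm s x - yy Cm s x * 2 = -(yy Cm s x) := by ring
  rw [this, neg_smul]
  abel

private lemma ng_rf_comm (hsymm : ∀ u v, Cm u v → Cm v u) (hirr : ∀ u, ¬ Cm u u)
    {s t : V × Bool} (h : Cm s.1 t.1) (x : EE V) :
    rf Cm s (rf Cm t x) = rf Cm t (rf Cm s x) := by
  rw [rf_apply, rf_apply, rf_apply, rf_apply, map_sub, map_sub, map_smul, map_smul, yy_al, yy_al,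
    ng_mm_comm Cm hirr h, ng_mm_comm Cm hirr (hsymm _ _ h), smul_zero, smul_zero, sub_zero,
    sub_zero]
  abel

theorem exists_act (hsymm : ∀ u v, Cm u v → Cm v u) (hirr : ∀ u, ¬ Cm u u) :
    ∃ A : RG Cm →* (EE V ≃ₗ[ℝ] EE V), ∀ s x, A (gen Cm s) x = rf Cm s x := by
  let f : V × Bool → (EE V ≃ₗ[ℝ] EE V) := fun s =>
    LinearEquiv.ofInvolutive (rf Cm s) (ng_rf_sq Cm s)
  have hf : ∀ s x, f s x = rf Cm s x := fun s x => rfl
  have hrel : ∀ r ∈ rels Cm, FreeGroup.lift f r = 1 := by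
    rintro r (⟨s, rfl⟩ | ⟨s, t, h, rfl⟩)
    · rw [map_mul, FreeGroup.lift_apply_of]
      ext1 x
      exact ng_rf_sq Cm s x
    · rw [map_mul, map_mul, map_mul, map_inv, map_inv, FreeGroup.lift_apply_of,
        FreeGroup.lift_apply_of, mul_inv_eq_one, mul_inv_eq_iff_eq_mul]
      ext1 x
      exact ng_rf_comm Cm hsymm hirr h x
  refine ⟨PresentedGroup.toGroup hrel, fun s x => ?_⟩
  have h1 : PresentedGroup.toGroup hrel (gen Cm s) = f s := PresentedGroup.toGroup.of hrel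
  rw [h1, hf]

/-- the representation of the right-angled Coxeter group -/
noncomputable def act (hsymm : ∀ u v, Cm u v → Cm v u) (hirr : ∀ u, ¬ Cm u u) :
    RG Cm →* (EE V ≃ₗ[ℝ] EE V) := (exists_act Cm hsymm hirr).choose

lemma act_gen (hsymm : ∀ u v, Cm u v → Cm v u) (hirr : ∀ u, ¬ Cm u u) (s : V × Bool) (x : EE V) :
    act Cm hsymm hirr (gen Cm s) x = x - yy Cm s x • al s := by
  rw [← rf_apply]
  exact (exists_act Cm hsymm hirr).choose_spec s x

/-- the vector of a set of vertices -/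
noncomputable def uu (T : Set V) : EE V := (fun s => if s.1 ∈ T then 1 else 0, 0)

/-- the functional of a set of vertices -/
noncomputable def ff (T : Set V) : EE V →ₗ[ℝ] ℝ := ∑ s : V × Bool, if s.1 ∈ T then yy Cm s else 0

/-- cliques -/
def Clq (T : Set V) : Prop := ∀ u ∈ T, ∀ v ∈ T, u ≠ v → Cm u v

/-- maximal cliques -/
def MaxC (T : Set V) : Prop := Clq Cm T ∧ ∀ v, v ∉ T → ∃ u ∈ T, ¬ Cm v u

variable (hsymm : ∀ u v, Cm u v → Cm v u) (hirr : ∀ u, ¬ Cm u u)

omit [Fintype V] in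
private lemma ng_pair_zero (hirr : ∀ u, ¬ Cm u u) (s : V × Bool) (v : V)
    (h : v = s.1 ∨ Cm s.1 v) : mm Cm s (v, true) + mm Cm s (v, false) = 0 := by
  rcases s with ⟨u, b⟩
  by_cases hv : v = u
  · subst hv
    have h1 : ¬ Cm v v := hirr v
    rcases b with _ | _
    · simp [mm, h1]
    · simp [mm, h1]
  · have h1 : Cm u v := h.resolve_left hv
    have h2 : u ≠ v := fun h => hv h.symm
    simp [mm, h1, h2]

omit [Fintype V] in
private lemma ng_pair_neg (s : V × Bool) (v : V) (hv : v ≠ s.1) (h : ¬ Cm s.1 v) :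
    mm Cm s (v, true) + mm Cm s (v, false) = -4 := by
  rcases s with ⟨u, b⟩
  have h2 : u ≠ v := fun h => hv h.symm
  have h1 : ¬ Cm u v := h
  simp [mm, h1, h2]
  norm_num

private lemma ng_yy_uu_eq (T : Set V) (s : V × Bool) : yy Cm s (uu T) =
    ∑ v : V, if v ∈ T then mm Cm s (v, true) + mm Cm s (v, false) else 0 := by
  have h1 : yy Cm s (uu T) = ∑ t : V × Bool, mm Cm s t * (if t.1 ∈ T then 1 else 0) := by
    simp [yy, uu]
  rw [h1, Fintype.sum_prod_type]
  refine Finset.sum_congr rfl fun v _ => ?_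
  rw [Fintype.sum_bool]
  by_cases hv : v ∈ T
  · simp [hv]
  · simp [hv]

include hirr in
lemma yy_uu (T : Set V) (hT : Clq Cm T) (s : V × Bool) (hs : s.1 ∈ T) : yy Cm s (uu T) = 0 := by
  rw [ng_yy_uu_eq]
  apply Finset.sum_eq_zero
  intro v _
  by_cases hv : v ∈ T
  · rw [if_pos hv]
    apply ng_pair_zero Cm hirr
    by_cases h : v = s.1
    · exact Or.inl h
    · exact Or.inr (hT _ hs _ hv (Ne.symm h))
  · rw [if_neg hv]

lemma yy_uu_nonpos (T : Set V) (s : V × Bool) (hs : s.1 ∉ T) :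
    yy Cm s (uu T) ≤ 0 ∧ ((∃ u ∈ T, ¬ Cm s.1 u) → yy Cm s (uu T) < 0) := by
  rw [ng_yy_uu_eq]
  have hle : ∀ v ∈ (Finset.univ : Finset V),
      (if v ∈ T then mm Cm s (v, true) + mm Cm s (v, false) else 0) ≤ 0 := by
    intro v _
    by_cases hv : v ∈ T
    · rw [if_pos hv]
      have hvs : v ≠ s.1 := by
        rintro rfl
        exact hs hv
      by_cases h : Cm s.1 v
      · have h2 : s.1 ≠ v := Ne.symm hvs
        rcases s with ⟨u, b⟩
        have h3 : u ≠ v := h2
        have h4 : Cm u v := h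
        simp [mm, h3, h4]
      · rw [ng_pair_neg Cm s v hvs h]
        norm_num
    · rw [if_neg hv]
  refine ⟨Finset.sum_nonpos hle, ?_⟩
  rintro ⟨u, hu, hsu⟩
  refine Finset.sum_neg' hle ⟨u, Finset.mem_univ _, ?_⟩
  have hus : u ≠ s.1 := by
    rintro rfl
    exact hs hu
  rw [if_pos hu, ng_pair_neg Cm s u hus hsu]
  norm_num

include hsymm in
private lemma ng_ff_al_eq (T : Set V) (t : V × Bool) : ff Cm T (al t) = yy Cm t (uu T) := by
  have h1 : yy Cm t (uu T) = ∑ s : V × Bool, mm Cm t s * (if s.1 ∈ T then 1 else 0) := by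
    simp [yy, uu]
  rw [h1, ff, LinearMap.sum_apply]
  refine Finset.sum_congr rfl fun s _ => ?_
  by_cases hs : s.1 ∈ T
  · rw [if_pos hs, if_pos hs, yy_al, mul_one, mm_symm Cm hsymm]
  · rw [if_neg hs, if_neg hs, mul_zero]
    rfl

include hirr hsymm in
lemma ff_al_zero (T : Set V) (hT : Clq Cm T) (t : V × Bool) (ht : t.1 ∈ T) : ff Cm T (al t) = 0 := by
  rw [ng_ff_al_eq Cm hsymm]
  exact yy_uu Cm hirr T hT t ht

include hsymm in
lemma ff_al_nonpos (T : Set V) (t : V × Bool) (ht : t.1 ∉ T) :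
    ff Cm T (al t) ≤ 0 ∧ ((∃ u ∈ T, ¬ Cm t.1 u) → ff Cm T (al t) < 0) := by
  rw [ng_ff_al_eq Cm hsymm]
  exact yy_uu_nonpos Cm T t ht

lemma act_uu (T : Set V) (hT : Clq Cm T) (x : RG Cm) (hx : x ∈ Wsub Cm T) :
    act Cm hsymm hirr x (uu T) = uu T := by
  have hle : Wsub Cm T ≤ (MulAction.stabilizer (EE V ≃ₗ[ℝ] EE V) (uu T : EE V)).comap
      (act Cm hsymm hirr) := by
    rw [Wsub, Subgroup.closure_le]
    rintro _ ⟨s, hs, rfl⟩
    show act Cm hsymm hirr (gen Cm s) (uu T) = uu T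
    rw [act_gen, yy_uu Cm hirr T hT s hs, zero_smul, sub_zero]
  exact hle hx

lemma ff_act (T : Set V) (hT : Clq Cm T) (x : RG Cm) (hx : x ∈ Wsub Cm T) (e : EE V) :
    ff Cm T (act Cm hsymm hirr x e) = ff Cm T e := by
  rw [Wsub] at hx
  induction hx using Subgroup.closure_induction generalizing e with
  | mem x hx =>
    obtain ⟨s, hs, rfl⟩ := hx
    rw [act_gen, map_sub, map_smul, ff_al_zero Cm hsymm hirr T hT s hs, smul_zero, sub_zero]
  | one =>
    rw [map_one]
    rfl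
  | mul x y _ _ hx hy =>
    rw [map_mul]
    show ff Cm T (act Cm hsymm hirr x (act Cm hsymm hirr y e)) = _
    rw [hx, hy]
  | inv x _ hx =>
    have h1 := hx (act Cm hsymm hirr x⁻¹ e)
    have h2 : act Cm hsymm hirr x (act Cm hsymm hirr x⁻¹ e) = e := by
      show (act Cm hsymm hirr x * act Cm hsymm hirr x⁻¹) e = e
      rw [← map_mul, mul_inv_cancel, map_one]
      rfl
    rw [h2] at h1
    exact h1.symm

end Pool.Agent.Helper53.LG
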