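import Pool.Agent.Helper53.LG.ND

/-!
# LG-19: the homomorphism `psi`, the automorphisms `phi m`

`exists_psi`: define `f_k : FreeGroup (X ⊕ B) →* FreeGroup (X ⊕ B)` by `f_0 = ` identity and `f_{k+1} (x) = x`,
`f_{k+1} (s_b) = b * f_k (cw (root b)) * b⁻¹` (`FreeGroup.lift`). By induction on `k`: if `rk b < k` then
`f_{k+1} (s_b) = f_k (s_b)` (the element `cw (root b)` is a product of letters `x` and `s_b'^{±1}` with `rk b' < rk b`
(`low`), on which `f_k` and `f_{k-1}` agree by induction; a lemma: two homomorphisms which agree on all letters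
`(wd (inr (root b), true) k).1` agree on `cw (root b)`, induction on the length of `seg`). So for `k` larger than all ranks
(`B` finite) `ψ = f_k` satisfies `ψ = f_{k+1}` on all letters, so the equation holds.

`phi`: `f m` = the lift of `x ↦ x`, `b ↦ b * ψ (cw (root b)) ^ (m b)`. `f m (ψ l) = ψ l` for all `l`: on the letters `x`; on
`s_b` by strong induction on `rk b` (`f m (ψ (cw (root b))) = ψ (cw (root b))` by the lemma above applied to the
homomorphisms `f m ∘ ψ` and `ψ`): `f m (b r b⁻¹) = b r^m r r^{-m} b⁻¹ = b r b⁻¹`. So `f m ∘ f m' = f (m + m')` (check on the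
generators: `f m (b r^{m'}) = b r^m r^{m'}`), `f 0 = id`, so `f m` is an automorphism with inverse `f (-m)`.

`psi_ne_one`: later (`psi_injective`, file PsiInj).
-/

namespace Pool.Agent.Helper53.LG

variable (D : NDW)

private lemma seg_agree {Y I G H : Type} [Group G] [Group H] (S : WSys Y I) (g : Y → G) (f f' : G →* H)
    (i : I × Bool) (κ : ℤ) (m : ℕ) (h : ∀ k, f (g (S.wd i k).1) = f' (g (S.wd i k).1)) :
    f (S.seg g i κ m) = f' (S.seg g i κ m) := by
  induction m with
  | zero => simp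
  | succ m ih =>
    rw [seg_succ, map_mul, map_mul, ih]
    congr 1
    have h1 := h (κ + m)
    unfold lv
    split_ifs
    · exact h1
    · rw [map_inv, map_inv, h1]

private lemma cw_agree {G : Type} [Group G] (f f' : D.F →* G) (b : D.B)
    (h : ∀ x, f (FreeGroup.of (Sum.inl x)) = f' (FreeGroup.of (Sum.inl x)))
    (hB : ∀ b', D.rk b' < D.rk b → f (FreeGroup.of (Sum.inr b')) = f' (FreeGroup.of (Sum.inr b'))) :
    f (D.cw (Sum.inr (D.root b))) = f' (D.cw (Sum.inr (D.root b))) := by
  unfold NDW.cw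
  apply seg_agree
  intro k
  rw [wd_true]
  rcases hw : (D.S.w (Sum.inr (D.root b)) k).1 with x | b'
  · exact h x
  · exact hB b' (D.low b b' k hw)

/-- the approximations -/
private noncomputable def fk : ℕ → (D.F →* D.F)
  | 0 => MonoidHom.id _
  | k + 1 => FreeGroup.lift (Sum.elim (fun x => FreeGroup.of (Sum.inl x))
      (fun b => FreeGroup.of (Sum.inr b) * fk k (D.cw (Sum.inr (D.root b))) *
        (FreeGroup.of (Sum.inr b))⁻¹))

private lemma fk_inl (k : ℕ) (x : D.X) : fk D k (FreeGroup.of (Sum.inl x)) = FreeGroup.of (Sum.inl x) := by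
  cases k with
  | zero => rfl
  | succ k => simp [fk]

private lemma fk_inr (k : ℕ) (b : D.B) : fk D (k + 1) (FreeGroup.of (Sum.inr b)) =
    FreeGroup.of (Sum.inr b) * fk D k (D.cw (Sum.inr (D.root b))) * (FreeGroup.of (Sum.inr b))⁻¹ := by
  simp [fk]

private lemma fk_stab (k : ℕ) (b : D.B) (hb : D.rk b < k) :
    fk D (k + 1) (FreeGroup.of (Sum.inr b)) = fk D k (FreeGroup.of (Sum.inr b)) := by
  induction k generalizing b with
  | zero => omega
  | succ k ih =>
    rw [fk_inr, fk_inr]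
    rw [cw_agree D (fk D (k + 1)) (fk D k) b (fun x => by rw [fk_inl, fk_inl])
      (fun b' hb' => ih b' (by omega))]

theorem exists_psi : ∃ ψ : D.F →* D.F, (∀ x, ψ (FreeGroup.of (Sum.inl x)) = FreeGroup.of (Sum.inl x)) ∧
    ∀ b, ψ (FreeGroup.of (Sum.inr b)) =
      FreeGroup.of (Sum.inr b) * ψ (D.cw (Sum.inr (D.root b))) * (FreeGroup.of (Sum.inr b))⁻¹ := by
  set K : ℕ := (∑ b, D.rk b) + 1 with hK
  refine ⟨fk D K, fun x => fk_inl D K x, fun b => ?_⟩
  have h1 : D.rk b ≤ ∑ b, D.rk b :=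
    Finset.single_le_sum (f := fun b => D.rk b) (fun b _ => Nat.zero_le _) (Finset.mem_univ b)
  have h2 : D.rk b < K := by omega
  rw [← fk_inr, fk_stab D K b h2]

/-- the homomorphism `x ↦ x`, `s_b ↦ b r_b b⁻¹` -/
noncomputable def NDW.psi : D.F →* D.F := (exists_psi D).choose

lemma psi_inl (x : D.X) : D.psi (FreeGroup.of (Sum.inl x)) = FreeGroup.of (Sum.inl x) :=
  (exists_psi D).choose_spec.1 x

lemma psi_inr (b : D.B) : D.psi (FreeGroup.of (Sum.inr b)) =
    FreeGroup.of (Sum.inr b) * D.psi (D.cw (Sum.inr (D.root b))) * (FreeGroup.of (Sum.inr b))⁻¹ :=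
  (exists_psi D).choose_spec.2 b

/-- the image of the root of `b` -/
noncomputable def NDW.rr (b : D.B) : D.F := D.psi (D.cw (Sum.inr (D.root b)))

/-- two homomorphisms which agree on the `X`-letters and satisfy the recursion agree -/
theorem hom_unique {G : Type} [Group G] (f f' : D.F →* G)
    (h : ∀ x, f (FreeGroup.of (Sum.inl x)) = f' (FreeGroup.of (Sum.inl x)))
    (hB : ∀ b, f (D.cw (Sum.inr (D.root b))) = f' (D.cw (Sum.inr (D.root b))) →
      f (FreeGroup.of (Sum.inr b)) = f' (FreeGroup.of (Sum.inr b))) : f = f' := by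
  have key : ∀ k : ℕ, ∀ b, D.rk b < k →
      f (FreeGroup.of (Sum.inr b)) = f' (FreeGroup.of (Sum.inr b)) := by
    intro k
    induction k with
    | zero => intro b hb; omega
    | succ k ih =>
      intro b hb
      exact hB b (cw_agree D f f' b h (fun b' hb' => ih b' (by omega)))
  apply FreeGroup.ext_hom
  rintro (x | b)
  · exact h x
  · exact key _ b (Nat.lt_succ_self _)

/-- the homomorphisms `phi` -/
private noncomputable def fm (m : D.B → ℤ) : D.F →* D.F :=
  FreeGroup.lift (Sum.elim (fun x => FreeGroup.of (Sum.inl x))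
      (fun b => FreeGroup.of (Sum.inr b) * D.rr b ^ m b))

private lemma fm_inl (m : D.B → ℤ) (x : D.X) :
    fm D m (FreeGroup.of (Sum.inl x)) = FreeGroup.of (Sum.inl x) := by
  simp [fm]

private lemma fm_inr (m : D.B → ℤ) (b : D.B) :
    fm D m (FreeGroup.of (Sum.inr b)) = FreeGroup.of (Sum.inr b) * D.rr b ^ m b := by
  simp [fm]

private lemma fm_psi (m : D.B → ℤ) : (fm D m).comp D.psi = D.psi := by
  apply hom_unique
  · intro x
    rw [MonoidHom.comp_apply, psi_inl, fm_inl]
  · intro b hb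
    rw [MonoidHom.comp_apply, psi_inr, map_mul, map_mul, map_inv, fm_inr]
    rw [MonoidHom.comp_apply] at hb
    rw [hb]
    have : D.psi (D.cw (Sum.inr (D.root b))) = D.rr b := rfl
    rw [this, mul_inv_rev]
    have hc : D.rr b ^ m b * D.rr b = D.rr b * D.rr b ^ m b :=
      (zpow_mul_comm (D.rr b) (m b) 1 |> fun h => by simpa using h)
    calc FreeGroup.of (Sum.inr b) * D.rr b ^ m b * D.rr b * ((D.rr b ^ m b)⁻¹ * (FreeGroup.of (Sum.inr b))⁻¹)
        = FreeGroup.of (Sum.inr b) * (D.rr b ^ m b * D.rr b) * (D.rr b ^ m b)⁻¹ *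
          (FreeGroup.of (Sum.inr b))⁻¹ := by group
      _ = FreeGroup.of (Sum.inr b) * (D.rr b * D.rr b ^ m b) * (D.rr b ^ m b)⁻¹ *
          (FreeGroup.of (Sum.inr b))⁻¹ := by rw [hc]
      _ = _ := by group

private lemma fm_psi' (m : D.B → ℤ) (l : D.F) : fm D m (D.psi l) = D.psi l := by
  rw [← MonoidHom.comp_apply, fm_psi]

private lemma fm_rr (m : D.B → ℤ) (b : D.B) : fm D m (D.rr b) = D.rr b := fm_psi' D m _

private lemma fm_comp (m m' : D.B → ℤ) : (fm D m).comp (fm D m') = fm D (fun b => m b + m' b) := by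
  apply FreeGroup.ext_hom
  rintro (x | b)
  · rw [MonoidHom.comp_apply, fm_inl, fm_inl, fm_inl]
  · rw [MonoidHom.comp_apply, fm_inr, fm_inr, map_mul, map_zpow, fm_rr, fm_inr, mul_assoc, ← zpow_add]

private lemma fm_zero : fm D (fun _ => 0) = MonoidHom.id _ := by
  apply FreeGroup.ext_hom
  rintro (x | b)
  · rw [fm_inl]; rfl
  · rw [fm_inr]; simp

private lemma fm_neg_apply (m : D.B → ℤ) (l : D.F) : fm D m (fm D (fun b => - m b) l) = l := by
  rw [← MonoidHom.comp_apply, fm_comp]
  have : (fun b => m b + - m b) = fun _ => (0 : ℤ) := by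
    funext b; ring
  rw [this, fm_zero]; rfl

private lemma fm_neg_apply' (m : D.B → ℤ) (l : D.F) : fm D (fun b => - m b) (fm D m l) = l := by
  rw [← MonoidHom.comp_apply, fm_comp]
  have : (fun b => - m b + m b) = fun _ => (0 : ℤ) := by
    funext b; ring
  rw [this, fm_zero]; rfl

theorem exists_phi (m : D.B → ℤ) : ∃ φ : MulAut D.F,
    (∀ x, φ (FreeGroup.of (Sum.inl x)) = FreeGroup.of (Sum.inl x)) ∧
    ∀ b, φ (FreeGroup.of (Sum.inr b)) = FreeGroup.of (Sum.inr b) * D.rr b ^ m b := by
  refine ⟨{ toFun := fm D m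
            invFun := fm D (fun b => - m b)
            left_inv := fm_neg_apply' D m
            right_inv := fm_neg_apply D m
            map_mul' := map_mul (fm D m) }, fun x => fm_inl D m x, fun b => fm_inr D m b⟩

/-- the automorphism `x ↦ x`, `b ↦ b r_b ^ (m b)` -/
noncomputable def NDW.phi (m : D.B → ℤ) : MulAut D.F := (exists_phi D m).choose

lemma phi_inl (m : D.B → ℤ) (x : D.X) : D.phi m (FreeGroup.of (Sum.inl x)) = FreeGroup.of (Sum.inl x) :=
  (exists_phi D m).choose_spec.1 x

lemma phi_inr (m : D.B → ℤ) (b : D.B) :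
    D.phi m (FreeGroup.of (Sum.inr b)) = FreeGroup.of (Sum.inr b) * D.rr b ^ m b :=
  (exists_phi D m).choose_spec.2 b

private lemma phi_eq_fm (m : D.B → ℤ) : (D.phi m).toMonoidHom = fm D m := by
  apply FreeGroup.ext_hom
  rintro (x | b)
  · rw [fm_inl]; exact phi_inl D m x
  · rw [fm_inr]; exact phi_inr D m b

private lemma phi_apply (m : D.B → ℤ) (l : D.F) : D.phi m l = fm D m l := by
  rw [← phi_eq_fm]; rfl

theorem phi_psi (m : D.B → ℤ) (l : D.F) : D.phi m (D.psi l) = D.psi l := by
  rw [phi_apply, fm_psi']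

theorem phi_pow (m : D.B → ℤ) (k : ℕ) : D.phi m ^ k = D.phi (fun b => k * m b) := by
  induction k with
  | zero =>
    ext l
    rw [pow_zero, phi_apply]
    have : (fun b => ((0 : ℕ) : ℤ) * m b) = fun _ => (0 : ℤ) := by
      funext b; simp
    rw [this, fm_zero]; rfl
  | succ k ih =>
    ext l
    rw [pow_succ, ih, MulAut.mul_apply, phi_apply, phi_apply, phi_apply, ← MonoidHom.comp_apply, fm_comp]
    have : (fun b => ((k : ℕ) : ℤ) * m b + m b) = fun b => ((k + 1 : ℕ) : ℤ) * m b := by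
      funext b; push_cast; ring
    rw [this]

end Pool.Agent.Helper53.LG
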