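import Pool.Agent.Helper53.LG.UpStep

/-!
# LG-33: seeds

`seeds`: strong induction on `lrk y`. `y = inl x₀`: `Z = []` (no `b` with `rk b < 0`). `y = inr b`, `r = rk b`, `lrk y = r + 1`. Let
`w = x / d (inl b)` (irrational, `d (inl b) > 0`), `v = w / (1 - m w)` (`m = m b`; irrational, `nuinv m v = w`: as `v ≠ -1 / m`,
`1 + m v = 1 / (1 - m w)`). Let `ρ = root b`, `(y', σ) = S.w (inr ρ) 0` the first letter of its word, `lrk y' ≤ r` (`low`).
`x' = sg (S.w (inr ρ) 0) * d (inr ρ) * v`, irrational. By induction (`y', x'`) there is `Z₀`; by `up_iter` from `lrk y'` to `r` for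
`single y' x' :: Z₀` there is `Z₁`, `Z₂ = single y' x' :: Z₀ ++ Z₁` is closed below `r`, all its members are irrational
singles (`RootIrr` for irrational singles: `rootIrr_of_irr`), with letters of level `≤ r`. `v ∈ cellsL (inr ρ) Z₂` since
`sg (…) * x' / d = v ∈ sgl y' x' (inr ρ)` (position `κ = 0`). `up_step` for `Z₂`, `r` gives `Z₃` containing
`single (inr b) (d (inl b) * nuinv m v) = single y x`. So `Z₂ ++ Z₃` is a permutation of `single y x :: Z`, and
`ClosedBelow` depends only on the multiset (`cellsL_perm`).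
-/

namespace Pool.Agent.Helper53.LG

lemma cellsL_perm {Y I : Type} (S : WSys Y I) (d : I → ℕ) (i : I) (Z Z' : List (FCo Y I)) (h : Z.Perm Z') :
    cellsL S d i Z = cellsL S d i Z' := by
  unfold cellsL
  exact (h.map _).sum_eq

lemma sd_sg_irr {Y : Type} (l : Lt Y) (x : ℝ) (hx : Irrational x) : Irrational (sg l * x) := by
  unfold sg
  split_ifs
  · rw [one_mul]; exact hx
  · rw [neg_one_mul]; exact hx.neg

lemma sd_sg_mul_sg {Y : Type} (l : Lt Y) (x : ℝ) : sg l * (sg l * x) = x := by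
  unfold sg
  split_ifs <;> ring

lemma sd_mob_irr (m : ℤ) (hm : m ≠ 0) (w : ℝ) (hw : Irrational w) :
    Irrational (w / (1 - m * w)) ∧ nuinv m (w / (1 - m * w)) = w := by
  have h1 : (1 : ℝ) - m * w ≠ 0 := by
    intro h
    have h2 : (m : ℝ) * w = 1 := by linarith
    have h3 : Irrational ((m : ℝ) * w) := hw.intCast_mul hm
    rw [h2] at h3
    exact not_irrational_one h3
  have h2 : Irrational (w / (1 - m * w)) := by
    rintro ⟨q, hq⟩
    have h3 : w = q * (1 - m * w) := by
      rw [hq, div_mul_cancel₀ _ h1]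
    have h4 : w * (1 + m * q) = q := by linarith
    have h5 : (1 + m * q : ℝ) ≠ 0 := by
      intro h6
      rw [h6, mul_zero] at h4
      rw [← h4, mul_zero, add_zero] at h6
      exact one_ne_zero h6
    apply hw
    refine ⟨q / (1 + m * q), ?_⟩
    push_cast
    rw [div_eq_iff h5]
    exact h4.symm
  refine ⟨h2, ?_⟩
  have h3 : w / (1 - m * w) ≠ -1 / m := by
    intro h
    apply h2
    refine ⟨-1 / m, ?_⟩
    rw [h]
    push_cast
    rfl
  unfold nuinv
  rw [if_neg h3]
  have h4 : 1 + (m : ℝ) * (w / (1 - m * w)) = 1 / (1 - m * w) := by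
    field_simp
    ring
  rw [h4, div_div_div_cancel_right₀ h1, div_one]

open scoped Classical in
lemma sd_mem_sgl {Y I : Type} (S : WSys Y I) (d : I → ℕ) (y : Y) (x : ℝ) (i : I) (v : ℝ) (κ : ℕ)
    (h1 : κ < S.n i) (h2 : (S.w i κ).1 = y) (h3 : sg (S.w i κ) * x / d i = v) : v ∈ sgl S d y x i := by
  unfold sgl
  rw [Multiset.mem_map]
  exact ⟨κ, Finset.mem_filter.2 ⟨Finset.mem_range.2 h1, h2⟩, h3⟩

lemma sd_fval_of_firr {Y I : Type} (z : FCo Y I) (h : FIrr z) : FVal z := by
  obtain ⟨y, x, rfl, hx⟩ := h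
  exact hx.ne_zero

variable (D : NDW) (m : D.B → ℤ) (hm : ∀ b, m b ≠ 0) (d : D.B ⊕ D.R → ℕ) (hd : ∀ i, 0 < d i)

include hd in
lemma rootIrr_of_irr (Z : List (FCo (D.X ⊕ D.B) (D.B ⊕ D.R))) (h : ∀ z ∈ Z, FIrr z) : RootIrr D d Z := by
  intro ρ v hv
  induction Z with
  | nil => simp [cellsL] at hv
  | cons z Z ih =>
    rw [cellsL_cons, Multiset.mem_add] at hv
    rcases hv with hv | hv
    · obtain ⟨y, x, rfl, hx⟩ := h z (by simp)
      unfold cells sgl at hv
      rw [Multiset.mem_map] at hv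
      obtain ⟨κ, -, rfl⟩ := hv
      exact (sd_sg_irr _ _ hx).div_natCast (hd _).ne'
    · exact ih (fun z hz => h z (List.mem_cons_of_mem _ hz)) hv

include hm hd in
theorem seeds (y : D.X ⊕ D.B) (x : ℝ) (hx : Irrational x) :
    ∃ Z : List (FCo (D.X ⊕ D.B) (D.B ⊕ D.R)), (∀ z ∈ Z, FIrr z) ∧ (∀ z ∈ Z, D.lrk (ltr D.S z) ≤ D.lrk y) ∧
      ClosedBelow D m d (D.lrk y) (FCo.single y x :: Z) := by
  obtain ⟨N, hN⟩ : ∃ N, N = D.lrk y := ⟨_, rfl⟩
  induction N using Nat.strong_induction_on generalizing y x with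
  | _ N ih =>
    rcases y with x₀ | b
    · refine ⟨[], by simp, by simp, ?_⟩
      intro b hb
      exact absurd hb (Nat.not_lt_zero _)
    · have hN' : N = D.rk b + 1 := hN
      have hdb : (0 : ℝ) < d (Sum.inl b) := by exact_mod_cast hd (Sum.inl b)
      obtain ⟨w, hw⟩ : ∃ w : ℝ, w = x / d (Sum.inl b) := ⟨_, rfl⟩
      have hwi : Irrational w := by
        rw [hw]; exact hx.div_natCast (hd _).ne'
      have hwx : (d (Sum.inl b) : ℝ) * w = x := by
        rw [hw]; field_simp
      obtain ⟨v, hv⟩ : ∃ v : ℝ, v = w / (1 - m b * w) := ⟨_, rfl⟩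
      obtain ⟨hvi, hvw⟩ := sd_mob_irr (m b) (hm b) w hwi
      rw [← hv] at hvi hvw
      obtain ⟨ρ, hρ⟩ : ∃ ρ, ρ = D.root b := ⟨_, rfl⟩
      have hdr : (0 : ℝ) < d (Sum.inr ρ) := by exact_mod_cast hd (Sum.inr ρ)
      obtain ⟨y', hy'⟩ : ∃ y', y' = (D.S.w (Sum.inr ρ) 0).1 := ⟨_, rfl⟩
      have hl : D.lrk y' ≤ D.rk b := by
        rcases y' with a | b'
        · exact Nat.zero_le _
        · have := D.low b b' 0 (by rw [← hρ]; exact hy'.symm)
          exact this
      obtain ⟨x', hx'⟩ : ∃ x' : ℝ, x' = sg (D.S.w (Sum.inr ρ) 0) * (d (Sum.inr ρ) * v) := ⟨_, rfl⟩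
      have hx'i : Irrational x' := by
        rw [hx']
        exact sd_sg_irr _ _ (hvi.natCast_mul (hd _).ne')
      obtain ⟨Z₀, hZ1, hZ2, hZ3⟩ := ih (D.lrk y') (by omega) y' x' hx'i rfl
      have hW1 : ∀ z ∈ (FCo.single y' x' :: Z₀ : List (FCo (D.X ⊕ D.B) (D.B ⊕ D.R))), FIrr z := by
        intro z hz
        rcases List.mem_cons.1 hz with rfl | hz
        · exact ⟨y', x', rfl, hx'i⟩
        · exact hZ1 z hz
      have hW2 : ∀ z ∈ (FCo.single y' x' :: Z₀ : List (FCo (D.X ⊕ D.B) (D.B ⊕ D.R))),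
          D.lrk (ltr D.S z) ≤ D.lrk y' := by
        intro z hz
        rcases List.mem_cons.1 hz with rfl | hz
        · exact le_refl _
        · exact hZ2 z hz
      obtain ⟨Z₁, hA1, -, hA3, -, hA5⟩ := up_iter D m hm d hd (D.lrk y') (D.rk b) hl (FCo.single y' x' :: Z₀)
        hW2 (fun z hz => sd_fval_of_firr z (hW1 z hz)) hZ3
      have hA6 := hA5 (rootIrr_of_irr D d hd _ hW1)
      obtain ⟨Z₂, hZ₂⟩ : ∃ Z₂, Z₂ = (FCo.single y' x' :: Z₀) ++ Z₁ := ⟨_, rfl⟩
      rw [← hZ₂] at hA3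
      have hB1 : ∀ z ∈ Z₂, FIrr z := by
        intro z hz
        rw [hZ₂] at hz
        rcases List.mem_append.1 hz with hz | hz
        · exact hW1 z hz
        · exact hA6 z hz
      have hB2 : ∀ z ∈ Z₂, D.lrk (ltr D.S z) ≤ D.rk b := by
        intro z hz
        rw [hZ₂] at hz
        rcases List.mem_append.1 hz with hz | hz
        · exact (hW2 z hz).trans hl
        · exact hA1 z hz
      have hvZ : v ∈ cellsL D.S d (Sum.inr (D.root b)) Z₂ := by
        rw [← hρ, hZ₂, List.cons_append, cellsL_cons, Multiset.mem_add]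
        left
        unfold cells
        refine sd_mem_sgl D.S d y' x' _ v 0 (D.S.npos _) ?_ ?_
        · rw [hy']
          rfl
        · have e : D.S.w (Sum.inr ρ) ((0 : ℕ) : ℤ) = D.S.w (Sum.inr ρ) 0 := rfl
          rw [e, hx', sd_sg_mul_sg]
          field_simp
      obtain ⟨Z₃, hC1, -, hC3, -, hC5, hC6⟩ := up_step D m hm d hd (D.rk b) Z₂ hB2
        (fun z hz => sd_fval_of_firr z (hB1 z hz)) hA3
      have hC7 := hC5 (rootIrr_of_irr D d hd _ hB1)
      have hC8 := hC6 b v rfl hvZ hvi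
      rw [hvw, hwx] at hC8
      obtain ⟨s, t, hst⟩ := List.append_of_mem hC8
      refine ⟨Z₂ ++ (s ++ t), ?_, ?_, ?_⟩
      · intro z hz
        rcases List.mem_append.1 hz with hz | hz
        · exact hB1 z hz
        · apply hC7
          rw [hst]
          rcases List.mem_append.1 hz with hz | hz
          · exact List.mem_append_left _ hz
          · exact List.mem_append_right _ (List.mem_cons_of_mem _ hz)
      · intro z hz
        change _ ≤ D.rk b + 1
        rcases List.mem_append.1 hz with hz | hz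
        · exact (hB2 z hz).trans (Nat.le_succ _)
        · apply le_of_eq
          apply hC1
          rw [hst]
          rcases List.mem_append.1 hz with hz | hz
          · exact List.mem_append_left _ hz
          · exact List.mem_append_right _ (List.mem_cons_of_mem _ hz)
      · have hp : (Z₂ ++ Z₃).Perm (FCo.single (Sum.inr b) x :: (Z₂ ++ (s ++ t))) := by
          rw [hst, ← List.append_assoc, ← List.append_assoc]
          exact List.perm_middle
        intro b' hb'
        have h5 := hC3 b' hb'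
        rw [cellsL_perm D.S d _ _ _ hp, cellsL_perm D.S d _ _ _ hp] at h5
        exact h5

end Pool.Agent.Helper53.LG
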