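import Pool.Agent.Helper53.LG.NG
import Pool.Agent.Helper53.LG.Ex

/-!
# LG-13: the logarithms of the elements `tau e`

For a signed vertex `e = (v, σ)`, `s = (v, true)`, `r = (v, false)`:
`nn e x = ± (yy s x • al r - yy r x • al s)` (`+` iff `σ = true`).

* `nn_sq`: `yy s (al s) = 2 = yy r (al r)`, `yy s (al r) = -2 = yy r (al s)` (`¬ Cm v v`), so
  `yy s (nn e x) = ∓ 2 (yy s x + yy r x)`, `yy r (nn e x) = ± 2 (yy s x + yy r x)`; compute.
* `nn_cube`: `yy s (al r + al s) = 0 = yy r (al r + al s)`.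
* `nn_nn`: all products `yy (v, _) (al (w, _))` vanish if `Cm v w`.
* `act_tau`: `tau (v, true) = gen s * gen r`: `s (r x) = x - yy r x • al r - yy s (x - yy r x • al r) • al s`
  `= x - yy r x • al r - (yy s x + 2 yy r x) • al s`, compare with `x + nn x + nn (nn x) / 2`; similarly for `false`
  (exchange `s` and `r`).
-/

namespace Pool.Agent.Helper53.LG

variable {V : Type} [Fintype V] (Cm : V → V → Prop)
  (hsymm : ∀ u v, Cm u v → Cm v u) (hirr : ∀ u, ¬ Cm u u)

/-- the logarithm of `tau e` -/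
noncomputable def nn (e : V × Bool) : Module.End ℝ (EE V) :=
  (if e.2 then (1 : ℝ) else -1) •
    ((yy Cm (e.1, true)).smulRight (al (e.1, false)) - (yy Cm (e.1, false)).smulRight (al (e.1, true)))

lemma nn_apply (e : V × Bool) (x : EE V) : nn Cm e x = (if e.2 then (1 : ℝ) else -1) •
    (yy Cm (e.1, true) x • al (e.1, false) - yy Cm (e.1, false) x • al (e.1, true)) := by
  simp only [nn, LinearMap.smul_apply, LinearMap.sub_apply, LinearMap.smulRight_apply]

private lemma mm_self (s : V × Bool) : mm Cm s s = 2 := by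
  simp [mm]

include hirr in
private lemma mm_tf (v : V) : mm Cm (v, true) (v, false) = -2 := by
  have h1 : ((v, true) : V × Bool) ≠ (v, false) := by simp
  rw [mm, if_neg h1, if_neg (hirr v)]

include hirr in
private lemma mm_ft (v : V) : mm Cm (v, false) (v, true) = -2 := by
  have h1 : ((v, false) : V × Bool) ≠ (v, true) := by simp
  rw [mm, if_neg h1, if_neg (hirr v)]

include hirr in
private lemma mm_cm {u v : V} (h : Cm u v) (b c : Bool) : mm Cm (u, b) (v, c) = 0 := by
  have h1 : ((u, b) : V × Bool) ≠ (v, c) := by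
    intro h2
    have h3 : u = v := congrArg Prod.fst h2
    rw [h3] at h
    exact hirr v h
  rw [mm, if_neg h1, if_pos h]

private lemma sgn_sq (b : Bool) : (if b then (1 : ℝ) else -1) * (if b then (1 : ℝ) else -1) = 1 := by
  cases b <;> simp

include hirr in
private lemma yy_s_nn (e : V × Bool) (x : EE V) : yy Cm (e.1, true) (nn Cm e x) =
    (if e.2 then (1 : ℝ) else -1) * (-2 * (yy Cm (e.1, true) x + yy Cm (e.1, false) x)) := by
  rw [nn_apply, map_smul, map_sub, map_smul, map_smul, yy_al, yy_al, mm_tf Cm hirr, mm_self]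
  simp only [smul_eq_mul]
  ring

include hirr in
private lemma yy_r_nn (e : V × Bool) (x : EE V) : yy Cm (e.1, false) (nn Cm e x) =
    (if e.2 then (1 : ℝ) else -1) * (2 * (yy Cm (e.1, true) x + yy Cm (e.1, false) x)) := by
  rw [nn_apply, map_smul, map_sub, map_smul, map_smul, yy_al, yy_al, mm_ft Cm hirr, mm_self]
  simp only [smul_eq_mul]
  ring

include hirr in
theorem nn_sq (e : V × Bool) (x : EE V) : nn Cm e (nn Cm e x) =
    (-2 * (yy Cm (e.1, true) x + yy Cm (e.1, false) x)) • (al (e.1, false) + al (e.1, true)) := by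
  rw [nn_apply Cm e (nn Cm e x), yy_s_nn Cm hirr, yy_r_nn Cm hirr]
  have h := sgn_sq e.2
  set c : ℝ := if e.2 then (1 : ℝ) else -1
  match_scalars <;>
    linear_combination (-2 * (yy Cm (e.1, true) x + yy Cm (e.1, false) x)) * h

include hirr in
theorem nn_cube (e : V × Bool) : nn Cm e * nn Cm e * nn Cm e = 0 := by
  refine LinearMap.ext fun x => ?_
  change nn Cm e (nn Cm e (nn Cm e x)) = 0
  rw [nn_sq Cm hirr e (nn Cm e x), yy_s_nn Cm hirr, yy_r_nn Cm hirr]
  have h : (-2 : ℝ) * ((if e.2 then (1 : ℝ) else -1) *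
      (-2 * (yy Cm (e.1, true) x + yy Cm (e.1, false) x)) +
      (if e.2 then (1 : ℝ) else -1) * (2 * (yy Cm (e.1, true) x + yy Cm (e.1, false) x))) = 0 := by
    ring
  rw [h, zero_smul]

include hsymm hirr in
theorem nn_nn (e f : V × Bool) (h : Cm e.1 f.1) : nn Cm e * nn Cm f = 0 := by
  refine LinearMap.ext fun x => ?_
  change nn Cm e (nn Cm f x) = 0
  have h1 : ∀ b : Bool, yy Cm (e.1, b) (nn Cm f x) = 0 := by
    intro b
    rw [nn_apply, map_smul, map_sub, map_smul, map_smul, yy_al, yy_al, mm_cm Cm hirr h,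
      mm_cm Cm hirr h]
    simp
  rw [nn_apply, h1, h1]
  simp

theorem act_tau (e : V × Bool) (x : EE V) :
    act Cm hsymm hirr (tau Cm e) x = ex (nn Cm e) x := by
  have h1 : ex (nn Cm e) x = x + nn Cm e x + (2⁻¹ : ℝ) • nn Cm e (nn Cm e x) := rfl
  rw [h1, nn_sq Cm hirr, nn_apply]
  obtain ⟨v, b⟩ := e
  cases b
  · have h2 : tau Cm (v, false) = gen Cm (v, false) * gen Cm (v, true) := by simp [tau]
    rw [h2, map_mul, LinearEquiv.mul_apply, act_gen, act_gen, map_sub, map_smul, yy_al,
      mm_ft Cm hirr]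
    simp only [smul_eq_mul, Bool.false_eq_true, if_false]
    module
  · have h2 : tau Cm (v, true) = gen Cm (v, true) * gen Cm (v, false) := by simp [tau]
    rw [h2, map_mul, LinearEquiv.mul_apply, act_gen, act_gen, map_sub, map_smul, yy_al,
      mm_tf Cm hirr]
    simp only [smul_eq_mul, if_true]
    module

end Pool.Agent.Helper53.LG
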