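import Pool.Agent.Helper53.LG.Br

/-!
# LG-38: the representation of the big free group

`β : Br D m`. `lamb b > 0` injective (`b ↦ 1 +` its number). `tv i y : V ≃ V`, `v ↦ v + y • f i v • u i` (inverse `tv i (-y)`, as `f i (u i) = 0`).
`Bx b x = tv (inl b) (lamb b * x) ∘ B0 b ∘ tv (inr (root b)) (lamb b * x)`. `Θ x` the lift of `x₀ ↦ π x₀`, `b ↦ Bx b x`.

* `tv_comm_π`: `π (cw i)` commutes with `tv i y` (`πu`, `fπ`); `tv_comm_T`.
* `bx_π`: `Bx π(r) = π(s) Bx`, `r = cw (inr (root b))`, `s = cw (inl b)`. `bx_T`: `T Bx T⁻¹ = Bx π(r)^m`: `T B0 = B0 π(r)^m T` (`B0t`).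
* `cw_inl`: `D.cw (inl b) = of (inr b)` (`nB`, `wB`, `seg_one`, `wd_true`).
* `theta_psi`: `hom_unique` for `(Θ x).comp psi` and `π`: at `b`, given `Θ (psi (cw (root b))) = π (cw (root b))`:
  `Θ (psi s_b) = Bx π(r) Bx⁻¹ = π(s_b)`.
* `theta_phi`: both sides are homomorphisms in `w`, check on the letters.
-/

namespace Pool.Agent.Helper53.LG

variable {D : NDW} {m : D.B → ℤ} (β : Br D m)

lemma cw_inl (b : D.B) : D.cw (Sum.inl b) = FreeGroup.of (Sum.inr b) := by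
  unfold NDW.cw
  rw [D.nB]
  show (1 : D.F) * lv FreeGroup.of (D.S.wd (Sum.inl b, true) (0 + ((0 : ℕ) : ℤ))) = _
  rw [one_mul]
  show lv FreeGroup.of (if true = true then D.S.w (Sum.inl b) (0 + ((0 : ℕ) : ℤ)) else _) = _
  rw [if_pos rfl, D.wB]
  simp [lv]

/-- distinct positive numbers -/
noncomputable def lamb (b : D.B) : ℝ := ((Fintype.equivFin D.B b : ℕ) : ℝ) + 1

lemma lamb_pos (b : D.B) : 0 < lamb b := by
  unfold lamb
  positivity

lemma lamb_inj (b b' : D.B) (h : lamb b = lamb b') : b = b' := by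
  unfold lamb at h
  have h1 : ((Fintype.equivFin D.B b : ℕ) : ℝ) = ((Fintype.equivFin D.B b' : ℕ) : ℝ) :=
    add_right_cancel h
  have h2 : (Fintype.equivFin D.B b : ℕ) = (Fintype.equivFin D.B b' : ℕ) := by exact_mod_cast h1
  exact (Fintype.equivFin D.B).injective (Fin.ext h2)

/-- the transvections -/
noncomputable def Br.tv (i : D.B ⊕ D.R) (y : ℝ) : β.V ≃ₗ[ℝ] β.V :=
  LinearEquiv.ofLinearMap (LinearMap.id + y • (β.f i).smulRight (β.u i))
    (LinearMap.id + (-y) • (β.f i).smulRight (β.u i))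
    (by ext v; simp [β.fu])
    (by ext v; simp [β.fu])

lemma tv_apply (i : D.B ⊕ D.R) (y : ℝ) (v : β.V) : β.tv i y v = v + (y * β.f i v) • β.u i := by
  simp [Br.tv, smul_smul]

/-- the operators of the stable letters -/
noncomputable def Br.Bx (b : D.B) (x : ℝ) : β.V ≃ₗ[ℝ] β.V :=
  β.tv (Sum.inl b) (lamb b * x) * β.B0 b * β.tv (Sum.inr (D.root b)) (lamb b * x)

lemma tv_comm_π (i : D.B ⊕ D.R) (y : ℝ) : β.tv i y * β.π (D.cw i) = β.π (D.cw i) * β.tv i y := by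
  refine LinearEquiv.ext fun v => ?_
  rw [LinearEquiv.mul_apply, LinearEquiv.mul_apply, tv_apply, tv_apply, map_add, map_smul, β.πu, β.fπ]

lemma tv_comm_T (i : D.B ⊕ D.R) (y : ℝ) : β.tv i y * β.T = β.T * β.tv i y := by
  refine LinearEquiv.ext fun v => ?_
  rw [LinearEquiv.mul_apply, LinearEquiv.mul_apply, tv_apply, tv_apply, map_add, map_smul, β.Tu, β.fT]

lemma B0_π (b : D.B) :
    β.B0 b * β.π (D.cw (Sum.inr (D.root b))) = β.π (D.cw (Sum.inl b)) * β.B0 b :=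
  LinearEquiv.ext fun v => β.B0r b v

lemma B0_T (b : D.B) :
    β.B0 b * (β.π (D.cw (Sum.inr (D.root b))) ^ m b * β.T) = β.T * β.B0 b :=
  LinearEquiv.ext fun v => β.B0t b v

lemma bx_π (b : D.B) (x : ℝ) :
    β.Bx b x * β.π (D.cw (Sum.inr (D.root b))) = β.π (D.cw (Sum.inl b)) * β.Bx b x := by
  unfold Br.Bx
  rw [mul_assoc, tv_comm_π, ← mul_assoc, mul_assoc (β.tv _ _) (β.B0 b), B0_π, ← mul_assoc,
    tv_comm_π, mul_assoc, mul_assoc, mul_assoc]

lemma bx_T (b : D.B) (x : ℝ) :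
    β.T * β.Bx b x * β.T⁻¹ = β.Bx b x * β.π (D.cw (Sum.inr (D.root b))) ^ m b := by
  have h1 : Commute (β.tv (Sum.inr (D.root b)) (lamb b * x))
      (β.π (D.cw (Sum.inr (D.root b))) ^ m b) :=
    (show Commute _ _ from tv_comm_π β (Sum.inr (D.root b)) (lamb b * x)).zpow_right _
  have h2 := B0_T β b
  have h3 := tv_comm_T β (Sum.inl b) (lamb b * x)
  have h4 := tv_comm_T β (Sum.inr (D.root b)) (lamb b * x)
  unfold Br.Bx
  obtain ⟨p, hp⟩ : ∃ p, p = β.tv (Sum.inl b) (lamb b * x) := ⟨_, rfl⟩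
  obtain ⟨q, hq⟩ : ∃ q, q = β.tv (Sum.inr (D.root b)) (lamb b * x) := ⟨_, rfl⟩
  obtain ⟨r, hr⟩ : ∃ r, r = β.π (D.cw (Sum.inr (D.root b))) ^ m b := ⟨_, rfl⟩
  rw [← hp] at h3
  rw [← hq] at h4 h1
  rw [← hr] at h2 h1
  rw [← hp, ← hq, ← hr]
  rw [mul_inv_eq_iff_eq_mul]
  calc β.T * (p * β.B0 b * q) = (β.T * p) * β.B0 b * q := by group
    _ = (p * β.T) * β.B0 b * q := by rw [h3]
    _ = p * (β.T * β.B0 b) * q := by group
    _ = p * (β.B0 b * (r * β.T)) * q := by rw [h2]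
    _ = p * β.B0 b * r * (β.T * q) := by group
    _ = p * β.B0 b * r * (q * β.T) := by rw [h4]
    _ = p * β.B0 b * (r * q) * β.T := by group
    _ = p * β.B0 b * (q * r) * β.T := by rw [h1.eq]
    _ = p * β.B0 b * q * r * β.T := by group

/-- the representation of the big free group -/
noncomputable def Br.Θ (x : ℝ) : D.F →* (β.V ≃ₗ[ℝ] β.V) :=
  FreeGroup.lift (Sum.elim (fun y => β.π (FreeGroup.of (Sum.inl y))) (fun b => β.Bx b x))

lemma theta_inl (x : ℝ) (y : D.X) : β.Θ x (FreeGroup.of (Sum.inl y)) = β.π (FreeGroup.of (Sum.inl y)) := by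
  simp [Br.Θ]

lemma theta_inr (x : ℝ) (b : D.B) : β.Θ x (FreeGroup.of (Sum.inr b)) = β.Bx b x := by
  simp [Br.Θ]

theorem theta_psi (x : ℝ) (l : D.F) : β.Θ x (D.psi l) = β.π l := by
  have key : (β.Θ x).comp D.psi = β.π := by
    refine hom_unique D _ _ (fun y => ?_) fun b hb => ?_
    · rw [MonoidHom.comp_apply, psi_inl, theta_inl]
    · rw [MonoidHom.comp_apply] at hb
      rw [MonoidHom.comp_apply, psi_inr, map_mul, map_mul, map_inv, hb, theta_inr, bx_π, cw_inl,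
        mul_inv_cancel_right]
  exact DFunLike.congr_fun key l

theorem theta_phi (x : ℝ) (w : D.F) : β.Θ x (D.phi m w) = β.T * β.Θ x w * β.T⁻¹ := by
  have key : (β.Θ x).comp (D.phi m).toMonoidHom =
      (MulAut.conj β.T).toMonoidHom.comp (β.Θ x) := by
    refine FreeGroup.ext_hom _ _ ?_
    rintro (y | b)
    · show β.Θ x (D.phi m (FreeGroup.of (Sum.inl y))) = β.T * β.Θ x (FreeGroup.of (Sum.inl y)) * β.T⁻¹
      rw [phi_inl, theta_inl, eq_mul_inv_iff_mul_eq]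
      exact LinearEquiv.ext fun v => (β.hT _ v).symm
    · show β.Θ x (D.phi m (FreeGroup.of (Sum.inr b))) = β.T * β.Θ x (FreeGroup.of (Sum.inr b)) * β.T⁻¹
      rw [phi_inr, map_mul, map_zpow, theta_inr, bx_T]
      unfold NDW.rr
      rw [theta_psi]
  exact DFunLike.congr_fun key w

end Pool.Agent.Helper53.LG
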