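import Pool.Agent.Helper53.LG.Cells

/-!
# LG-32: closing a family of formal cochains upwards

`up_step`: from rank `< r` to rank `< r + 1`. For `b` with `rk b = r` and `v ∈ cellsL (inr (root b)) Z` let `w = nuinv (m b) v` (`≠ 0`, as
`v ≠ 0`: `cells_ne_zero`), `x = d (inl b) * w`, and let `zz b v = single (inr b) x` if `w` is irrational, otherwise
`zz b v = double (inl b) (x - √2) √2` (`x ≠ √2`, `x ≠ 0`). `Z'` is the list of all `zz b v` (`b` of rank `r`, `v` in the multiset, with
multiplicity).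
* `cells (inl b) (zz b v) = {w}`: the word `inl b` has period `1` and the only letter `(inr b, true)` (`nB`, `wB`), so
  `sgl (inr b) x (inl b) = {x / d}`; for `double`: `({…} - {…}) + ({…} - {…}) + {x / d}`.
* `cells i (zz b v)` for `i ≠ inl b`, is a multiset of values `± x / d i` resp. `± (x - √2) / d i`, `± √2 / d i`, irrational; it is `0` if the
  word `i` does not contain the letter `inr b`, in particular for `i = inl b'`, `b' ≠ b`, and for `i = inr (root b')` with `rk b' ≤ r` (`low`:
  the letters `inr b''` of the word of `root b'` have `rk b'' < rk b' ≤ r`).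
* So for `b'` with `rk b' < r` the cells of `inl b'`, `inr (root b')` are not changed by `Z'`; for `b` with `rk b = r`: the cells
  of `inl b` in `Z` are `0` (the letters of `Z` have level `≤ r`, `lrk (inr b) = r + 1`; `cells_zero`), those in `Z'` are
  `(cellsL (inr (root b)) Z).map (nuinv (m b))`, the cells of `inr (root b)` in `Z'` are `0`. So `ClosedBelow (r + 1)`.
* `w` is irrational iff `v` is (`nuinv` is a rational Moebius transformation; `v` irrational implies `v ≠ -1 / m`).

`cells_zero`: if the letter of `z` does not occur in the word `i` then `cells i z = 0` (for `double j`: `j ≠ i`, since the first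
letter of the word `j` occurs in it).

`up_iter`: induction on `r' - r` with `up_step` (`Z ++ Z'` satisfies the hypotheses for `r + 1`; if `Z` has irrational root cells, so
has `Z ++ Z'`).
-/

namespace Pool.Agent.Helper53.LG

/-! ### elementary facts -/

section Aux

variable {Y I : Type} (S : WSys Y I) (d : I → ℕ)

lemma us_sg_cases (l : Lt Y) : sg l = 1 ∨ sg l = -1 := by
  unfold sg
  by_cases h : l.2 = true
  · left; simp [h]
  · right; simp [h]

lemma us_sg_ne (l : Lt Y) : sg l ≠ 0 := by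
  rcases us_sg_cases l with h | h <;> rw [h] <;> norm_num

lemma us_mem_sgl (y : Y) (x : ℝ) (i : I) (v : ℝ) (hv : v ∈ sgl S d y x i) :
    ∃ l : Lt Y, v = sg l * x / d i := by
  unfold sgl at hv
  rw [Multiset.mem_map] at hv
  obtain ⟨κ, -, h⟩ := hv
  exact ⟨_, h.symm⟩

lemma us_sgl_zero (y : Y) (x : ℝ) (i : I) (h : ∀ k : ℤ, (S.w i k).1 ≠ y) : sgl S d y x i = 0 := by
  classical
  unfold sgl
  have : ((Finset.range (S.n i)).filter fun κ : ℕ => (S.w i κ).1 = y) = ∅ := by
    apply Finset.filter_eq_empty_iff.2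
    intro κ _
    exact h κ
  have h2 : ((Finset.range (S.n i)).filter fun κ : ℕ => (S.w i κ).1 = y).val = 0 := by
    rw [this]; rfl
  convert Multiset.map_zero _ using 2

open scoped Classical in
lemma us_cells_double (i j : I) (x x' : ℝ) : cells S d i (FCo.double j x x') =
    if j = i then
      (sgl S d (S.w i 0).1 x i - {sg (S.w i 0) * x / d i}) + (sgl S d (S.w i 0).1 x' i - {sg (S.w i 0) * x' / d i})
        + {sg (S.w i 0) * (x + x') / d i}
    else sgl S d (S.w j 0).1 x i + sgl S d (S.w j 0).1 x' i := rfl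

lemma us_cells_single (i : I) (y : Y) (x : ℝ) : cells S d i (FCo.single y x) = sgl S d y x i := rfl

lemma us_mem_cells (i : I) (z : FCo Y I) (v : ℝ) (hv : v ∈ cells S d i z) :
    (∃ (y : Y) (x : ℝ) (l : Lt Y), z = FCo.single y x ∧ v = sg l * x / d i) ∨
    (∃ (j : I) (x x' : ℝ) (l : Lt Y), z = FCo.double j x x' ∧ (v = sg l * x / d i ∨ v = sg l * x' / d i ∨
      (j = i ∧ v = sg l * (x + x') / d i))) := by
  classical
  cases z with
  | single y x =>
    left
    obtain ⟨l, hl⟩ := us_mem_sgl S d y x i v hv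
    exact ⟨y, x, l, rfl, hl⟩
  | double j x x' =>
    right
    rw [us_cells_double] at hv
    by_cases hji : j = i
    · rw [if_pos hji] at hv
      rcases Multiset.mem_add.1 hv with hv | hv
      · rcases Multiset.mem_add.1 hv with hv | hv
        · have := Multiset.mem_of_le (tsub_le_self) hv
          obtain ⟨l, hl⟩ := us_mem_sgl S d _ x i v this
          exact ⟨j, x, x', l, rfl, Or.inl hl⟩
        · have := Multiset.mem_of_le (tsub_le_self) hv
          obtain ⟨l, hl⟩ := us_mem_sgl S d _ x' i v this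
          exact ⟨j, x, x', l, rfl, Or.inr (Or.inl hl)⟩
      · rw [Multiset.mem_singleton] at hv
        exact ⟨j, x, x', _, rfl, Or.inr (Or.inr ⟨hji, hv⟩)⟩
    · rw [if_neg hji] at hv
      rcases Multiset.mem_add.1 hv with hv | hv
      · obtain ⟨l, hl⟩ := us_mem_sgl S d _ x i v hv
        exact ⟨j, x, x', l, rfl, Or.inl hl⟩
      · obtain ⟨l, hl⟩ := us_mem_sgl S d _ x' i v hv
        exact ⟨j, x, x', l, rfl, Or.inr (Or.inl hl)⟩

lemma us_mem_cellsL (i : I) (Z : List (FCo Y I)) (v : ℝ) :
    v ∈ cellsL S d i Z ↔ ∃ z ∈ Z, v ∈ cells S d i z := by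
  induction Z with
  | nil => simp [cellsL]
  | cons z Z ih =>
    rw [cellsL_cons, Multiset.mem_add, ih]
    simp

lemma us_cellsL_zero (i : I) (Z : List (FCo Y I)) (h : ∀ z ∈ Z, cells S d i z = 0) :
    cellsL S d i Z = 0 := by
  induction Z with
  | nil => simp [cellsL]
  | cons z Z ih =>
    rw [cellsL_cons, h z (by simp), ih (fun z hz => h z (by simp [hz]))]
    simp

lemma us_irr_div (l : Lt Y) (x : ℝ) (n : ℕ) (hn : 0 < n) (hx : Irrational x) :
    Irrational (sg l * x / n) := by
  have h1 : Irrational (x / n) := by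
    exact hx.div_natCast (by omega)
  rcases us_sg_cases l with h | h
  · rw [h, one_mul]; exact h1
  · rw [h, neg_one_mul, neg_div]; exact h1.neg

end Aux

lemma cells_ne_zero {Y I : Type} (S : WSys Y I) (d : I → ℕ) (hd : ∀ i, 0 < d i) (i : I) (z : FCo Y I)
    (hz : FVal z) (v : ℝ) (hv : v ∈ cells S d i z) : v ≠ 0 := by
  have hdi : (d i : ℝ) ≠ 0 := by
    have := hd i
    positivity
  rcases us_mem_cells S d i z v hv with ⟨y, x, l, hz', h⟩ | ⟨j, x, x', l, hz', h⟩
  · subst hz'
    have hx : x ≠ 0 := hz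
    rw [h]
    exact div_ne_zero (mul_ne_zero (us_sg_ne l) hx) hdi
  · subst hz'
    obtain ⟨hx, hx', hxx⟩ := hz
    rcases h with h | h | ⟨-, h⟩
    · rw [h]; exact div_ne_zero (mul_ne_zero (us_sg_ne l) hx) hdi
    · rw [h]; exact div_ne_zero (mul_ne_zero (us_sg_ne l) hx') hdi
    · rw [h]; exact div_ne_zero (mul_ne_zero (us_sg_ne l) hxx) hdi

lemma cells_zero {Y I : Type} (S : WSys Y I) (d : I → ℕ) (i : I) (z : FCo Y I)
    (h : ∀ k : ℤ, (S.w i k).1 ≠ ltr S z) : cells S d i z = 0 := by
  classical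
  cases z with
  | single y x =>
    rw [us_cells_single]
    exact us_sgl_zero S d y x i h
  | double j x x' =>
    have hji : j ≠ i := by
      intro hji
      apply h 0
      subst hji
      rfl
    rw [us_cells_double, if_neg hji]
    have e1 : sgl S d (S.w j 0).1 x i = 0 := us_sgl_zero S d _ x i h
    have e2 : sgl S d (S.w j 0).1 x' i = 0 := us_sgl_zero S d _ x' i h
    rw [e1, e2]
    simp

lemma us_nuinv_irr_eq (m : ℤ) (v : ℝ) (hv : Irrational v) : nuinv m v = v / (1 + m * v) := by
  unfold nuinv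
  rw [if_neg]
  intro h
  apply hv
  refine ⟨-1 / m, ?_⟩
  rw [h]
  push_cast
  rfl

lemma nuinv_irr (m : ℤ) (hm : m ≠ 0) (v : ℝ) (hv : Irrational v) : Irrational (nuinv m v) := by
  rw [us_nuinv_irr_eq m v hv]
  have hm' : (m : ℝ) ≠ 0 := by exact_mod_cast hm
  have h1 : (1 + m * v : ℝ) ≠ 0 := by
    intro h
    apply hv
    refine ⟨-1 / m, ?_⟩
    push_cast
    field_simp
    linarith
  rintro ⟨q, hq⟩
  apply hv
  have h2 : (q : ℝ) * (1 + m * v) = v := by
    rw [hq, div_mul_cancel₀ _ h1]
  have h3 : v * (1 - m * q) = q := by linarith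
  have h4 : (1 - m * q : ℝ) ≠ 0 := by
    intro h4
    rw [h4, mul_zero] at h3
    rw [← h3] at h4
    simp at h4
  refine ⟨q / (1 - m * q), ?_⟩
  push_cast
  rw [div_eq_iff h4]
  exact h3.symm

lemma us_nuinv_ne (m : ℤ) (hm : m ≠ 0) (v : ℝ) (hv : v ≠ 0) : nuinv m v ≠ 0 := by
  have hm' : (m : ℝ) ≠ 0 := by exact_mod_cast hm
  unfold nuinv
  split_ifs with h
  · exact one_div_ne_zero hm'
  · apply div_ne_zero hv
    intro h2
    apply h
    field_simp
    linarith

variable (D : NDW) (m : D.B → ℤ) (hm : ∀ b, m b ≠ 0) (d : D.B ⊕ D.R → ℕ) (hd : ∀ i, 0 < d i)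

open scoped Classical in
/-- the new cochain of `b` and the value `v` -/
noncomputable def uszz (b : D.B) (v : ℝ) : FCo (D.X ⊕ D.B) (D.B ⊕ D.R) :=
  if Irrational (nuinv (m b) v) then FCo.single (Sum.inr b) (d (Sum.inl b) * nuinv (m b) v)
  else FCo.double (Sum.inl b) (d (Sum.inl b) * nuinv (m b) v - √2) (√2)

lemma us_ltr (b : D.B) (v : ℝ) : ltr D.S (uszz D m d b v) = Sum.inr b := by
  classical
  unfold uszz
  split_ifs with h
  · rfl
  · show (D.S.w (Sum.inl b) 0).1 = Sum.inr b
    rw [D.wB]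

lemma us_sgl_self (b : D.B) (x : ℝ) :
    sgl D.S d (Sum.inr b) x (Sum.inl b) = {x / d (Sum.inl b)} := by
  classical
  unfold sgl
  have h1 : ((Finset.range (D.S.n (Sum.inl b))).filter
      fun κ : ℕ => (D.S.w (Sum.inl b) κ).1 = Sum.inr b) = {0} := by
    rw [D.nB]
    ext κ
    simp [D.wB]
  have h2 : ((Finset.range (D.S.n (Sum.inl b))).filter
      fun κ : ℕ => (D.S.w (Sum.inl b) κ).1 = Sum.inr b).val = {0} := by
    rw [h1]; rfl
  have h3 : ∀ κ : ℕ, sg (D.S.w (Sum.inl b) κ) * x / d (Sum.inl b) = x / d (Sum.inl b) := by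
    intro κ
    rw [D.wB]
    simp [sg]
  have h4 : (Multiset.map (fun κ : ℕ => sg (D.S.w (Sum.inl b) κ) * x / d (Sum.inl b))
      ((Finset.range (D.S.n (Sum.inl b))).filter
        fun κ : ℕ => (D.S.w (Sum.inl b) κ).1 = Sum.inr b).val) = {x / d (Sum.inl b)} := by
    rw [h2, Multiset.map_singleton, h3]
  convert h4

include hd in
lemma us_cells_self (b : D.B) (v : ℝ) :
    cells D.S d (Sum.inl b) (uszz D m d b v) = {nuinv (m b) v} := by
  classical
  have hdi : (d (Sum.inl b) : ℝ) ≠ 0 := by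
    have := hd (Sum.inl b)
    positivity
  have hw : (D.S.w (Sum.inl b) 0) = (Sum.inr b, true) := D.wB b 0
  unfold uszz
  split_ifs with h
  · show sgl D.S d (Sum.inr b) _ (Sum.inl b) = _
    rw [us_sgl_self]
    congr 1
    field_simp
  · rw [us_cells_double, if_pos rfl, hw]
    dsimp only
    rw [us_sgl_self, us_sgl_self]
    have hs : sg ((Sum.inr b, true) : Lt (D.X ⊕ D.B)) = 1 := by simp [sg]
    rw [hs, one_mul, one_mul, one_mul]
    rw [tsub_self, tsub_self, zero_add, zero_add]
    congr 1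
    field_simp
    ring

lemma us_cells_other (b b' : D.B) (hb : b' ≠ b) (v : ℝ) :
    cells D.S d (Sum.inl b') (uszz D m d b v) = 0 := by
  apply cells_zero
  intro k
  rw [us_ltr, D.wB]
  intro h
  exact hb (Sum.inr_injective h)

lemma us_cells_root (b b' : D.B) (hb : D.rk b' ≤ D.rk b) (v : ℝ) :
    cells D.S d (Sum.inr (D.root b')) (uszz D m d b v) = 0 := by
  apply cells_zero
  intro k
  rw [us_ltr]
  intro h
  have := D.low b' b k h
  omega

lemma us_irr_sub (x : ℝ) (hx : ¬ Irrational x) (n : ℕ) : Irrational (n * x - √2) := by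
  unfold Irrational at hx
  rw [not_not] at hx
  obtain ⟨q, hq⟩ := hx
  rw [← hq]
  have : ((n : ℝ) * (q : ℝ) - √2) = (((n : ℚ) * q : ℚ) : ℝ) - √2 := by push_cast; ring
  rw [this]
  exact irrational_sqrt_two.ratCast_sub _

include hm hd in
lemma us_fval (b : D.B) (v : ℝ) (hv : v ≠ 0) : FVal (uszz D m d b v) := by
  classical
  have hdi : (d (Sum.inl b) : ℝ) ≠ 0 := by
    have := hd (Sum.inl b)
    positivity
  have hw := us_nuinv_ne (m b) (hm b) v hv
  unfold uszz
  split_ifs with h
  · exact mul_ne_zero hdi hw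
  · refine ⟨?_, ?_, ?_⟩
    · exact (us_irr_sub _ h _).ne_zero
    · exact irrational_sqrt_two.ne_zero
    · rw [sub_add_cancel]
      exact mul_ne_zero hdi hw

include hd in
lemma us_root_irr (b : D.B) (v : ℝ) (ρ : D.R) (u : ℝ)
    (hu : u ∈ cells D.S d (Sum.inr ρ) (uszz D m d b v)) : Irrational u := by
  classical
  have key := us_mem_cells D.S d _ _ u hu
  unfold uszz at key
  split_ifs at key with h
  · have hx : Irrational ((d (Sum.inl b) : ℝ) * nuinv (m b) v) := h.natCast_mul (by
      have := hd (Sum.inl b)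
      omega)
    rcases key with ⟨y, x, l, h1, h2⟩ | ⟨j, x, x', l, h1, h2⟩
    · injection h1 with h3 h4
      rw [h2, ← h4]
      exact us_irr_div l _ _ (hd _) hx
    · exact absurd h1 (by simp)
  · rcases key with ⟨y, x, l, h1, h2⟩ | ⟨j, x, x', l, h1, h2⟩
    · exact absurd h1 (by simp)
    · injection h1 with h3 h4 h5
      rcases h2 with h2 | h2 | ⟨h2, -⟩
      · rw [h2, ← h4]
        exact us_irr_div l _ _ (hd _) (us_irr_sub _ h _)
      · rw [h2, ← h5]
        exact us_irr_div l _ _ (hd _) irrational_sqrt_two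
      · exact absurd (h3.trans h2) (by simp)

lemma us_cellsL_flatMap {Y I β : Type} (S : WSys Y I) (d : I → ℕ) (i : I) (l : List β)
    (f : β → List (FCo Y I)) :
    cellsL S d i (l.flatMap f) = (l.map fun b => cellsL S d i (f b)).sum := by
  induction l with
  | nil => simp [cellsL]
  | cons b l ih =>
    rw [List.flatMap_cons, cellsL_append, ih, List.map_cons, List.sum_cons]

lemma us_cellsL_toList {Y I : Type} (S : WSys Y I) (d : I → ℕ) (i : I) (M : Multiset ℝ)
    (f : ℝ → FCo Y I) (g : ℝ → ℝ) (h : ∀ v, cells S d i (f v) = {g v}) :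
    cellsL S d i (M.toList.map f) = M.map g := by
  have h1 : cellsL S d i (M.toList.map f) = (M.toList.map fun v => ({g v} : Multiset ℝ)).sum := by
    unfold cellsL
    rw [List.map_map]
    congr 1
    apply List.map_congr_left
    intro v _
    exact h v
  rw [h1, ← Multiset.sum_coe, ← Multiset.map_coe, Multiset.coe_toList]
  have h2 : (Multiset.map (fun v => ({g v} : Multiset ℝ)) M) = (M.map g).map (fun a => ({a} : Multiset ℝ)) := by
    rw [Multiset.map_map]; rfl
  rw [h2, Multiset.sum_map_singleton]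

include hm hd in
theorem up_step (r : ℕ) (Z : List (FCo (D.X ⊕ D.B) (D.B ⊕ D.R))) (h1 : ∀ z ∈ Z, D.lrk (ltr D.S z) ≤ r)
    (h2 : ∀ z ∈ Z, FVal z) (h3 : ClosedBelow D m d r Z) :
    ∃ Z' : List (FCo (D.X ⊕ D.B) (D.B ⊕ D.R)), (∀ z ∈ Z', D.lrk (ltr D.S z) = r + 1) ∧ (∀ z ∈ Z', FVal z) ∧
      ClosedBelow D m d (r + 1) (Z ++ Z') ∧ RootIrr D d Z' ∧ (RootIrr D d Z → ∀ z ∈ Z', FIrr z) ∧
      ∀ b v, D.rk b = r → v ∈ cellsL D.S d (Sum.inr (D.root b)) Z → Irrational v →
        FCo.single (Sum.inr b) (d (Sum.inl b) * nuinv (m b) v) ∈ Z' := by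
  classical
  set s : Finset D.B := Finset.univ.filter (fun b => D.rk b = r) with hs
  set f : D.B → List (FCo (D.X ⊕ D.B) (D.B ⊕ D.R)) := fun b =>
    (cellsL D.S d (Sum.inr (D.root b)) Z).toList.map (uszz D m d b) with hf
  have hmem : ∀ z, z ∈ s.toList.flatMap f ↔
      ∃ b v, D.rk b = r ∧ v ∈ cellsL D.S d (Sum.inr (D.root b)) Z ∧ uszz D m d b v = z := by
    intro z
    rw [List.mem_flatMap]
    constructor
    · rintro ⟨b, hb, hz⟩
      rw [Finset.mem_toList, hs, Finset.mem_filter] at hb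
      rw [hf, List.mem_map] at hz
      obtain ⟨v, hv, hvz⟩ := hz
      exact ⟨b, v, hb.2, Multiset.mem_toList.1 hv, hvz⟩
    · rintro ⟨b, v, hb, hv, hvz⟩
      refine ⟨b, ?_, ?_⟩
      · rw [Finset.mem_toList, hs, Finset.mem_filter]
        exact ⟨Finset.mem_univ _, hb⟩
      · rw [hf, List.mem_map]
        exact ⟨v, Multiset.mem_toList.2 hv, hvz⟩
  have hvne : ∀ i v, v ∈ cellsL D.S d i Z → v ≠ 0 := by
    intro i v hv
    obtain ⟨z, hz, hzv⟩ := (us_mem_cellsL D.S d i Z v).1 hv
    exact cells_ne_zero D.S d hd i z (h2 z hz) v hzv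
  refine ⟨s.toList.flatMap f, ?_, ?_, ?_, ?_, ?_, ?_⟩
  · intro z hz
    obtain ⟨b, v, hb, hv, rfl⟩ := (hmem z).1 hz
    rw [us_ltr]
    show D.rk b + 1 = r + 1
    rw [hb]
  · intro z hz
    obtain ⟨b, v, hb, hv, rfl⟩ := (hmem z).1 hz
    exact us_fval D m hm d hd b v (hvne _ v hv)
  · intro b' hb'
    have hroot : cellsL D.S d (Sum.inr (D.root b')) (s.toList.flatMap f) = 0 := by
      apply us_cellsL_zero
      intro z hz
      obtain ⟨b, v, hb, hv, rfl⟩ := (hmem z).1 hz
      exact us_cells_root D m d b b' (by omega) v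
    rw [cellsL_append, cellsL_append, hroot, add_zero]
    rcases Nat.lt_succ_iff_lt_or_eq.1 hb' with hlt | heq
    · have hinl : cellsL D.S d (Sum.inl b') (s.toList.flatMap f) = 0 := by
        apply us_cellsL_zero
        intro z hz
        obtain ⟨b, v, hb, hv, rfl⟩ := (hmem z).1 hz
        exact us_cells_other D m d b b' (by rintro rfl; omega) v
      rw [hinl, add_zero]
      exact h3 b' hlt
    · have hZ : cellsL D.S d (Sum.inl b') Z = 0 := by
        apply us_cellsL_zero
        intro z hz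
        apply cells_zero
        intro k
        rw [D.wB]
        intro h
        have := h1 z hz
        rw [← h] at this
        have h4 : D.rk b' + 1 ≤ r := this
        omega
      rw [hZ, zero_add, us_cellsL_flatMap, Finset.sum_map_toList]
      rw [Finset.sum_eq_single b']
      · exact us_cellsL_toList D.S d _ _ _ _ (us_cells_self D m d hd b')
      · intro b _ hbb
        rw [hf]
        apply us_cellsL_zero
        intro z hz
        rw [List.mem_map] at hz
        obtain ⟨v, -, rfl⟩ := hz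
        exact us_cells_other D m d b b' (fun h => hbb h.symm) v
      · intro hnot
        exact absurd (by rw [hs, Finset.mem_filter]; exact ⟨Finset.mem_univ _, heq⟩) hnot
  · intro ρ v hv
    obtain ⟨z, hz, hzv⟩ := (us_mem_cellsL D.S d _ _ v).1 hv
    obtain ⟨b, v', hb, hv', rfl⟩ := (hmem z).1 hz
    exact us_root_irr D m d hd b v' ρ v hzv
  · intro hZ z hz
    obtain ⟨b, v, hb, hv, rfl⟩ := (hmem z).1 hz
    have hirr := nuinv_irr (m b) (hm b) v (hZ _ v hv)
    refine ⟨Sum.inr b, d (Sum.inl b) * nuinv (m b) v, ?_, ?_⟩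
    · unfold uszz
      rw [if_pos hirr]
    · exact hirr.natCast_mul (by have := hd (Sum.inl b); omega)
  · intro b v hb hv hirr
    have hirr' := nuinv_irr (m b) (hm b) v hirr
    apply (hmem _).2
    refine ⟨b, v, hb, hv, ?_⟩
    unfold uszz
    rw [if_pos hirr']

include hm hd in
theorem up_iter (r r' : ℕ) (hr : r ≤ r') (Z : List (FCo (D.X ⊕ D.B) (D.B ⊕ D.R)))
    (h1 : ∀ z ∈ Z, D.lrk (ltr D.S z) ≤ r) (h2 : ∀ z ∈ Z, FVal z) (h3 : ClosedBelow D m d r Z) :
    ∃ Z' : List (FCo (D.X ⊕ D.B) (D.B ⊕ D.R)), (∀ z ∈ Z', D.lrk (ltr D.S z) ≤ r') ∧ (∀ z ∈ Z', FVal z) ∧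
      ClosedBelow D m d r' (Z ++ Z') ∧ RootIrr D d Z' ∧ (RootIrr D d Z → ∀ z ∈ Z', FIrr z) := by
  induction r', hr using Nat.le_induction with
  | base =>
    refine ⟨[], ?_, ?_, ?_, ?_, ?_⟩
    · intro z hz; simp at hz
    · intro z hz; simp at hz
    · rw [List.append_nil]; exact h3
    · intro ρ v hv
      simp [cellsL] at hv
    · intro _ z hz; simp at hz
  | succ r' hr' ih =>
    obtain ⟨Z1, g1, g2, g3, g4, g5⟩ := ih
    obtain ⟨Z2, k1, k2, k3, k4, k5, -⟩ := up_step D m hm d hd r' (Z ++ Z1)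
      (by
        intro z hz
        rcases List.mem_append.1 hz with h | h
        · exact (h1 z h).trans hr'
        · exact g1 z h)
      (by
        intro z hz
        rcases List.mem_append.1 hz with h | h
        · exact h2 z h
        · exact g2 z h) g3
    refine ⟨Z1 ++ Z2, ?_, ?_, ?_, ?_, ?_⟩
    · intro z hz
      rcases List.mem_append.1 hz with h | h
      · exact (g1 z h).trans (Nat.le_succ _)
      · exact (k1 z h).le
    · intro z hz
      rcases List.mem_append.1 hz with h | h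
      · exact g2 z h
      · exact k2 z h
    · rw [← List.append_assoc]; exact k3
    · intro ρ v hv
      rw [cellsL_append, Multiset.mem_add] at hv
      rcases hv with hv | hv
      · exact g4 ρ v hv
      · exact k4 ρ v hv
    · intro hZ z hz
      rcases List.mem_append.1 hz with h | h
      · exact g5 hZ z h
      · apply k5 _ z h
        intro ρ v hv
        rw [cellsL_append, Multiset.mem_add] at hv
        rcases hv with hv | hv
        · exact hZ ρ v hv
        · exact g4 ρ v hv

end Pool.Agent.Helper53.LG
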